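import Mathlib

set_option autoImplicit false
open MeasureTheory Set Filter Topology
open scoped ContDiff

namespace Pool.Agent.R763.Bil

/-- the unit vector with argument `θ` -/
noncomputable def e (θ : ℝ) : ℂ := Complex.exp (θ * Complex.I)

theorem e_norm (θ : ℝ) : ‖e θ‖ = 1 := Complex.norm_exp_ofReal_mul_I θ

theorem e_re (θ : ℝ) : (e θ).re = Real.cos θ := by rw [e, Complex.exp_ofReal_mul_I_re]
theorem e_im (θ : ℝ) : (e θ).im = Real.sin θ := by rw [e, Complex.exp_ofReal_mul_I_im]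

theorem e_add (a b : ℝ) : e (a + b) = e a * e b := by
  rw [e, e, e, ← Complex.exp_add]; congr 1; push_cast; ring

theorem e_zero : e 0 = 1 := by rw [e]; simp

theorem e_two_pi : e (2 * Real.pi) = 1 := by
  rw [e]; push_cast; exact Complex.exp_two_pi_mul_I

theorem e_add_two_pi (θ : ℝ) : e (θ + 2 * Real.pi) = e θ := by rw [e_add, e_two_pi, mul_one]

theorem e_ne_zero (θ : ℝ) : e θ ≠ 0 := Complex.exp_ne_zero _

theorem e_contDiff : ContDiff ℝ ∞ e := by
  unfold e
  exact (((Complex.ofRealCLM.contDiff).mul contDiff_const).cexp)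

theorem e_hasDerivAt (θ : ℝ) : HasDerivAt e (Complex.I * e θ) θ := by
  have h1 : HasDerivAt (fun θ : ℝ => (θ : ℂ) * Complex.I) (1 * Complex.I) θ :=
    (Complex.ofRealCLM.hasDerivAt).mul_const Complex.I
  have h2 := h1.cexp
  rw [one_mul] at h2
  have h3 : HasDerivAt e (Complex.exp (θ * Complex.I) * Complex.I) θ := h2
  rw [mul_comm] at h3
  exact h3

theorem e_continuous : Continuous e := e_contDiff.continuous

/-- `⟨x, n⟩` for the outer normal `n = -i e(φ)` -/
noncomputable def pn (φ : ℝ) (x : ℂ) : ℝ := x.re * Real.sin φ - x.im * Real.cos φ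

theorem pn_e (φ ψ : ℝ) : pn φ (e ψ) = Real.sin (φ - ψ) := by
  rw [pn, e_re, e_im, Real.sin_sub]; ring

theorem pn_add (φ : ℝ) (x y : ℂ) : pn φ (x + y) = pn φ x + pn φ y := by
  simp only [pn, Complex.add_re, Complex.add_im]; ring
theorem pn_sub (φ : ℝ) (x y : ℂ) : pn φ (x - y) = pn φ x - pn φ y := by
  simp only [pn, Complex.sub_re, Complex.sub_im]; ring
theorem pn_smul (φ r : ℝ) (x : ℂ) : pn φ (r • x) = r * pn φ x := by
  simp only [pn, Complex.real_smul, Complex.mul_re, Complex.mul_im, Complex.ofReal_re,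
    Complex.ofReal_im]; ring

/-! ### a family of inverse functions -/

theorem exists_inverse {G : ℝ × ℝ → ℝ} (hG : ContDiff ℝ ∞ G)
    (hpos : ∀ s φ, 0 < deriv (fun φ => G (s, φ)) φ) (hsurj : ∀ s q, ∃ φ, G (s, φ) = q) :
    ∃ Φ : ℝ × ℝ → ℝ, ContDiff ℝ ∞ Φ ∧ (∀ s q, G (s, Φ (s, q)) = q) ∧ ∀ s φ, Φ (s, G (s, φ)) = φ := by
  set Ψ : ℝ × ℝ → ℝ × ℝ := fun z => (z.1, G z) with hΨ
  have hmono : ∀ s, StrictMono (fun φ => G (s, φ)) := fun s => strictMono_of_deriv_pos (hpos s)
  have hbij : Function.Bijective Ψ := by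
    constructor
    · rintro ⟨s, φ⟩ ⟨s', φ'⟩ h
      have h1 : s = s' := congrArg Prod.fst h
      have h2 : G (s, φ) = G (s', φ') := congrArg Prod.snd h
      subst h1
      rw [(hmono s).injective h2]
    · rintro ⟨s, q⟩
      obtain ⟨φ, hφ⟩ := hsurj s q
      exact ⟨(s, φ), by rw [hΨ]; simp only; rw [hφ]⟩
  have hΨs : ContDiff ℝ ∞ Ψ := contDiff_fst.prodMk hG
  have hGd : Differentiable ℝ G := hG.differentiable (by simp)
  have hB : ∀ z : ℝ × ℝ, 0 < fderiv ℝ G z (0, 1) := by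
    rintro ⟨s, φ⟩
    have h1 : HasDerivAt (fun φ : ℝ => ((s, φ) : ℝ × ℝ)) (0, 1) φ :=
      (hasDerivAt_const φ s).prodMk (hasDerivAt_id φ)
    have h2 := (hGd (s, φ)).hasFDerivAt.comp_hasDerivAt φ h1
    have h3 := hpos s φ
    have h4 : deriv (fun φ => G (s, φ)) φ = fderiv ℝ G (s, φ) (0, 1) := h2.deriv
    rw [← h4]; exact h3
  -- the derivative as an equivalence
  set A : ∀ z : ℝ × ℝ, (ℝ × ℝ) →L[ℝ] ℝ × ℝ := fun z => (ContinuousLinearMap.fst ℝ ℝ ℝ).prod (fderiv ℝ G z)
  have hder : ∀ z, HasStrictFDerivAt Ψ (A z) z := by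
    intro z
    exact hasStrictFDerivAt_fst.prodMk (hG.contDiffAt.hasStrictFDerivAt (by simp))
  have hinv : ∀ z, ∃ E : (ℝ × ℝ) ≃L[ℝ] ℝ × ℝ, (E : (ℝ × ℝ) →L[ℝ] ℝ × ℝ) = A z := by
    intro z
    have hb := (hB z).ne'
    set b := fderiv ℝ G z (0, 1) with hbdef
    set a := fderiv ℝ G z (1, 0) with hadef
    have hlin : ∀ x y : ℝ, fderiv ℝ G z (x, y) = x * a + y * b := by
      intro x y
      have : ((x, y) : ℝ × ℝ) = x • (1, 0) + y • (0, 1) := by simp
      rw [this, map_add, map_smul, map_smul, smul_eq_mul, smul_eq_mul]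
    refine ⟨ContinuousLinearEquiv.equivOfInverse (A z)
      ((ContinuousLinearMap.fst ℝ ℝ ℝ).prod (b⁻¹ • (ContinuousLinearMap.snd ℝ ℝ ℝ -
        a • ContinuousLinearMap.fst ℝ ℝ ℝ))) ?_ ?_, ?_⟩
    · rintro ⟨x, y⟩
      simp only [A, ContinuousLinearMap.prod_apply, ContinuousLinearMap.coe_fst', hlin,
        smul_apply, sub_apply, ContinuousLinearMap.coe_snd',
        smul_eq_mul]
      ext
      · rfl
      · simp only; field_simp; ring
    · rintro ⟨x, y⟩
      simp only [A, ContinuousLinearMap.prod_apply, ContinuousLinearMap.coe_fst', hlin,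
        smul_apply, sub_apply, ContinuousLinearMap.coe_snd',
        smul_eq_mul]
      ext
      · rfl
      · simp only; field_simp; ring
    · ext <;> rfl
  choose E hE using hinv
  have hopen : IsOpenMap Ψ := by
    apply isOpenMap_of_hasStrictFDerivAt_equiv (f' := E)
    intro z
    rw [hE]; exact hder z
  set H : (ℝ × ℝ) ≃ₜ (ℝ × ℝ) := (Equiv.ofBijective Ψ hbij).toHomeomorphOfContinuousOpen hΨs.continuous hopen
  have hHΨ : ∀ z, H z = Ψ z := fun z => rfl
  have hHsymm : ContDiff ℝ ∞ H.symm := by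
    apply H.contDiff_symm (f₀' := E)
    · intro z
      rw [hE]; exact (hder z).hasFDerivAt
    · exact hΨs
  refine ⟨fun z => (H.symm z).2, contDiff_snd.comp hHsymm, ?_, ?_⟩
  · intro s q
    have h1 : Ψ (H.symm (s, q)) = (s, q) := H.apply_symm_apply (s, q)
    have h2 : (H.symm (s, q)).1 = s := congrArg Prod.fst h1
    have h3 : G (H.symm (s, q)) = q := congrArg Prod.snd h1
    have h4 : ((s, (H.symm (s, q)).2) : ℝ × ℝ) = H.symm (s, q) := by
      ext
      · exact h2.symm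
      · rfl
    show G (s, (H.symm (s, q)).2) = q
    rw [h4, h3]
  · intro s φ
    show (H.symm (s, G (s, φ))).2 = φ
    have : H.symm (s, G (s, φ)) = (s, φ) := by
      rw [H.symm_apply_eq]; rfl
    rw [this]

/-! ### smooth data -/

/-- smooth closed curves of length one with positive curvature, given by the tangent angle -/
structure SD where
  L : ℝ → ℝ
  X : ℝ → ℂ
  hL : ContDiff ℝ ∞ L
  hX : ContDiff ℝ ∞ X
  pos : ∀ φ, 0 < deriv L φ
  Lper : ∀ φ, L (φ + 2 * Real.pi) = L φ + 1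
  Xper : ∀ φ, X (φ + 2 * Real.pi) = X φ
  der : ∀ φ, HasDerivAt X (deriv L φ • e φ) φ

namespace SD

theorem L_hasDerivAt (D : SD) (φ : ℝ) : HasDerivAt D.L (deriv D.L φ) φ :=
  ((D.hL.differentiable (by simp)) φ).hasDerivAt

theorem strictMono (D : SD) : StrictMono D.L := strictMono_of_deriv_pos D.pos

theorem L_nat (D : SD) (φ : ℝ) (n : ℕ) : D.L (φ + n * (2 * Real.pi)) = D.L φ + n := by
  induction n with
  | zero => simp
  | succ n ih =>
    have : φ + ((n + 1 : ℕ) : ℝ) * (2 * Real.pi) = (φ + n * (2 * Real.pi)) + 2 * Real.pi := by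
      push_cast; ring
    rw [this, D.Lper, ih]; push_cast; ring

theorem surj (D : SD) (q : ℝ) : ∃ φ, D.L φ = q := by
  obtain ⟨n, hn⟩ := exists_nat_gt |q - D.L 0|
  have h1 := abs_lt.1 hn
  have h2 := D.L_nat 0 n
  have h3 := D.L_nat (-(n * (2 * Real.pi))) n
  rw [neg_add_cancel] at h3
  rw [zero_add] at h2
  have hc : ContinuousOn D.L (Icc (-(n * (2 * Real.pi))) (n * (2 * Real.pi))) := D.hL.continuous.continuousOn
  have hle : -((n:ℝ) * (2 * Real.pi)) ≤ n * (2 * Real.pi) := by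
    have : 0 ≤ (n:ℝ) * (2 * Real.pi) := by positivity
    linarith
  obtain ⟨φ, _, hφ⟩ := intermediate_value_Icc hle hc (show q ∈ Icc _ _ from ⟨by linarith [h1.1], by linarith [h1.2]⟩)
  exact ⟨φ, hφ⟩

theorem exists_inv (D : SD) : ∃ I : ℝ → ℝ, ContDiff ℝ ∞ I ∧ (∀ q, D.L (I q) = q) ∧ ∀ φ, I (D.L φ) = φ := by
  obtain ⟨Φ, h1, h2, h3⟩ := exists_inverse (G := fun z : ℝ × ℝ => D.L z.2) (D.hL.comp contDiff_snd)
    (fun s φ => D.pos φ) (fun s q => D.surj q)
  exact ⟨fun q => Φ (0, q), h1.comp (contDiff_const.prodMk contDiff_id), fun q => h2 0 q, fun φ => h3 0 φ⟩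

/-- the inverse function of `L` (the tangent angle as a function of arc length) -/
noncomputable def inv (D : SD) : ℝ → ℝ := D.exists_inv.choose

theorem inv_contDiff (D : SD) : ContDiff ℝ ∞ D.inv := D.exists_inv.choose_spec.1
theorem L_inv (D : SD) (q : ℝ) : D.L (D.inv q) = q := D.exists_inv.choose_spec.2.1 q
theorem inv_L (D : SD) (φ : ℝ) : D.inv (D.L φ) = φ := D.exists_inv.choose_spec.2.2 φ

/-- the curve -/
noncomputable def curve (D : SD) (q : ℝ) : ℂ := D.X (D.inv q)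

theorem inv_hasDerivAt (D : SD) (q : ℝ) : HasDerivAt D.inv (deriv D.L (D.inv q))⁻¹ q := by
  have h1 : HasDerivAt D.inv (deriv D.inv q) q := ((D.inv_contDiff.differentiable (by simp)) q).hasDerivAt
  have h2 := (D.L_hasDerivAt (D.inv q)).comp q h1
  have h3 : D.L ∘ D.inv = id := funext (fun q => D.L_inv q)
  rw [h3] at h2
  have h4 := h2.unique (hasDerivAt_id q)
  have h5 := (D.pos (D.inv q)).ne'
  have h6 : deriv D.inv q = (deriv D.L (D.inv q))⁻¹ := by
    field_simp
    linarith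
  rwa [h6] at h1

theorem inv_strictMono (D : SD) : StrictMono D.inv := by
  intro a b hab
  by_contra hcon
  push Not at hcon
  have := D.strictMono.monotone hcon
  rw [D.L_inv, D.L_inv] at this
  linarith

theorem inv_add_one (D : SD) (q : ℝ) : D.inv (q + 1) = D.inv q + 2 * Real.pi := by
  apply D.strictMono.injective
  rw [D.L_inv, D.Lper, D.L_inv]

theorem curve_contDiff (D : SD) : ContDiff ℝ ∞ D.curve := D.hX.comp D.inv_contDiff

theorem curve_hasDerivAt (D : SD) (q : ℝ) : HasDerivAt D.curve (e (D.inv q)) q := by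
  have h1 := (D.der (D.inv q)).scomp q (D.inv_hasDerivAt q)
  rw [smul_smul, inv_mul_cancel₀ (D.pos _).ne', one_smul] at h1
  exact h1

theorem curve_periodic (D : SD) (q : ℝ) : D.curve (q + 1) = D.curve q := by
  rw [curve, inv_add_one, D.Xper, curve]

theorem deriv_curve (D : SD) : deriv D.curve = fun q => e (D.inv q) :=
  funext (fun q => (D.curve_hasDerivAt q).deriv)

theorem deriv2_curve (D : SD) (q : ℝ) : deriv (deriv D.curve) q =
    (deriv D.L (D.inv q))⁻¹ • (Complex.I * e (D.inv q)) := by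
  rw [deriv_curve]
  exact ((e_hasDerivAt (D.inv q)).scomp q (D.inv_hasDerivAt q)).deriv

theorem curvature (D : SD) (q : ℝ) :
    0 < ((starRingEnd ℂ) (deriv D.curve q) * deriv (deriv D.curve) q).im := by
  rw [deriv2_curve, deriv_curve]
  have h := D.pos (D.inv q)
  have e1 : (starRingEnd ℂ) (e (D.inv q)) * ((deriv D.L (D.inv q))⁻¹ • (Complex.I * e (D.inv q)))
      = ((deriv D.L (D.inv q))⁻¹ : ℝ) * Complex.I := by
    have h2 : (starRingEnd ℂ) (e (D.inv q)) * e (D.inv q) = 1 := by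
      rw [mul_comm, Complex.mul_conj, Complex.normSq_eq_norm_sq, e_norm]; norm_num
    rw [Complex.real_smul]
    linear_combination (((deriv D.L (D.inv q))⁻¹ : ℝ) : ℂ) * Complex.I * h2
  simp only
  rw [e1]
  simp
  exact h

/-- Minkowski mixture -/
noncomputable def mix (D₀ D₁ : SD) (t : ℝ) (h0 : 0 ≤ t) (h1 : t ≤ 1) : SD where
  L := fun φ => (1 - t) * D₀.L φ + t * D₁.L φ
  X := fun φ => (1 - t) • D₀.X φ + t • D₁.X φ
  hL := (contDiff_const.mul D₀.hL).add (contDiff_const.mul D₁.hL)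
  hX := (D₀.hX.const_smul (1 - t)).add (D₁.hX.const_smul t)
  pos := by
    intro φ
    have h : HasDerivAt (fun φ => (1 - t) * D₀.L φ + t * D₁.L φ)
        ((1 - t) * deriv D₀.L φ + t * deriv D₁.L φ) φ :=
      ((D₀.L_hasDerivAt φ).const_mul (1 - t)).add ((D₁.L_hasDerivAt φ).const_mul t)
    rw [h.deriv]
    have a0 := D₀.pos φ
    have a1 := D₁.pos φ
    rcases eq_or_lt_of_le h0 with h2 | h2
    · rw [← h2]; simpa using a0
    · have := mul_pos h2 a1
      have := mul_nonneg (sub_nonneg.2 h1) a0.le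
      linarith
  Lper := by intro φ; simp only [D₀.Lper, D₁.Lper]; ring
  Xper := by intro φ; simp only [D₀.Xper, D₁.Xper]
  der := by
    intro φ
    have h : HasDerivAt (fun φ => (1 - t) * D₀.L φ + t * D₁.L φ)
        ((1 - t) * deriv D₀.L φ + t * deriv D₁.L φ) φ :=
      ((D₀.L_hasDerivAt φ).const_mul (1 - t)).add ((D₁.L_hasDerivAt φ).const_mul t)
    have h2 : HasDerivAt (fun φ => (1 - t) • D₀.X φ + t • D₁.X φ)
        ((1 - t) • (deriv D₀.L φ • e φ) + t • (deriv D₁.L φ • e φ)) φ :=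
      ((D₀.der φ).const_smul (1 - t)).add ((D₁.der φ).const_smul t)
    rw [h.deriv]
    rw [smul_smul, smul_smul, ← add_smul] at h2
    exact h2

end SD

end Pool.Agent.R763.Bil
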