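import Pool.Agent.R763.Bil1

set_option autoImplicit false
open MeasureTheory Set Filter Topology
open scoped ContDiff

namespace Pool.Agent.R763.Bil

/-! ### definitions -/

/-- A billiard table: the counterclockwise arc length parametrisation, of period one, of the boundary
of a smooth convex body with strictly positive curvature. -/
structure IsTable (γ : ℝ → ℂ) : Prop where
  smooth : ContDiff ℝ ∞ γ
  periodic : ∀ q, γ (q + 1) = γ q
  speed : ∀ q, ‖deriv γ q‖ = 1
  /-- the curvature `det (γ', γ'')` is positive -/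
  curvature : ∀ q, 0 < ((starRingEnd ℂ) (deriv γ q) * deriv (deriv γ) q).im
  inj : InjOn γ (Ico 0 1)
  /-- `γ` parametrises the boundary of a convex body -/
  convex : ∃ K : Set ℂ, IsCompact K ∧ Convex ℝ K ∧ (interior K).Nonempty ∧ frontier K = range γ

/-- a smooth homotopy through billiard tables -/
structure IsHomotopy (Γ : ℝ → ℝ → ℂ) (α β : ℝ → ℂ) : Prop where
  smooth : ContDiff ℝ ∞ (fun z : ℝ × ℝ => Γ z.1 z.2)
  table : ∀ s ∈ Icc (0:ℝ) 1, IsTable (Γ s)
  left : Γ 0 = α
  right : Γ 1 = β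

/-- `∫_0^1 max_q ‖∂γ_s/∂s (q)‖ ds` -/
noncomputable def hLength (Γ : ℝ → ℝ → ℂ) : ℝ :=
  ∫ s in (0:ℝ)..1, sSup ((fun q => ‖deriv (fun s => Γ s q) s‖) '' Icc 0 1)

/-- the geometric distance -/
noncomputable def dB (α β : ℝ → ℂ) : ENNReal :=
  ⨅ (Γ : ℝ → ℝ → ℂ) (_ : IsHomotopy Γ α β), ENNReal.ofReal (hLength Γ)

/-! ### the convex body -/

noncomputable def pnL (φ : ℝ) : ℂ →L[ℝ] ℝ := Real.sin φ • Complex.reCLM - Real.cos φ • Complex.imCLM

theorem pnL_apply (φ : ℝ) (x : ℂ) : pnL φ x = pn φ x := by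
  simp [pnL, pn]; ring

theorem pn_le_norm (φ : ℝ) (x : ℂ) : |pn φ x| ≤ ‖x‖ := by
  apply abs_le_of_sq_le_sq
  · rw [← Complex.normSq_eq_norm_sq, Complex.normSq_apply, pn]
    nlinarith [Real.sin_sq_add_cos_sq φ, sq_nonneg (x.re * Real.cos φ + x.im * Real.sin φ)]
  · exact norm_nonneg _

theorem pn_hasDerivAt {γ : ℝ → ℂ} {γ' : ℂ} {q : ℝ} (h : HasDerivAt γ γ' q) (φ : ℝ) :
    HasDerivAt (fun q => pn φ (γ q)) (pn φ γ') q := by
  have := (pnL φ).hasFDerivAt.comp_hasDerivAt q h
  rw [pnL_apply] at this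
  have e1 : (fun q => pn φ (γ q)) = (pnL φ) ∘ γ := funext (fun q => (pnL_apply φ (γ q)).symm)
  rw [e1]; exact this

theorem exists_pn {f : ℂ →L[ℝ] ℝ} (hf : f ≠ 0) : ∃ c > 0, ∃ φ : ℝ, ∀ x, f x = c * pn φ x := by
  set w : ℂ := ⟨f 1, f Complex.I⟩ with hw
  have hlin : ∀ x : ℂ, f x = x.re * w.re + x.im * w.im := by
    intro x
    have : x = x.re • (1 : ℂ) + x.im • Complex.I := by
      apply Complex.ext <;> simp
    conv_lhs => rw [this]
    rw [map_add, map_smul, map_smul, smul_eq_mul, smul_eq_mul]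
  have hw0 : w ≠ 0 := by
    intro h
    apply hf
    ext x
    rw [hlin, h]; simp
  refine ⟨‖w‖, norm_pos_iff.2 hw0, Complex.arg w + Real.pi / 2, ?_⟩
  intro x
  rw [hlin, pn, Real.sin_add_pi_div_two, Real.cos_add_pi_div_two]
  have h1 := Complex.norm_mul_cos_arg w
  have h2 := Complex.norm_mul_sin_arg w
  rw [← h1, ← h2]; ring

namespace SD

theorem curve_L (D : SD) (φ : ℝ) : D.curve (D.L φ) = D.X φ := by rw [curve, inv_L]

theorem curve_nat (D : SD) (q : ℝ) (n : ℕ) : D.curve (q + n) = D.curve q := by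
  induction n with
  | zero => simp
  | succ n ih => rw [← ih, ← D.curve_periodic (q + n)]; congr 1; push_cast; ring

theorem curve_int (D : SD) (q : ℝ) (n : ℤ) : D.curve (q + n) = D.curve q := by
  obtain ⟨m, rfl | rfl⟩ := n.eq_nat_or_neg
  · exact_mod_cast D.curve_nat q m
  · have := D.curve_nat (q + ((-(m:ℤ) : ℤ) : ℝ)) m
    rw [← this]; congr 1; push_cast; ring

theorem pn_curve_hasDerivAt (D : SD) (φ q : ℝ) :
    HasDerivAt (fun q => pn φ (D.curve q)) (Real.sin (φ - D.inv q)) q := by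
  rw [← pn_e]; exact pn_hasDerivAt (D.curve_hasDerivAt q) φ

theorem lt_support_aux (D : SD) (φ : ℝ) {q : ℝ} (h0 : D.L φ < q) (h1 : q < D.L φ + 1) :
    pn φ (D.curve q) < pn φ (D.X φ) := by
  have hpi := Real.pi_pos
  have hcont : Continuous (fun q => pn φ (D.curve q)) :=
    continuous_iff_continuousAt.2 (fun q => (D.pn_curve_hasDerivAt φ q).continuousAt)
  rcases le_total q (D.L (φ + Real.pi)) with h | h
  · have hanti : StrictAntiOn (fun q => pn φ (D.curve q)) (Icc (D.L φ) (D.L (φ + Real.pi))) := by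
      apply strictAntiOn_of_deriv_neg (convex_Icc _ _) hcont.continuousOn
      intro x hx
      rw [interior_Icc] at hx
      rw [(D.pn_curve_hasDerivAt φ x).deriv]
      have h3 := D.inv_strictMono hx.1
      have h4 := D.inv_strictMono hx.2
      rw [inv_L] at h3 h4
      have : 0 < Real.sin (D.inv x - φ) := Real.sin_pos_of_pos_of_lt_pi (by linarith) (by linarith)
      rw [← neg_sub, Real.sin_neg]; linarith
    have := hanti ⟨le_rfl, h0.le.trans h⟩ ⟨h0.le, h⟩ h0
    simp only [curve_L] at this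
    exact this
  · have hmono : StrictMonoOn (fun q => pn φ (D.curve q)) (Icc (D.L (φ + Real.pi)) (D.L φ + 1)) := by
      apply strictMonoOn_of_deriv_pos (convex_Icc _ _) hcont.continuousOn
      intro x hx
      rw [interior_Icc] at hx
      rw [(D.pn_curve_hasDerivAt φ x).deriv]
      have h3 := D.inv_strictMono hx.1
      have h4 := D.inv_strictMono hx.2
      rw [← D.Lper] at h4
      rw [inv_L] at h3 h4
      have : 0 < Real.sin (φ - D.inv x + 2 * Real.pi) :=
        Real.sin_pos_of_pos_of_lt_pi (by linarith) (by linarith)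
      rwa [Real.sin_add_two_pi] at this
    have := hmono ⟨h, h1.le⟩ ⟨by linarith, le_rfl⟩ h1
    simp only [curve_periodic, curve_L] at this
    exact this

theorem exists_rep (D : SD) (φ q : ℝ) : ∃ n : ℤ, D.L φ ≤ q + n ∧ q + n < D.L φ + 1 := by
  refine ⟨-⌊q - D.L φ⌋, ?_, ?_⟩
  · have := Int.floor_le (q - D.L φ); push_cast; linarith
  · have := Int.lt_floor_add_one (q - D.L φ); push_cast; linarith

theorem le_support (D : SD) (φ q : ℝ) : pn φ (D.curve q) ≤ pn φ (D.X φ) := by
  obtain ⟨n, h1, h2⟩ := D.exists_rep φ q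
  rw [← D.curve_int q n]
  rcases eq_or_lt_of_le h1 with h | h
  · rw [← h, curve_L]
  · exact (D.lt_support_aux φ h h2).le

theorem lt_support (D : SD) (φ q : ℝ) (h : ∀ n : ℤ, q + n ≠ D.L φ) :
    pn φ (D.curve q) < pn φ (D.X φ) := by
  obtain ⟨n, h1, h2⟩ := D.exists_rep φ q
  rw [← D.curve_int q n]
  exact D.lt_support_aux φ (lt_of_le_of_ne h1 (h n).symm) h2

theorem curve_inj (D : SD) : InjOn D.curve (Ico 0 1) := by
  intro q hq q' hq' h
  by_contra hne
  have h1 : ∀ n : ℤ, q' + n ≠ D.L (D.inv q) := by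
    intro n hn
    rw [L_inv] at hn
    have h2 : (n:ℝ) = q - q' := by linarith
    have h3 : -1 < (n:ℝ) := by rw [h2]; linarith [hq.1, hq'.2]
    have h4 : (n:ℝ) < 1 := by rw [h2]; linarith [hq.2, hq'.1]
    have h5 : n = 0 := by
      have a1 : -1 < n := by exact_mod_cast h3
      have a2 : n < 1 := by exact_mod_cast h4
      omega
    rw [h5] at h2
    apply hne
    push_cast at h2
    linarith
  have h2 := D.lt_support (D.inv q) q' h1
  rw [← h] at h2
  exact lt_irrefl _ h2

/-- the convex body -/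
def body (D : SD) : Set ℂ := {x | ∀ φ, pn φ x ≤ pn φ (D.X φ)}

theorem pn_continuous (φ : ℝ) : Continuous (pn φ) := by unfold pn; fun_prop

theorem body_closed (D : SD) : IsClosed D.body := by
  have : D.body = ⋂ φ, {x | pn φ x ≤ pn φ (D.X φ)} := by
    ext x; simp [body]
  rw [this]
  exact isClosed_iInter (fun φ => isClosed_le (pn_continuous φ) continuous_const)

theorem X_bound (D : SD) : ∃ M, ∀ φ, ‖D.X φ‖ ≤ M := by
  obtain ⟨M, hM⟩ := isCompact_Icc.exists_bound_of_continuousOn (s := Icc 0 (2 * Real.pi))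
    (f := D.X) D.hX.continuous.continuousOn
  refine ⟨M, ?_⟩
  intro φ
  obtain ⟨ψ, hψ, hψ'⟩ := (show Function.Periodic D.X (2 * Real.pi) from D.Xper).exists_mem_Ico₀ (by positivity) φ
  rw [hψ']; exact hM ψ ⟨hψ.1, hψ.2.le⟩

theorem body_compact (D : SD) : IsCompact D.body := by
  obtain ⟨M, hM⟩ := D.X_bound
  apply Metric.isCompact_of_isClosed_isBounded D.body_closed
  rw [isBounded_iff_forall_norm_le]
  refine ⟨M, ?_⟩
  intro x hx
  have h1 := hx (Complex.arg x + Real.pi / 2)
  have h2 : pn (Complex.arg x + Real.pi / 2) x = ‖x‖ := by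
    rw [pn, Real.sin_add_pi_div_two, Real.cos_add_pi_div_two]
    have h3 := Complex.norm_mul_cos_arg x
    have h4 := Complex.norm_mul_sin_arg x
    rw [← h3, ← h4]
    have : ‖x‖ * Real.cos x.arg * Real.cos x.arg - ‖x‖ * Real.sin x.arg * -Real.sin x.arg =
        ‖x‖ * (Real.sin x.arg ^ 2 + Real.cos x.arg ^ 2) := by ring
    rw [this, Real.sin_sq_add_cos_sq, mul_one]
  rw [h2] at h1
  have h3 := (abs_le.1 (pn_le_norm (Complex.arg x + Real.pi / 2) (D.X (Complex.arg x + Real.pi / 2)))).2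
  have h4 := hM (Complex.arg x + Real.pi / 2)
  linarith

theorem body_convex (D : SD) : Convex ℝ D.body := by
  intro x hx y hy a b ha hb hab φ
  rw [pn_add, pn_smul, pn_smul]
  have h1 := mul_le_mul_of_nonneg_left (hx φ) ha
  have h2 := mul_le_mul_of_nonneg_left (hy φ) hb
  have h3 : a * pn φ (D.X φ) + b * pn φ (D.X φ) = pn φ (D.X φ) := by rw [← add_mul, hab, one_mul]
  linarith

theorem curve_mem (D : SD) (q : ℝ) : D.curve q ∈ D.body := fun φ => D.le_support φ q

theorem mem_interior (D : SD) {x : ℂ} (h : ∀ φ, pn φ x < pn φ (D.X φ)) : x ∈ interior D.body := by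
  have hcont : Continuous (fun φ => pn φ (D.X φ) - pn φ x) := by
    have hX := D.hX.continuous
    unfold pn
    fun_prop
  obtain ⟨φ0, _, hφ0⟩ := isCompact_Icc.exists_isMinOn (s := Icc 0 (2 * Real.pi))
    ⟨0, le_rfl, by positivity⟩ hcont.continuousOn
  set m := pn φ0 (D.X φ0) - pn φ0 x with hm
  have hm0 : 0 < m := by have := h φ0; linarith
  have hper : ∀ φ, ∃ ψ ∈ Icc 0 (2 * Real.pi), pn φ (D.X φ) - pn φ x = pn ψ (D.X ψ) - pn ψ x := by
    intro φ
    have hp : Function.Periodic (fun φ => pn φ (D.X φ) - pn φ x) (2 * Real.pi) := by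
      intro φ
      simp only [pn, D.Xper, Real.sin_add_two_pi, Real.cos_add_two_pi]
    obtain ⟨ψ, hψ, hψ'⟩ := hp.exists_mem_Ico₀ (by positivity) φ
    exact ⟨ψ, ⟨hψ.1, hψ.2.le⟩, hψ'⟩
  have hmin : ∀ φ, m ≤ pn φ (D.X φ) - pn φ x := by
    intro φ
    obtain ⟨ψ, hψ, hψ'⟩ := hper φ
    rw [hψ']; exact hφ0 hψ
  rw [mem_interior_iff_mem_nhds, Metric.mem_nhds_iff]
  refine ⟨m, hm0, ?_⟩
  intro y hy φ
  have h3 := pn_le_norm φ (y - x)
  rw [pn_sub] at h3
  have h4 := hmin φ
  rw [Metric.mem_ball, dist_eq_norm] at hy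
  have h5 := (abs_le.1 h3).2
  linarith

theorem mem_body_of_max (D : SD) (φ : ℝ) {x : ℂ} (hx : x ∈ D.body) (h : pn φ x = pn φ (D.X φ)) :
    x = D.X φ := by
  -- the function `ψ ↦ h(ψ) - ⟨x, n(ψ)⟩` has a minimum at `φ`
  have hd1 : HasDerivAt (fun ψ => pn ψ (D.X ψ)) ((D.X φ).re * Real.cos φ + (D.X φ).im * Real.sin φ) φ := by
    have hre : HasDerivAt (fun ψ => (D.X ψ).re) (deriv D.L φ * Real.cos φ) φ := by
      have := Complex.reCLM.hasFDerivAt.comp_hasDerivAt φ (D.der φ)
      have e1 : Complex.reCLM (deriv D.L φ • e φ) = deriv D.L φ * Real.cos φ := by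
        simp [e_re]
      rw [e1] at this; exact this
    have him : HasDerivAt (fun ψ => (D.X ψ).im) (deriv D.L φ * Real.sin φ) φ := by
      have := Complex.imCLM.hasFDerivAt.comp_hasDerivAt φ (D.der φ)
      have e1 : Complex.imCLM (deriv D.L φ • e φ) = deriv D.L φ * Real.sin φ := by
        simp [e_im]
      rw [e1] at this; exact this
    have := (hre.mul (Real.hasDerivAt_sin φ)).sub (him.mul (Real.hasDerivAt_cos φ))
    refine this.congr_deriv ?_
    ring
  have hd2 : HasDerivAt (fun ψ => pn ψ x) (x.re * Real.cos φ + x.im * Real.sin φ) φ := by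
    have := ((Real.hasDerivAt_sin φ).const_mul x.re).sub ((Real.hasDerivAt_cos φ).const_mul x.im)
    refine this.congr_deriv ?_
    ring
  have hmin : IsLocalMin (fun ψ => pn ψ (D.X ψ) - pn ψ x) φ := by
    apply Filter.Eventually.of_forall
    intro ψ
    have := hx ψ
    show pn φ (D.X φ) - pn φ x ≤ pn ψ (D.X ψ) - pn ψ x
    rw [h]; linarith
  have hz := hmin.hasDerivAt_eq_zero (hd1.sub hd2)
  have h2 : pn φ x - pn φ (D.X φ) = 0 := by linarith
  simp only [pn] at h2
  set a := x.re - (D.X φ).re with ha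
  set b := x.im - (D.X φ).im with hb
  have h3 : a * Real.cos φ + b * Real.sin φ = 0 := by rw [ha, hb]; linarith
  have h4 : a * Real.sin φ - b * Real.cos φ = 0 := by rw [ha, hb]; linarith
  have h5 := Real.sin_sq_add_cos_sq φ
  have ha0 : a = 0 := by
    linear_combination Real.cos φ * h3 + Real.sin φ * h4 - a * h5
  have hb0 : b = 0 := by
    linear_combination Real.sin φ * h3 - Real.cos φ * h4 - b * h5
  apply Complex.ext <;> linarith

theorem body_interior (D : SD) : (interior D.body).Nonempty := by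
  refine ⟨(1/2 : ℝ) • D.curve 0 + (1/2 : ℝ) • D.curve (1/2), D.mem_interior ?_⟩
  intro φ
  rw [pn_add, pn_smul, pn_smul]
  have h1 := D.le_support φ 0
  have h2 := D.le_support φ (1/2)
  by_cases hq : ∀ n : ℤ, (0:ℝ) + n ≠ D.L φ
  · have := D.lt_support φ 0 hq
    linarith
  · push Not at hq
    obtain ⟨n, hn⟩ := hq
    have h3 : ∀ k : ℤ, (1/2 : ℝ) + k ≠ D.L φ := by
      intro k hk
      rw [← hn] at hk
      have : (1 : ℝ) = ((2 * (n - k) : ℤ) : ℝ) := by push_cast; linarith
      have h4 : (1 : ℤ) = 2 * (n - k) := by exact_mod_cast this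
      omega
    have := D.lt_support φ (1/2) h3
    linarith

theorem body_frontier (D : SD) : frontier D.body = range D.curve := by
  rw [D.body_closed.frontier_eq]
  apply Subset.antisymm
  · rintro x ⟨hx1, hx2⟩
    have : ∃ φ, pn φ (D.X φ) ≤ pn φ x := by
      by_contra hcon
      push Not at hcon
      exact hx2 (D.mem_interior hcon)
    obtain ⟨φ, hφ⟩ := this
    rw [D.mem_body_of_max φ hx1 (le_antisymm (hx1 φ) hφ), ← curve_L]
    exact mem_range_self _
  · rintro _ ⟨q, rfl⟩
    refine ⟨D.curve_mem q, ?_⟩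
    intro hint
    set φ := D.inv q with hφ
    have hX : D.X φ = D.curve q := rfl
    have hcont : ContinuousAt (fun s : ℝ => D.curve q + s • (⟨Real.sin φ, -Real.cos φ⟩ : ℂ)) 0 := by
      apply Continuous.continuousAt; fun_prop
    have hnhds := hcont.preimage_mem_nhds (IsOpen.mem_nhds isOpen_interior (by simpa using hint))
    obtain ⟨ε, hε, hball⟩ := Metric.mem_nhds_iff.1 hnhds
    have h2 := hball (show ε / 2 ∈ Metric.ball (0:ℝ) ε by
      rw [Metric.mem_ball, Real.dist_eq, sub_zero, abs_of_pos (by linarith)]; linarith)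
    have h3 := (interior_subset h2) φ
    rw [pn_add, pn_smul, hX] at h3
    have h4 : pn φ (⟨Real.sin φ, -Real.cos φ⟩ : ℂ) = 1 := by
      rw [pn]; simp only; nlinarith [Real.sin_sq_add_cos_sq φ]
    rw [h4] at h3
    linarith

/-- smooth data give billiard tables -/
theorem table (D : SD) : IsTable D.curve where
  smooth := D.curve_contDiff
  periodic := D.curve_periodic
  speed := by intro q; rw [deriv_curve]; exact e_norm _
  curvature := D.curvature
  inj := D.curve_inj
  convex := ⟨D.body, D.body_compact, D.body_convex, D.body_interior, D.body_frontier⟩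

end SD

end Pool.Agent.R763.Bil
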