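import Pool.Agent.R763.Bil2

set_option autoImplicit false
open MeasureTheory Set Filter Topology
open scoped ContDiff

namespace Pool.Agent.R763.Bil

/-- the time change -/
noncomputable def chi (s : ℝ) : ℝ := (1 - Real.cos (Real.pi * s)) / 2

theorem chi_nonneg (s : ℝ) : 0 ≤ chi s := by unfold chi; linarith [Real.cos_le_one (Real.pi * s)]
theorem chi_le_one (s : ℝ) : chi s ≤ 1 := by unfold chi; linarith [Real.neg_one_le_cos (Real.pi * s)]
theorem chi_zero : chi 0 = 0 := by simp [chi]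
theorem chi_one : chi 1 = 1 := by simp [chi]
theorem chi_contDiff : ContDiff ℝ ∞ chi := by
  unfold chi
  exact (contDiff_const.sub (Real.contDiff_cos.comp (contDiff_const.mul contDiff_id))).div_const 2
theorem chi_hasDerivAt (s : ℝ) : HasDerivAt chi (Real.pi / 2 * Real.sin (Real.pi * s)) s := by
  unfold chi
  have h1 : HasDerivAt (fun s : ℝ => Real.pi * s) Real.pi s := by
    simpa using (hasDerivAt_id s).const_mul Real.pi
  have h2 : HasDerivAt (fun s : ℝ => 1 - Real.cos (Real.pi * s)) (Real.sin (Real.pi * s) * Real.pi) s := by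
    have := (h1.cos).const_sub 1
    refine this.congr_deriv ?_
    ring
  have h3 := h2.div_const 2
  refine h3.congr_deriv ?_
  ring

namespace SD

/-- the difference of the involutes -/
noncomputable def Z (D₀ D₁ : SD) (φ : ℝ) : ℂ := D₁.X φ - D₀.X φ - (D₁.L φ - D₀.L φ) • e φ

theorem exists_homotopy (D₀ D₁ : SD) {B : ℝ} (hB : ∀ φ, ‖Z D₀ D₁ φ‖ ≤ B) :
    ∃ Γ, IsHomotopy Γ D₀.curve D₁.curve ∧ hLength Γ ≤ B := by
  have hB0 : 0 ≤ B := (norm_nonneg _).trans (hB 0)
  set G : ℝ × ℝ → ℝ := fun z => (1 - chi z.1) * D₀.L z.2 + chi z.1 * D₁.L z.2 with hG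
  have hGs : ContDiff ℝ ∞ G :=
    ((contDiff_const.sub (chi_contDiff.comp contDiff_fst)).mul (D₀.hL.comp contDiff_snd)).add
      ((chi_contDiff.comp contDiff_fst).mul (D₁.hL.comp contDiff_snd))
  obtain ⟨Φ, hΦ, hΦ1, hΦ2⟩ := exists_inverse hGs
    (fun s φ => (mix D₀ D₁ (chi s) (chi_nonneg s) (chi_le_one s)).pos φ)
    (fun s q => (mix D₀ D₁ (chi s) (chi_nonneg s) (chi_le_one s)).surj q)
  set Γ : ℝ → ℝ → ℂ := fun s q => (1 - chi s) • D₀.X (Φ (s, q)) + chi s • D₁.X (Φ (s, q)) with hΓ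
  have hinv : ∀ s q, Φ (s, q) = (mix D₀ D₁ (chi s) (chi_nonneg s) (chi_le_one s)).inv q := by
    intro s q
    apply (mix D₀ D₁ (chi s) (chi_nonneg s) (chi_le_one s)).strictMono.injective
    rw [L_inv]
    exact hΦ1 s q
  have hcurve : ∀ s, Γ s = (mix D₀ D₁ (chi s) (chi_nonneg s) (chi_le_one s)).curve := by
    intro s
    funext q
    rw [curve, ← hinv]; rfl
  have hderiv : ∀ s q, HasDerivAt (fun s => Γ s q)
      ((Real.pi / 2 * Real.sin (Real.pi * s)) • Z D₀ D₁ (Φ (s, q))) s := by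
    intro s q
    have hpair : HasDerivAt (fun s : ℝ => ((s, q) : ℝ × ℝ)) (1, 0) s :=
      (hasDerivAt_id s).prodMk (hasDerivAt_const s q)
    have hΦd : DifferentiableAt ℝ Φ (s, q) := (hΦ.differentiable (by simp)) _
    have h1 := hΦd.hasFDerivAt.comp_hasDerivAt s hpair
    set p := fderiv ℝ Φ (s, q) (1, 0) with hp
    have hφ : HasDerivAt (fun s => Φ (s, q)) p s := h1
    have hc := chi_hasDerivAt s
    set c := Real.pi / 2 * Real.sin (Real.pi * s) with hcdef
    have hL0 := (D₀.L_hasDerivAt (Φ (s, q))).comp s hφ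
    have hL1 := (D₁.L_hasDerivAt (Φ (s, q))).comp s hφ
    have hX0 := (D₀.der (Φ (s, q))).scomp s hφ
    have hX1 := (D₁.der (Φ (s, q))).scomp s hφ
    have hsub : HasDerivAt (fun s => 1 - chi s) (-c) s := hc.const_sub 1
    have hGd := (hsub.mul hL0).add (hc.mul hL1)
    have hconst : (fun s => G (s, Φ (s, q))) = fun _ => q := funext (fun s => hΦ1 s q)
    have hGd' : HasDerivAt (fun s => G (s, Φ (s, q)))
      (-c * D₀.L (Φ (s, q)) + (1 - chi s) * (deriv D₀.L (Φ (s, q)) * p) +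
        (c * D₁.L (Φ (s, q)) + chi s * (deriv D₁.L (Φ (s, q)) * p))) s := hGd
    rw [hconst] at hGd'
    have hrel := hGd'.unique (hasDerivAt_const s q)
    have hΓd : HasDerivAt (fun s => Γ s q)
      (((1 - chi s) • (p • (deriv D₀.L (Φ (s, q)) • e (Φ (s, q)))) + (-c) • D₀.X (Φ (s, q))) +
        (chi s • (p • (deriv D₁.L (Φ (s, q)) • e (Φ (s, q)))) + c • D₁.X (Φ (s, q)))) s :=
      (hsub.smul hX0).add (hc.smul hX1)
    refine hΓd.congr_deriv ?_
    have hrel' : (((1 - chi s) * (deriv D₀.L (Φ (s, q)) * p) + chi s * (deriv D₁.L (Φ (s, q)) * p) : ℝ) : ℂ)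
        = ((c * D₀.L (Φ (s, q)) - c * D₁.L (Φ (s, q)) : ℝ) : ℂ) := by
      congr 1; linarith
    rw [Z]
    simp only [Complex.real_smul]
    push_cast at hrel' ⊢
    linear_combination (e (Φ (s, q))) * hrel'
  refine ⟨Γ, ⟨?_, ?_, ?_, ?_⟩, ?_⟩
  · exact ((contDiff_const.sub (chi_contDiff.comp contDiff_fst)).smul (D₀.hX.comp hΦ)).add
      ((chi_contDiff.comp contDiff_fst).smul (D₁.hX.comp hΦ))
  · intro s _
    rw [hcurve]; exact SD.table _
  · funext q
    have h1 : Φ (0, q) = D₀.inv q := by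
      apply D₀.strictMono.injective
      rw [L_inv]
      have := hΦ1 0 q
      simpa [hG, chi_zero] using this
    simp only [hΓ, chi_zero, h1]
    simp [curve]
  · funext q
    have h1 : Φ (1, q) = D₁.inv q := by
      apply D₁.strictMono.injective
      rw [L_inv]
      have := hΦ1 1 q
      simpa [hG, chi_one] using this
    simp only [hΓ, chi_one, h1]
    simp [curve]
  · -- the length
    have hpt : ∀ s ∈ Icc (0:ℝ) 1, sSup ((fun q => ‖deriv (fun s => Γ s q) s‖) '' Icc 0 1) ≤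
        Real.pi / 2 * Real.sin (Real.pi * s) * B := by
      intro s hs
      have hsin : 0 ≤ Real.sin (Real.pi * s) := by
        apply Real.sin_nonneg_of_nonneg_of_le_pi
        · have := Real.pi_pos; nlinarith [hs.1]
        · have := Real.pi_pos; nlinarith [hs.2]
      have hc0 : 0 ≤ Real.pi / 2 * Real.sin (Real.pi * s) := by positivity
      apply Real.sSup_le
      · rintro _ ⟨q, _, rfl⟩
        simp only
        rw [(hderiv s q).deriv, norm_smul, Real.norm_eq_abs, abs_of_nonneg hc0]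
        exact mul_le_mul_of_nonneg_left (hB _) hc0
      · exact mul_nonneg hc0 hB0
    rw [hLength]
    by_cases hint : IntervalIntegrable (fun s => sSup ((fun q => ‖deriv (fun s => Γ s q) s‖) '' Icc 0 1))
      volume 0 1
    · have hbound : IntervalIntegrable (fun s => Real.pi / 2 * Real.sin (Real.pi * s) * B) volume 0 1 := by
        apply Continuous.intervalIntegrable; fun_prop
      refine (intervalIntegral.integral_mono_on zero_le_one hint hbound hpt).trans ?_
      have hF : ∀ s ∈ uIcc (0:ℝ) 1, HasDerivAt (fun s => chi s * B) (Real.pi / 2 * Real.sin (Real.pi * s) * B) s :=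
        fun s _ => (chi_hasDerivAt s).mul_const B
      rw [intervalIntegral.integral_eq_sub_of_hasDerivAt hF hbound, chi_zero, chi_one]
      linarith
    · rw [intervalIntegral.integral_undef hint]; exact hB0

theorem dB_le (D₀ D₁ : SD) {B : ℝ} (hB : ∀ φ, ‖Z D₀ D₁ φ‖ ≤ B) :
    dB D₀.curve D₁.curve ≤ ENNReal.ofReal B := by
  obtain ⟨Γ, h1, h2⟩ := exists_homotopy D₀ D₁ hB
  exact (iInf₂_le Γ h1).trans (ENNReal.ofReal_le_ofReal h2)

end SD

end Pool.Agent.R763.Bil
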