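import Pool.Agent.R763.Bil3

set_option autoImplicit false
open MeasureTheory Set Filter Topology
open scoped ContDiff Convolution

namespace Pool.Agent.R763.Bil

/-- monotone data: `L` is the arc length as a function of the tangent angle, `W` the involute -/
structure MD where
  L : ℝ → ℝ
  W : ℝ → ℂ
  mono : Monotone L
  Lper : ∀ φ, L (φ + 2 * Real.pi) = L φ + 1
  Wper : ∀ φ, W (φ + 2 * Real.pi) = W φ - e φ
  rel : ∀ a b, W b - W a = -∫ u in a..b, Complex.I * e u * (L u : ℂ)

/-- the bump function -/
noncomputable def bump (η : ℝ) (hη : 0 < η) : ContDiffBump (0 : ℝ) := ⟨η / 2, η, by linarith, by linarith⟩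

noncomputable def ker (η : ℝ) (hη : 0 < η) : ℝ → ℝ := (bump η hη).normed volume

section smoothing
variable {η : ℝ} (hη : 0 < η)

theorem ker_nonneg (t : ℝ) : 0 ≤ ker η hη t := (bump η hη).nonneg_normed t
theorem ker_cont : Continuous (ker η hη) := (bump η hη).continuous_normed
theorem ker_smooth : ContDiff ℝ ∞ (ker η hη) := (bump η hη).contDiff_normed
theorem ker_compact : HasCompactSupport (ker η hη) := (bump η hη).hasCompactSupport_normed
theorem ker_integral : ∫ t, ker η hη t = 1 := (bump η hη).integral_normed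
theorem ker_integrable : Integrable (ker η hη) := (bump η hη).integrable_normed
theorem ker_support {t : ℝ} (ht : ker η hη t ≠ 0) : |t| < η := by
  have : t ∈ Function.support (ker η hη) := ht
  rw [ker, (bump η hη).support_normed_eq] at this
  simpa [Real.dist_eq, bump] using this

/-- smoothing by convolution -/
noncomputable def sm (L : ℝ → ℝ) (x : ℝ) : ℝ := ∫ t, ker η hη t * L (x - t)

theorem sm_smooth {L : ℝ → ℝ} (hL : Monotone L) : ContDiff ℝ ∞ (sm hη L) :=
  (ker_compact hη).contDiff_convolution_left (μ := volume) (ContinuousLinearMap.lsmul ℝ ℝ)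
    (ker_smooth hη) hL.locallyIntegrable

theorem sm_integrable {L : ℝ → ℝ} (hL : Monotone L) (x : ℝ) :
    Integrable (fun t => ker η hη t * L (x - t)) :=
  (ker_compact hη).convolutionExists_left (μ := volume) (ContinuousLinearMap.lsmul ℝ ℝ)
    (ker_cont hη) hL.locallyIntegrable x

theorem sm_mono {L : ℝ → ℝ} (hL : Monotone L) : Monotone (sm hη L) := by
  intro x y hxy
  apply integral_mono (sm_integrable hη hL x) (sm_integrable hη hL y)
  intro t
  exact mul_le_mul_of_nonneg_left (hL (by linarith)) (ker_nonneg hη t)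

theorem sm_le {L : ℝ → ℝ} (hL : Monotone L) (x : ℝ) : sm hη L x ≤ L (x + η) := by
  have h1 : ∫ t, ker η hη t * L (x + η) = L (x + η) := by
    rw [integral_mul_const, ker_integral, one_mul]
  rw [← h1]
  apply integral_mono (sm_integrable hη hL x) ((ker_integrable hη).mul_const _)
  intro t
  by_cases ht : ker η hη t = 0
  · simp [ht]
  · have := abs_lt.1 (ker_support hη ht)
    exact mul_le_mul_of_nonneg_left (hL (by linarith)) (ker_nonneg hη t)

theorem le_sm {L : ℝ → ℝ} (hL : Monotone L) (x : ℝ) : L (x - η) ≤ sm hη L x := by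
  have h1 : ∫ t, ker η hη t * L (x - η) = L (x - η) := by
    rw [integral_mul_const, ker_integral, one_mul]
  rw [← h1]
  apply integral_mono ((ker_integrable hη).mul_const _) (sm_integrable hη hL x)
  intro t
  by_cases ht : ker η hη t = 0
  · simp [ht]
  · have := abs_lt.1 (ker_support hη ht)
    exact mul_le_mul_of_nonneg_left (hL (by linarith)) (ker_nonneg hη t)

theorem sm_per {L : ℝ → ℝ} (hL : Monotone L) (hper : ∀ φ, L (φ + 2 * Real.pi) = L φ + 1) (x : ℝ) :
    sm hη L (x + 2 * Real.pi) = sm hη L x + 1 := by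
  have h1 : ∀ t, ker η hη t * L (x + 2 * Real.pi - t) = ker η hη t * L (x - t) + ker η hη t := by
    intro t
    rw [show x + 2 * Real.pi - t = (x - t) + 2 * Real.pi by ring, hper]; ring
  rw [sm, integral_congr_ae (Eventually.of_forall h1),
    integral_add (sm_integrable hη hL x) (ker_integrable hη), ker_integral]
  rfl

theorem mono_intervalIntegrable {L : ℝ → ℝ} (hL : Monotone L) (a b : ℝ) :
    IntervalIntegrable L volume a b := hL.intervalIntegrable

theorem eL_intervalIntegrable {L : ℝ → ℝ} (hL : Monotone L) (a b : ℝ) :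
    IntervalIntegrable (fun u => Complex.I * e u * (L u : ℂ)) volume a b := by
  have h1 : IntervalIntegrable (fun u => (L u : ℂ)) volume a b := by
    have := hL.intervalIntegrable (μ := volume) (a := a) (b := b)
    exact ⟨this.1.ofReal, this.2.ofReal⟩
  exact h1.continuousOn_mul ((continuous_const.mul e_continuous).continuousOn)

/-- closing condition for the smoothed function -/
theorem sm_closing (D : MD) : ∫ x in (0:ℝ)..(2 * Real.pi), Complex.I * e x * (sm hη D.L x : ℂ) = 1 := by
  have hpi : (0:ℝ) ≤ 2 * Real.pi := by positivity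
  -- the inner integral
  have hin : ∀ t : ℝ, ∫ x in (0:ℝ)..(2 * Real.pi), Complex.I * e x * (D.L (x - t) : ℂ) = 1 := by
    intro t
    have h1 : ∀ x, Complex.I * e x * (D.L (x - t) : ℂ) =
        (fun u => e t * (Complex.I * e u * (D.L u : ℂ))) (x - t) := by
      intro x
      simp only
      rw [show e x = e t * e (x - t) by rw [← e_add]; congr 1; ring]; ring
    simp_rw [h1]
    rw [intervalIntegral.integral_comp_sub_right (fun u => e t * (Complex.I * e u * (D.L u : ℂ))) t,
      intervalIntegral.integral_const_mul]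
    have h2 := D.rel (0 - t) (2 * Real.pi - t)
    rw [show 2 * Real.pi - t = (0 - t) + 2 * Real.pi by ring, D.Wper] at h2
    have h3 : (∫ u in (0 - t)..(0 - t) + 2 * Real.pi, Complex.I * e u * (D.L u : ℂ)) = e (0 - t) := by
      linear_combination h2
    rw [show 2 * Real.pi - t = (0 - t) + 2 * Real.pi by ring, h3, ← e_add]
    rw [show t + (0 - t) = 0 by ring, e_zero]
  -- measurability and integrability
  have hmeasL : Measurable D.L := D.mono.measurable
  set M : ℝ := max |D.L (-η)| |D.L (2 * Real.pi + η)| with hM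
  have hbound : ∀ x t : ℝ, 0 ≤ x → x ≤ 2 * Real.pi → ‖(ker η hη t : ℂ) * (Complex.I * e x * (D.L (x - t) : ℂ))‖ ≤
      M * ker η hη t := by
    intro x t h0 h1
    rw [norm_mul, norm_mul, norm_mul, Complex.norm_I, e_norm, Complex.norm_real, Complex.norm_real,
      Real.norm_eq_abs, Real.norm_eq_abs, abs_of_nonneg (ker_nonneg hη t), one_mul, one_mul, mul_comm]
    by_cases ht : ker η hη t = 0
    · simp [ht]
    · have h2 := abs_lt.1 (ker_support hη ht)
      apply mul_le_mul_of_nonneg_right _ (ker_nonneg hη t)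
      have h3 := D.mono (show -η ≤ x - t by linarith)
      have h4 := D.mono (show x - t ≤ 2 * Real.pi + η by linarith)
      rw [hM]
      exact abs_le_max_abs_abs h3 h4
  have hint : Integrable (Function.uncurry (fun x t : ℝ => (ker η hη t : ℂ) * (Complex.I * e x * (D.L (x - t) : ℂ))))
      ((volume.restrict (Ioc 0 (2 * Real.pi))).prod volume) := by
    have hg : Integrable (fun z : ℝ × ℝ => M * ker η hη z.2) ((volume.restrict (Ioc 0 (2 * Real.pi))).prod volume) := by
      have h1 : Integrable (fun _ : ℝ => M) (volume.restrict (Ioc 0 (2 * Real.pi))) := integrable_const _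
      exact h1.mul_prod (ker_integrable hη)
    refine hg.mono' ?_ ?_
    · have h1 : Measurable (fun z : ℝ × ℝ => (ker η hη z.2 : ℂ) * (Complex.I * e z.1 * (D.L (z.1 - z.2) : ℂ))) := by
        have m1 : Measurable (fun z : ℝ × ℝ => (ker η hη z.2 : ℂ)) :=
          Complex.measurable_ofReal.comp ((ker_cont hη).measurable.comp measurable_snd)
        have m2 : Measurable (fun z : ℝ × ℝ => e z.1) := e_continuous.measurable.comp measurable_fst
        have m3 : Measurable (fun z : ℝ × ℝ => (D.L (z.1 - z.2) : ℂ)) :=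
          Complex.measurable_ofReal.comp (hmeasL.comp (measurable_fst.sub measurable_snd))
        exact m1.mul ((measurable_const.mul m2).mul m3)
      exact h1.aestronglyMeasurable
    · have h2 : ∀ᵐ z : ℝ × ℝ ∂((volume.restrict (Ioc 0 (2 * Real.pi))).prod volume), z.1 ∈ Ioc 0 (2 * Real.pi) := by
        have h3 : ∀ᵐ x : ℝ ∂(volume.restrict (Ioc 0 (2 * Real.pi))), x ∈ Ioc 0 (2 * Real.pi) :=
          ae_restrict_mem measurableSet_Ioc
        exact Measure.quasiMeasurePreserving_fst.ae h3
      filter_upwards [h2] with z hz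
      exact hbound z.1 z.2 hz.1.le hz.2
  have hswap := integral_integral_swap hint
  rw [intervalIntegral.integral_of_le hpi]
  have e1 : ∀ x : ℝ, Complex.I * e x * (sm hη D.L x : ℂ) =
      ∫ t, (ker η hη t : ℂ) * (Complex.I * e x * (D.L (x - t) : ℂ)) := by
    intro x
    rw [sm, ← integral_complex_ofReal, ← integral_const_mul]
    congr 1
    funext t
    push_cast; ring
  simp_rw [e1]
  rw [hswap]
  have e2 : ∀ t : ℝ, (∫ x in Ioc 0 (2 * Real.pi), (ker η hη t : ℂ) * (Complex.I * e x * (D.L (x - t) : ℂ)))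
      = (ker η hη t : ℂ) := by
    intro t
    rw [integral_const_mul, ← intervalIntegral.integral_of_le hpi, hin, mul_one]
  simp_rw [e2]
  rw [integral_complex_ofReal, ker_integral]
  simp

/-- `L¹` estimate over a period -/
theorem period_diff {L : ℝ → ℝ} (hL : Monotone L) (hper : ∀ φ, L (φ + 2 * Real.pi) = L φ + 1) (a b : ℝ) :
    (∫ x in a..(a + 2 * Real.pi), L x) - (∫ x in b..(b + 2 * Real.pi), L x) = a - b := by
  have hp : Function.Periodic (fun x => L x - x / (2 * Real.pi)) (2 * Real.pi) := by
    intro x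
    simp only
    rw [hper]
    have := Real.pi_ne_zero
    field_simp; ring
  have h1 := hp.intervalIntegral_add_eq a b
  have hx : ∀ c d : ℝ, IntervalIntegrable (fun x : ℝ => x / (2 * Real.pi)) volume c d :=
    fun c d => (continuous_id.div_const _).intervalIntegrable c d
  rw [intervalIntegral.integral_sub hL.intervalIntegrable (hx _ _),
    intervalIntegral.integral_sub hL.intervalIntegrable (hx _ _)] at h1
  have h2 : ∀ c : ℝ, ∫ x in c..(c + 2 * Real.pi), x / (2 * Real.pi) = c + Real.pi := by
    intro c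
    rw [intervalIntegral.integral_div, integral_id]
    have := Real.pi_ne_zero
    field_simp; ring
  rw [h2, h2] at h1
  linarith

theorem sm_L1 {L : ℝ → ℝ} (hL : Monotone L) (hper : ∀ φ, L (φ + 2 * Real.pi) = L φ + 1) :
    ∫ x in (0:ℝ)..(2 * Real.pi), |sm hη L x - L x| ≤ 2 * η := by
  have hpi : (0:ℝ) ≤ 2 * Real.pi := by positivity
  have hp1 : IntervalIntegrable (fun x => L (x + η)) volume 0 (2 * Real.pi) := by
    have : Monotone (fun x => L (x + η)) := fun x y h => hL (by linarith)
    exact this.intervalIntegrable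
  have hp2 : IntervalIntegrable (fun x => L (x - η)) volume 0 (2 * Real.pi) := by
    have : Monotone (fun x => L (x - η)) := fun x y h => hL (by linarith)
    exact this.intervalIntegrable
  have h1 : ∫ x in (0:ℝ)..(2 * Real.pi), |sm hη L x - L x| ≤
      ∫ x in (0:ℝ)..(2 * Real.pi), (L (x + η) - L (x - η)) := by
    apply intervalIntegral.integral_mono_on hpi
    · exact ((sm_mono hη hL).intervalIntegrable.sub hL.intervalIntegrable).abs
    · exact hp1.sub hp2
    · intro x _
      have a1 := sm_le hη hL x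
      have a2 := le_sm hη hL x
      have a3 := hL (show x ≤ x + η by linarith)
      have a4 := hL (show x - η ≤ x by linarith)
      rw [abs_le]; constructor <;> linarith
  refine h1.trans (le_of_eq ?_)
  rw [intervalIntegral.integral_sub hp1 hp2, intervalIntegral.integral_comp_add_right,
    intervalIntegral.integral_comp_sub_right]
  have h2 := period_diff hL hper (0 + η) (0 - η)
  rw [show 0 + η + 2 * Real.pi = 2 * Real.pi + η by ring,
    show 0 - η + 2 * Real.pi = 2 * Real.pi - η by ring] at h2
  rw [h2]; ring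

end smoothing

/-- primitive of a smooth function -/
theorem primitive_contDiff {g : ℝ → ℂ} (hg : ContDiff ℝ ∞ g) (c : ℂ) :
    ContDiff ℝ ∞ (fun x => c - ∫ u in (0:ℝ)..x, g u) ∧
    ∀ x, HasDerivAt (fun x => c - ∫ u in (0:ℝ)..x, g u) (-g x) x := by
  have hd : ∀ x, HasDerivAt (fun x => c - ∫ u in (0:ℝ)..x, g u) (-g x) x := by
    intro x
    have h1 : HasDerivAt (fun x => ∫ u in (0:ℝ)..x, g u) (g x) x :=
      intervalIntegral.integral_hasDerivAt_right (hg.continuous.intervalIntegrable _ _)
        (hg.continuous.stronglyMeasurableAtFilter _ _) hg.continuous.continuousAt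
    exact h1.const_sub c
  refine ⟨?_, hd⟩
  rw [contDiff_infty_iff_deriv]
  refine ⟨fun x => (hd x).differentiableAt, ?_⟩
  have : deriv (fun x => c - ∫ u in (0:ℝ)..x, g u) = fun x => -g x := funext (fun x => (hd x).deriv)
  rw [this]
  exact hg.neg

theorem circle_closing : ∫ x in (0:ℝ)..(2 * Real.pi), Complex.I * e x * ((x / (2 * Real.pi) : ℝ) : ℂ) = 1 := by
  have hpi : ((2 * Real.pi : ℝ) : ℂ) ≠ 0 := by
    have := Real.pi_ne_zero
    exact_mod_cast (by positivity : (2 * Real.pi : ℝ) ≠ 0)
  have hd : ∀ x ∈ uIcc (0:ℝ) (2 * Real.pi), HasDerivAt (fun x : ℝ => (e x * (x : ℂ) + Complex.I * e x) / ((2 * Real.pi : ℝ) : ℂ))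
      (Complex.I * e x * ((x / (2 * Real.pi) : ℝ) : ℂ)) x := by
    intro x _
    have h1 := (e_hasDerivAt x).mul (Complex.ofRealCLM.hasDerivAt (x := x))
    have h2 := (e_hasDerivAt x).const_mul Complex.I
    have h3 := (h1.add h2).div_const ((2 * Real.pi : ℝ) : ℂ)
    refine h3.congr_deriv ?_
    have hI : Complex.I * Complex.I = -1 := Complex.I_mul_I
    simp only [Complex.ofRealCLM_apply]
    push_cast
    field_simp
    linear_combination (e x) * hI
  rw [intervalIntegral.integral_eq_sub_of_hasDerivAt hd]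
  · rw [e_zero, e_two_pi]
    field_simp
    push_cast
    ring
  · apply Continuous.intervalIntegrable
    exact (continuous_const.mul e_continuous).mul (Complex.continuous_ofReal.comp (continuous_id.div_const _))

/-- smooth approximation of monotone data -/
theorem smooth_approx (D : MD) {ε : ℝ} (hε : 0 < ε) : ∃ S : SD,
    (∀ φ, ‖S.X φ - S.L φ • e φ - D.W φ‖ ≤ ε) ∧
    ∀ a, ∫ u in a..(a + 2 * Real.pi), |S.L u - D.L u| ≤ ε := by
  have hpi := Real.pi_pos
  have h2pi : (0:ℝ) ≤ 2 * Real.pi := by positivity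
  -- a bound for `|x / 2π - L x|`
  set M : ℝ := 1 + max |D.L 0| |D.L (2 * Real.pi)| with hM
  have hM0 : 0 < M := by have := le_max_of_le_left (b := |D.L 0|) (c := |D.L (2 * Real.pi)|) (abs_nonneg (D.L 0)); linarith
  set η : ℝ := min (1/2) (ε / (2 + 2 * Real.pi * M)) with hη
  have hη0 : 0 < η := lt_min (by norm_num) (by positivity)
  have hη1 : η ≤ 1/2 := min_le_left _ _
  have hη2 : η * (2 + 2 * Real.pi * M) ≤ ε := by
    have := min_le_right (1/2) (ε / (2 + 2 * Real.pi * M))
    rw [le_div_iff₀ (by positivity)] at this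
    exact this
  set Lm : ℝ → ℝ := fun x => (1 - η) * sm hη0 D.L x + η * (x / (2 * Real.pi)) with hLm
  have hsms := sm_smooth hη0 D.mono
  have hLs : ContDiff ℝ ∞ Lm := (contDiff_const.mul hsms).add (contDiff_const.mul (contDiff_id.div_const _))
  have hLd : ∀ x, HasDerivAt Lm ((1 - η) * deriv (sm hη0 D.L) x + η * (1 / (2 * Real.pi))) x := by
    intro x
    have h1 := ((hsms.differentiable (by simp)) x).hasDerivAt
    exact (h1.const_mul (1 - η)).add (((hasDerivAt_id x).div_const (2 * Real.pi)).const_mul η)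
  have hLpos : ∀ x, 0 < deriv Lm x := by
    intro x
    rw [(hLd x).deriv]
    have h1 : 0 ≤ deriv (sm hη0 D.L) x := (sm_mono hη0 D.mono).deriv_nonneg
    have h2 : 0 ≤ (1 - η) * deriv (sm hη0 D.L) x := mul_nonneg (by linarith) h1
    have h3 : 0 < η * (1 / (2 * Real.pi)) := by positivity
    linarith
  have hLper : ∀ x, Lm (x + 2 * Real.pi) = Lm x + 1 := by
    intro x
    simp only [hLm]
    rw [sm_per hη0 D.mono D.Lper]
    field_simp; ring
  -- the involute
  set g : ℝ → ℂ := fun u => Complex.I * e u * (Lm u : ℂ) with hg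
  have hgs : ContDiff ℝ ∞ g := (contDiff_const.mul e_contDiff).mul (Complex.ofRealCLM.contDiff.comp hLs)
  obtain ⟨hWs, hWd⟩ := primitive_contDiff hgs (D.W 0)
  set Wm : ℝ → ℂ := fun x => D.W 0 - ∫ u in (0:ℝ)..x, g u with hWm
  have hgint : ∀ a b, IntervalIntegrable g volume a b := fun a b => hgs.continuous.intervalIntegrable a b
  have hclose : ∫ u in (0:ℝ)..(2 * Real.pi), g u = 1 := by
    have h1 : ∀ u, g u = ((1 - η : ℝ) : ℂ) * (Complex.I * e u * (sm hη0 D.L u : ℂ)) +
        (η : ℂ) * (Complex.I * e u * ((u / (2 * Real.pi) : ℝ) : ℂ)) := by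
      intro u
      simp only [hg, hLm]
      push_cast; ring
    have i1 : IntervalIntegrable (fun u => Complex.I * e u * (sm hη0 D.L u : ℂ)) volume 0 (2 * Real.pi) :=
      eL_intervalIntegrable (sm_mono hη0 D.mono) _ _
    have i2 : IntervalIntegrable (fun u : ℝ => Complex.I * e u * ((u / (2 * Real.pi) : ℝ) : ℂ)) volume 0 (2 * Real.pi) := by
      apply Continuous.intervalIntegrable
      exact (continuous_const.mul e_continuous).mul (Complex.continuous_ofReal.comp (continuous_id.div_const _))
    simp_rw [h1]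
    rw [intervalIntegral.integral_add (i1.const_mul _) (i2.const_mul _), intervalIntegral.integral_const_mul,
      intervalIntegral.integral_const_mul, sm_closing, circle_closing]
    push_cast; ring
  have hWper : ∀ x, Wm (x + 2 * Real.pi) = Wm x - e x := by
    -- both sides have the same derivative
    have hd : ∀ x, HasDerivAt (fun x => Wm (x + 2 * Real.pi) - Wm x + e x) 0 x := by
      intro x
      have h1 : HasDerivAt (fun x => Wm (x + 2 * Real.pi)) (-g (x + 2 * Real.pi)) x := by
        have := (hWd (x + 2 * Real.pi)).comp_add_const x (2 * Real.pi)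
        exact this
      have h2 := (h1.sub (hWd x)).add (e_hasDerivAt x)
      refine h2.congr_deriv ?_
      simp only [hg]
      rw [hLper, e_add_two_pi]
      push_cast; ring
    have hconst : ∀ x y, (fun x => Wm (x + 2 * Real.pi) - Wm x + e x) x = (fun x => Wm (x + 2 * Real.pi) - Wm x + e x) y :=
      is_const_of_deriv_eq_zero (fun x => (hd x).differentiableAt) (fun x => (hd x).deriv)
    intro x
    have h3 := hconst x 0
    simp only [zero_add] at h3
    have h4 : Wm (2 * Real.pi) - Wm 0 + e 0 = 0 := by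
      simp only [hWm]
      rw [hclose, e_zero]; simp
    rw [h4] at h3
    linear_combination h3
  -- the smooth data
  set Xm : ℝ → ℂ := fun x => Wm x + Lm x • e x with hXm
  have hXs : ContDiff ℝ ∞ Xm := hWs.add (hLs.smul e_contDiff)
  have hXd : ∀ x, HasDerivAt Xm (deriv Lm x • e x) x := by
    intro x
    have h1 : HasDerivAt Lm (deriv Lm x) x := ((hLs.differentiable (by simp)) x).hasDerivAt
    have h2 := (hWd x).add (h1.smul (e_hasDerivAt x))
    refine h2.congr_deriv ?_
    simp only [hg, Complex.real_smul]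
    ring
  have hXper : ∀ x, Xm (x + 2 * Real.pi) = Xm x := by
    intro x
    simp only [hXm]
    rw [hWper, hLper, e_add_two_pi, add_smul, one_smul]; ring
  refine ⟨⟨Lm, Xm, hLs, hXs, hLpos, hLper, hXper, hXd⟩, ?_⟩
  -- the `L¹` estimate
  have hdiffper : Function.Periodic (fun u => |Lm u - D.L u|) (2 * Real.pi) := by
    intro u
    simp only
    rw [hLper, D.Lper]; congr 1; ring
  have hdint : ∀ a b, IntervalIntegrable (fun u => |Lm u - D.L u|) volume a b := fun a b =>
    ((hLs.continuous.intervalIntegrable a b).sub D.mono.intervalIntegrable).abs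
  have hL1 : ∀ a, ∫ u in a..(a + 2 * Real.pi), |Lm u - D.L u| ≤ ε := by
    intro a
    rw [hdiffper.intervalIntegral_add_eq a 0, zero_add]
    have h1 := sm_L1 hη0 D.mono D.Lper
    have i1 : IntervalIntegrable (fun x => |sm hη0 D.L x - D.L x|) volume 0 (2 * Real.pi) :=
      ((sm_mono hη0 D.mono).intervalIntegrable.sub D.mono.intervalIntegrable).abs
    have h2 : ∫ u in (0:ℝ)..(2 * Real.pi), |Lm u - D.L u| ≤
        ∫ u in (0:ℝ)..(2 * Real.pi), (|sm hη0 D.L u - D.L u| + η * M) := by
      apply intervalIntegral.integral_mono_on h2pi (hdint _ _) (i1.add (intervalIntegrable_const))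
      intro x hx
      have e1 : Lm x - D.L x = (1 - η) * (sm hη0 D.L x - D.L x) + η * (x / (2 * Real.pi) - D.L x) := by
        simp only [hLm]; ring
      rw [e1]
      refine (abs_add_le _ _).trans ?_
      rw [abs_mul, abs_mul, abs_of_nonneg (show 0 ≤ 1 - η by linarith), abs_of_pos hη0]
      have a1 : (1 - η) * |sm hη0 D.L x - D.L x| ≤ |sm hη0 D.L x - D.L x| := by
        have := abs_nonneg (sm hη0 D.L x - D.L x)
        nlinarith
      have a2 : |x / (2 * Real.pi) - D.L x| ≤ M := by
        have b1 : |D.L x| ≤ max |D.L 0| |D.L (2 * Real.pi)| := abs_le_max_abs_abs (D.mono hx.1) (D.mono hx.2)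
        have b2 : |x / (2 * Real.pi)| ≤ 1 := by
          rw [abs_of_nonneg (div_nonneg hx.1 h2pi)]
          rw [div_le_one (by positivity)]; exact hx.2
        have b3 := abs_sub (x / (2 * Real.pi)) (D.L x)
        rw [hM]; linarith
      have a3 := mul_le_mul_of_nonneg_left a2 hη0.le
      linarith
    rw [intervalIntegral.integral_add i1 intervalIntegrable_const, intervalIntegral.integral_const,
      smul_eq_mul] at h2
    have h3 : (2 * Real.pi - 0) * (η * M) + 2 * η = η * (2 + 2 * Real.pi * M) := by ring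
    linarith
  refine ⟨?_, hL1⟩
  -- the uniform estimate for the involutes
  have hper : Function.Periodic (fun φ => Wm φ - D.W φ) (2 * Real.pi) := by
    intro φ
    simp only
    rw [hWper, D.Wper]; ring
  intro φ
  have h0 : Xm φ - Lm φ • e φ - D.W φ = Wm φ - D.W φ := by
    simp only [hXm]; ring
  show ‖Xm φ - Lm φ • e φ - D.W φ‖ ≤ ε
  rw [h0]
  obtain ⟨ψ, hψ, hψ'⟩ := hper.exists_mem_Ico₀ (by positivity) φ
  have hψ'' : Wm φ - D.W φ = Wm ψ - D.W ψ := hψ'
  rw [hψ'']
  have h1 := D.rel 0 ψ
  have iD := eL_intervalIntegrable D.mono 0 ψ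
  have h2 : Wm ψ - D.W ψ = ∫ u in (0:ℝ)..ψ, (Complex.I * e u * (D.L u : ℂ) - g u) := by
    rw [intervalIntegral.integral_sub iD (hgint 0 ψ)]
    simp only [hWm]
    linear_combination -h1
  rw [h2]
  have h3 : ‖∫ u in (0:ℝ)..ψ, (Complex.I * e u * (D.L u : ℂ) - g u)‖ ≤
      ∫ u in (0:ℝ)..ψ, |Lm u - D.L u| := by
    refine (intervalIntegral.norm_integral_le_integral_norm hψ.1).trans (le_of_eq ?_)
    congr 1
    funext u
    have : Complex.I * e u * (D.L u : ℂ) - g u = Complex.I * e u * ((D.L u - Lm u : ℝ) : ℂ) := by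
      simp only [hg]; push_cast; ring
    rw [this, norm_mul, norm_mul, Complex.norm_I, e_norm, one_mul, one_mul, Complex.norm_real,
      Real.norm_eq_abs, abs_sub_comm]
  refine h3.trans ?_
  have h4 := hL1 0
  rw [zero_add] at h4
  have h5 : ∫ u in (0:ℝ)..(2 * Real.pi), |Lm u - D.L u| =
      (∫ u in (0:ℝ)..ψ, |Lm u - D.L u|) + ∫ u in ψ..(2 * Real.pi), |Lm u - D.L u| :=
    (intervalIntegral.integral_add_adjacent_intervals (hdint _ _) (hdint _ _)).symm
  have h6 : 0 ≤ ∫ u in ψ..(2 * Real.pi), |Lm u - D.L u| :=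
    intervalIntegral.integral_nonneg hψ.2.le (fun u _ => abs_nonneg _)
  linarith

end Pool.Agent.R763.Bil
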