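import Pool.Agent.R763.Bil4

set_option autoImplicit false
open MeasureTheory Set Filter Topology

namespace Pool.Agent.R763.Bil

/-- `⟨x, e φ⟩` -/
noncomputable def tn (φ : ℝ) (x : ℂ) : ℝ := x.re * Real.cos φ + x.im * Real.sin φ

theorem tn_e (φ ψ : ℝ) : tn φ (e ψ) = Real.cos (ψ - φ) := by
  rw [tn, e_re, e_im, Real.cos_sub]
theorem tn_add (φ : ℝ) (x y : ℂ) : tn φ (x + y) = tn φ x + tn φ y := by
  simp only [tn, Complex.add_re, Complex.add_im]; ring
theorem tn_sub (φ : ℝ) (x y : ℂ) : tn φ (x - y) = tn φ x - tn φ y := by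
  simp only [tn, Complex.sub_re, Complex.sub_im]; ring
theorem tn_smul (φ r : ℝ) (x : ℂ) : tn φ (r • x) = r * tn φ x := by
  simp only [tn, Complex.real_smul, Complex.mul_re, Complex.mul_im, Complex.ofReal_re,
    Complex.ofReal_im]; ring

theorem pn_lt_of_interior {K : Set ℂ} {x : ℂ} (hx : x ∈ interior K) {φ M : ℝ}
    (hM : ∀ y ∈ K, pn φ y ≤ M) : pn φ x < M := by
  obtain ⟨ε, hε, hball⟩ := Metric.mem_nhds_iff.1 (mem_interior_iff_mem_nhds.1 hx)
  have hy : x + (ε / 2) • e (φ - Real.pi / 2) ∈ K := by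
    apply hball
    rw [Metric.mem_ball, dist_eq_norm, add_sub_cancel_left, norm_smul, e_norm, Real.norm_eq_abs,
      abs_of_pos (by linarith)]
    linarith
  have h1 := hM _ hy
  rw [pn_add, pn_smul, pn_e, show φ - (φ - Real.pi / 2) = Real.pi / 2 by ring,
    Real.sin_pi_div_two] at h1
  linarith

theorem exists_shift {x : ℝ} (h : 0 < Real.sin x) :
    ∃ n : ℤ, 0 < x + n * (2 * Real.pi) ∧ x + n * (2 * Real.pi) < Real.pi := by
  have hpi := Real.pi_pos
  have h1 := Int.floor_le (x / (2 * Real.pi))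
  have h2 := Int.lt_floor_add_one (x / (2 * Real.pi))
  rw [le_div_iff₀ (by positivity)] at h1
  rw [div_lt_iff₀ (by positivity)] at h2
  set n : ℤ := ⌊x / (2 * Real.pi)⌋
  have h3 : 0 < Real.sin (x + ((-n : ℤ) : ℝ) * (2 * Real.pi)) := by
    rw [Real.sin_add_int_mul_two_pi]; exact h
  refine ⟨-n, ?_, ?_⟩
  · rcases eq_or_lt_of_le (show 0 ≤ x + ((-n : ℤ) : ℝ) * (2 * Real.pi) by push_cast; linarith) with h4 | h4
    · rw [← h4, Real.sin_zero] at h3; exact absurd h3 (lt_irrefl _)
    · exact h4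
  · by_contra hcon
    push Not at hcon
    have h5 : x + ((-n : ℤ) : ℝ) * (2 * Real.pi) < 2 * Real.pi := by push_cast; linarith
    have h6 : 0 ≤ Real.sin (x + ((-n : ℤ) : ℝ) * (2 * Real.pi) - Real.pi) :=
      Real.sin_nonneg_of_nonneg_of_le_pi (by linarith) (by linarith)
    rw [Real.sin_sub_pi] at h6
    linarith

/-- working data of a convex curve -/
structure CC where
  C : ℝ → ℂ
  K : Set ℂ
  z : ℂ
  r : ℝ → ℝ
  th : ℝ → ℝ
  per : ∀ q, C (q + 1) = C q
  arc : ∀ a b, a ≤ b → eVariationOn C (Icc a b) = ENNReal.ofReal (b - a)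
  compact : IsCompact K
  conv : Convex ℝ K
  zint : z ∈ interior K
  front : frontier K = range C
  thmono : StrictMono th
  thper : ∀ q, th (q + 1) = th q + 2 * Real.pi
  rpos : ∀ q, 0 < r q
  polar : ∀ q, C q = z + r q • e (th q)

theorem per_int {C : ℝ → ℂ} (per : ∀ q, C (q + 1) = C q) (q : ℝ) (n : ℤ) : C (q + n) = C q := by
  have h : Function.Periodic C 1 := per
  have := h.int_mul n q
  rwa [mul_one] at this

theorem quasiper_int {th : ℝ → ℝ} {c : ℝ} (hper : ∀ q, th (q + 1) = th q + c) (q : ℝ) (n : ℤ) :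
    th (q + n) = th q + n * c := by
  have h : Function.Periodic (fun q => th q - q * c) 1 := by
    intro q
    simp only
    rw [hper]; ring
  have := h.int_mul n q
  simp only [mul_one] at this
  linear_combination this

namespace CC
variable (A : CC)

theorem C_int (q : ℝ) (n : ℤ) : A.C (q + n) = A.C q := per_int A.per q n

theorem th_int (q : ℝ) (n : ℤ) : A.th (q + n) = A.th q + n * (2 * Real.pi) := quasiper_int A.thper q n

/-- `φ` is the tangent angle of a support line at `C q` -/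
def N (q φ : ℝ) : Prop := A.th q < φ ∧ φ < A.th q + Real.pi ∧ ∀ x ∈ A.K, pn φ x ≤ pn φ (A.C q)

theorem C_mem (q : ℝ) : A.C q ∈ A.K := by
  have : A.C q ∈ frontier A.K := by rw [A.front]; exact mem_range_self q
  exact A.compact.isClosed.frontier_subset this

theorem C_not_int (q : ℝ) : A.C q ∉ interior A.K := by
  have : A.C q ∈ frontier A.K := by rw [A.front]; exact mem_range_self q
  rw [A.compact.isClosed.frontier_eq] at this
  exact this.2

theorem pn_C (φ q : ℝ) : pn φ (A.C q) = pn φ A.z + A.r q * Real.sin (φ - A.th q) := by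
  rw [A.polar, pn_add, pn_smul, pn_e]

theorem sin_pos_of_support {q φ : ℝ} (h : ∀ x ∈ A.K, pn φ x ≤ pn φ (A.C q)) :
    0 < Real.sin (φ - A.th q) := by
  have h1 := pn_lt_of_interior A.zint h
  rw [A.pn_C] at h1
  have h2 : 0 < A.r q * Real.sin (φ - A.th q) := by linarith
  exact (pos_iff_pos_of_mul_pos h2).1 (A.rpos q)

theorem pn_int (φ : ℝ) (n : ℤ) (x : ℂ) : pn (φ + n * (2 * Real.pi)) x = pn φ x := by
  rw [pn, Real.sin_add_int_mul_two_pi, Real.cos_add_int_mul_two_pi, pn]

theorem exists_q (φ : ℝ) : ∃ q, A.N q φ := by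
  obtain ⟨x, hx, hmax⟩ := A.compact.exists_isMaxOn ⟨A.z, interior_subset A.zint⟩
    (SD.pn_continuous φ).continuousOn
  have hx1 : x ∈ frontier A.K := by
    rw [A.compact.isClosed.frontier_eq]
    refine ⟨hx, fun hint => ?_⟩
    exact lt_irrefl _ (pn_lt_of_interior hint (fun y hy => hmax hy))
  rw [A.front] at hx1
  obtain ⟨q, rfl⟩ := hx1
  have h1 : ∀ x ∈ A.K, pn φ x ≤ pn φ (A.C q) := fun y hy => hmax hy
  obtain ⟨n, h2, h3⟩ := exists_shift (A.sin_pos_of_support h1)
  refine ⟨q + ((-n : ℤ) : ℝ), ?_, ?_, ?_⟩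
  · rw [A.th_int]; push_cast; linarith
  · rw [A.th_int]; push_cast; linarith
  · rw [A.C_int]; exact h1

theorem exists_phi (q : ℝ) : ∃ φ, A.N q φ := by
  obtain ⟨f, hf⟩ := geometric_hahn_banach_open_point A.conv.interior isOpen_interior (A.C_not_int q)
  have hf0 : f ≠ 0 := by
    intro h
    have := hf A.z A.zint
    rw [h] at this
    simp at this
  obtain ⟨c, hc, φ, hφ⟩ := exists_pn hf0
  have h1 : ∀ x ∈ A.K, pn φ x ≤ pn φ (A.C q) := by
    intro x hx
    have hx2 : x ∈ closure (interior A.K) := by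
      rw [A.conv.closure_interior_eq_closure_of_nonempty_interior ⟨A.z, A.zint⟩]
      exact subset_closure hx
    have hcl : IsClosed {y | pn φ y ≤ pn φ (A.C q)} :=
      isClosed_le (SD.pn_continuous φ) continuous_const
    refine closure_minimal ?_ hcl hx2
    intro y hy
    have := hf y hy
    rw [hφ, hφ] at this
    exact (lt_of_mul_lt_mul_left this hc.le).le
  obtain ⟨n, h2, h3⟩ := exists_shift (A.sin_pos_of_support h1)
  refine ⟨φ + n * (2 * Real.pi), by linarith, by linarith, ?_⟩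
  intro x hx
  rw [pn_int, pn_int]
  exact h1 x hx

theorem N_int {q φ : ℝ} (h : A.N q φ) (n : ℤ) : A.N (q + n) (φ + n * (2 * Real.pi)) := by
  refine ⟨?_, ?_, ?_⟩
  · rw [A.th_int]; linarith [h.1]
  · rw [A.th_int]; linarith [h.2.1]
  · intro x hx
    rw [pn_int, pn_int, A.C_int]; exact h.2.2 x hx

theorem angle_le {q q' φ φ' : ℝ} (h : A.N q φ) (h' : A.N q' φ') (hq : q < q') : φ ≤ φ' := by
  by_contra hcon
  push Not at hcon
  have ht := A.thmono hq
  have h1 := h.2.2 _ (A.C_mem q')
  have h2 := h'.2.2 _ (A.C_mem q)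
  rw [A.pn_C, A.pn_C] at h1 h2
  have r0 := A.rpos q
  have r1 := A.rpos q'
  have a1 := h.1
  have a2 := h.2.1
  have b1 := h'.1
  have b2 := h'.2.1
  have s1 : 0 < Real.sin (φ - A.th q') := Real.sin_pos_of_pos_of_lt_pi (by linarith) (by linarith)
  have s2 : 0 < Real.sin (φ - A.th q) := Real.sin_pos_of_pos_of_lt_pi (by linarith) (by linarith)
  have s3 : 0 < Real.sin (φ' - A.th q) := Real.sin_pos_of_pos_of_lt_pi (by linarith) (by linarith)
  have s4 : 0 < Real.sin (φ' - A.th q') := Real.sin_pos_of_pos_of_lt_pi (by linarith) (by linarith)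
  have s5 : 0 < Real.sin (φ - φ') := Real.sin_pos_of_pos_of_lt_pi (by linarith) (by linarith)
  have s6 : 0 < Real.sin (A.th q' - A.th q) := Real.sin_pos_of_pos_of_lt_pi (by linarith) (by linarith)
  have hid : Real.sin (φ - A.th q') * Real.sin (φ' - A.th q) - Real.sin (φ - A.th q) * Real.sin (φ' - A.th q')
      = Real.sin (φ - φ') * Real.sin (A.th q' - A.th q) := by
    simp only [Real.sin_sub]
    have c1 := Real.sin_sq_add_cos_sq (A.th q)
    have c2 := Real.sin_sq_add_cos_sq (A.th q')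
    ring
  have m1 : (A.r q' * Real.sin (φ - A.th q')) * (A.r q * Real.sin (φ' - A.th q)) ≤
      (A.r q * Real.sin (φ - A.th q)) * (A.r q' * Real.sin (φ' - A.th q')) :=
    mul_le_mul (by linarith) (by linarith) (by positivity) (by positivity)
  have m2 : 0 < (A.r q * A.r q') * (Real.sin (φ - φ') * Real.sin (A.th q' - A.th q)) := by positivity
  rw [← hid] at m2
  nlinarith

theorem arc_le {q q' φ φ' : ℝ} (h : A.N q φ) (h' : A.N q' φ') (hφ : φ < φ') : q ≤ q' := by
  by_contra hcon
  push Not at hcon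
  have := A.angle_le h' h hcon
  linarith

/-- decomposition of a chord -/
theorem chord_decomp {u v φu φv : ℝ} (hu : A.N u φu) (hv : A.N v φv) (huv : u < v)
    (hlt : φv < φu + Real.pi) :
    ∃ x y : ℝ, 0 ≤ x ∧ 0 ≤ y ∧ A.C v - A.C u = x • e φu + y • e φv := by
  have hle := A.angle_le hu hv huv
  have hpu : pn φu (A.C v - A.C u) ≤ 0 := by
    rw [pn_sub]; have := hu.2.2 _ (A.C_mem v); linarith
  have hpv : 0 ≤ pn φv (A.C v - A.C u) := by
    rw [pn_sub]; have := hv.2.2 _ (A.C_mem u); linarith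
  rcases eq_or_lt_of_le hle with h | h
  · subst h
    have hp0 : pn φu (A.C v - A.C u) = 0 := le_antisymm hpu hpv
    refine ⟨tn φu (A.C v - A.C u), 0, ?_, le_rfl, ?_⟩
    · have h1 : A.r v * Real.sin (φu - A.th v) = A.r u * Real.sin (φu - A.th u) := by
        rw [pn_sub, A.pn_C, A.pn_C] at hp0; linarith
      have h2 : tn φu (A.C v - A.C u) = A.r v * Real.cos (φu - A.th v) - A.r u * Real.cos (φu - A.th u) := by
        rw [tn_sub, A.polar, A.polar u, tn_add, tn_add, tn_smul, tn_smul, tn_e, tn_e,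
          ← Real.cos_neg, ← Real.cos_neg (A.th u - φu), neg_sub, neg_sub]
        ring
      have ht := A.thmono huv
      have s1 : 0 < Real.sin (φu - A.th v) :=
        Real.sin_pos_of_pos_of_lt_pi (by linarith [hv.1]) (by linarith [hv.2.1])
      have s2 : 0 < Real.sin (φu - A.th u) :=
        Real.sin_pos_of_pos_of_lt_pi (by linarith [hu.1]) (by linarith [hu.2.1])
      have s3 : 0 < Real.sin (A.th v - A.th u) :=
        Real.sin_pos_of_pos_of_lt_pi (by linarith) (by linarith [hv.1, hu.2.1])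
      have h3 : (Real.sin (φu - A.th v) * Real.sin (φu - A.th u)) * tn φu (A.C v - A.C u) =
          (A.r v * Real.sin (φu - A.th v)) * Real.sin (A.th v - A.th u) := by
        have h4 : Real.sin (A.th v - A.th u) = Real.sin (φu - A.th u) * Real.cos (φu - A.th v) -
            Real.cos (φu - A.th u) * Real.sin (φu - A.th v) := by
          rw [← Real.sin_sub]; congr 1; ring
        rw [h2, h4]
        linear_combination (-Real.cos (φu - A.th u) * Real.sin (φu - A.th v)) * (-h1)
      have h5 : 0 < (Real.sin (φu - A.th v) * Real.sin (φu - A.th u)) * tn φu (A.C v - A.C u) := by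
        rw [h3]
        have := A.rpos v
        positivity
      exact (pos_iff_pos_of_mul_pos h5).1 (by positivity) |>.le
    · rw [zero_smul, add_zero]
      set D := A.C v - A.C u
      have h5 := Real.sin_sq_add_cos_sq φu
      simp only [pn] at hp0
      apply Complex.ext
      · rw [Complex.real_smul, Complex.re_ofReal_mul, e_re, tn]
        linear_combination (-D.re) * h5 + Real.sin φu * hp0
      · rw [Complex.real_smul, Complex.im_ofReal_mul, e_im, tn]
        linear_combination (-D.im) * h5 - Real.cos φu * hp0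
  · have hs : 0 < Real.sin (φv - φu) := Real.sin_pos_of_pos_of_lt_pi (by linarith) (by linarith)
    refine ⟨pn φv (A.C v - A.C u) / Real.sin (φv - φu), -pn φu (A.C v - A.C u) / Real.sin (φv - φu),
      div_nonneg hpv hs.le, div_nonneg (by linarith) hs.le, ?_⟩
    set D := A.C v - A.C u
    apply Complex.ext
    · rw [Complex.add_re, Complex.real_smul, Complex.re_ofReal_mul, Complex.real_smul,
        Complex.re_ofReal_mul, e_re, e_re]
      field_simp
      rw [pn, pn, Real.sin_sub]; ring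
    · rw [Complex.add_im, Complex.real_smul, Complex.im_ofReal_mul, Complex.real_smul,
        Complex.im_ofReal_mul, e_im, e_im]
      field_simp
      rw [pn, pn, Real.sin_sub]; ring

theorem chord_le {u v φu φv a b : ℝ} (hu : A.N u φu) (hv : A.N v φv) (huv : u < v)
    (ha : a ≤ φu) (hb : φv ≤ b) (hab : b ≤ a + 1) :
    ‖A.C v - A.C u‖ * Real.cos (b - a) ≤ tn a (A.C v) - tn a (A.C u) := by
  have hpi := Real.pi_gt_three
  have hle := A.angle_le hu hv huv
  obtain ⟨x, y, hx, hy, hD⟩ := A.chord_decomp hu hv huv (by linarith)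
  have hcos : 0 < Real.cos (b - a) :=
    Real.cos_pos_of_mem_Ioo ⟨by linarith, by linarith⟩
  have h1 : ‖A.C v - A.C u‖ ≤ x + y := by
    rw [hD]
    refine (norm_add_le _ _).trans (le_of_eq ?_)
    rw [norm_smul, norm_smul, e_norm, e_norm, Real.norm_eq_abs, Real.norm_eq_abs, abs_of_nonneg hx,
      abs_of_nonneg hy, mul_one, mul_one]
  rw [← tn_sub, hD, tn_add, tn_smul, tn_smul, tn_e, tn_e]
  have h2 : Real.cos (b - a) ≤ Real.cos (φu - a) :=
    Real.cos_le_cos_of_nonneg_of_le_pi (by linarith) (by linarith) (by linarith)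
  have h3 : Real.cos (b - a) ≤ Real.cos (φv - a) :=
    Real.cos_le_cos_of_nonneg_of_le_pi (by linarith) (by linarith) (by linarith)
  have h4 := mul_le_mul_of_nonneg_left h2 hx
  have h5 := mul_le_mul_of_nonneg_left h3 hy
  rw [hD] at h1
  have h6 := mul_le_mul_of_nonneg_right h1 hcos.le
  linarith

theorem norm_le {s t : ℝ} (hst : s ≤ t) : ‖A.C t - A.C s‖ ≤ t - s := by
  have h1 := eVariationOn.edist_le A.C (s := Icc s t) (x := t) (y := s) ⟨hst, le_rfl⟩ ⟨le_rfl, hst⟩
  rw [A.arc s t hst, edist_dist, dist_eq_norm] at h1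
  exact (ENNReal.ofReal_le_ofReal_iff (by linarith)).1 h1

theorem length_le {s t a b : ℝ} (hs : A.N s a) (ht : A.N t b) (hst : s < t) (hab : b ≤ a + 1) :
    (t - s) * Real.cos (b - a) ≤ tn a (A.C t - A.C s) := by
  have hpi := Real.pi_gt_three
  have hab0 := A.angle_le hs ht hst
  have hcos : 0 < Real.cos (b - a) :=
    Real.cos_pos_of_mem_Ioo ⟨by linarith, by linarith⟩
  -- normals
  have hn1 : ∀ u, s ≤ u → ∃ φ, A.N u φ ∧ a ≤ φ := by
    intro u hu
    rcases eq_or_lt_of_le hu with h | h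
    · exact ⟨a, h ▸ hs, le_rfl⟩
    · obtain ⟨φ, hφ⟩ := A.exists_phi u
      exact ⟨φ, hφ, A.angle_le hs hφ h⟩
  have hn2 : ∀ u, u ≤ t → ∃ φ, A.N u φ ∧ φ ≤ b := by
    intro u hu
    rcases eq_or_lt_of_le hu with h | h
    · exact ⟨b, h ▸ ht, le_rfl⟩
    · obtain ⟨φ, hφ⟩ := A.exists_phi u
      exact ⟨φ, hφ, A.angle_le hφ ht h⟩
  set g : ℝ → ℝ := fun u => tn a (A.C u) / Real.cos (b - a) with hg
  have hchord : ∀ u v, s ≤ u → u ≤ v → v ≤ t → ‖A.C v - A.C u‖ ≤ g v - g u := by
    intro u v hu huv hv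
    rcases eq_or_lt_of_le huv with h | h
    · rw [h]; simp
    · obtain ⟨φu, hφu, hau⟩ := hn1 u hu
      obtain ⟨φv, hφv, hvb⟩ := hn2 v hv
      have := A.chord_le hφu hφv h hau hvb hab
      rw [hg]
      simp only
      rw [← sub_div, le_div_iff₀ hcos]
      exact this
  have hvar : eVariationOn A.C (Icc s t) ≤ ENNReal.ofReal (g t - g s) := by
    apply iSup_le
    rintro ⟨n, u, hu, hus⟩
    simp only
    have h1 : ∀ i ∈ Finset.range n, edist (A.C (u (i + 1))) (A.C (u i)) ≤
        ENNReal.ofReal (g (u (i + 1)) - g (u i)) := by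
      intro i _
      rw [edist_dist, dist_eq_norm]
      exact ENNReal.ofReal_le_ofReal (hchord _ _ (hus i).1 (hu (Nat.le_succ i)) (hus (i + 1)).2)
    refine (Finset.sum_le_sum h1).trans ?_
    rw [← ENNReal.ofReal_sum_of_nonneg]
    · apply ENNReal.ofReal_le_ofReal
      rw [Finset.sum_range_sub (fun i => g (u i))]
      have e1 := (norm_nonneg _).trans (hchord (u n) t (hus n).1 (hus n).2 le_rfl)
      have e2 := (norm_nonneg _).trans (hchord s (u 0) le_rfl (hus 0).1 (hus 0).2)
      linarith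
    · intro i _
      exact (norm_nonneg _).trans (hchord _ _ (hus i).1 (hu (Nat.le_succ i)) (hus (i + 1)).2)
  rw [A.arc s t hst.le] at hvar
  have h2 : t - s ≤ g t - g s := by
    rcases ENNReal.ofReal_le_ofReal_iff'.1 hvar with h | h
    · exact h
    · linarith
  simp only [hg] at h2
  rw [← sub_div, le_div_iff₀ hcos] at h2
  rw [tn_sub]; exact h2

/-- the chord estimate -/
theorem chord_est {s t a b : ℝ} (hs : A.N s a) (ht : A.N t b) (hst : s ≤ t) (h0 : a ≤ b) (hab : b ≤ a + 1) :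
    ‖A.C t - A.C s - (t - s) • e a‖ ≤ (b - a) * (t - s) := by
  rcases eq_or_lt_of_le hst with h | h
  · rw [h]; simp
  · have h1 := A.length_le hs ht h hab
    have h2 := A.norm_le hst
    set D := A.C t - A.C s
    have h3 : ‖D - (t - s) • e a‖ ^ 2 = ‖D‖ ^ 2 - 2 * (t - s) * tn a D + (t - s) ^ 2 := by
      rw [← Complex.normSq_eq_norm_sq, ← Complex.normSq_eq_norm_sq, Complex.normSq_apply,
        Complex.normSq_apply, tn]
      have h5 := Real.sin_sq_add_cos_sq a
      simp only [Complex.sub_re, Complex.sub_im, Complex.real_smul, Complex.re_ofReal_mul,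
        Complex.im_ofReal_mul, e_re, e_im]
      linear_combination (t - s) ^ 2 * h5
    have h4 : ‖D‖ ^ 2 ≤ (t - s) ^ 2 := pow_le_pow_left₀ (norm_nonneg _) h2 2
    have h5 := Real.one_sub_sq_div_two_le_cos (x := b - a)
    have h6 : 0 < t - s := by linarith
    have h7 : (t - s) * (1 - (b - a) ^ 2 / 2) ≤ tn a D :=
      (mul_le_mul_of_nonneg_left h5 h6.le).trans h1
    have h8 := mul_le_mul_of_nonneg_left h7 h6.le
    apply le_of_sq_le_sq _ (mul_nonneg (by linarith) h6.le)
    rw [h3]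
    nlinarith

end CC

end Pool.Agent.R763.Bil
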