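import Pool.Agent.R763.Bil5

set_option autoImplicit false
open MeasureTheory Set Filter Topology

namespace Pool.Agent.R763.Bil

theorem const_of_local {F : ℝ → ℂ} {m : ℝ → ℝ} {c : ℝ}
    (h : ∀ u v, u ≤ v → v ≤ u + 1 → ‖F v - F u‖ ≤ c * (v - u) * (m v - m u)) {a b : ℝ} (hab : a ≤ b) :
    F b = F a := by
  by_contra hne
  have hpos : 0 < ‖F b - F a‖ := norm_pos_iff.2 (sub_ne_zero.2 hne)
  obtain ⟨n, hn⟩ := exists_nat_gt (max (b - a) (max 0 (c * (b - a) * (m b - m a) / ‖F b - F a‖)))
  have hn1 : b - a < n := (le_max_left _ _).trans_lt hn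
  have hn0 : (0:ℝ) < n := (le_max_left _ _).trans_lt ((le_max_right _ _).trans_lt hn)
  have hn2 : c * (b - a) * (m b - m a) / ‖F b - F a‖ < n :=
    (le_max_right _ _).trans_lt ((le_max_right _ _).trans_lt hn)
  rw [div_lt_iff₀ hpos] at hn2
  set x : ℕ → ℝ := fun i => a + i * ((b - a) / n) with hx
  have hstep : ∀ i, x (i + 1) - x i = (b - a) / n := by
    intro i; simp only [hx]; push_cast; ring
  have hstep0 : 0 ≤ (b - a) / n := div_nonneg (by linarith) hn0.le
  have hstep1 : (b - a) / n ≤ 1 := by rw [div_le_one hn0]; exact hn1.le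
  have h1 : F b - F a = ∑ i ∈ Finset.range n, (F (x (i + 1)) - F (x i)) := by
    rw [Finset.sum_range_sub (fun i => F (x i))]
    have e1 : x n = b := by simp only [hx]; field_simp; ring
    have e2 : x 0 = a := by simp [hx]
    rw [e1, e2]
  have h2 : m b - m a = ∑ i ∈ Finset.range n, (m (x (i + 1)) - m (x i)) := by
    rw [Finset.sum_range_sub (fun i => m (x i))]
    have e1 : x n = b := by simp only [hx]; field_simp; ring
    have e2 : x 0 = a := by simp [hx]
    rw [e1, e2]
  have h3 : ‖F b - F a‖ ≤ ∑ i ∈ Finset.range n, c * ((b - a) / n) * (m (x (i + 1)) - m (x i)) := by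
    rw [h1]
    refine (norm_sum_le _ _).trans (Finset.sum_le_sum ?_)
    intro i _
    have := h (x i) (x (i + 1)) (by have := hstep i; linarith) (by have := hstep i; linarith)
    rw [hstep] at this
    exact this
  rw [← Finset.mul_sum, ← h2] at h3
  have h4 : c * ((b - a) / n) * (m b - m a) = (c * (b - a) * (m b - m a)) / n := by
    field_simp
  rw [h4, le_div_iff₀ hn0] at h3
  linarith

namespace CC
variable (A : CC)

noncomputable def ch (φ : ℝ) : ℝ := (A.exists_q φ).choose
theorem ch_spec (φ : ℝ) : A.N (A.ch φ) φ := (A.exists_q φ).choose_spec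

/-- the arc length as a function of the tangent angle -/
noncomputable def L (φ : ℝ) : ℝ :=
  A.ch (φ + ((-⌊φ / (2 * Real.pi)⌋ : ℤ) : ℝ) * (2 * Real.pi)) + ⌊φ / (2 * Real.pi)⌋

theorem L_spec (φ : ℝ) : A.N (A.L φ) φ := by
  have h1 := A.N_int (A.ch_spec (φ + ((-⌊φ / (2 * Real.pi)⌋ : ℤ) : ℝ) * (2 * Real.pi))) ⌊φ / (2 * Real.pi)⌋
  have h2 : φ + ((-⌊φ / (2 * Real.pi)⌋ : ℤ) : ℝ) * (2 * Real.pi) + (⌊φ / (2 * Real.pi)⌋ : ℝ) * (2 * Real.pi) = φ := by
    push_cast; ring
  rw [h2] at h1
  exact h1

theorem L_per (φ : ℝ) : A.L (φ + 2 * Real.pi) = A.L φ + 1 := by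
  have hpi := Real.pi_ne_zero
  have h1 : (φ + 2 * Real.pi) / (2 * Real.pi) = φ / (2 * Real.pi) + 1 := by field_simp
  have h2 : ⌊(φ + 2 * Real.pi) / (2 * Real.pi)⌋ = ⌊φ / (2 * Real.pi)⌋ + 1 := by
    rw [h1, Int.floor_add_one]
  rw [L, L, h2]
  have h3 : φ + 2 * Real.pi + ((-(⌊φ / (2 * Real.pi)⌋ + 1) : ℤ) : ℝ) * (2 * Real.pi) =
      φ + ((-⌊φ / (2 * Real.pi)⌋ : ℤ) : ℝ) * (2 * Real.pi) := by
    push_cast; ring
  rw [h3]; push_cast; ring

theorem L_mono : Monotone A.L := by
  intro x y hxy
  rcases eq_or_lt_of_le hxy with h | h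
  · rw [h]
  · exact A.arc_le (A.L_spec x) (A.L_spec y) h

noncomputable def W (φ : ℝ) : ℂ := A.C (A.L φ) - A.L φ • e φ

theorem e_integral (a b : ℝ) : ∫ u in a..b, Complex.I * e u = e b - e a := by
  apply intervalIntegral.integral_eq_sub_of_hasDerivAt (fun x _ => e_hasDerivAt x)
  exact (continuous_const.mul e_continuous).intervalIntegrable _ _

theorem W_est {u v : ℝ} (huv : u ≤ v) (hv : v ≤ u + 1) :
    ‖A.W v - A.W u + ∫ x in u..v, Complex.I * e x * (A.L x : ℂ)‖ ≤ 2 * (v - u) * (A.L v - A.L u) := by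
  have hL := A.L_mono huv
  have i1 := eL_intervalIntegrable A.L_mono u v
  have i2 : IntervalIntegrable (fun x => Complex.I * e x) volume u v :=
    (continuous_const.mul e_continuous).intervalIntegrable _ _
  have h1 : ∫ x in u..v, Complex.I * e x * ((A.L x - A.L v : ℝ) : ℂ) =
      (∫ x in u..v, Complex.I * e x * (A.L x : ℂ)) - (A.L v : ℂ) * (e v - e u) := by
    have e1 : ∀ x, Complex.I * e x * ((A.L x - A.L v : ℝ) : ℂ) =
        Complex.I * e x * (A.L x : ℂ) - (A.L v : ℂ) * (Complex.I * e x) := by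
      intro x; push_cast; ring
    simp_rw [e1]
    rw [intervalIntegral.integral_sub i1 (i2.const_mul _), intervalIntegral.integral_const_mul,
      e_integral]
  have h2 : A.W v - A.W u + ∫ x in u..v, Complex.I * e x * (A.L x : ℂ) =
      (A.C (A.L v) - A.C (A.L u) - (A.L v - A.L u) • e u) +
        ∫ x in u..v, Complex.I * e x * ((A.L x - A.L v : ℝ) : ℂ) := by
    rw [h1, W, W]
    simp only [Complex.real_smul]
    push_cast; ring
  rw [h2]
  have h3 := A.chord_est (A.L_spec u) (A.L_spec v) hL huv hv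
  have h4 : ‖∫ x in u..v, Complex.I * e x * ((A.L x - A.L v : ℝ) : ℂ)‖ ≤ (A.L v - A.L u) * |v - u| := by
    apply intervalIntegral.norm_integral_le_of_norm_le_const
    intro x hx
    rw [uIoc_of_le huv] at hx
    rw [norm_mul, norm_mul, Complex.norm_I, e_norm, one_mul, one_mul, Complex.norm_real,
      Real.norm_eq_abs]
    have a1 := A.L_mono hx.1.le
    have a2 := A.L_mono hx.2
    rw [abs_le]; constructor <;> linarith
  rw [abs_of_nonneg (by linarith)] at h4
  refine (norm_add_le _ _).trans ?_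
  nlinarith

/-- the monotone data of a convex curve -/
noncomputable def toMD : MD where
  L := A.L
  W := A.W
  mono := A.L_mono
  Lper := A.L_per
  Wper := by
    intro φ
    rw [W, W, A.L_per, A.per, e_add_two_pi, add_smul, one_smul]; ring
  rel := by
    have key : ∀ a b, a ≤ b → A.W b - A.W a = -∫ u in a..b, Complex.I * e u * (A.L u : ℂ) := by
      intro a b hab
      have hF : (fun x => A.W x + ∫ u in a..x, Complex.I * e u * (A.L u : ℂ)) b =
          (fun x => A.W x + ∫ u in a..x, Complex.I * e u * (A.L u : ℂ)) a := by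
        apply const_of_local (m := A.L) (c := 2) _ hab
        intro u v huv hv
        have h1 := A.W_est huv hv
        have h2 : (∫ x in a..v, Complex.I * e x * (A.L x : ℂ)) - ∫ x in a..u, Complex.I * e x * (A.L x : ℂ) =
            ∫ x in u..v, Complex.I * e x * (A.L x : ℂ) :=
          intervalIntegral.integral_interval_sub_left (eL_intervalIntegrable A.L_mono a v)
            (eL_intervalIntegrable A.L_mono a u)
        have h3 : (A.W v + ∫ x in a..v, Complex.I * e x * (A.L x : ℂ)) -
            (A.W u + ∫ x in a..u, Complex.I * e x * (A.L x : ℂ)) =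
            A.W v - A.W u + ∫ x in u..v, Complex.I * e x * (A.L x : ℂ) := by
          rw [← h2]; ring
        show ‖(A.W v + ∫ x in a..v, Complex.I * e x * (A.L x : ℂ)) -
            (A.W u + ∫ x in a..u, Complex.I * e x * (A.L x : ℂ))‖ ≤ _
        rw [h3]; exact h1
      simp only [intervalIntegral.integral_same, add_zero] at hF
      linear_combination hF
    intro a b
    rcases le_total a b with h | h
    · exact key a b h
    · have := key b a h
      rw [intervalIntegral.integral_symm]
      linear_combination -this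

theorem C_eq {q φ : ℝ} (h : A.N q φ) : A.C q = A.W φ + q • e φ := by
  have h1 := A.L_spec φ
  rw [W]
  rcases le_total q (A.L φ) with h2 | h2
  · have h3 := A.chord_est h h1 h2 le_rfl (by linarith)
    rw [sub_self, zero_mul] at h3
    have h4 := norm_le_zero_iff.1 h3
    rw [sub_smul] at h4
    linear_combination -h4
  · have h3 := A.chord_est h1 h h2 le_rfl (by linarith)
    rw [sub_self, zero_mul] at h3
    have h4 := norm_le_zero_iff.1 h3
    rw [sub_smul] at h4
    linear_combination h4

theorem E_diff (q a b : ℝ) : (A.W b + q • e b) - (A.W a + q • e a) =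
    ∫ u in a..b, Complex.I * e u * ((q - A.L u : ℝ) : ℂ) := by
  have i1 := eL_intervalIntegrable A.L_mono a b
  have i2 : IntervalIntegrable (fun x => Complex.I * e x) volume a b :=
    (continuous_const.mul e_continuous).intervalIntegrable _ _
  have e1 : ∀ x, Complex.I * e x * ((q - A.L x : ℝ) : ℂ) =
      (q : ℂ) * (Complex.I * e x) - Complex.I * e x * (A.L x : ℂ) := by
    intro x; push_cast; ring
  simp_rw [e1]
  rw [intervalIntegral.integral_sub (i2.const_mul _) i1, intervalIntegral.integral_const_mul, e_integral]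
  have h := A.toMD.rel a b
  have h' : A.W b - A.W a = -∫ u in a..b, Complex.I * e u * (A.L u : ℂ) := h
  simp only [Complex.real_smul]
  linear_combination h'

theorem E_norm_le (q : ℝ) {a b : ℝ} (hab : a ≤ b) : ‖(A.W b + q • e b) - (A.W a + q • e a)‖ ≤
    ∫ u in a..b, |q - A.L u| := by
  rw [E_diff]
  refine (intervalIntegral.norm_integral_le_integral_norm hab).trans (le_of_eq ?_)
  congr 1
  funext u
  rw [norm_mul, norm_mul, Complex.norm_I, e_norm, one_mul, one_mul, Complex.norm_real,
      Real.norm_eq_abs]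

theorem close {S : SD} {ε : ℝ} (hε1 : ε ≤ 1)
    (h1 : ∀ φ, ‖S.X φ - S.L φ • e φ - A.W φ‖ ≤ ε)
    (h2 : ∀ a, ∫ u in a..(a + 2 * Real.pi), |S.L u - A.L u| ≤ ε) (q : ℝ) :
    ‖S.curve q - A.C q‖ ≤ 3 * ε := by
  have hpi := Real.pi_gt_three
  obtain ⟨ψ, hψ⟩ := A.exists_phi q
  set φ := S.inv q with hφ
  have hSL : S.L φ = q := S.L_inv q
  have hS : S.curve q = S.X φ := rfl
  have h3 := h1 φ
  rw [hSL] at h3
  have hint : ∀ a b, IntervalIntegrable (fun u => |S.L u - A.L u|) volume a b := fun a b =>
    ((S.hL.continuous.intervalIntegrable a b).sub A.L_mono.intervalIntegrable).abs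
  have hint2 : ∀ a b, IntervalIntegrable (fun u => |q - A.L u|) volume a b := fun a b =>
    ((continuous_const.intervalIntegrable a b).sub A.L_mono.intervalIntegrable).abs
  have h4pi : ∀ a, ∫ u in a..(a + 4 * Real.pi), |S.L u - A.L u| ≤ 2 * ε := by
    intro a
    have e1 := intervalIntegral.integral_add_adjacent_intervals (hint a (a + 2 * Real.pi))
      (hint (a + 2 * Real.pi) (a + 4 * Real.pi))
    have e2 := h2 a
    have e3 := h2 (a + 2 * Real.pi)
    rw [show a + 2 * Real.pi + 2 * Real.pi = a + 4 * Real.pi by ring] at e3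
    linarith
  have hkey : ‖(A.W φ + q • e φ) - (A.W ψ + q • e ψ)‖ ≤ 2 * ε := by
    rcases le_total ψ φ with h | h
    · -- `L ≥ q ≥ S.L` on `(ψ, φ)`
      have hu1 : ∀ u, ψ < u → q ≤ A.L u := fun u hu => A.arc_le hψ (A.L_spec u) hu
      have hu2 : ∀ u, u ≤ φ → S.L u ≤ q := fun u hu => by
        rw [← hSL]; exact S.strictMono.monotone hu
      have hle : φ ≤ ψ + 4 * Real.pi := by
        by_contra hcon
        push Not at hcon
        have e1 := h2 (ψ + 2 * Real.pi)
        have e2 : ∫ u in (ψ + 2 * Real.pi)..(ψ + 2 * Real.pi + 2 * Real.pi), (1:ℝ) ≤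
            ∫ u in (ψ + 2 * Real.pi)..(ψ + 2 * Real.pi + 2 * Real.pi), |S.L u - A.L u| := by
          apply intervalIntegral.integral_mono_on_of_le_Ioo (by linarith) intervalIntegrable_const (hint _ _)
          intro u hu
          have a1 := hu1 (u - 2 * Real.pi) (by linarith [hu.1])
          have a2 := A.L_per (u - 2 * Real.pi)
          rw [sub_add_cancel] at a2
          have a3 := hu2 u (by linarith [hu.2])
          rw [abs_sub_comm]
          exact (by linarith : (1:ℝ) ≤ A.L u - S.L u).trans (le_abs_self _)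
        rw [intervalIntegral.integral_const, smul_eq_mul] at e2
        linarith
      refine (A.E_norm_le q h).trans ?_
      have e1 : ∫ u in ψ..φ, |q - A.L u| ≤ ∫ u in ψ..φ, |S.L u - A.L u| := by
        apply intervalIntegral.integral_mono_on_of_le_Ioo h (hint2 _ _) (hint _ _)
        intro u hu
        have a1 := hu1 u hu.1
        have a2 := hu2 u hu.2.le
        rw [abs_sub_comm, abs_sub_comm (S.L u), abs_of_nonneg (by linarith)]
        exact (by linarith : A.L u - q ≤ A.L u - S.L u).trans (le_abs_self _)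
      have e2 : ∫ u in ψ..φ, |S.L u - A.L u| ≤ ∫ u in ψ..(ψ + 4 * Real.pi), |S.L u - A.L u| := by
        apply intervalIntegral.integral_mono_interval le_rfl h hle _ (hint _ _)
        exact Filter.Eventually.of_forall (fun u => abs_nonneg _)
      exact e1.trans (e2.trans (h4pi ψ))
    · have hu1 : ∀ u, u < ψ → A.L u ≤ q := fun u hu => A.arc_le (A.L_spec u) hψ hu
      have hu2 : ∀ u, φ ≤ u → q ≤ S.L u := fun u hu => by
        rw [← hSL]; exact S.strictMono.monotone hu
      have hle : ψ - 4 * Real.pi ≤ φ := by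
        by_contra hcon
        push Not at hcon
        have e1 := h2 (ψ - 4 * Real.pi)
        have e2 : ∫ u in (ψ - 4 * Real.pi)..(ψ - 4 * Real.pi + 2 * Real.pi), (1:ℝ) ≤
            ∫ u in (ψ - 4 * Real.pi)..(ψ - 4 * Real.pi + 2 * Real.pi), |S.L u - A.L u| := by
          apply intervalIntegral.integral_mono_on_of_le_Ioo (by linarith) intervalIntegrable_const (hint _ _)
          intro u hu
          have a1 := hu1 (u + 2 * Real.pi) (by linarith [hu.2])
          have a2 := A.L_per u
          have a3 := hu2 u (by linarith [hu.1])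
          exact (by linarith : (1:ℝ) ≤ S.L u - A.L u).trans (le_abs_self _)
        rw [intervalIntegral.integral_const, smul_eq_mul] at e2
        linarith
      rw [norm_sub_rev]
      refine (A.E_norm_le q h).trans ?_
      have e1 : ∫ u in φ..ψ, |q - A.L u| ≤ ∫ u in φ..ψ, |S.L u - A.L u| := by
        apply intervalIntegral.integral_mono_on_of_le_Ioo h (hint2 _ _) (hint _ _)
        intro u hu
        have a1 := hu1 u hu.2
        have a2 := hu2 u hu.1.le
        rw [abs_of_nonneg (by linarith)]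
        exact (by linarith : q - A.L u ≤ S.L u - A.L u).trans (le_abs_self _)
      have e2 : ∫ u in φ..ψ, |S.L u - A.L u| ≤ ∫ u in (ψ - 4 * Real.pi)..(ψ - 4 * Real.pi + 4 * Real.pi), |S.L u - A.L u| := by
        apply intervalIntegral.integral_mono_interval hle h (by linarith) _ (hint _ _)
        exact Filter.Eventually.of_forall (fun u => abs_nonneg _)
      exact e1.trans (e2.trans (h4pi (ψ - 4 * Real.pi)))
  rw [← A.C_eq hψ] at hkey
  have h5 : S.curve q - A.C q = (S.X φ - q • e φ - A.W φ) + ((A.W φ + q • e φ) - A.C q) := by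
    rw [hS]; ring
  rw [h5]
  refine (norm_add_le _ _).trans ?_
  linarith

theorem approx {ε : ℝ} (hε : 0 < ε) (hε1 : ε ≤ 1) : ∃ S : SD,
    (∀ φ, ‖S.X φ - S.L φ • e φ - A.W φ‖ ≤ ε) ∧ ∀ q, ‖S.curve q - A.C q‖ ≤ 3 * ε := by
  obtain ⟨S, h1, h2⟩ := smooth_approx A.toMD hε
  exact ⟨S, h1, A.close hε1 h1 h2⟩

end CC

/-! ### convex curves -/

/-- The curves of the question: a continuous simple closed curve of length one, parametrised
counterclockwise (winding number one around an interior point) by arc length, which bounds a convex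
set. -/
structure IsConvexCurve (C : ℝ → ℂ) : Prop where
  continuous : Continuous C
  periodic : ∀ q, C (q + 1) = C q
  inj : InjOn C (Ico 0 1)
  /-- arc length: the arc between the parameters `a ≤ b` has length `b - a` -/
  arclength : ∀ a b, a ≤ b → eVariationOn C (Icc a b) = ENNReal.ofReal (b - a)
  /-- `C` parametrises counterclockwise the boundary of a convex body `K` -/
  convex : ∃ K : Set ℂ, IsCompact K ∧ Convex ℝ K ∧ (interior K).Nonempty ∧ frontier K = range C ∧
    ∃ z ∈ interior K, ∃ th : ℝ → ℝ, Continuous th ∧ (∀ q, th (q + 1) = th q + 2 * Real.pi) ∧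
      ∀ q, C q - z = ‖C q - z‖ * Complex.exp (th q * Complex.I)

theorem IsConvexCurve.exists_CC {C : ℝ → ℂ} (hC : IsConvexCurve C) : ∃ A : CC, A.C = C := by
  obtain ⟨K, hK, hconv, _, hfr, z, hz, th, hth, hthper, hpolar⟩ := hC.convex
  have hCfr : ∀ q, C q ∈ frontier K := fun q => by rw [hfr]; exact mem_range_self q
  have hCK : ∀ q, C q ∈ K := fun q => hK.isClosed.frontier_subset (hCfr q)
  have hCni : ∀ q, C q ∉ interior K := fun q => by
    have := hCfr q
    rw [hK.isClosed.frontier_eq] at this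
    exact this.2
  have hrpos : ∀ q, 0 < ‖C q - z‖ := by
    intro q
    rw [norm_pos_iff, sub_ne_zero]
    intro h
    exact hCni q (h ▸ hz)
  -- rays from `z` meet the frontier once
  have hray : ∀ q q', th q = th q' → ¬ ‖C q - z‖ < ‖C q' - z‖ := by
    intro q q' hthq hlt
    have h1 : 0 < ‖C q - z‖ / ‖C q' - z‖ := div_pos (hrpos q) (hrpos q')
    have h2 : ‖C q - z‖ / ‖C q' - z‖ < 1 := by rw [div_lt_one (hrpos q')]; exact hlt
    set t := ‖C q - z‖ / ‖C q' - z‖ with ht
    have h3 : C q = (1 - t) • z + t • C q' := by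
      have e1 := hpolar q
      have e2 := hpolar q'
      rw [← hthq] at e2
      have e3 : ((‖C q - z‖ : ℝ) : ℂ) = (t : ℂ) * ((‖C q' - z‖ : ℝ) : ℂ) := by
        rw [ht]
        have := (hrpos q').ne'
        have h' : ((‖C q' - z‖ : ℝ) : ℂ) ≠ 0 := by exact_mod_cast this
        push_cast
        field_simp
      rw [Complex.real_smul, Complex.real_smul]
      push_cast
      linear_combination e1 + Complex.exp (th q * Complex.I) * e3 - (t : ℂ) * e2
    have h4 : C q ∈ interior K := by
      rw [h3]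
      exact hconv.combo_interior_self_mem_interior hz (hCK q') (by linarith) h1.le (by ring)
    exact hCni q h4
  have hinj : Function.Injective th := by
    intro q q' h
    have h1 : ‖C q - z‖ = ‖C q' - z‖ :=
      le_antisymm (not_lt.1 (hray q' q h.symm)) (not_lt.1 (hray q q' h))
    have h2 : C q = C q' := by
      have e1 := hpolar q
      have e2 := hpolar q'
      rw [← h, ← h1] at e2
      linear_combination e1 - e2
    have h3 : C (Int.fract q) = C (Int.fract q') := by
      have a1 := per_int hC.periodic q (-⌊q⌋)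
      have a2 := per_int hC.periodic q' (-⌊q'⌋)
      have b1 : q + ((-⌊q⌋ : ℤ) : ℝ) = Int.fract q := by rw [Int.fract]; push_cast; ring
      have b2 : q' + ((-⌊q'⌋ : ℤ) : ℝ) = Int.fract q' := by rw [Int.fract]; push_cast; ring
      rw [b1] at a1
      rw [b2] at a2
      rw [a1, a2, h2]
    have h4 := hC.inj ⟨Int.fract_nonneg q, Int.fract_lt_one q⟩
      ⟨Int.fract_nonneg q', Int.fract_lt_one q'⟩ h3
    have h5 : q = q' + ((⌊q⌋ - ⌊q'⌋ : ℤ) : ℝ) := by
      have a1 := Int.floor_add_fract q
      have a2 := Int.floor_add_fract q'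
      push_cast
      linarith
    have h6 := quasiper_int hthper q' (⌊q⌋ - ⌊q'⌋)
    rw [← h5, h] at h6
    have h7 : ((⌊q⌋ - ⌊q'⌋ : ℤ) : ℝ) * (2 * Real.pi) = 0 := by linarith
    have h8 : ((⌊q⌋ - ⌊q'⌋ : ℤ) : ℝ) = 0 := by
      rcases mul_eq_zero.1 h7 with h | h
      · exact h
      · exfalso; have := Real.pi_pos; linarith
    rw [h8] at h5
    linarith
  have hmono : StrictMono th := by
    rcases hth.strictMono_of_inj hinj with h | h
    · exact h
    · exfalso
      have h1 := h (show (0:ℝ) < 0 + 1 by norm_num)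
      rw [hthper] at h1
      have := Real.pi_pos
      linarith
  have hpol : ∀ q, C q = z + ‖C q - z‖ • e (th q) := by
    intro q
    have := hpolar q
    rw [Complex.real_smul, e]
    linear_combination this
  exact ⟨CC.mk C K z (fun q => ‖C q - z‖) th hC.periodic hC.arclength hK hconv hz hfr hmono hthper
    hrpos hpol, rfl⟩

/-- Every convex curve is the uniform limit of a `d_B`-Cauchy sequence of billiard tables. -/
theorem main {C : ℝ → ℂ} (hC : IsConvexCurve C) : ∃ α : ℕ → ℝ → ℂ, (∀ i, IsTable (α i)) ∧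
    (∀ ε > 0, ∃ N, ∀ i ≥ N, ∀ j ≥ N, dB (α i) (α j) < ENNReal.ofReal ε) ∧
    TendstoUniformly α C atTop := by
  obtain ⟨A, rfl⟩ := hC.exists_CC
  have hpos : ∀ i : ℕ, (0:ℝ) < 1 / ((i : ℝ) + 1) := fun i => by positivity
  have hle : ∀ i : ℕ, (1:ℝ) / ((i : ℝ) + 1) ≤ 1 := fun i => by
    rw [div_le_one (by positivity)]
    have : (0:ℝ) ≤ i := Nat.cast_nonneg i
    linarith
  choose S hS1 hS2 using fun i : ℕ => A.approx (hpos i) (hle i)
  have harch : ∀ ε > (0:ℝ), ∃ N : ℕ, ∀ i ≥ N, (1:ℝ) / ((i : ℝ) + 1) < ε := by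
    intro ε hε
    obtain ⟨N, hN⟩ := exists_nat_gt (1 / ε)
    refine ⟨N, fun i hi => ?_⟩
    rw [div_lt_iff₀ (by positivity)]
    rw [div_lt_iff₀ hε] at hN
    have : (N:ℝ) ≤ i := by exact_mod_cast hi
    nlinarith
  refine ⟨fun i => (S i).curve, fun i => (S i).table, ?_, ?_⟩
  · intro ε hε
    obtain ⟨N, hN⟩ := harch (ε / 4) (by linarith)
    refine ⟨N, fun i hi j hj => ?_⟩
    have h1 := SD.dB_le (S i) (S j) (B := 1 / ((i : ℝ) + 1) + 1 / ((j : ℝ) + 1)) (by
      intro φ
      have e1 : SD.Z (S i) (S j) φ = ((S j).X φ - (S j).L φ • e φ - A.W φ) -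
          ((S i).X φ - (S i).L φ • e φ - A.W φ) := by
        rw [SD.Z, sub_smul]; ring
      rw [e1]
      have a1 := hS1 i φ
      have a2 := hS1 j φ
      refine (norm_sub_le _ _).trans ?_
      linarith)
    refine lt_of_le_of_lt h1 ?_
    have a1 := hN i hi
    have a2 := hN j hj
    exact (ENNReal.ofReal_lt_ofReal_iff hε).2 (by linarith)
  · rw [Metric.tendstoUniformly_iff]
    intro ε hε
    obtain ⟨N, hN⟩ := harch (ε / 4) (by linarith)
    filter_upwards [eventually_ge_atTop N] with i hi q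
    have h1 := hS2 i q
    have h2 := hN i hi
    rw [dist_comm, dist_eq_norm]
    linarith

end Pool.Agent.R763.Bil
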