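import Mathlib

set_option autoImplicit false
open MeasureTheory Set Filter Topology
open scoped ContDiff

namespace Pool.Agent.R763.Chg

/-! ### definitions -/

/-- the scalar product of the plane -/
def dot (x y : ℝ × ℝ) : ℝ := x.1 * y.1 + x.2 * y.2

/-- the class `𝒦₂` of nonempty open bounded convex centrally symmetric sets -/
structure IsBody (K : Set (ℝ × ℝ)) : Prop where
  nonempty : K.Nonempty
  isOpen : IsOpen K
  bounded : Bornology.IsBounded K
  convex : Convex ℝ K
  symm : ∀ x ∈ K, -x ∈ K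

/-- the polar norm `Φ_K°` -/
noncomputable def polarNorm (K : Set (ℝ × ℝ)) (x : ℝ × ℝ) : ℝ := sSup ((fun y => dot x y) '' K)

/-- the polar set `K°` -/
def polarSet (K : Set (ℝ × ℝ)) : Set (ℝ × ℝ) := {x | polarNorm K x < 1}

noncomputable def divergence (φ : ℝ × ℝ → ℝ × ℝ) (x : ℝ × ℝ) : ℝ :=
  (fderiv ℝ φ x (1, 0)).1 + (fderiv ℝ φ x (0, 1)).2

/-- the anisotropic perimeter `P_K(E) = ∫_{∂*E} Φ_K°(ν_E) dℋ¹`, by its variational description:
the supremum of `∫_E div φ` over the compactly supported `C¹` vector fields with values in the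
closure of `K` -/
noncomputable def perimeter (K E : Set (ℝ × ℝ)) : ENNReal :=
  ⨆ (φ : ℝ × ℝ → ℝ × ℝ) (_ : ContDiff ℝ 1 φ ∧ HasCompactSupport φ ∧ ∀ x, φ x ∈ closure K),
    ENNReal.ofReal (∫ x in E, divergence φ x)

/-- the anisotropic Cheeger constant `h_K(Ω)` -/
noncomputable def cheeger (K Ω : Set (ℝ × ℝ)) : ENNReal :=
  ⨅ (E : Set (ℝ × ℝ)) (_ : MeasurableSet E ∧ E ⊆ Ω ∧ 0 < volume E), perimeter K E / volume E

/-- the open unit disk -/
def disk : Set (ℝ × ℝ) := {x | x.1 ^ 2 + x.2 ^ 2 < 1}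

/-- `𝒥_B[K] = h_K(B) |K°|^{1/2}` -/
noncomputable def J (K : Set (ℝ × ℝ)) : ENNReal := cheeger K disk * volume (polarSet K) ^ (1 / 2 : ℝ)

/-- the interior of a convex polygon with exactly `n` vertices, that is with exactly `n` sides -/
def IsPolygon (n : ℕ) (K : Set (ℝ × ℝ)) : Prop :=
  ∃ V : Finset (ℝ × ℝ), V.card = n ∧
    (∀ v ∈ V, v ∉ convexHull ℝ ((V : Set (ℝ × ℝ)) \ {v})) ∧
    K = interior (convexHull ℝ (V : Set (ℝ × ℝ)))

/-- the regular `n`-gon circumscribed about the unit disk -/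
def regular (n : ℕ) : Set (ℝ × ℝ) :=
  {x | ∀ k : ℕ, k < n →
    x.1 * Real.cos (2 * Real.pi * k / n) + x.2 * Real.sin (2 * Real.pi * k / n) < 1}

/-! ### the test set -/

/-- the profile of the test set -/
noncomputable def g (t : ℝ) : ℝ := min (15 / 17) (min ((84 / 17 - 4 * |t|) / 3) ((84 / 17 - 3 * |t|) / 4))

/-- the test set: a dodecagon inscribed in the unit disk -/
def tst : Set (ℝ × ℝ) := {p | |p.1| < 15 / 17 ∧ |p.2| < 15 / 17 ∧ 4 * |p.1| + 3 * |p.2| < 84 / 17 ∧
  3 * |p.1| + 4 * |p.2| < 84 / 17}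

theorem g_cont : Continuous g := by unfold g; fun_prop

theorem lt_g {s t : ℝ} : |s| < g t ↔ |s| < 15 / 17 ∧ 4 * |t| + 3 * |s| < 84 / 17 ∧ 3 * |t| + 4 * |s| < 84 / 17 := by
  unfold g
  rw [lt_min_iff, lt_min_iff, lt_div_iff₀ (by norm_num), lt_div_iff₀ (by norm_num)]
  constructor
  · rintro ⟨h1, h2, h3⟩; exact ⟨h1, by linarith, by linarith⟩
  · rintro ⟨h1, h2, h3⟩; exact ⟨h1, by linarith, by linarith⟩

theorem tst_iff (x y : ℝ) : (x, y) ∈ tst ↔ |x| < 15 / 17 ∧ |y| < g x := by
  rw [lt_g]; exact Iff.rfl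

theorem tst_iff' (x y : ℝ) : (x, y) ∈ tst ↔ |y| < 15 / 17 ∧ |x| < g y := by
  rw [lt_g]
  constructor
  · rintro ⟨h1, h2, h3, h4⟩
    exact ⟨h2, h1, by linarith, by linarith⟩
  · rintro ⟨h1, h2, h3, h4⟩
    exact ⟨h2, h1, by linarith, by linarith⟩

theorem tst_open : IsOpen tst := by
  unfold tst
  simp only [Set.ofPred_and]
  refine IsOpen.inter ?_ (IsOpen.inter ?_ (IsOpen.inter ?_ ?_))
  · exact isOpen_lt (by fun_prop) continuous_const
  · exact isOpen_lt (by fun_prop) continuous_const
  · exact isOpen_lt (by fun_prop) continuous_const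
  · exact isOpen_lt (by fun_prop) continuous_const

theorem tst_aux {a b : ℝ} (hb : 0 ≤ b) (hab : b ≤ a) (h1 : a < 15 / 17) (h2 : 4 * a + 3 * b < 84 / 17) :
    a ^ 2 + b ^ 2 < 1 := by
  rcases lt_or_ge b (8 / 17) with h | h
  · nlinarith
  · have ha : a < (84 / 17 - 3 * b) / 4 := by rw [lt_div_iff₀ (by norm_num)]; linarith
    have h3 : a ^ 2 < ((84 / 17 - 3 * b) / 4) ^ 2 := pow_lt_pow_left₀ ha (by linarith) (by norm_num)
    have h4 : b ≤ 12 / 17 := by linarith
    nlinarith [mul_nonneg (sub_nonneg.2 h) (sub_nonneg.2 h4)]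

theorem tst_sub : tst ⊆ disk := by
  rintro ⟨x, y⟩ ⟨h1, h2, h3, h4⟩
  show x ^ 2 + y ^ 2 < 1
  rw [← sq_abs x, ← sq_abs y]
  simp only at h1 h2 h3 h4
  rcases le_total |y| |x| with h | h
  · exact tst_aux (abs_nonneg _) h h1 h3
  · rw [add_comm]; exact tst_aux (abs_nonneg _) h h2 (by linarith)

theorem integral_affine (p q a b : ℝ) : ∫ t in a..b, (p - q * t) = p * (b - a) - q * (b ^ 2 - a ^ 2) / 2 := by
  have hd : ∀ t ∈ uIcc a b, HasDerivAt (fun t : ℝ => p * t - q * t ^ 2 / 2) (p - q * t) t := by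
    intro t _
    have h1 := ((hasDerivAt_id t).const_mul p).sub ((((hasDerivAt_id t).pow 2).const_mul q).div_const 2)
    refine h1.congr_deriv ?_
    simp
    ring
  rw [intervalIntegral.integral_eq_sub_of_hasDerivAt hd]
  · ring
  · apply Continuous.intervalIntegrable; fun_prop

theorem g_integral : ∫ t in (0:ℝ)..(15 / 17), g t = 204 / 289 := by
  have i : ∀ a b, IntervalIntegrable g volume a b := fun a b => g_cont.intervalIntegrable a b
  have h1 : ∫ t in (0:ℝ)..(8 / 17), g t = 15 / 17 * (8 / 17) := by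
    have : ∫ t in (0:ℝ)..(8 / 17), g t = ∫ t in (0:ℝ)..(8 / 17), (15 / 17 - 0 * t : ℝ) := by
      apply intervalIntegral.integral_congr
      intro t ht
      rw [uIcc_of_le (by norm_num)] at ht
      simp only [g]
      rw [abs_of_nonneg ht.1, min_eq_left]
      · ring
      · rw [le_min_iff]
        constructor
        · rw [le_div_iff₀ (by norm_num)]; linarith [ht.2]
        · rw [le_div_iff₀ (by norm_num)]; linarith [ht.2]
    rw [this, integral_affine]; ring
  have h2 : ∫ t in (8 / 17 : ℝ)..(12 / 17), g t = 21 / 17 * (4 / 17) - 3 / 4 * (80 / 289) / 2 := by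
    have : ∫ t in (8 / 17 : ℝ)..(12 / 17), g t = ∫ t in (8 / 17 : ℝ)..(12 / 17), (21 / 17 - 3 / 4 * t : ℝ) := by
      apply intervalIntegral.integral_congr
      intro t ht
      rw [uIcc_of_le (by norm_num)] at ht
      simp only [g]
      rw [abs_of_nonneg (by linarith [ht.1])]
      have e1 : min ((84 / 17 - 4 * t) / 3) ((84 / 17 - 3 * t) / 4) = (84 / 17 - 3 * t) / 4 := by
        apply min_eq_right
        rw [div_le_div_iff₀ (by norm_num) (by norm_num)]; linarith [ht.2]
      rw [e1, min_eq_right]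
      · ring
      · rw [div_le_iff₀ (by norm_num)]; linarith [ht.1]
    rw [this, integral_affine]; ring
  have h3 : ∫ t in (12 / 17 : ℝ)..(15 / 17), g t = 28 / 17 * (3 / 17) - 4 / 3 * (81 / 289) / 2 := by
    have : ∫ t in (12 / 17 : ℝ)..(15 / 17), g t = ∫ t in (12 / 17 : ℝ)..(15 / 17), (28 / 17 - 4 / 3 * t : ℝ) := by
      apply intervalIntegral.integral_congr
      intro t ht
      rw [uIcc_of_le (by norm_num)] at ht
      simp only [g]
      rw [abs_of_nonneg (by linarith [ht.1])]
      have e1 : min ((84 / 17 - 4 * t) / 3) ((84 / 17 - 3 * t) / 4) = (84 / 17 - 4 * t) / 3 := by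
        apply min_eq_left
        rw [div_le_div_iff₀ (by norm_num) (by norm_num)]; linarith [ht.1]
      rw [e1, min_eq_right]
      · ring
      · rw [div_le_iff₀ (by norm_num)]; linarith [ht.1]
    rw [this, integral_affine]; ring
  rw [← intervalIntegral.integral_add_adjacent_intervals (i 0 (8 / 17)) (i (8 / 17) (15 / 17)),
    ← intervalIntegral.integral_add_adjacent_intervals (i (8 / 17) (12 / 17)) (i (12 / 17) (15 / 17)), h1, h2, h3]
  norm_num

theorem g_nonneg {t : ℝ} (ht : |t| ≤ 15 / 17) : 0 ≤ g t := by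
  unfold g
  rw [le_min_iff, le_min_iff]
  refine ⟨by norm_num, ?_, ?_⟩
  · apply div_nonneg _ (by norm_num); linarith
  · apply div_nonneg _ (by norm_num); linarith

theorem g_even (t : ℝ) : g (-t) = g t := by unfold g; rw [abs_neg]

theorem tst_volume : volume tst = ENNReal.ofReal (816 / 289) := by
  have e : tst = regionBetween (fun t => -g t) g (Ioo (-(15 / 17)) (15 / 17)) := by
    ext ⟨x, y⟩
    rw [tst_iff, abs_lt, abs_lt]
    simp [regionBetween]
  rw [e, Measure.volume_eq_prod, volume_regionBetween_eq_integral]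
  · congr 1
    have h1 : ∫ y in Ioo (-(15 / 17) : ℝ) (15 / 17), (g - fun t => -g t) y =
        ∫ y in (-(15 / 17) : ℝ)..(15 / 17), 2 * g y := by
      rw [intervalIntegral.integral_of_le (by norm_num), integral_Ioc_eq_integral_Ioo]
      congr 1
      funext y
      simp only [Pi.sub_apply]; ring
    rw [h1, intervalIntegral.integral_const_mul]
    have i : ∀ a b, IntervalIntegrable g volume a b := fun a b => g_cont.intervalIntegrable a b
    rw [← intervalIntegral.integral_add_adjacent_intervals (i _ 0) (i 0 _)]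
    have h2 : ∫ y in (-(15 / 17) : ℝ)..0, g y = ∫ y in (0:ℝ)..(15 / 17), g y := by
      have := intervalIntegral.integral_comp_neg (a := 0) (b := 15 / 17) g
      rw [neg_zero] at this
      rw [← this]
      congr 1
      funext y
      exact g_even y
    rw [h2, g_integral]; norm_num
  · exact (g_cont.neg.continuousOn.integrableOn_Icc (a := -(15/17)) (b := 15/17)).mono_set Ioo_subset_Icc_self
  · exact (g_cont.continuousOn.integrableOn_Icc (a := -(15/17)) (b := 15/17)).mono_set Ioo_subset_Icc_self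
  · exact measurableSet_Ioo
  · intro x hx
    have := g_nonneg (t := x) (abs_le.2 ⟨hx.1.le, hx.2.le⟩)
    linarith

/-! ### the upper bound for the perimeter -/

theorem section_bound {f f' : ℝ → ℝ} (hf : ∀ t, HasDerivAt f (f' t) t) (hc : Continuous f') {M : ℝ}
    (hM : ∀ t, |f t| ≤ M) (a : ℝ) : ∫ t in Ioo (-a) a, f' t ≤ 2 * M := by
  have hM0 : 0 ≤ M := (abs_nonneg _).trans (hM 0)
  rcases le_total 0 a with ha | ha
  · rw [← integral_Ioc_eq_integral_Ioo, ← intervalIntegral.integral_of_le (by linarith),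
      intervalIntegral.integral_eq_sub_of_hasDerivAt (fun t _ => hf t) (hc.intervalIntegrable _ _)]
    have h1 := abs_le.1 (hM a)
    have h2 := abs_le.1 (hM (-a))
    linarith
  · rw [Ioo_eq_empty (by linarith)]
    simp; exact hM0

theorem tst_integrable {f : ℝ × ℝ → ℝ} (hf : Continuous f) : Integrable (tst.indicator f) := by
  rw [integrable_indicator_iff tst_open.measurableSet]
  have hK : IsCompact (Icc (-1 : ℝ) 1 ×ˢ Icc (-1 : ℝ) 1) := isCompact_Icc.prod isCompact_Icc
  apply (hf.continuousOn.integrableOn_compact hK).mono_set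
  rintro ⟨x, y⟩ ⟨h1, h2, -, -⟩
  simp only at h1 h2
  have := abs_lt.1 h1
  have := abs_lt.1 h2
  refine ⟨⟨?_, ?_⟩, ⟨?_, ?_⟩⟩ <;> simp only <;> linarith

/-- the integral of a derivative in the second variable over the test set -/
theorem tst_bound₂ {u : ℝ × ℝ → ℝ} {v : ℝ × ℝ → ℝ} (hv : Continuous v)
    (hd : ∀ x y, HasDerivAt (fun y => u (x, y)) (v (x, y)) y) {M : ℝ} (hM : ∀ p, |u p| ≤ M) :
    ∫ p in tst, v p ≤ 60 / 17 * M := by
  have hM0 : 0 ≤ M := (abs_nonneg _).trans (hM 0)
  have hint := tst_integrable hv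
  rw [← integral_indicator tst_open.measurableSet]
  have hint' : Integrable (tst.indicator v) ((volume : Measure ℝ).prod volume) := hint
  have h1 : ∫ p, tst.indicator v p = ∫ x, ∫ y, tst.indicator v (x, y) := integral_prod _ hint'
  rw [h1]
  have h2 : ∀ x, ∫ y, tst.indicator v (x, y) ≤ (Ioo (-(15/17) : ℝ) (15/17)).indicator (fun _ => 2 * M) x := by
    intro x
    by_cases hx : x ∈ Ioo (-(15/17) : ℝ) (15/17)
    · rw [indicator_of_mem hx]
      have e : (fun y => tst.indicator v (x, y)) = (Ioo (-g x) (g x)).indicator (fun y => v (x, y)) := by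
        funext y
        have : (x, y) ∈ tst ↔ y ∈ Ioo (-g x) (g x) := by
          rw [tst_iff, abs_lt, abs_lt]
          exact ⟨fun h => h.2, fun h => ⟨hx, h⟩⟩
        by_cases hy : y ∈ Ioo (-g x) (g x)
        · rw [indicator_of_mem (this.2 hy), indicator_of_mem hy]
        · rw [indicator_of_notMem (fun h => hy (this.1 h)), indicator_of_notMem hy]
      rw [e, integral_indicator measurableSet_Ioo]
      exact section_bound (hd x) (by fun_prop) (fun t => hM (x, t)) (g x)
    · rw [indicator_of_notMem hx]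
      have e : (fun y => tst.indicator v (x, y)) = fun _ => 0 := by
        funext y
        apply indicator_of_notMem
        intro h
        rw [tst_iff, abs_lt] at h
        exact hx h.1
      rw [e]; simp
  have h3 : Integrable ((Ioo (-(15/17) : ℝ) (15/17)).indicator (fun _ => 2 * M)) := by
    rw [integrable_indicator_iff measurableSet_Ioo]
    exact integrableOn_const (by simp)
  refine (integral_mono hint'.integral_prod_left h3 h2).trans ?_
  rw [integral_indicator measurableSet_Ioo, setIntegral_const]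
  simp only [Measure.real, Real.volume_Ioo, smul_eq_mul]
  rw [ENNReal.toReal_ofReal (by norm_num)]
  apply le_of_eq; ring

/-- the integral of a derivative in the first variable over the test set -/
theorem tst_bound₁ {u : ℝ × ℝ → ℝ} {v : ℝ × ℝ → ℝ} (hv : Continuous v)
    (hd : ∀ x y, HasDerivAt (fun x => u (x, y)) (v (x, y)) x) {M : ℝ} (hM : ∀ p, |u p| ≤ M) :
    ∫ p in tst, v p ≤ 60 / 17 * M := by
  have hM0 : 0 ≤ M := (abs_nonneg _).trans (hM 0)
  have hint := tst_integrable hv
  rw [← integral_indicator tst_open.measurableSet]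
  have hint' : Integrable (tst.indicator v) ((volume : Measure ℝ).prod volume) := hint
  have h1 : ∫ p, tst.indicator v p = ∫ y, ∫ x, tst.indicator v (x, y) := integral_prod_symm _ hint'
  rw [h1]
  have h2 : ∀ y, ∫ x, tst.indicator v (x, y) ≤ (Ioo (-(15/17) : ℝ) (15/17)).indicator (fun _ => 2 * M) y := by
    intro y
    by_cases hy : y ∈ Ioo (-(15/17) : ℝ) (15/17)
    · rw [indicator_of_mem hy]
      have e : (fun x => tst.indicator v (x, y)) = (Ioo (-g y) (g y)).indicator (fun x => v (x, y)) := by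
        funext x
        have : (x, y) ∈ tst ↔ x ∈ Ioo (-g y) (g y) := by
          rw [tst_iff', abs_lt, abs_lt]
          exact ⟨fun h => h.2, fun h => ⟨hy, h⟩⟩
        by_cases hx : x ∈ Ioo (-g y) (g y)
        · rw [indicator_of_mem (this.2 hx), indicator_of_mem hx]
        · rw [indicator_of_notMem (fun h => hx (this.1 h)), indicator_of_notMem hx]
      rw [e, integral_indicator measurableSet_Ioo]
      exact section_bound (fun t => hd t y) (by fun_prop) (fun t => hM (t, y)) (g y)
    · rw [indicator_of_notMem hy]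
      have e : (fun x => tst.indicator v (x, y)) = fun _ => 0 := by
        funext x
        apply indicator_of_notMem
        intro h
        rw [tst_iff', abs_lt] at h
        exact hy h.1
      rw [e]; simp
  have h3 : Integrable ((Ioo (-(15/17) : ℝ) (15/17)).indicator (fun _ => 2 * M)) := by
    rw [integrable_indicator_iff measurableSet_Ioo]
    exact integrableOn_const (by simp)
  have h4 : Integrable (fun y => ∫ x, tst.indicator v (x, y)) := hint'.integral_prod_right
  refine (integral_mono h4 h3 h2).trans ?_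
  rw [integral_indicator measurableSet_Ioo, setIntegral_const]
  simp only [Measure.real, Real.volume_Ioo, smul_eq_mul]
  rw [ENNReal.toReal_ofReal (by norm_num)]
  apply le_of_eq; ring

theorem perimeter_le {K : Set (ℝ × ℝ)} {a b : ℝ} (hK : ∀ x ∈ closure K, |x.1| ≤ a ∧ |x.2| ≤ b) :
    perimeter K tst ≤ ENNReal.ofReal (60 / 17 * (a + b)) := by
  apply iSup_le
  intro φ
  apply iSup_le
  rintro ⟨hφ, -, hval⟩
  apply ENNReal.ofReal_le_ofReal
  have hdiff : Differentiable ℝ φ := hφ.differentiable (by simp)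
  have hfc : Continuous (fderiv ℝ φ) := hφ.continuous_fderiv (by simp)
  have hc1 : Continuous (fun p => (fderiv ℝ φ p (1, 0)).1) := by fun_prop
  have hc2 : Continuous (fun p => (fderiv ℝ φ p (0, 1)).2) := by fun_prop
  have hd1 : ∀ x y, HasDerivAt (fun x => (φ (x, y)).1) ((fderiv ℝ φ (x, y) (1, 0)).1) x := by
    intro x y
    have h1 : HasDerivAt (fun x : ℝ => ((x, y) : ℝ × ℝ)) (1, 0) x := (hasDerivAt_id x).prodMk (hasDerivAt_const x y)
    have h2 := (hdiff (x, y)).hasFDerivAt.comp_hasDerivAt x h1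
    exact (ContinuousLinearMap.fst ℝ ℝ ℝ).hasFDerivAt.comp_hasDerivAt x h2
  have hd2 : ∀ x y, HasDerivAt (fun y => (φ (x, y)).2) ((fderiv ℝ φ (x, y) (0, 1)).2) y := by
    intro x y
    have h1 : HasDerivAt (fun y : ℝ => ((x, y) : ℝ × ℝ)) (0, 1) y := (hasDerivAt_const y x).prodMk (hasDerivAt_id y)
    have h2 := (hdiff (x, y)).hasFDerivAt.comp_hasDerivAt y h1
    exact (ContinuousLinearMap.snd ℝ ℝ ℝ).hasFDerivAt.comp_hasDerivAt y h2
  have b1 := tst_bound₁ (u := fun p => (φ p).1) hc1 hd1 (fun p => (hK _ (hval p)).1)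
  have b2 := tst_bound₂ (u := fun p => (φ p).2) hc2 hd2 (fun p => (hK _ (hval p)).2)
  have i1 : IntegrableOn (fun p => (fderiv ℝ φ p (1, 0)).1) tst := by
    rw [← integrable_indicator_iff tst_open.measurableSet]; exact tst_integrable hc1
  have i2 : IntegrableOn (fun p => (fderiv ℝ φ p (0, 1)).2) tst := by
    rw [← integrable_indicator_iff tst_open.measurableSet]; exact tst_integrable hc2
  have e : ∫ x in tst, divergence φ x = (∫ x in tst, (fderiv ℝ φ x (1, 0)).1) + ∫ x in tst, (fderiv ℝ φ x (0, 1)).2 :=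
    integral_add i1 i2
  rw [e]
  linarith

/-- the upper bound for the Cheeger constant -/
theorem cheeger_le {K : Set (ℝ × ℝ)} {a b : ℝ} (ha : 0 ≤ a) (hb : 0 ≤ b)
    (hK : ∀ x ∈ closure K, |x.1| ≤ a ∧ |x.2| ≤ b) :
    cheeger K disk ≤ ENNReal.ofReal (5 / 4 * (a + b)) := by
  have hpos : 0 < volume tst := by
    rw [tst_volume, ENNReal.ofReal_pos]; norm_num
  refine (iInf₂_le tst ⟨tst_open.measurableSet, tst_sub, hpos⟩).trans ?_
  rw [tst_volume]
  apply ENNReal.div_le_of_le_mul
  refine (perimeter_le hK).trans ?_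
  rw [← ENNReal.ofReal_mul (by positivity)]
  apply ENNReal.ofReal_le_ofReal
  apply le_of_eq; ring

end Pool.Agent.R763.Chg
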