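import Pool.Agent.R763.Chg1

set_option autoImplicit false
open MeasureTheory Set Filter Topology
open scoped ContDiff

namespace Pool.Agent.R763.Chg

/-! ### the lower bound for the regular polygon -/

theorem disk_sub_regular {n : ℕ} {x : ℝ × ℝ} (hx : x.1 ^ 2 + x.2 ^ 2 < 1) : x ∈ regular n := by
  intro k _
  set θ := 2 * Real.pi * k / n
  have h := Real.sin_sq_add_cos_sq θ
  nlinarith [sq_nonneg (x.1 - Real.cos θ), sq_nonneg (x.2 - Real.sin θ)]

theorem cheeger_ge (n : ℕ) : ENNReal.ofReal (2 * (1999 / 2000)) ≤ cheeger (regular n) disk := by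
  apply le_iInf₂
  rintro E ⟨hE, hsub, hpos⟩
  have hfin : volume E ≠ ⊤ := by
    have h1 : E ⊆ Icc (-1 : ℝ) 1 ×ˢ Icc (-1 : ℝ) 1 := by
      intro p hp
      have h2 : p.1 ^ 2 + p.2 ^ 2 < 1 := hsub hp
      refine ⟨⟨?_, ?_⟩, ⟨?_, ?_⟩⟩ <;> nlinarith [sq_nonneg p.1, sq_nonneg p.2]
    exact ne_top_of_le_ne_top (isCompact_Icc.prod isCompact_Icc).measure_lt_top.ne (measure_mono h1)
  rw [ENNReal.le_div_iff_mul_le (Or.inl hpos.ne') (Or.inl hfin)]
  -- the vector field
  let b : ContDiffBump (0 : ℝ) := ⟨1, 20001 / 20000, by norm_num, by norm_num⟩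
  set φ : ℝ × ℝ → ℝ × ℝ := fun x => ((1999 / 2000) * b (x.1 ^ 2 + x.2 ^ 2)) • x with hφ
  have hq : ContDiff ℝ ∞ (fun x : ℝ × ℝ => x.1 ^ 2 + x.2 ^ 2) := (contDiff_fst.pow 2).add (contDiff_snd.pow 2)
  have hb : ContDiff ℝ ∞ (fun x : ℝ × ℝ => b (x.1 ^ 2 + x.2 ^ 2)) := b.contDiff.comp hq
  have hsm : ContDiff ℝ ∞ φ := (contDiff_const.mul hb).smul contDiff_id
  have hout : ∀ x : ℝ × ℝ, 20001 / 20000 ≤ x.1 ^ 2 + x.2 ^ 2 → φ x = 0 := by
    intro x hx
    have : b (x.1 ^ 2 + x.2 ^ 2) = 0 := by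
      apply b.zero_of_le_dist
      rw [Real.dist_eq, sub_zero]
      exact hx.trans (le_abs_self _)
    simp only [hφ]
    rw [this]; simp
  have hcs : HasCompactSupport φ := by
    apply HasCompactSupport.intro (K := Icc (-2 : ℝ) 2 ×ˢ Icc (-2 : ℝ) 2) (isCompact_Icc.prod isCompact_Icc)
    intro x hx
    apply hout
    by_contra hcon
    push Not at hcon
    apply hx
    refine ⟨⟨?_, ?_⟩, ⟨?_, ?_⟩⟩ <;> nlinarith [sq_nonneg x.1, sq_nonneg x.2]
  have hval : ∀ x, φ x ∈ closure (regular n) := by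
    intro x
    apply subset_closure
    apply disk_sub_regular
    rcases le_or_gt (20001 / 20000) (x.1 ^ 2 + x.2 ^ 2) with h | h
    · rw [hout x h]; simp
    · have h0 : 0 ≤ b (x.1 ^ 2 + x.2 ^ 2) := b.nonneg
      have h1 : b (x.1 ^ 2 + x.2 ^ 2) ≤ 1 := b.le_one
      set β := b (x.1 ^ 2 + x.2 ^ 2) with hβ
      have e : (φ x).1 ^ 2 + (φ x).2 ^ 2 = (1999 / 2000 * β) ^ 2 * (x.1 ^ 2 + x.2 ^ 2) := by
        simp only [hφ, Prod.smul_fst, Prod.smul_snd, smul_eq_mul]
        rw [← hβ]; ring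
      rw [e]
      have h2 : (1999 / 2000 * β) ^ 2 ≤ (1999 / 2000) ^ 2 :=
        pow_le_pow_left₀ (by positivity) (by linarith) 2
      have h3 : 0 ≤ x.1 ^ 2 + x.2 ^ 2 := by positivity
      nlinarith
  have hdiv : ∀ x ∈ disk, divergence φ x = 2 * (1999 / 2000) := by
    intro x hx
    have hopen : IsOpen disk := isOpen_lt (by fun_prop) continuous_const
    have hev : φ =ᶠ[𝓝 x] fun y => (1999 / 2000 : ℝ) • y := by
      filter_upwards [hopen.mem_nhds hx] with y hy
      have : b (y.1 ^ 2 + y.2 ^ 2) = 1 := by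
        apply b.one_of_mem_closedBall
        rw [Metric.mem_closedBall, Real.dist_eq, sub_zero, abs_of_nonneg (by positivity)]
        exact le_of_lt hy
      simp only [hφ]
      rw [this, mul_one]
    have hd : fderiv ℝ φ x = (1999 / 2000 : ℝ) • ContinuousLinearMap.id ℝ (ℝ × ℝ) := by
      rw [hev.fderiv_eq]
      exact ((hasFDerivAt_id x).const_smul (1999 / 2000 : ℝ)).fderiv
    rw [divergence, hd]
    simp
    ring
  refine le_trans ?_ (le_iSup₂ (f := fun (φ : ℝ × ℝ → ℝ × ℝ)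
    (_ : ContDiff ℝ 1 φ ∧ HasCompactSupport φ ∧ ∀ x, φ x ∈ closure (regular n)) =>
      ENNReal.ofReal (∫ x in E, divergence φ x)) φ ⟨hsm.of_le (by exact_mod_cast le_top), hcs, hval⟩)
  have hI : ∫ x in E, divergence φ x = 2 * (1999 / 2000) * (volume E).toReal := by
    rw [setIntegral_congr_fun hE (fun x hx => hdiv x (hsub hx)), setIntegral_const, smul_eq_mul, mul_comm]
    rfl
  show _ ≤ ENNReal.ofReal (∫ x in E, divergence φ x)
  rw [hI, ENNReal.ofReal_mul (p := 2 * (1999 / 2000)) (by norm_num), ENNReal.ofReal_toReal hfin]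

/-- every vector has an angle at most `π / n` with one of the normals of the regular polygon -/
theorem exists_dir {n : ℕ} (hn : 0 < n) (y : ℝ × ℝ) : ∃ k : ℕ, k < n ∧
    Real.sqrt (y.1 ^ 2 + y.2 ^ 2) * Real.cos (Real.pi / n) ≤
      y.1 * Real.cos (2 * Real.pi * k / n) + y.2 * Real.sin (2 * Real.pi * k / n) := by
  have hpi := Real.pi_pos
  have hn0 : (0:ℝ) < n := by exact_mod_cast hn
  set z : ℂ := ⟨y.1, y.2⟩ with hz
  have hnorm : ‖z‖ = Real.sqrt (y.1 ^ 2 + y.2 ^ 2) := by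
    rw [Complex.norm_def, Complex.normSq_apply]; congr 1; simp [hz]; ring
  have h1 : y.1 = ‖z‖ * Real.cos z.arg := (Complex.norm_mul_cos_arg z).symm
  have h2 : y.2 = ‖z‖ * Real.sin z.arg := (Complex.norm_mul_sin_arg z).symm
  set θ := z.arg with hθ
  set m : ℤ := round (θ * n / (2 * Real.pi)) with hm
  have hr := abs_sub_round (θ * n / (2 * Real.pi))
  set k : ℤ := m % n with hk
  have hk0 : 0 ≤ k := Int.emod_nonneg _ (by exact_mod_cast hn.ne')
  have hkn : k < n := Int.emod_lt_of_pos _ (by exact_mod_cast hn)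
  obtain ⟨k', hk'⟩ := Int.eq_ofNat_of_zero_le hk0
  refine ⟨k', by omega, ?_⟩
  have hmk : (m : ℝ) = k' + n * ((m / n : ℤ) : ℝ) := by
    have h3 : m = k + n * (m / n) := (Int.emod_add_mul_ediv m n).symm
    have h4 : m = (k' : ℤ) + n * (m / n) := by rw [← hk']; exact h3
    exact_mod_cast h4
  have hcos : Real.cos (θ - 2 * Real.pi * k' / n) = Real.cos (θ - 2 * Real.pi * m / n) := by
    have : θ - 2 * Real.pi * k' / n = (θ - 2 * Real.pi * m / n) + ((m / n : ℤ) : ℝ) * (2 * Real.pi) := by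
      rw [hmk]; field_simp; ring
    rw [this, Real.cos_add_int_mul_two_pi]
  have habs : |θ - 2 * Real.pi * m / n| ≤ Real.pi / n := by
    have e : θ - 2 * Real.pi * m / n = (2 * Real.pi / n) * (θ * n / (2 * Real.pi) - m) := by
      field_simp
    rw [e, abs_mul, abs_of_pos (by positivity)]
    calc 2 * Real.pi / n * |θ * n / (2 * Real.pi) - m| ≤ 2 * Real.pi / n * (1 / 2) :=
          mul_le_mul_of_nonneg_left hr (by positivity)
      _ = Real.pi / n := by ring
  have hc2 : Real.cos (Real.pi / n) ≤ Real.cos (θ - 2 * Real.pi * m / n) := by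
    rw [← Real.cos_abs (θ - 2 * Real.pi * m / n)]
    apply Real.cos_le_cos_of_nonneg_of_le_pi (abs_nonneg _) _ habs
    rw [div_le_iff₀ hn0]
    have : (1:ℝ) ≤ n := by exact_mod_cast hn
    nlinarith
  rw [← hnorm]
  have e : y.1 * Real.cos (2 * Real.pi * k' / n) + y.2 * Real.sin (2 * Real.pi * k' / n) =
      ‖z‖ * Real.cos (θ - 2 * Real.pi * k' / n) := by
    rw [Real.cos_sub, h1, h2]; ring
  rw [e, hcos]
  exact mul_le_mul_of_nonneg_left hc2 (norm_nonneg _)

theorem regular_norm {n : ℕ} (hn : 3 ≤ n) {y : ℝ × ℝ} (hy : y ∈ regular n) :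
    Real.sqrt (y.1 ^ 2 + y.2 ^ 2) * Real.cos (Real.pi / n) < 1 := by
  obtain ⟨k, hk, h⟩ := exists_dir (by omega : 0 < n) y
  exact h.trans_lt (hy k hk)

theorem cos_large {n : ℕ} (hn : 100 ≤ n) : (1999 / 2000 : ℝ) ≤ Real.cos (Real.pi / n) := by
  have h1 := Real.one_sub_sq_div_two_le_cos (x := Real.pi / n)
  have hn0 : (100:ℝ) ≤ n := by exact_mod_cast hn
  have h2 : Real.pi / n ≤ 3.1416 / 100 := by
    apply div_le_div₀ (by norm_num) Real.pi_lt_d4.le (by norm_num) hn0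
  have h3 : 0 ≤ Real.pi / n := by positivity
  have h4 : (Real.pi / n) ^ 2 ≤ (3.1416 / 100) ^ 2 := pow_le_pow_left₀ h3 h2 2
  norm_num at h4 ⊢
  linarith

theorem dot_le (x y : ℝ × ℝ) : dot x y ≤ Real.sqrt (x.1 ^ 2 + x.2 ^ 2) * Real.sqrt (y.1 ^ 2 + y.2 ^ 2) := by
  rw [← Real.sqrt_mul (by positivity)]
  apply Real.le_sqrt_of_sq_le
  rw [dot]
  nlinarith [sq_nonneg (x.1 * y.2 - x.2 * y.1)]

theorem disk_sub_polar {n : ℕ} (hn : 100 ≤ n) {x : ℝ × ℝ} (hx : x.1 ^ 2 + x.2 ^ 2 < (1999 / 2000) ^ 2) :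
    x ∈ polarSet (regular n) := by
  have hc := cos_large hn
  have hc0 : 0 < Real.cos (Real.pi / n) := by linarith
  have hs : Real.sqrt (x.1 ^ 2 + x.2 ^ 2) < 1999 / 2000 := by
    rw [Real.sqrt_lt' (by norm_num)]; exact hx
  have h0 : (0 : ℝ × ℝ) ∈ regular n := disk_sub_regular (by simp)
  have h1 : polarNorm (regular n) x ≤ Real.sqrt (x.1 ^ 2 + x.2 ^ 2) / (1999 / 2000) := by
    apply csSup_le ⟨_, mem_image_of_mem _ h0⟩
    rintro _ ⟨y, hy, rfl⟩
    have h2 := regular_norm (by omega : 3 ≤ n) hy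
    have h3 := dot_le x y
    have h4 := Real.sqrt_nonneg (x.1 ^ 2 + x.2 ^ 2)
    have h5 := Real.sqrt_nonneg (y.1 ^ 2 + y.2 ^ 2)
    have h6 : Real.sqrt (y.1 ^ 2 + y.2 ^ 2) * (1999 / 2000) ≤ 1 :=
      (mul_le_mul_of_nonneg_left hc h5).trans h2.le
    simp only
    rw [le_div_iff₀ (by norm_num)]
    calc dot x y * (1999 / 2000) ≤ Real.sqrt (x.1 ^ 2 + x.2 ^ 2) * Real.sqrt (y.1 ^ 2 + y.2 ^ 2) * (1999 / 2000) :=
          mul_le_mul_of_nonneg_right h3 (by norm_num)
      _ = Real.sqrt (x.1 ^ 2 + x.2 ^ 2) * (Real.sqrt (y.1 ^ 2 + y.2 ^ 2) * (1999 / 2000)) := by ring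
      _ ≤ Real.sqrt (x.1 ^ 2 + x.2 ^ 2) * 1 := mul_le_mul_of_nonneg_left h6 h4
      _ = _ := mul_one _
  show polarNorm (regular n) x < 1
  refine h1.trans_lt ?_
  rw [div_lt_one (by norm_num)]; exact hs

theorem volume_disk {r : ℝ} (hr : 0 < r) : volume {x : ℝ × ℝ | x.1 ^ 2 + x.2 ^ 2 < r ^ 2} =
    ENNReal.ofReal (Real.pi * r ^ 2) := by
  have hmeas : MeasurableSet {x : ℝ × ℝ | x.1 ^ 2 + x.2 ^ 2 < r ^ 2} :=
    (isOpen_lt (by fun_prop) continuous_const).measurableSet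
  rw [← Complex.volume_preserving_equiv_real_prod.measure_preimage hmeas.nullMeasurableSet]
  have e : Complex.measurableEquivRealProd ⁻¹' {x : ℝ × ℝ | x.1 ^ 2 + x.2 ^ 2 < r ^ 2} = Metric.ball 0 r := by
    ext z
    simp only [mem_preimage, mem_ofPred_eq, Complex.measurableEquivRealProd_apply, Metric.mem_ball, dist_zero_right]
    rw [← Real.sqrt_lt_sqrt_iff (by positivity), Real.sqrt_sq hr.le, Complex.norm_def, Complex.normSq_apply]
    simp only [sq]
  rw [e, Complex.volume_ball, ENNReal.ofReal_mul Real.pi_pos.le, ENNReal.ofReal_pow hr.le, mul_comm]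
  congr 1
  rw [← NNReal.coe_real_pi, ENNReal.ofReal_coe_nnreal]

theorem J_regular {n : ℕ} (hn : 100 ≤ n) :
    ENNReal.ofReal (2 * (1999 / 2000)) * ENNReal.ofReal (Real.pi * (1999 / 2000) ^ 2) ^ (1 / 2 : ℝ) ≤ J (regular n) := by
  apply mul_le_mul' (cheeger_ge n)
  apply ENNReal.rpow_le_rpow _ (by norm_num)
  rw [← volume_disk (by norm_num)]
  exact measure_mono (fun x hx => disk_sub_polar hn hx)

/-! ### bodies close to the square -/

theorem volume_cross : volume {x : ℝ × ℝ | |x.1| + |x.2| < 1} ≤ ENNReal.ofReal 2 := by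
  have e : {x : ℝ × ℝ | |x.1| + |x.2| < 1} = regionBetween (fun t => -(1 - |t|)) (fun t => 1 - |t|) (Ioo (-1) 1) := by
    ext ⟨x, y⟩
    simp only [mem_ofPred_eq, regionBetween, mem_Ioo]
    rw [← abs_lt, ← abs_lt]
    constructor
    · intro h
      exact ⟨by linarith [abs_nonneg y], by linarith⟩
    · rintro ⟨_, h⟩; linarith
  have hc : Continuous (fun t : ℝ => 1 - |t|) := by fun_prop
  rw [e, Measure.volume_eq_prod, volume_regionBetween_eq_integral]
  · apply ENNReal.ofReal_le_ofReal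
    have h1 : ∫ y in Ioo (-1 : ℝ) 1, ((fun t : ℝ => 1 - |t|) - fun t : ℝ => -(1 - |t|) : ℝ → ℝ) y =
        ∫ y in (-1 : ℝ)..1, 2 * (1 - |y|) := by
      rw [intervalIntegral.integral_of_le (by norm_num), integral_Ioc_eq_integral_Ioo]
      congr 1
      funext y
      simp only [Pi.sub_apply]; ring
    rw [h1, intervalIntegral.integral_const_mul]
    have i : ∀ a b, IntervalIntegrable (fun t : ℝ => 1 - |t|) volume a b := fun a b => hc.intervalIntegrable a b
    rw [← intervalIntegral.integral_add_adjacent_intervals (i (-1) 0) (i 0 1)]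
    have h2 : ∫ y in (-1 : ℝ)..0, (1 - |y|) = ∫ y in (-1:ℝ)..0, (1 - (-1) * y) := by
      apply intervalIntegral.integral_congr
      intro t ht
      rw [uIcc_of_le (by norm_num)] at ht
      simp only
      rw [abs_of_nonpos ht.2]; ring
    have h3 : ∫ y in (0 : ℝ)..1, (1 - |y|) = ∫ y in (0:ℝ)..1, (1 - 1 * y) := by
      apply intervalIntegral.integral_congr
      intro t ht
      rw [uIcc_of_le (by norm_num)] at ht
      simp only
      rw [abs_of_nonneg ht.1]; ring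
    rw [h2, h3, integral_affine, integral_affine]; norm_num
  · exact (hc.neg.continuousOn.integrableOn_Icc (a := -1) (b := 1)).mono_set Ioo_subset_Icc_self
  · exact (hc.continuousOn.integrableOn_Icc (a := -1) (b := 1)).mono_set Ioo_subset_Icc_self
  · exact measurableSet_Ioo
  · intro x hx
    have : |x| < 1 := abs_lt.2 hx
    linarith

theorem polar_sub {K : Set (ℝ × ℝ)} (hb : Bornology.IsBounded K)
    (hsq : Ioo (-1 : ℝ) 1 ×ˢ Ioo (-1 : ℝ) 1 ⊆ K) : polarSet K ⊆ {x | |x.1| + |x.2| < 1} := by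
  intro x hx
  have hx' : polarNorm K x < 1 := hx
  have hbdd : BddAbove ((fun y => dot x y) '' K) := by
    obtain ⟨R, hR⟩ := hb.subset_closedBall 0
    refine ⟨(|x.1| + |x.2|) * R, ?_⟩
    rintro _ ⟨y, hy, rfl⟩
    have h1 := hR hy
    rw [mem_closedBall_zero_iff, Prod.norm_def] at h1
    have h2 : |y.1| ≤ R := (le_max_left _ _).trans h1
    have h3 : |y.2| ≤ R := (le_max_right _ _).trans h1
    simp only [dot]
    have h4 := (le_abs_self (x.1 * y.1)).trans (le_of_eq (abs_mul _ _))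
    have h5 := (le_abs_self (x.2 * y.2)).trans (le_of_eq (abs_mul _ _))
    have h6 := mul_le_mul_of_nonneg_left h2 (abs_nonneg x.1)
    have h7 := mul_le_mul_of_nonneg_left h3 (abs_nonneg x.2)
    linarith
  have key : ∀ s ∈ Ioo (0:ℝ) 1, s * (|x.1| + |x.2|) ≤ polarNorm K x := by
    intro s hs
    have hmem : (s * SignType.sign x.1, s * SignType.sign x.2) ∈ K := by
      apply hsq
      have hsg : ∀ t : ℝ, s * ((SignType.sign t : SignType) : ℝ) ∈ Ioo (-1 : ℝ) 1 := by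
        intro t
        rcases lt_trichotomy t 0 with h | h | h
        · rw [sign_neg h]; constructor <;> simp <;> linarith [hs.1, hs.2]
        · rw [h]; simp
        · rw [sign_pos h]; constructor <;> simp <;> linarith [hs.1, hs.2]
      exact ⟨hsg _, hsg _⟩
    have h1 := le_csSup hbdd (mem_image_of_mem _ hmem)
    have h2 : dot x (s * SignType.sign x.1, s * SignType.sign x.2) = s * (|x.1| + |x.2|) := by
      simp only [dot]
      rw [← self_mul_sign x.1, ← self_mul_sign x.2]; ring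
    rw [h2] at h1
    exact h1
  have h1 : |x.1| + |x.2| ≤ polarNorm K x := by
    by_contra hcon
    push Not at hcon
    have hpos : 0 < |x.1| + |x.2| := by
      rcases (add_nonneg (abs_nonneg x.1) (abs_nonneg x.2)).lt_or_eq with h | h
      · exact h
      · have := key (1/2) (by constructor <;> norm_num)
        rw [← h] at this hcon
        linarith
    have h2 := key (max (1/2) ((1 + polarNorm K x / (|x.1| + |x.2|)) / 2)) (by
      constructor
      · exact lt_of_lt_of_le (by norm_num) (le_max_left _ _)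
      · apply max_lt (by norm_num)
        have : polarNorm K x / (|x.1| + |x.2|) < 1 := by rw [div_lt_one hpos]; exact hcon
        linarith)
    have h3 : (1 + polarNorm K x / (|x.1| + |x.2|)) / 2 * (|x.1| + |x.2|) ≤ polarNorm K x :=
      (mul_le_mul_of_nonneg_right (le_max_right _ _) hpos.le).trans h2
    have h4 : (1 + polarNorm K x / (|x.1| + |x.2|)) / 2 * (|x.1| + |x.2|) =
        (|x.1| + |x.2| + polarNorm K x) / 2 := by field_simp
    rw [h4] at h3
    linarith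
  exact h1.trans_lt hx'

theorem J_near {K : Set (ℝ × ℝ)} (hb : Bornology.IsBounded K)
    (hsq : Ioo (-1 : ℝ) 1 ×ˢ Ioo (-1 : ℝ) 1 ⊆ K) (hK : ∀ x ∈ closure K, |x.1| ≤ 501 / 500 ∧ |x.2| ≤ 1) :
    J K ≤ ENNReal.ofReal (5 / 4 * (501 / 500 + 1)) * ENNReal.ofReal 2 ^ (1 / 2 : ℝ) := by
  apply mul_le_mul' (cheeger_le (by norm_num) (by norm_num) hK)
  apply ENNReal.rpow_le_rpow _ (by norm_num)
  exact (measure_mono (polar_sub hb hsq)).trans volume_cross

theorem numeric : ENNReal.ofReal (5 / 4 * (501 / 500 + 1)) * ENNReal.ofReal 2 ^ (1 / 2 : ℝ) <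
    ENNReal.ofReal (2 * (1999 / 2000)) * ENNReal.ofReal (Real.pi * (1999 / 2000) ^ 2) ^ (1 / 2 : ℝ) := by
  have hpi := Real.pi_gt_d4
  rw [ENNReal.ofReal_rpow_of_pos (by norm_num), ENNReal.ofReal_rpow_of_pos (by positivity),
    ← ENNReal.ofReal_mul (by norm_num), ← ENNReal.ofReal_mul (by norm_num),
    ENNReal.ofReal_lt_ofReal_iff (by positivity), ← Real.sqrt_eq_rpow, ← Real.sqrt_eq_rpow]
  apply lt_of_pow_lt_pow_left₀ 2 (by positivity)
  rw [mul_pow, Real.sq_sqrt (by norm_num), mul_pow (2 * (1999 / 2000)), Real.sq_sqrt (by positivity)]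
  nlinarith

end Pool.Agent.R763.Chg
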