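import Mathlib

set_option autoImplicit false
open MeasureTheory Set Filter Topology

namespace Pool.Agent.R763.Cn

/-! ### general definitions -/

section defs

/-- The angle opposite to the side `c` in the Euclidean triangle with sides `a`, `b`, `c`. -/
noncomputable def ca (a b c : ℝ) : ℝ := Real.arccos ((a ^ 2 + b ^ 2 - c ^ 2) / (2 * a * b))

variable {M : Type} [MetricSpace M]

/-- `γ` restricted to `[0, ℓ]` is a shortest path parametrised by arc length. -/
def IsShortest (γ : ℝ → M) (ℓ : ℝ) : Prop :=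
  ∀ s ∈ Icc 0 ℓ, ∀ t ∈ Icc 0 ℓ, dist (γ s) (γ t) = |s - t|

/-- The (Alexandrov) angle between the curves `γ` and `η` starting at the same point exists and
equals `α`: it is the limit of the Euclidean comparison angles. -/
def HasAngle (γ η : ℝ → M) (α : ℝ) : Prop :=
  Tendsto (fun q : ℝ × ℝ => ca (dist (γ 0) (γ q.1)) (dist (η 0) (η q.2)) (dist (γ q.1) (η q.2)))
    (𝓝[>] 0 ×ˢ 𝓝[>] 0) (𝓝 α)

end defs

/-- Complete geodesic metric space of curvature `≥ 0` in the sense of Alexandrov. -/
structure IsCBB0 (M : Type) [MetricSpace M] : Prop where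
  complete : CompleteSpace M
  /-- any two points are joined by a shortest path -/
  geodesic : ∀ p q : M, ∃ γ : ℝ → M, IsShortest γ (dist p q) ∧ γ 0 = p ∧ γ (dist p q) = q
  /-- every angle of every geodesic triangle exists and is at least the comparison angle -/
  comparison : ∀ (a b : ℝ) (γ η : ℝ → M), 0 < a → 0 < b → IsShortest γ a → IsShortest η b →
    γ 0 = η 0 → ∃ α, HasAngle γ η α ∧ ca a b (dist (γ a) (η b)) ≤ α
  /-- adjacent angles add up to `π` -/
  adjacent : ∀ (a b c : ℝ) (ζ η : ℝ → M), 0 < a → 0 < b → 0 < c →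
    (∀ s ∈ Icc (-a) b, ∀ t ∈ Icc (-a) b, dist (ζ s) (ζ t) = |s - t|) → IsShortest η c →
    η 0 = ζ 0 → ∀ α β, HasAngle ζ η α → HasAngle (fun t => ζ (-t)) η β → α + β = Real.pi

/-! ### the cone `ℂ / ±1` -/

/-- identification of `z` with `-z` -/
def sgnSetoid : Setoid ℂ where
  r x y := x = y ∨ x = -y
  iseqv := by
    refine ⟨fun x => Or.inl rfl, ?_, ?_⟩
    · rintro x y (h | h)
      · left; rw [h]
      · right; rw [h, neg_neg]
    · rintro x y z (h | h) (h' | h')
      · left; rw [h, h']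
      · right; rw [h, h']
      · right; rw [h, h']
      · left; rw [h, h', neg_neg]

/-- the flat cone of total angle `π` -/
def Cone : Type := Quotient sgnSetoid

/-- the projection -/
def mk (z : ℂ) : Cone := Quotient.mk sgnSetoid z

theorem mk_surj (p : Cone) : ∃ z, mk z = p := Quotient.exists_rep p

theorem mk_eq {x y : ℂ} : mk x = mk y ↔ x = y ∨ x = -y := by
  constructor
  · intro h; exact Quotient.exact h
  · intro h; exact Quotient.sound h

theorem mk_neg (x : ℂ) : mk (-x) = mk x := mk_eq.2 (Or.inr rfl)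

noncomputable def cdist (x y : ℂ) : ℝ := min ‖x - y‖ ‖x + y‖

theorem cdist_neg_left (x y : ℂ) : cdist (-x) y = cdist x y := by
  rw [cdist, cdist, min_comm]
  congr 1
  · rw [← norm_neg]; congr 1; ring
  · rw [← norm_neg]; congr 1; ring

theorem cdist_comm (x y : ℂ) : cdist x y = cdist y x := by
  rw [cdist, cdist, norm_sub_rev, add_comm]

theorem cdist_neg_right (x y : ℂ) : cdist x (-y) = cdist x y := by
  rw [cdist_comm, cdist_neg_left, cdist_comm]

theorem cdist_triangle (x y z : ℂ) : cdist x z ≤ cdist x y + cdist y z := by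
  rw [cdist, cdist, cdist]
  rcases min_choice ‖x - y‖ ‖x + y‖ with h1 | h1 <;> rcases min_choice ‖y - z‖ ‖y + z‖ with h2 | h2
  · rw [h1, h2]; refine (min_le_left _ _).trans ?_
    calc ‖x - z‖ = ‖(x - y) + (y - z)‖ := by congr 1; ring
      _ ≤ _ := norm_add_le _ _
  · rw [h1, h2]; refine (min_le_right _ _).trans ?_
    calc ‖x + z‖ = ‖(x - y) + (y + z)‖ := by congr 1; ring
      _ ≤ _ := norm_add_le _ _
  · rw [h1, h2]; refine (min_le_right _ _).trans ?_
    calc ‖x + z‖ = ‖(x + y) - (y - z)‖ := by congr 1; ring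
      _ ≤ _ := norm_sub_le _ _
  · rw [h1, h2]; refine (min_le_left _ _).trans ?_
    calc ‖x - z‖ = ‖(x + y) - (y + z)‖ := by congr 1; ring
      _ ≤ _ := norm_sub_le _ _

noncomputable def qdist : Cone → Cone → ℝ := Quotient.lift₂ cdist (by
  rintro x y x' y' (h1 | h1) (h2 | h2)
  · rw [h1, h2]
  · rw [h1, h2, cdist_neg_right]
  · rw [h1, h2, cdist_neg_left]
  · rw [h1, h2, cdist_neg_left, cdist_neg_right])

theorem qdist_mk (x y : ℂ) : qdist (mk x) (mk y) = min ‖x - y‖ ‖x + y‖ := rfl

noncomputable instance : MetricSpace Cone where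
  dist := qdist
  dist_self := by
    intro p; obtain ⟨x, rfl⟩ := mk_surj p
    rw [qdist_mk, sub_self, norm_zero, min_eq_left (norm_nonneg _)]
  dist_comm := by
    intro p q; obtain ⟨x, rfl⟩ := mk_surj p; obtain ⟨y, rfl⟩ := mk_surj q
    exact cdist_comm x y
  dist_triangle := by
    intro p q r; obtain ⟨x, rfl⟩ := mk_surj p; obtain ⟨y, rfl⟩ := mk_surj q
    obtain ⟨z, rfl⟩ := mk_surj r
    exact cdist_triangle x y z
  eq_of_dist_eq_zero := by
    intro p q h; obtain ⟨x, rfl⟩ := mk_surj p; obtain ⟨y, rfl⟩ := mk_surj q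
    have h' : min ‖x - y‖ ‖x + y‖ = 0 := h
    rw [mk_eq]
    rcases min_choice ‖x - y‖ ‖x + y‖ with h1 | h1
    · left; rw [h1, norm_eq_zero] at h'; exact sub_eq_zero.1 h'
    · right; rw [h1, norm_eq_zero] at h'; exact eq_neg_of_add_eq_zero_left h'

theorem dist_mk (x y : ℂ) : dist (mk x) (mk y) = min ‖x - y‖ ‖x + y‖ := rfl

theorem dist_mk_le (x y : ℂ) : dist (mk x) (mk y) ≤ dist x y := by
  rw [dist_mk, dist_eq_norm]; exact min_le_left _ _

theorem mk_lipschitz : LipschitzWith 1 mk :=
  LipschitzWith.of_dist_le_mul (fun x y => by rw [NNReal.coe_one, one_mul]; exact dist_mk_le x y)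

theorem mk_continuous : Continuous mk := mk_lipschitz.continuous

theorem dist_zero (x : ℂ) : dist (mk x) (mk 0) = ‖x‖ := by
  rw [dist_mk, sub_zero, add_zero, min_self]

instance : ProperSpace Cone where
  isCompact_closedBall := by
    intro p r
    obtain ⟨x, rfl⟩ := mk_surj p
    have : Metric.closedBall (mk x) r = mk '' Metric.closedBall x r := by
      ext q
      obtain ⟨y, rfl⟩ := mk_surj q
      constructor
      · intro h
        rw [Metric.mem_closedBall, dist_mk] at h
        rcases min_le_iff.1 h with h | h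
        · exact ⟨y, by rw [Metric.mem_closedBall, dist_eq_norm]; exact h, rfl⟩
        · refine ⟨-y, ?_, mk_neg y⟩
          rw [Metric.mem_closedBall, dist_eq_norm, show -y - x = -(y + x) by ring, norm_neg]
          exact h
      · rintro ⟨z, hz, hzy⟩
        rw [← hzy]
        exact (dist_mk_le _ _).trans hz
    rw [this]
    exact (isCompact_closedBall x r).image mk_continuous

/-! ### homeomorphism with the plane -/

/-- squaring -/
noncomputable def sq : Cone → ℂ := Quotient.lift (fun z : ℂ => z ^ 2) (by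
  rintro x y (h | h)
  · rw [h]
  · rw [h]; ring)

theorem sq_mk (z : ℂ) : sq (mk z) = z ^ 2 := rfl

theorem sq_dist (x y : ℂ) : ‖x ^ 2 - y ^ 2‖ = ‖x - y‖ * ‖x + y‖ := by
  rw [← norm_mul]; congr 1; ring

theorem sq_continuous : Continuous sq := by
  rw [continuous_iff_continuousAt]
  intro p
  obtain ⟨x, rfl⟩ := mk_surj p
  rw [Metric.continuousAt_iff]
  intro ε hε
  refine ⟨min 1 (ε / (2 * ‖x‖ + 2)), by positivity, ?_⟩
  intro q hq
  obtain ⟨y, rfl⟩ := mk_surj q
  rw [sq_mk, sq_mk, dist_eq_norm, sq_dist]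
  rw [dist_mk] at hq
  have hq1 := lt_of_lt_of_le hq (min_le_left _ _)
  have hq2 := lt_of_lt_of_le hq (min_le_right _ _)
  rw [lt_div_iff₀ (by positivity)] at hq2
  have hx := norm_nonneg x
  rcases min_choice ‖y - x‖ ‖y + x‖ with h | h
  · rw [h] at hq1 hq2
    have h3 : ‖y + x‖ ≤ ‖y - x‖ + 2 * ‖x‖ := by
      calc ‖y + x‖ = ‖(y - x) + 2 * x‖ := by congr 1; ring
        _ ≤ ‖y - x‖ + ‖2 * x‖ := norm_add_le _ _
        _ = _ := by rw [norm_mul]; simp
    nlinarith [norm_nonneg (y - x)]
  · rw [h] at hq1 hq2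
    have h3 : ‖y - x‖ ≤ ‖y + x‖ + 2 * ‖x‖ := by
      calc ‖y - x‖ = ‖(y + x) - 2 * x‖ := by congr 1; ring
        _ ≤ ‖y + x‖ + ‖2 * x‖ := norm_sub_le _ _
        _ = _ := by rw [norm_mul]; simp
    nlinarith [norm_nonneg (y + x)]

theorem exists_root (w : ℂ) : ∃ z : ℂ, z ^ 2 = w := IsAlgClosed.exists_pow_nat_eq w two_pos

noncomputable def root (w : ℂ) : ℂ := (exists_root w).choose
theorem root_sq (w : ℂ) : root w ^ 2 = w := (exists_root w).choose_spec

noncomputable def homeo : Cone ≃ₜ ℂ where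
  toFun := sq
  invFun := fun w => mk (root w)
  left_inv := by
    intro p; obtain ⟨x, rfl⟩ := mk_surj p
    show mk (root (x ^ 2)) = mk x
    rw [mk_eq]
    have := root_sq (x ^ 2)
    exact sq_eq_sq_iff_eq_or_eq_neg.1 this
  right_inv := by
    intro w
    show (root w) ^ 2 = w
    exact root_sq w
  continuous_toFun := sq_continuous
  continuous_invFun := by
    rw [continuous_iff_continuousAt]
    intro w
    rw [Metric.continuousAt_iff]
    intro ε hε
    refine ⟨ε ^ 2, by positivity, ?_⟩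
    intro v hv
    rw [dist_mk]
    have h1 : ‖root v - root w‖ * ‖root v + root w‖ < ε ^ 2 := by
      rw [← sq_dist, root_sq, root_sq, ← dist_eq_norm]; exact hv
    by_contra hcon
    push Not at hcon
    have h2 := le_min_iff.1 hcon
    nlinarith [h2.1, h2.2]

theorem homeo_mk (z : ℂ) : homeo (mk z) = z ^ 2 := rfl

end Pool.Agent.R763.Cn
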