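import Pool.Agent.R763.Cone1

set_option autoImplicit false
open MeasureTheory Set Filter Topology

namespace Pool.Agent.R763.Cn

theorem nsub (s t : ℝ) {u v : ℂ} (hu : ‖u‖ = 1) (hv : ‖v‖ = 1) :
    ‖s • u - t • v‖ ^ 2 = s ^ 2 + t ^ 2 - 2 * s * t * inner ℝ u v := by
  rw [norm_sub_sq_real, norm_smul, norm_smul, hu, hv, mul_one, mul_one, real_inner_smul_left,
    real_inner_smul_right, Real.norm_eq_abs, Real.norm_eq_abs, sq_abs, sq_abs]
  ring

theorem nadd (s t : ℝ) {u v : ℂ} (hu : ‖u‖ = 1) (hv : ‖v‖ = 1) :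
    ‖s • u + t • v‖ ^ 2 = s ^ 2 + t ^ 2 + 2 * s * t * inner ℝ u v := by
  rw [norm_add_sq_real, norm_smul, norm_smul, hu, hv, mul_one, mul_one, real_inner_smul_left,
    real_inner_smul_right, Real.norm_eq_abs, Real.norm_eq_abs, sq_abs, sq_abs]
  ring

theorem eq_of_inner_one {u v : ℂ} (hu : ‖u‖ = 1) (hv : ‖v‖ = 1) (h : inner ℝ u v = 1) : u = v := by
  have := nsub 1 1 hu hv
  rw [h, one_smul, one_smul] at this
  have h2 : ‖u - v‖ ^ 2 = 0 := by rw [this]; norm_num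
  have h3 : ‖u - v‖ = 0 := by simpa using h2
  exact sub_eq_zero.1 (norm_eq_zero.1 h3)

theorem inner_le_one {u v : ℂ} (hu : ‖u‖ = 1) (hv : ‖v‖ = 1) : inner ℝ u v ≤ 1 := by
  have := real_inner_le_norm u v
  rw [hu, hv] at this; linarith

theorem neg_one_le_inner {u v : ℂ} (hu : ‖u‖ = 1) (hv : ‖v‖ = 1) : -1 ≤ inner ℝ u v := by
  have := nadd 1 1 hu hv
  have h2 := sq_nonneg ‖(1:ℝ) • u + (1:ℝ) • v‖
  linarith

theorem line_shortest {x u : ℂ} (hu : ‖u‖ = 1) {ℓ : ℝ} 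
    (h : ℓ ≤ dist (mk x) (mk (x + ℓ • u))) : IsShortest (fun t : ℝ => mk (x + t • u)) ℓ := by
  have hle : ∀ s t : ℝ, dist (mk (x + s • u)) (mk (x + t • u)) ≤ |s - t| := by
    intro s t
    refine (dist_mk_le _ _).trans (le_of_eq ?_)
    rw [dist_eq_norm, show x + s • u - (x + t • u) = (s - t) • u by rw [sub_smul]; abel, norm_smul, hu,
      mul_one, Real.norm_eq_abs]
  have hx : mk x = mk (x + (0:ℝ) • u) := by rw [zero_smul, add_zero]
  have key : ∀ s t : ℝ, 0 ≤ s → s ≤ t → t ≤ ℓ → dist (mk (x + s • u)) (mk (x + t • u)) = |s - t| := by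
    intro s t hs hst ht
    apply le_antisymm (hle s t)
    have h1 := dist_triangle4 (mk x) (mk (x + s • u)) (mk (x + t • u)) (mk (x + ℓ • u))
    have h2 := hle 0 s
    rw [← hx] at h2
    have h3 := hle t ℓ
    rw [abs_of_nonpos (by linarith)] at h2 h3 ⊢
    linarith
  intro s hs t ht
  rcases le_total s t with hst | hst
  · exact key s t hs.1 hst ht.2
  · rw [dist_comm, abs_sub_comm]; exact key t s ht.1 hst hs.2

theorem exists_shortest (p q : Cone) : ∃ γ : ℝ → Cone,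
    IsShortest γ (dist p q) ∧ γ 0 = p ∧ γ (dist p q) = q := by
  obtain ⟨x, rfl⟩ := mk_surj p
  have : ∃ y, mk y = q ∧ ‖x - y‖ = dist (mk x) q := by
    obtain ⟨y, rfl⟩ := mk_surj q
    rcases min_choice ‖x - y‖ ‖x + y‖ with h | h
    · exact ⟨y, rfl, by rw [dist_mk, h]⟩
    · exact ⟨-y, mk_neg y, by rw [dist_mk, h, sub_neg_eq_add]⟩
  obtain ⟨y, rfl, hy⟩ := this
  rcases eq_or_ne x y with hxy | hxy
  · subst hxy
    refine ⟨fun _ => mk x, ?_, rfl, rfl⟩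
    rw [dist_self]
    intro s hs t ht
    have e1 : s = 0 := le_antisymm hs.2 hs.1
    have e2 : t = 0 := le_antisymm ht.2 ht.1
    rw [e1, e2]; simp
  · have hd : 0 < ‖x - y‖ := norm_pos_iff.2 (sub_ne_zero.2 hxy)
    set ℓ := ‖x - y‖ with hℓ
    set u : ℂ := ℓ⁻¹ • (y - x) with hu
    have hu1 : ‖u‖ = 1 := by
      rw [hu, norm_smul, norm_sub_rev, ← hℓ, norm_inv, Real.norm_eq_abs, abs_of_pos hd,
        inv_mul_cancel₀ hd.ne']
    have hend : x + ℓ • u = y := by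
      rw [hu, smul_smul, mul_inv_cancel₀ hd.ne', one_smul]; abel
    rw [← hy]
    refine ⟨fun t => mk (x + t • u), line_shortest hu1 ?_, ?_, ?_⟩
    · rw [hend, ← hy]
    · show mk (x + (0:ℝ) • u) = mk x
      rw [zero_smul, add_zero]
    · show mk (x + ℓ • u) = mk y
      rw [hend]

/-- every shortest path lifts to a straight segment -/
theorem shortest_lift {γ : ℝ → Cone} {ℓ : ℝ} (hℓ : 0 < ℓ) (hγ : IsShortest γ ℓ) {x : ℂ}
    (hx : mk x = γ 0) : ∃ u : ℂ, ‖u‖ = 1 ∧ ∀ t ∈ Icc 0 ℓ, γ t = mk (x + t • u) := by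
  have h0 : (0:ℝ) ∈ Icc 0 ℓ := ⟨le_rfl, hℓ.le⟩
  have h1 : ℓ ∈ Icc 0 ℓ := ⟨hℓ.le, le_rfl⟩
  -- one point
  have pt : ∀ y : ℂ, mk y = γ ℓ → ∀ t ∈ Icc 0 ℓ,
      (‖ℓ⁻¹ • (y - x)‖ = 1 ∧ γ t = mk (x + t • (ℓ⁻¹ • (y - x)))) ∨
      (‖ℓ⁻¹ • (-y - x)‖ = 1 ∧ γ t = mk (x + t • (ℓ⁻¹ • (-y - x)))) := by
    intro y hy t ht
    have hd1 : dist (mk x) (γ t) = t := by
      rw [hx, hγ 0 h0 t ht, zero_sub, abs_neg, abs_of_nonneg ht.1]
    have hd2 : dist (γ t) (mk y) = ℓ - t := by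
      rw [hy, hγ t ht ℓ h1, abs_sub_comm, abs_of_nonneg (by linarith [ht.2])]
    have hd3 : dist (mk x) (mk y) = ℓ := by
      rw [hx, hy, hγ 0 h0 ℓ h1, zero_sub, abs_neg, abs_of_pos hℓ]
    obtain ⟨z, hz, hxz⟩ : ∃ z, mk z = γ t ∧ ‖x - z‖ = t := by
      obtain ⟨z, hz⟩ := mk_surj (γ t)
      rw [← hz, dist_mk] at hd1
      rcases min_choice ‖x - z‖ ‖x + z‖ with h | h
      · exact ⟨z, hz, by rw [← h, hd1]⟩
      · refine ⟨-z, by rw [mk_neg, hz], ?_⟩
        rw [sub_neg_eq_add, ← h, hd1]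
    have fin : ∀ y' : ℂ, mk y' = mk y → ‖z - y'‖ = ℓ - t →
        ‖ℓ⁻¹ • (y' - x)‖ = 1 ∧ γ t = mk (x + t • (ℓ⁻¹ • (y' - x))) := by
      intro y' hy' hzy
      have h3 : ‖x - y'‖ = ℓ := by
        apply le_antisymm
        · calc ‖x - y'‖ = ‖(x - z) + (z - y')‖ := by congr 1; ring
            _ ≤ ‖x - z‖ + ‖z - y'‖ := norm_add_le _ _
            _ = ℓ := by rw [hxz, hzy]; ring
        · rw [← hd3, ← hy', ← dist_eq_norm]; exact dist_mk_le _ _
      have h4 : Wbtw ℝ x z y' := by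
        rw [← dist_add_dist_eq_iff, dist_eq_norm, dist_eq_norm, dist_eq_norm, hxz, hzy, h3]; ring
      obtain ⟨r, hr, hrz⟩ := h4
      rw [AffineMap.lineMap_apply_module'] at hrz
      have h5 : r * ℓ = t := by
        have : ‖x - z‖ = r * ℓ := by
          rw [← hrz, ← h3, norm_sub_rev x y', show x - (r • (y' - x) + x) = -(r • (y' - x)) by ring, norm_neg, norm_smul,
            Real.norm_eq_abs, abs_of_nonneg hr.1]
        rw [← this, hxz]
      refine ⟨?_, ?_⟩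
      · rw [norm_smul, norm_sub_rev, h3, norm_inv, Real.norm_eq_abs, abs_of_pos hℓ, inv_mul_cancel₀ hℓ.ne']
      · rw [← hz, smul_smul, show t * ℓ⁻¹ = r by rw [← h5]; field_simp, ← hrz, add_comm]
    rw [← hz, dist_mk] at hd2
    rcases min_choice ‖z - y‖ ‖z + y‖ with h | h
    · left; exact fin y rfl (by rw [← h, hd2])
    · right; exact fin (-y) (mk_neg y) (by rw [sub_neg_eq_add, ← h, hd2])
  obtain ⟨y0, hy0⟩ := mk_surj (γ ℓ)
  have hmid : ℓ / 2 ∈ Icc 0 ℓ := ⟨by linarith, by linarith⟩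
  -- choose the sign of `y`
  obtain ⟨y, hy, hu, hm⟩ : ∃ y, mk y = γ ℓ ∧ ‖ℓ⁻¹ • (y - x)‖ = 1 ∧
      γ (ℓ / 2) = mk (x + (ℓ / 2) • (ℓ⁻¹ • (y - x))) := by
    rcases pt y0 hy0 (ℓ / 2) hmid with h | h
    · exact ⟨y0, hy0, h⟩
    · exact ⟨-y0, by rw [mk_neg, hy0], h⟩
  refine ⟨ℓ⁻¹ • (y - x), hu, ?_⟩
  intro t ht
  rcases pt y hy t ht with h | h
  · exact h.2
  · obtain ⟨hv, hvt⟩ := h
    rcases eq_or_lt_of_le ht.1 with ht0 | ht0
    · rw [← ht0, zero_smul, add_zero, hx]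
    rcases eq_or_lt_of_le ht.2 with ht1 | ht1
    · rw [ht1, smul_smul, mul_inv_cancel₀ hℓ.ne', one_smul, add_sub_cancel, hy]
    set u := ℓ⁻¹ • (y - x) with hudef
    set v := ℓ⁻¹ • (-y - x) with hvdef
    have hd := hγ t ht (ℓ / 2) hmid
    rw [hvt, hm, dist_mk] at hd
    rcases min_choice ‖x + t • v - (x + (ℓ / 2) • u)‖ ‖x + t • v + (x + (ℓ / 2) • u)‖ with h | h
    · rw [h, show x + t • v - (x + (ℓ / 2) • u) = t • v - (ℓ / 2) • u by abel] at hd
      have h6 := nsub t (ℓ / 2) hv hu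
      rw [hd, sq_abs] at h6
      have h7 : t * ℓ * (inner ℝ v u - 1) = 0 := by linarith
      have h8 : inner ℝ v u = 1 := by
        rcases mul_eq_zero.1 h7 with h | h
        · exfalso; exact (mul_pos ht0 hℓ).ne' h
        · linarith
      rw [hvt, eq_of_inner_one hv hu h8]
    · have e1 : x + t • v + (x + (ℓ / 2) • u) = -((ℓ - t) • v + (ℓ - ℓ / 2) • u) := by
        have e2 : ℓ • v = -y - x := by rw [hvdef, smul_smul, mul_inv_cancel₀ hℓ.ne', one_smul]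
        have e3 : ℓ • u = y - x := by rw [hudef, smul_smul, mul_inv_cancel₀ hℓ.ne', one_smul]
        rw [sub_smul, sub_smul, e2, e3]; ring
      rw [h, e1, norm_neg] at hd
      have h6 := nadd (ℓ - t) (ℓ - ℓ / 2) hv hu
      rw [hd, sq_abs] at h6
      have h7 : (ℓ - t) * ℓ * (inner ℝ v u + 1) = 0 := by linarith
      have h8 : inner ℝ v u = -1 := by
        rcases mul_eq_zero.1 h7 with h | h
        · exfalso; exact (mul_pos (show 0 < ℓ - t by linarith) hℓ).ne' h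
        · linarith
      have h9 : v = -u := by
        apply eq_of_inner_one hv (by rw [norm_neg, hu])
        rw [inner_neg_right, h8]; ring
      have h10 : x = 0 := by
        rw [hudef, hvdef, ← smul_neg] at h9
        have := smul_right_injective ℂ (inv_ne_zero hℓ.ne') h9
        have h11 : (2:ℂ) * x = 0 := by linear_combination -this
        simpa using h11
      rw [hvt, h9, h10, zero_add, zero_add, smul_neg, mk_neg]

end Pool.Agent.R763.Cn
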