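import Pool.Agent.R763.Cone2

set_option autoImplicit false
open MeasureTheory Set Filter Topology

namespace Pool.Agent.R763.Cn

/-- points `(s, t)` with small positive coordinates -/
theorem ev_small {ε : ℝ} (hε : 0 < ε) : ∀ᶠ q : ℝ × ℝ in 𝓝[>] 0 ×ˢ 𝓝[>] 0,
    (0 < q.1 ∧ q.1 < ε) ∧ (0 < q.2 ∧ q.2 < ε) := by
  have h : ∀ᶠ s : ℝ in 𝓝[>] (0:ℝ), 0 < s ∧ s < ε := by
    filter_upwards [Ioo_mem_nhdsGT hε] with s hs
    exact ⟨hs.1, hs.2⟩
  exact h.prod_mk h

theorem dist_base (x : ℂ) {u : ℂ} {a : ℝ} (hx : IsShortest (fun t : ℝ => mk (x + t • u)) a)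
    {s : ℝ} (hs : s ∈ Icc 0 a) : dist (mk x) (mk (x + s • u)) = s := by
  have h0 : (0:ℝ) ∈ Icc 0 a := ⟨le_rfl, hs.1.trans hs.2⟩
  have := hx 0 h0 s hs
  simp only [zero_smul, add_zero, zero_sub, abs_neg, abs_of_nonneg hs.1] at this
  exact this

/-- distance between points on two segments issuing from `x ≠ 0` -/
theorem dist_far {x u v : ℂ} (hu : ‖u‖ = 1) (hv : ‖v‖ = 1) {s t : ℝ} (hs : 0 ≤ s) (ht : 0 ≤ t)
    (hst : s + t ≤ ‖x‖) : dist (mk (x + s • u)) (mk (x + t • v)) ^ 2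
      = s ^ 2 + t ^ 2 - 2 * s * t * inner ℝ u v := by
  have e1 : x + s • u - (x + t • v) = s • u - t • v := by abel
  have e2 : x + s • u + (x + t • v) = (2:ℝ) • x + (s • u + t • v) := by
    rw [two_smul]; abel
  have h1 : ‖s • u - t • v‖ ≤ s + t := by
    refine (norm_sub_le _ _).trans (le_of_eq ?_)
    rw [norm_smul, norm_smul, hu, hv, Real.norm_eq_abs, Real.norm_eq_abs, abs_of_nonneg hs,
      abs_of_nonneg ht]; ring
  have h2 : s + t ≤ ‖(2:ℝ) • x + (s • u + t • v)‖ := by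
    have h3 : ‖s • u + t • v‖ ≤ s + t := by
      refine (norm_add_le _ _).trans (le_of_eq ?_)
      rw [norm_smul, norm_smul, hu, hv, Real.norm_eq_abs, Real.norm_eq_abs, abs_of_nonneg hs,
        abs_of_nonneg ht]; ring
    have h4 : ‖(2:ℝ) • x‖ = 2 * ‖x‖ := by rw [norm_smul]; simp
    have h5 : ‖(2:ℝ) • x‖ ≤ ‖(2:ℝ) • x + (s • u + t • v)‖ + ‖s • u + t • v‖ := by
      calc ‖(2:ℝ) • x‖ = ‖((2:ℝ) • x + (s • u + t • v)) - (s • u + t • v)‖ := by congr 1; abel
        _ ≤ _ := norm_sub_le _ _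
    linarith
  rw [dist_mk, e1, e2, min_eq_left (h1.trans h2), nsub s t hu hv]

/-- distance between points on two segments issuing from the apex -/
theorem dist_apex {u v : ℂ} (hu : ‖u‖ = 1) (hv : ‖v‖ = 1) {s t : ℝ} (hs : 0 ≤ s) (ht : 0 ≤ t) :
    dist (mk (0 + s • u)) (mk (0 + t • v)) ^ 2 = s ^ 2 + t ^ 2 - 2 * s * t * |inner ℝ u v| := by
  rw [dist_mk, zero_add, zero_add]
  have h1 := nsub s t hu hv
  have h2 := nadd s t hu hv
  have hst : 0 ≤ 2 * s * t := by positivity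
  rcases le_total 0 (inner ℝ u v) with h | h
  · rw [abs_of_nonneg h, min_eq_left, h1]
    apply (sq_le_sq₀ (norm_nonneg _) (norm_nonneg _)).1
    rw [h1, h2]
    have := mul_nonneg hst h
    linarith
  · rw [abs_of_nonpos h, min_eq_right, h2]
    · ring
    · apply (sq_le_sq₀ (norm_nonneg _) (norm_nonneg _)).1
      rw [h1, h2]
      have := mul_nonneg hst (neg_nonneg.2 h)
      linarith

theorem ca_eq {s t d i : ℝ} (hs : 0 < s) (ht : 0 < t) (h : d ^ 2 = s ^ 2 + t ^ 2 - 2 * s * t * i) :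
    ca s t d = Real.arccos i := by
  rw [ca, h]
  congr 1
  field_simp
  ring

/-- the general angle statement -/
theorem angle_of_dist {γ η : ℝ → Cone} {a b : ℝ} (ha : 0 < a) (hb : 0 < b) (hγ : IsShortest γ a)
    (hη : IsShortest η b) {i ε : ℝ} (hε : 0 < ε)
    (h : ∀ s t : ℝ, 0 < s → s < ε → 0 < t → t < ε → s ≤ a → t ≤ b →
      dist (γ s) (η t) ^ 2 = s ^ 2 + t ^ 2 - 2 * s * t * i) : HasAngle γ η (Real.arccos i) := by
  have hev : ∀ᶠ q : ℝ × ℝ in 𝓝[>] 0 ×ˢ 𝓝[>] 0,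
      ca (dist (γ 0) (γ q.1)) (dist (η 0) (η q.2)) (dist (γ q.1) (η q.2)) = Real.arccos i := by
    filter_upwards [ev_small (show 0 < min ε (min a b) from lt_min hε (lt_min ha hb))] with q hq
    obtain ⟨⟨h1, h2⟩, ⟨h3, h4⟩⟩ := hq
    have a1 := lt_min_iff.1 h2
    have a2 := lt_min_iff.1 a1.2
    have b1 := lt_min_iff.1 h4
    have b2 := lt_min_iff.1 b1.2
    rw [hγ 0 ⟨le_rfl, ha.le⟩ q.1 ⟨h1.le, a2.1.le⟩, hη 0 ⟨le_rfl, hb.le⟩ q.2 ⟨h3.le, b2.2.le⟩,
      zero_sub, zero_sub, abs_neg, abs_neg, abs_of_pos h1, abs_of_pos h3]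
    exact ca_eq h1 h3 (h _ _ h1 a1.1 h3 b1.1 a2.1.le b2.2.le)
  exact tendsto_nhds_of_eventually_eq hev

theorem HasAngle.unique {M : Type} [MetricSpace M] {γ η : ℝ → M} {α β : ℝ} (h1 : HasAngle γ η α)
    (h2 : HasAngle γ η β) : α = β := tendsto_nhds_unique h1 h2

/-- angle at a point different from the apex -/
theorem angle_far {γ η : ℝ → Cone} {a b : ℝ} (ha : 0 < a) (hb : 0 < b) (hγ : IsShortest γ a)
    (hη : IsShortest η b) {x u v : ℂ} (hx : x ≠ 0) (hu : ‖u‖ = 1) (hv : ‖v‖ = 1)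
    (hγ' : ∀ t ∈ Icc 0 a, γ t = mk (x + t • u)) (hη' : ∀ t ∈ Icc 0 b, η t = mk (x + t • v)) :
    HasAngle γ η (Real.arccos (inner ℝ u v)) := by
  have hx' := norm_pos_iff.2 hx
  apply angle_of_dist ha hb hγ hη (show 0 < ‖x‖ / 2 by positivity)
  intro s t hs hs1 ht ht1 hsa htb
  rw [hγ' s ⟨hs.le, hsa⟩, hη' t ⟨ht.le, htb⟩]
  exact dist_far hu hv hs.le ht.le (by linarith)

theorem angle_apex {γ η : ℝ → Cone} {a b : ℝ} (ha : 0 < a) (hb : 0 < b) (hγ : IsShortest γ a)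
    (hη : IsShortest η b) {u v : ℂ} (hu : ‖u‖ = 1) (hv : ‖v‖ = 1)
    (hγ' : ∀ t ∈ Icc 0 a, γ t = mk (0 + t • u)) (hη' : ∀ t ∈ Icc 0 b, η t = mk (0 + t • v)) :
    HasAngle γ η (Real.arccos |inner ℝ u v|) := by
  apply angle_of_dist ha hb hγ hη one_pos
  intro s t hs hs1 ht ht1 hsa htb
  rw [hγ' s ⟨hs.le, hsa⟩, hη' t ⟨ht.le, htb⟩]
  exact dist_apex hu hv hs.le ht.le

/-- The cone is an Alexandrov space of nonnegative curvature. -/
theorem cone_cbb : IsCBB0 Cone where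
  complete := inferInstance
  geodesic := exists_shortest
  comparison := by
    intro a b γ η ha hb hγ hη h0
    obtain ⟨x, hx⟩ := mk_surj (γ 0)
    obtain ⟨u, hu, hγ'⟩ := shortest_lift ha hγ hx
    obtain ⟨v, hv, hη'⟩ := shortest_lift hb hη (hx.trans h0)
    rcases eq_or_ne x 0 with h | h
    · subst h
      refine ⟨_, angle_apex ha hb hγ hη hu hv hγ' hη', le_of_eq ?_⟩
      apply ca_eq ha hb
      rw [hγ' a ⟨ha.le, le_rfl⟩, hη' b ⟨hb.le, le_rfl⟩]
      exact dist_apex hu hv ha.le hb.le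
    · refine ⟨_, angle_far ha hb hγ hη h hu hv hγ' hη', ?_⟩
      rw [ca]
      apply Real.arccos_le_arccos
      rw [le_div_iff₀ (by positivity), hγ' a ⟨ha.le, le_rfl⟩, hη' b ⟨hb.le, le_rfl⟩]
      have h1 := dist_mk_le (x + a • u) (x + b • v)
      rw [dist_eq_norm, show x + a • u - (x + b • v) = a • u - b • v by abel] at h1
      have h2 := nsub a b hu hv
      have h3 := pow_le_pow_left₀ dist_nonneg h1 2
      linarith
  adjacent := by
    intro a b c ζ η ha hb hc hζ hη h0 α β hα hβ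
    obtain ⟨x, hx⟩ := mk_surj (ζ 0)
    have hζ1 : IsShortest ζ b := fun s hs t ht => hζ s ⟨by linarith [hs.1], hs.2⟩ t ⟨by linarith [ht.1], ht.2⟩
    have hζ2 : IsShortest (fun t => ζ (-t)) a := by
      intro s hs t ht
      rw [hζ (-s) ⟨by linarith [hs.2], by linarith [hs.1]⟩ (-t) ⟨by linarith [ht.2], by linarith [ht.1]⟩,
        ← abs_neg]
      congr 1; ring
    obtain ⟨u, hu, hu'⟩ := shortest_lift hb hζ1 hx
    obtain ⟨w, hw, hw'⟩ := shortest_lift ha hζ2 (x := x) (by simpa using hx)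
    obtain ⟨v, hv, hη'⟩ := shortest_lift hc hη (hx.trans h0.symm)
    -- distances between the two branches
    have hdist : ∀ s t : ℝ, 0 < s → s ≤ b → 0 < t → t ≤ a →
        dist (mk (x + s • u)) (mk (x + t • w)) = s + t := by
      intro s t hs hsb ht hta
      rw [← hu' s ⟨hs.le, hsb⟩, ← hw' t ⟨ht.le, hta⟩]
      show dist (ζ s) (ζ (-t)) = s + t
      rw [hζ s ⟨by linarith, hsb⟩ (-t) ⟨by linarith, by linarith⟩, abs_of_pos (by linarith)]; ring
    have hxne : x ≠ 0 := by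
      rintro rfl
      set m := min a b with hm
      have hm0 : 0 < m := lt_min ha hb
      have h1 := hdist m m hm0 (min_le_right _ _) hm0 (min_le_left _ _)
      have h2 := dist_apex hu hw hm0.le hm0.le
      rw [h1] at h2
      have := abs_nonneg (inner ℝ u w)
      nlinarith [mul_pos hm0 hm0]
    have hx' := norm_pos_iff.2 hxne
    have huw : w = -u := by
      set m := min (min a b) (‖x‖ / 2) with hm
      have hm0 : 0 < m := lt_min (lt_min ha hb) (by positivity)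
      have hma : m ≤ a := (min_le_left _ _).trans (min_le_left _ _)
      have hmb : m ≤ b := (min_le_left _ _).trans (min_le_right _ _)
      have hmx : m ≤ ‖x‖ / 2 := min_le_right _ _
      have h1 := hdist m m hm0 hmb hm0 hma
      have h2 := dist_far hu hw hm0.le hm0.le (show m + m ≤ ‖x‖ by linarith)
      rw [h1] at h2
      have h3 : inner ℝ u w = -1 := by
        have h4 : m ^ 2 * (inner ℝ u w + 1) = 0 := by linarith
        rcases mul_eq_zero.1 h4 with h | h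
        · exact absurd h (by positivity)
        · linarith
      have h5 : -u = w := by
        apply eq_of_inner_one (by rw [norm_neg, hu]) hw
        rw [inner_neg_left, h3]; ring
      exact h5.symm
    have hA := angle_far hb hc hζ1 hη hxne hu hv hu' hη'
    have hB := angle_far ha hc hζ2 hη hxne hw hv hw' hη'
    rw [hα.unique hA, hβ.unique hB, huw, inner_neg_left, Real.arccos_neg]
    ring

end Pool.Agent.R763.Cn
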