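import Pool.Agent.R763.Cone3

set_option autoImplicit false
open MeasureTheory Set Filter Topology

namespace Pool.Agent.R763.Cn

section defs
variable {M : Type} [MetricSpace M]

/-- length of the curve `c` restricted to `[a, b]` -/
noncomputable def len (c : ℝ → M) (a b : ℝ) : ℝ := (eVariationOn c (Icc a b)).toReal

/-- A broken geodesic with vertices `c (τ 0), …, c (τ (N+1))` on the arc `c '' [a, b]`, with the
same end points, with consecutive parameters at distance less than `δ`; `σ i` is a shortest path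
from `c (τ i)` to `c (τ (i+1))`. -/
structure IsBroken (c : ℝ → M) (a b δ : ℝ) (N : ℕ) (τ : ℕ → ℝ) (σ : ℕ → ℝ → M) : Prop where
  first : τ 0 = a
  last : τ (N + 1) = b
  mono : ∀ i ≤ N, τ i < τ (i + 1)
  mesh : ∀ i ≤ N, τ (i + 1) - τ i < δ
  shortest : ∀ i ≤ N, IsShortest (σ i) (dist (c (τ i)) (c (τ (i + 1))))
  left : ∀ i ≤ N, σ i 0 = c (τ i)
  right : ∀ i ≤ N, σ i (dist (c (τ i)) (c (τ (i + 1)))) = c (τ (i + 1))

/-- the `i`-th segment run backwards -/
noncomputable def rev (c : ℝ → M) (τ : ℕ → ℝ) (σ : ℕ → ℝ → M) (i : ℕ) (t : ℝ) : M :=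
  σ i (dist (c (τ i)) (c (τ (i + 1))) - t)

/-- `α (i+1)`, `i < N`, is the angle at the vertex `c (τ (i+1))` between consecutive segments;
`α 0` and `α (N+1)` are the angles at the end points between the curve and the end segments. -/
structure AreAngles (c : ℝ → M) (N : ℕ) (τ : ℕ → ℝ) (σ : ℕ → ℝ → M) (α : ℕ → ℝ) : Prop where
  first : HasAngle (fun t => c (τ 0 + t)) (σ 0) (α 0)
  mid : ∀ i < N, HasAngle (rev c τ σ i) (σ (i + 1)) (α (i + 1))
  last : HasAngle (fun t => c (τ (N + 1) - t)) (rev c τ σ N) (α (N + 1))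

/-- There are inscribed broken geodesics, all of whose angles exist, arbitrarily close to the arc. -/
def HasBroken (c : ℝ → M) (a b : ℝ) : Prop :=
  ∀ δ > 0, ∃ N τ σ α, IsBroken c a b δ N τ σ ∧ AreAngles c N τ σ α

/-- The swerve of the arc `c '' [a, b]` is `φ`: the limit, over inscribed broken geodesics
converging to the arc, of the sum of `π - α` over the interior vertices plus the two end angles. -/
def HasSwerve (c : ℝ → M) (a b φ : ℝ) : Prop := HasBroken c a b ∧
  ∀ ε > 0, ∃ δ > 0, ∀ N τ σ α, IsBroken c a b δ N τ σ → AreAngles c N τ σ α →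
    |(∑ i ∈ Finset.range N, (Real.pi - α (i + 1))) + α 0 + α (N + 1) - φ| < ε

/-- The same with the literal formula `∑_{i=0}^{N+1} (π - α_i)`, in which the two end angles enter as
`π - α_0` and `π - α_{N+1}`. -/
def HasSwerveLiteral (c : ℝ → M) (a b φ : ℝ) : Prop := HasBroken c a b ∧
  ∀ ε > 0, ∃ δ > 0, ∀ N τ σ α, IsBroken c a b δ N τ σ → AreAngles c N τ σ α →
    |(∑ i ∈ Finset.range (N + 2), (Real.pi - α i)) - φ| < ε

end defs

/-- the point of the unit circle with argument `θ` -/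
noncomputable def e (θ : ℝ) : ℂ := Complex.exp (θ * Complex.I)

theorem e_norm (θ : ℝ) : ‖e θ‖ = 1 := Complex.norm_exp_ofReal_mul_I θ

theorem e_eq (θ : ℝ) : e θ = ⟨Real.cos θ, Real.sin θ⟩ := by
  apply Complex.ext
  · rw [e, Complex.exp_ofReal_mul_I_re]
  · rw [e, Complex.exp_ofReal_mul_I_im]

theorem e_add_pi (θ : ℝ) : e (θ + Real.pi) = -e θ := by
  rw [e_eq, e_eq, Real.cos_add_pi, Real.sin_add_pi]
  apply Complex.ext <;> simp

theorem e_inner (s t : ℝ) : inner ℝ (e s) (e t) = Real.cos (s - t) := by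
  rw [e_eq, e_eq, Complex.inner, Real.cos_sub]
  simp [Complex.mul_re]
  ring

/-- chord -/
theorem e_sub (s t : ℝ) : e t - e s = (2 * Real.sin ((t - s) / 2)) • (Complex.I * e ((s + t) / 2)) := by
  have h1 : t = (s + t) / 2 + (t - s) / 2 := by ring
  have h2 : s = (s + t) / 2 - (t - s) / 2 := by ring
  have e1 : e t = e ((s + t) / 2 + (t - s) / 2) := by rw [← h1]
  have e2 : e s = e ((s + t) / 2 - (t - s) / 2) := by rw [← h2]
  rw [e1, e2]
  generalize (s + t) / 2 = A
  generalize (t - s) / 2 = B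
  rw [e_eq, e_eq, e_eq, Real.cos_add, Real.cos_sub, Real.sin_add, Real.sin_sub]
  generalize Real.sin B = sB
  generalize Real.cos B = cB
  apply Complex.ext
  · simp; ring
  · simp; ring

theorem e_add (s t : ℝ) : e s + e t = (2 * Real.cos ((t - s) / 2)) • e ((s + t) / 2) := by
  have h1 : t = (s + t) / 2 + (t - s) / 2 := by ring
  have h2 : s = (s + t) / 2 - (t - s) / 2 := by ring
  have e1 : e t = e ((s + t) / 2 + (t - s) / 2) := by rw [← h1]
  have e2 : e s = e ((s + t) / 2 - (t - s) / 2) := by rw [← h2]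
  rw [e1, e2]
  generalize (s + t) / 2 = A
  generalize (t - s) / 2 = B
  rw [e_eq, e_eq, e_eq, Real.cos_add, Real.cos_sub, Real.sin_add, Real.sin_sub]
  generalize Real.sin B = sB
  generalize Real.cos B = cB
  apply Complex.ext
  · simp; ring
  · simp; ring

theorem Ie_norm (θ : ℝ) : ‖Complex.I * e θ‖ = 1 := by rw [norm_mul, Complex.norm_I, e_norm, one_mul]

theorem Ie_inner (s t : ℝ) : inner ℝ (Complex.I * e s) (Complex.I * e t) = Real.cos (s - t) := by
  rw [← e_inner, e_eq, e_eq, Complex.inner, Complex.inner]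
  simp

theorem norm_e_sub (s t : ℝ) : ‖e s - e t‖ = |2 * Real.sin ((t - s) / 2)| := by
  rw [norm_sub_rev, e_sub, norm_smul, Ie_norm, mul_one, Real.norm_eq_abs]

theorem norm_e_add (s t : ℝ) : ‖e s + e t‖ = |2 * Real.cos ((t - s) / 2)| := by
  rw [e_add, norm_smul, e_norm, mul_one, Real.norm_eq_abs]

/-- the boundary curve -/
noncomputable def cc (θ : ℝ) : Cone := mk (e θ)

theorem cc_period (θ : ℝ) : cc (θ + Real.pi) = cc θ := by rw [cc, cc, e_add_pi, mk_neg]

theorem e_lipschitz (s t : ℝ) : ‖e s - e t‖ ≤ |s - t| := by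
  rw [norm_e_sub, abs_mul, abs_two]
  have := Real.abs_sin_le_abs (x := (t - s) / 2)
  rw [abs_div, abs_two, abs_sub_comm] at this
  linarith

theorem cc_lipschitz : LipschitzWith 1 cc := by
  apply LipschitzWith.of_dist_le_mul
  intro s t
  rw [NNReal.coe_one, one_mul, Real.dist_eq]
  refine (dist_mk_le _ _).trans ?_
  rw [dist_eq_norm]; exact e_lipschitz s t

theorem sin_lt_cos_half {x : ℝ} (h0 : 0 ≤ x) (h1 : x < Real.pi / 2) : Real.sin (x / 2) < Real.cos (x / 2) := by
  rw [← Real.sin_pi_div_two_sub]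
  apply Real.sin_lt_sin_of_lt_of_le_pi_div_two <;> linarith [Real.pi_pos]

/-- distance of nearby points of the curve -/
theorem cc_dist {s t : ℝ} (h0 : s ≤ t) (h1 : t - s < Real.pi / 2) :
    dist (cc s) (cc t) = 2 * Real.sin ((t - s) / 2) := by
  have hpi := Real.pi_pos
  have h2 : 0 ≤ Real.sin ((t - s) / 2) := Real.sin_nonneg_of_nonneg_of_le_pi (by linarith) (by linarith)
  have h3 := sin_lt_cos_half (show 0 ≤ t - s by linarith) h1
  rw [cc, cc, dist_mk, norm_e_sub, norm_e_add, abs_of_nonneg (by linarith), abs_of_nonneg (by linarith)]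
  exact min_eq_left (by linarith)

/-- The direction of an inscribed segment. -/
theorem seg_dir {s t : ℝ} (h0 : s < t) (h1 : t - s < Real.pi / 2) {σ : ℝ → Cone}
    (hσ : IsShortest σ (dist (cc s) (cc t))) (hl : σ 0 = cc s) (hr : σ (dist (cc s) (cc t)) = cc t) :
    ∀ x ∈ Icc 0 (dist (cc s) (cc t)), σ x = mk (e s + x • (Complex.I * e ((s + t) / 2))) := by
  have hpi := Real.pi_pos
  have hd := cc_dist h0.le h1
  have hsin : 0 < Real.sin ((t - s) / 2) := Real.sin_pos_of_pos_of_lt_pi (by linarith) (by linarith)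
  have hdpos : 0 < dist (cc s) (cc t) := by rw [hd]; linarith
  obtain ⟨u, hu, hu'⟩ := shortest_lift hdpos hσ (x := e s) (by rw [hl]; rfl)
  have h2 := hu' _ ⟨hdpos.le, le_rfl⟩
  rw [hr] at h2
  have h3 : e s + dist (cc s) (cc t) • u = e t := by
    rcases mk_eq.1 h2 with h | h
    · exact h.symm
    · exfalso
      have h4 : e s + e t = -(dist (cc s) (cc t) • u) := by rw [h]; ring
      have h5 : ‖e s + e t‖ = dist (cc s) (cc t) := by
        rw [h4, norm_neg, norm_smul, hu, mul_one, Real.norm_eq_abs, abs_of_pos hdpos]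
      have h6 := sin_lt_cos_half (show 0 ≤ t - s by linarith) h1
      rw [norm_e_add, hd, abs_of_pos (by linarith)] at h5
      linarith
  have h7 : u = Complex.I * e ((s + t) / 2) := by
    have h8 : dist (cc s) (cc t) • u = dist (cc s) (cc t) • (Complex.I * e ((s + t) / 2)) := by
      have h9 := e_sub s t
      rw [← hd] at h9
      rw [← h9, ← h3]; ring
    exact smul_right_injective ℂ hdpos.ne' h8
  rw [← h7]
  exact hu'

theorem rev_dir {s t : ℝ} (h0 : s < t) (h1 : t - s < Real.pi / 2) {σ : ℝ → Cone}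
    (hσ : IsShortest σ (dist (cc s) (cc t))) (hl : σ 0 = cc s) (hr : σ (dist (cc s) (cc t)) = cc t) :
    ∀ x ∈ Icc 0 (dist (cc s) (cc t)), σ (dist (cc s) (cc t) - x)
      = mk (e t + x • (-(Complex.I * e ((s + t) / 2)))) := by
  intro x hx
  rw [seg_dir h0 h1 hσ hl hr _ ⟨by linarith [hx.2], by linarith [hx.1]⟩]
  congr 1
  have h9 := e_sub s t
  rw [← cc_dist h0.le h1] at h9
  rw [sub_smul, ← h9, smul_neg]; ring

theorem IsShortest.rev {M : Type} [MetricSpace M] {σ : ℝ → M} {ℓ : ℝ} (h : IsShortest σ ℓ) :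
    IsShortest (fun t => σ (ℓ - t)) ℓ := by
  intro s hs t ht
  show dist (σ (ℓ - s)) (σ (ℓ - t)) = |s - t|
  rw [h _ ⟨by linarith [hs.2], by linarith [hs.1]⟩ _ ⟨by linarith [ht.2], by linarith [ht.1]⟩,
    ← abs_neg]
  congr 1; ring

/-- the angle between consecutive segments -/
theorem angle_mid {r s t : ℝ} (h0 : r < s) (h1 : s < t) (h2 : s - r < 1) (h3 : t - s < 1)
    {σ σ' : ℝ → Cone}
    (hσ : IsShortest σ (dist (cc r) (cc s))) (hl : σ 0 = cc r) (hr : σ (dist (cc r) (cc s)) = cc s)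
    (hσ' : IsShortest σ' (dist (cc s) (cc t))) (hl' : σ' 0 = cc s) (hr' : σ' (dist (cc s) (cc t)) = cc t) :
    HasAngle (fun x => σ (dist (cc r) (cc s) - x)) σ' (Real.pi - (t - r) / 2) := by
  have hpi := Real.pi_gt_three
  have hd : 0 < dist (cc r) (cc s) := by
    rw [cc_dist h0.le (by linarith)]
    have := Real.sin_pos_of_pos_of_lt_pi (x := (s - r) / 2) (by linarith) (by linarith)
    linarith
  have hd' : 0 < dist (cc s) (cc t) := by
    rw [cc_dist h1.le (by linarith)]
    have := Real.sin_pos_of_pos_of_lt_pi (x := (t - s) / 2) (by linarith) (by linarith)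
    linarith
  have hne : e s ≠ 0 := by
    intro h; have := e_norm s; rw [h, norm_zero] at this; norm_num at this
  have hA := angle_far hd hd' hσ.rev hσ' hne (u := -(Complex.I * e ((r + s) / 2)))
    (v := Complex.I * e ((s + t) / 2)) (by rw [norm_neg, Ie_norm]) (Ie_norm _)
    (rev_dir h0 (by linarith) hσ hl hr) (seg_dir h1 (by linarith) hσ' hl' hr')
  rw [inner_neg_left, Ie_inner, Real.arccos_neg, ← Real.cos_neg,
    show -((r + s) / 2 - (s + t) / 2) = (t - r) / 2 by ring,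
    Real.arccos_cos (by linarith) (by linarith)] at hA
  exact hA

/-- a general statement for the angle between a curve and a segment -/
theorem angle_curve {x : ℂ} (hx : ‖x‖ = 1) {ρ : ℝ → ℝ} {w : ℝ → ℂ} {u : ℂ} {η γ : ℝ → Cone} {b ψ : ℝ} (hb : 0 < b)
    (hη : IsShortest η b) (hu : ‖u‖ = 1) (hη' : ∀ t ∈ Icc 0 b, η t = mk (x + t • u))
    (hγ0 : γ 0 = mk x) (hw : ∀ s, ‖w s‖ = 1)
    (hγ : ∀ s, 0 < s → s < 1 → γ s = mk (x + ρ s • w s)) (hρ : ∀ s, 0 < s → s < 1 → 0 < ρ s ∧ ρ s ≤ s)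
    (hlim : Tendsto (fun s => Real.arccos (inner ℝ (w s) u)) (𝓝[>] 0) (𝓝 ψ)) : HasAngle γ η ψ := by
  have hev : ∀ᶠ q : ℝ × ℝ in 𝓝[>] 0 ×ˢ 𝓝[>] 0,
      Real.arccos (inner ℝ (w q.1) u) = 
      ca (dist (γ 0) (γ q.1)) (dist (η 0) (η q.2)) (dist (γ q.1) (η q.2)) := by
    filter_upwards [ev_small (show 0 < min (1/2) b from lt_min (by norm_num) hb)] with q hq
    obtain ⟨⟨h1, h2⟩, ⟨h3, h4⟩⟩ := hq
    have a1 := lt_min_iff.1 h2
    have b1 := lt_min_iff.1 h4
    obtain ⟨r1, r2⟩ := hρ q.1 h1 (by linarith [a1.1])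
    rw [hη 0 ⟨le_rfl, hb.le⟩ q.2 ⟨h3.le, b1.2.le⟩, zero_sub, abs_neg, abs_of_pos h3, hγ0,
      hγ q.1 h1 (by linarith [a1.1]), hη' q.2 ⟨h3.le, b1.2.le⟩]
    have d1 : dist (mk x) (mk (x + ρ q.1 • w q.1)) = ρ q.1 := by
      have h5 := dist_far (x := x) (hw q.1) (hw q.1) (s := 0) (t := ρ q.1) le_rfl r1.le
        (by rw [hx]; linarith [a1.1])
      rw [zero_smul, add_zero] at h5
      have h6 : dist (mk x) (mk (x + ρ q.1 • w q.1)) ^ 2 = (ρ q.1) ^ 2 := by rw [h5]; ring
      exact (sq_eq_sq₀ dist_nonneg r1.le).1 h6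
    rw [d1]
    symm
    apply ca_eq r1 h3
    exact dist_far (hw q.1) hu r1.le h3.le (by rw [hx]; linarith [a1.1, b1.1])
  refine Tendsto.congr' hev ?_
  exact hlim.comp tendsto_fst

theorem angle_first {s t : ℝ} (h1 : s < t) (h3 : t - s < 1) {σ' : ℝ → Cone}
    (hσ' : IsShortest σ' (dist (cc s) (cc t))) (hl' : σ' 0 = cc s) (hr' : σ' (dist (cc s) (cc t)) = cc t) :
    HasAngle (fun x => cc (s + x)) σ' ((t - s) / 2) := by
  have hpi := Real.pi_gt_three
  have hd' : 0 < dist (cc s) (cc t) := by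
    rw [cc_dist h1.le (by linarith)]
    have := Real.sin_pos_of_pos_of_lt_pi (x := (t - s) / 2) (by linarith) (by linarith)
    linarith
  apply angle_curve (e_norm s) (ρ := fun x => 2 * Real.sin (x / 2))
    (w := fun x => Complex.I * e (s + x / 2)) hd' hσ' (Ie_norm _) (seg_dir h1 (by linarith) hσ' hl' hr')
  · show cc (s + 0) = mk (e s); rw [add_zero]; rfl
  · intro x; exact Ie_norm _
  · intro x hx0 hx1
    show mk (e (s + x)) = _
    congr 1
    have := e_sub s (s + x)
    rw [show (s + x - s) / 2 = x / 2 by ring, show (s + (s + x)) / 2 = s + x / 2 by ring] at this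
    show _ = e s + (2 * Real.sin (x / 2)) • (Complex.I * e (s + x / 2))
    rw [← this]; ring
  · intro x hx0 hx1
    show 0 < 2 * Real.sin (x / 2) ∧ 2 * Real.sin (x / 2) ≤ x
    have h5 := Real.sin_pos_of_pos_of_lt_pi (x := x / 2) (by linarith) (by linarith)
    have h6 := Real.sin_le (show 0 ≤ x / 2 by linarith)
    exact ⟨by linarith, by linarith⟩
  · have : Tendsto (fun x : ℝ => Real.arccos (Real.cos (s + x / 2 - (s + t) / 2))) (𝓝[>] 0)
        (𝓝 (Real.arccos (Real.cos (s + 0 / 2 - (s + t) / 2)))) := by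
      apply Tendsto.mono_left _ nhdsWithin_le_nhds
      apply Continuous.tendsto
      exact Real.continuous_arccos.comp (Real.continuous_cos.comp (by fun_prop))
    rw [← Real.cos_neg, show -(s + 0 / 2 - (s + t) / 2) = (t - s) / 2 by ring,
      Real.arccos_cos (by linarith) (by linarith)] at this
    refine Tendsto.congr (fun x => ?_) this
    rw [Ie_inner]

theorem angle_last {s t : ℝ} (h1 : s < t) (h3 : t - s < 1) {σ' : ℝ → Cone}
    (hσ' : IsShortest σ' (dist (cc s) (cc t))) (hl' : σ' 0 = cc s) (hr' : σ' (dist (cc s) (cc t)) = cc t) :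
    HasAngle (fun x => cc (t - x)) (fun x => σ' (dist (cc s) (cc t) - x)) ((t - s) / 2) := by
  have hpi := Real.pi_gt_three
  have hd' : 0 < dist (cc s) (cc t) := by
    rw [cc_dist h1.le (by linarith)]
    have := Real.sin_pos_of_pos_of_lt_pi (x := (t - s) / 2) (by linarith) (by linarith)
    linarith
  apply angle_curve (e_norm t) (ρ := fun x => 2 * Real.sin (x / 2))
    (w := fun x => -(Complex.I * e (t - x / 2))) (u := -(Complex.I * e ((s + t) / 2))) hd' hσ'.rev
    (by rw [norm_neg, Ie_norm]) (rev_dir h1 (by linarith) hσ' hl' hr')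
  · show cc (t - 0) = mk (e t); rw [sub_zero]; rfl
  · intro x; show ‖-(Complex.I * e (t - x / 2))‖ = 1; rw [norm_neg, Ie_norm]
  · intro x hx0 hx1
    show mk (e (t - x)) = _
    congr 1
    have := e_sub (t - x) t
    rw [show (t - (t - x)) / 2 = x / 2 by ring, show (t - x + t) / 2 = t - x / 2 by ring] at this
    show _ = e t + (2 * Real.sin (x / 2)) • (-(Complex.I * e (t - x / 2)))
    rw [smul_neg, ← this]; ring
  · intro x hx0 hx1
    show 0 < 2 * Real.sin (x / 2) ∧ 2 * Real.sin (x / 2) ≤ x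
    have h5 := Real.sin_pos_of_pos_of_lt_pi (x := x / 2) (by linarith) (by linarith)
    have h6 := Real.sin_le (show 0 ≤ x / 2 by linarith)
    exact ⟨by linarith, by linarith⟩
  · have : Tendsto (fun x : ℝ => Real.arccos (Real.cos (t - x / 2 - (s + t) / 2))) (𝓝[>] 0)
        (𝓝 (Real.arccos (Real.cos (t - 0 / 2 - (s + t) / 2)))) := by
      apply Tendsto.mono_left _ nhdsWithin_le_nhds
      apply Continuous.tendsto
      exact Real.continuous_arccos.comp (Real.continuous_cos.comp (by fun_prop))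
    rw [show t - 0 / 2 - (s + t) / 2 = (t - s) / 2 by ring,
      Real.arccos_cos (by linarith) (by linarith)] at this
    refine Tendsto.congr (fun x => ?_) this
    show _ = Real.arccos (inner ℝ (-(Complex.I * e (t - x / 2))) (-(Complex.I * e ((s + t) / 2))))
    rw [inner_neg_left, inner_neg_right, neg_neg, Ie_inner]

theorem telescope (τ : ℕ → ℝ) (N : ℕ) :
    (∑ i ∈ Finset.range N, (τ (i + 2) - τ i) / 2) + (τ 1 - τ 0) / 2 + (τ (N + 1) - τ N) / 2
      = τ (N + 1) - τ 0 := by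
  induction N with
  | zero => simp
  | succ n ih =>
    rw [Finset.sum_range_succ]
    linarith

theorem angles_eq {a b δ : ℝ} (hδ : δ ≤ 1) {N : ℕ} {τ : ℕ → ℝ} {σ : ℕ → ℝ → Cone} {α : ℕ → ℝ}
    (hB : IsBroken cc a b δ N τ σ) (hA : AreAngles cc N τ σ α) :
    α 0 = (τ 1 - τ 0) / 2 ∧ α (N + 1) = (τ (N + 1) - τ N) / 2 ∧
    (∑ i ∈ Finset.range N, (Real.pi - α (i + 1))) + α 0 + α (N + 1) = b - a := by
  have hm : ∀ i ≤ N, τ (i + 1) - τ i < 1 := fun i hi => (hB.mesh i hi).trans_le hδ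
  have h0 : α 0 = (τ 1 - τ 0) / 2 :=
    hA.first.unique (angle_first (hB.mono 0 (Nat.zero_le _)) (hm 0 (Nat.zero_le _))
      (hB.shortest 0 (Nat.zero_le _)) (hB.left 0 (Nat.zero_le _)) (hB.right 0 (Nat.zero_le _)))
  have h1 : α (N + 1) = (τ (N + 1) - τ N) / 2 :=
    hA.last.unique (angle_last (hB.mono N le_rfl) (hm N le_rfl)
      (hB.shortest N le_rfl) (hB.left N le_rfl) (hB.right N le_rfl))
  refine ⟨h0, h1, ?_⟩
  have h2 : ∀ i ∈ Finset.range N, Real.pi - α (i + 1) = (τ (i + 2) - τ i) / 2 := by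
    intro i hi
    have hi' := Finset.mem_range.1 hi
    have := (hA.mid i hi').unique (angle_mid (hB.mono i hi'.le) (hB.mono (i + 1) hi')
      (hm i hi'.le) (hm (i + 1) hi')
      (hB.shortest i hi'.le) (hB.left i hi'.le) (hB.right i hi'.le)
      (hB.shortest (i + 1) hi') (hB.left (i + 1) hi') (hB.right (i + 1) hi'))
    rw [this]; ring
  rw [Finset.sum_congr rfl h2, h0, h1]
  have h3 := telescope τ N
  rw [h3, hB.last, hB.first]

theorem broken_exists {a b : ℝ} (hab : a < b) : HasBroken cc a b := by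
  intro δ hδ
  have hm : 0 < min δ 1 := lt_min hδ one_pos
  obtain ⟨N, hN⟩ := exists_nat_gt ((b - a) / min δ 1)
  set h := (b - a) / (N + 1) with hh
  have hN1 : (0:ℝ) < N + 1 := by positivity
  have hpos : 0 < h := div_pos (by linarith) hN1
  have hlt : h < min δ 1 := by
    rw [hh, div_lt_iff₀ hN1]
    rw [div_lt_iff₀ hm] at hN
    nlinarith
  have hδ' : h < δ := hlt.trans_le (min_le_left _ _)
  have h1 : h < 1 := hlt.trans_le (min_le_right _ _)
  have hstep : ∀ i : ℕ, a + ((i + 1 : ℕ) : ℝ) * h - (a + (i : ℝ) * h) = h := by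
    intro i; push_cast; ring
  choose σ hσ1 hσ2 hσ3 using fun i : ℕ => exists_shortest (cc (a + (i : ℝ) * h)) (cc (a + ((i + 1 : ℕ) : ℝ) * h))
  have hlt' : ∀ i : ℕ, a + (i : ℝ) * h < a + ((i + 1 : ℕ) : ℝ) * h := by
    intro i; linarith [hstep i]
  refine ⟨N, fun i => a + (i : ℝ) * h, σ, fun i => if i = 0 ∨ i = N + 1 then h / 2 else Real.pi - h,
    ⟨?_, ?_, ?_, ?_, ?_, ?_, ?_⟩, ⟨?_, ?_, ?_⟩⟩
  · simp
  · show a + ((N + 1 : ℕ) : ℝ) * h = b
    rw [hh]; push_cast; field_simp; ring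
  · intro i _; exact hlt' i
  · intro i _
    show a + ((i + 1 : ℕ) : ℝ) * h - (a + (i : ℝ) * h) < δ
    rw [hstep]; exact hδ'
  · intro i _; exact hσ1 i
  · intro i _; exact hσ2 i
  · intro i _; exact hσ3 i
  · have := angle_first (hlt' 0) (by rw [hstep]; exact h1) (hσ1 0) (hσ2 0) (hσ3 0)
    rw [hstep] at this
    simp only [true_or, if_true]
    exact this
  · intro i hi
    have := angle_mid (hlt' i) (hlt' (i + 1)) (by rw [hstep]; exact h1) (by rw [hstep]; exact h1)
      (hσ1 i) (hσ2 i) (hσ3 i) (hσ1 (i + 1)) (hσ2 (i + 1)) (hσ3 (i + 1))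
    have e : a + ((i + 1 + 1 : ℕ) : ℝ) * h - (a + (i : ℝ) * h) = 2 * h := by push_cast; ring
    rw [e, show 2 * h / 2 = h by ring] at this
    have hif : ¬ (i + 1 = 0 ∨ i + 1 = N + 1) := by omega
    simp only [hif, if_false]
    exact this
  · have := angle_last (hlt' N) (by rw [hstep]; exact h1) (hσ1 N) (hσ2 N) (hσ3 N)
    rw [hstep] at this
    simp only [or_true, if_true]
    exact this

/-- The swerve of every arc of the unit circle around the apex. -/
theorem swerve {a b : ℝ} (hab : a < b) : HasSwerve cc a b (b - a) := by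
  refine ⟨broken_exists hab, ?_⟩
  intro ε hε
  refine ⟨1, one_pos, ?_⟩
  intro N τ σ α hB hA
  rw [(angles_eq le_rfl hB hA).2.2, sub_self, abs_zero]
  exact hε

theorem swerve_literal {a b : ℝ} (hab : a < b) : HasSwerveLiteral cc a b (b - a + 2 * Real.pi) := by
  refine ⟨broken_exists hab, ?_⟩
  intro ε hε
  refine ⟨min 1 (ε / 2), by positivity, ?_⟩
  intro N τ σ α hB hA
  obtain ⟨h0, h1, h2⟩ := angles_eq (min_le_left _ _) hB hA
  have e : ∑ i ∈ Finset.range (N + 2), (Real.pi - α i) - (b - a + 2 * Real.pi) =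
      -2 * (α 0 + α (N + 1)) := by
    rw [Finset.sum_range_succ, Finset.sum_range_succ']
    linarith
  have a1 := hB.mesh 0 (Nat.zero_le _)
  have a2 := hB.mono 0 (Nat.zero_le _)
  have a3 := hB.mesh N le_rfl
  have a4 := hB.mono N le_rfl
  have a5 : min 1 (ε / 2) ≤ ε / 2 := min_le_right _ _
  rw [e, h0, h1, abs_lt]
  simp only [zero_add] at a1 a2
  constructor <;> linarith

end Pool.Agent.R763.Cn
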