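import Pool.Agent.R763.Cone4

set_option autoImplicit false
open MeasureTheory Set Filter Topology

namespace Pool.Agent.R763.Cn

section defs
variable {M : Type} [MetricSpace M]

/-- `c` is a simple closed curve of period `P` with image the boundary of `D`. -/
structure IsBoundaryCurve (D : Set M) (c : ℝ → M) (P : ℝ) : Prop where
  pos : 0 < P
  cont : Continuous c
  periodic : ∀ t, c (t + P) = c t
  inj : InjOn c (Ico 0 P)
  range : range c = frontier D

/-- Near `p` the space is isometric to a Euclidean disk, in which `D` is convex. -/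
def FlatConvexNear (D : Set M) (p : M) : Prop :=
  ∃ r > 0, ∃ f : ℂ → M, f 0 = p ∧
    (∀ y ∈ Metric.ball (0:ℂ) r, ∀ z ∈ Metric.ball (0:ℂ) r, dist (f y) (f z) = dist y z) ∧
    f '' Metric.ball (0:ℂ) r = Metric.ball p r ∧ Convex ℝ {y ∈ Metric.ball (0:ℂ) r | f y ∈ D}

/-- the circumscribed radius `min_{p ∈ D} max_{q ∈ ∂D} |pq|` -/
noncomputable def circumRadius (D : Set M) : ℝ :=
  sInf ((fun p => sSup ((fun q => dist p q) '' frontier D)) '' D)

end defs

theorem len_cc {a b : ℝ} (hab : a ≤ b) : len cc a b = b - a := by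
  have hpi := Real.pi_gt_three
  have hupper : eVariationOn cc (Icc a b) ≤ ENNReal.ofReal (b - a) := by
    have h1 := (cc_lipschitz.lipschitzOnWith (s := univ)).comp_eVariationOn_le (g := id) (s := Icc a b)
      (fun _ _ => mem_univ _)
    rw [eVariationOn_id_Icc, Function.comp_id] at h1
    simpa using h1
  have hlower : ENNReal.ofReal (b - a) ≤ eVariationOn cc (Icc a b) := by
    have key : ∀ᶠ n : ℕ in atTop, ENNReal.ofReal ((b - a) - (b - a) ^ 3 / 24 * (1 / (n:ℝ)) ^ 2) ≤
        eVariationOn cc (Icc a b) := by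
      filter_upwards [eventually_gt_atTop ⌈b - a⌉₊, eventually_gt_atTop 0] with n hn hn0
      have hn1 : b - a < n := (Nat.le_ceil _).trans_lt (by exact_mod_cast hn)
      have hn0' : (0:ℝ) < n := by exact_mod_cast hn0
      set h := (b - a) / n with hh
      have hnonneg : 0 ≤ h := div_nonneg (by linarith) hn0'.le
      have hlt : h < 1 := by rw [hh, div_lt_one hn0']; exact hn1
      have hnh : n * h = b - a := by rw [hh]; field_simp
      have hmono : MonotoneOn (fun i : ℕ => a + i * h) (Iic n) := by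
        intro i _ j _ hij
        have : (i:ℝ) ≤ j := by exact_mod_cast hij
        show a + i * h ≤ a + j * h
        nlinarith
      have h1 := eVariationOn.sum_le_of_monotoneOn_Iic (f := cc) (s := Icc a b) hmono (by
        intro i hi
        have : (i:ℝ) ≤ n := by exact_mod_cast hi
        show a ≤ a + i * h ∧ a + i * h ≤ b
        have h2 : 0 ≤ (i:ℝ) := Nat.cast_nonneg i
        constructor <;> nlinarith)
      refine le_trans ?_ h1
      have h3 : ∀ i ∈ Finset.range n, edist (cc (a + ((i + 1 : ℕ) : ℝ) * h)) (cc (a + (i:ℝ) * h))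
          = ENNReal.ofReal (2 * Real.sin (h / 2)) := by
        intro i _
        rw [edist_comm, edist_dist, cc_dist]
        · congr 3; push_cast; ring
        · push_cast; nlinarith
        · push_cast; nlinarith
      rw [Finset.sum_congr rfl h3, Finset.sum_const, Finset.card_range, nsmul_eq_mul,
        ← ENNReal.ofReal_natCast, ← ENNReal.ofReal_mul hn0'.le]
      apply ENNReal.ofReal_le_ofReal
      have h4 : h - h ^ 3 / 24 ≤ 2 * Real.sin (h / 2) := by
        rcases eq_or_lt_of_le hnonneg with h0 | h0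
        · rw [← h0]; simp
        · have := Real.sin_gt_sub_cube (x := h / 2) (by linarith)
          nlinarith
      have h5 : (b - a) - (b - a) ^ 3 / 24 * (1 / (n:ℝ)) ^ 2 = n * (h - h ^ 3 / 24) := by
        rw [hh]; field_simp
      rw [h5]
      exact mul_le_mul_of_nonneg_left h4 hn0'.le
    have hlim : Tendsto (fun n : ℕ => ENNReal.ofReal ((b - a) - (b - a) ^ 3 / 24 * (1 / (n:ℝ)) ^ 2)) atTop
        (𝓝 (ENNReal.ofReal (b - a))) := by
      apply ENNReal.tendsto_ofReal
      have h1 : Tendsto (fun n : ℕ => (1 / (n:ℝ))) atTop (𝓝 0) := tendsto_one_div_atTop_nhds_zero_nat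
      have h2 := ((h1.pow 2).const_mul ((b - a) ^ 3 / 24)).const_sub (b - a)
      simpa using h2
    exact le_of_tendsto hlim key
  rw [len, le_antisymm hupper hlower, ENNReal.toReal_ofReal (by linarith)]

/-- the disk of radius one around the apex -/
def DD : Set Cone := Metric.closedBall (mk 0) 1

theorem mem_DD {z : ℂ} : mk z ∈ DD ↔ ‖z‖ ≤ 1 := by
  rw [DD, Metric.mem_closedBall, dist_zero]

theorem DD_closed : IsClosed DD := Metric.isClosed_closedBall

theorem interior_DD : interior DD = Metric.ball (mk 0) 1 := by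
  apply Subset.antisymm
  · intro p hp
    obtain ⟨z, rfl⟩ := mk_surj p
    rw [Metric.mem_ball, dist_zero]
    have h1 := mem_DD.1 (interior_subset hp)
    rcases eq_or_lt_of_le h1 with h | h
    · exfalso
      have hcont : ContinuousAt (fun s : ℝ => mk ((1 + s) • z)) 0 := by
        apply Continuous.continuousAt
        exact mk_continuous.comp (by fun_prop)
      have hnhds := hcont.preimage_mem_nhds (IsOpen.mem_nhds isOpen_interior (by simpa using hp))
      obtain ⟨ε, hε, hball⟩ := Metric.mem_nhds_iff.1 hnhds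
      have h2 := hball (show ε / 2 ∈ Metric.ball (0:ℝ) ε by
        rw [Metric.mem_ball, Real.dist_eq, sub_zero, abs_of_pos (by linarith)]; linarith)
      have h3 := mem_DD.1 (interior_subset h2)
      rw [norm_smul, h, mul_one, Real.norm_eq_abs, abs_of_pos (by linarith)] at h3
      linarith
    · exact h
  · exact interior_maximal Metric.ball_subset_closedBall Metric.isOpen_ball

theorem frontier_DD : frontier DD = range cc := by
  rw [DD_closed.frontier_eq, interior_DD]
  ext p
  obtain ⟨z, rfl⟩ := mk_surj p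
  constructor
  · rintro ⟨h1, h2⟩
    rw [mem_DD] at h1
    rw [Metric.mem_ball, dist_zero, not_lt] at h2
    have h3 : ‖z‖ = 1 := le_antisymm h1 h2
    refine ⟨Complex.arg z, ?_⟩
    rw [cc, e]
    congr 1
    have := Complex.norm_mul_exp_arg_mul_I z
    rw [h3] at this
    simpa using this
  · rintro ⟨θ, hθ⟩
    rw [← hθ, cc]
    refine ⟨mem_DD.2 (e_norm θ).le, ?_⟩
    rw [Metric.mem_ball, dist_zero, e_norm]
    exact lt_irrefl _

theorem cc_inj : InjOn cc (Ico 0 Real.pi) := by
  intro s hs t ht h
  have hpi := Real.pi_pos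
  have hb : -(Real.pi / 2) < (t - s) / 2 ∧ (t - s) / 2 < Real.pi / 2 := by
    constructor <;> linarith [hs.1, hs.2, ht.1, ht.2]
  rcases mk_eq.1 h with h | h
  · have h1 := norm_e_sub s t
    rw [h, sub_self, norm_zero] at h1
    have h2 : Real.sin ((t - s) / 2) = 0 := by
      have := abs_eq_zero.1 h1.symm; linarith
    have h3 := (Real.sin_eq_zero_iff_of_lt_of_lt (by linarith [hb.1]) (by linarith [hb.2])).1 h2
    linarith
  · have h1 := norm_e_add s t
    rw [h, neg_add_cancel, norm_zero] at h1
    have h2 : 0 < Real.cos ((t - s) / 2) := Real.cos_pos_of_mem_Ioo ⟨hb.1, hb.2⟩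
    have := abs_eq_zero.1 h1.symm
    linarith

theorem boundary_DD : IsBoundaryCurve DD cc Real.pi where
  pos := Real.pi_pos
  cont := cc_lipschitz.continuous
  periodic := cc_period
  inj := cc_inj
  range := frontier_DD.symm

theorem interior_homeo : Nonempty (interior DD ≃ₜ Metric.ball (0:ℂ) 1) := by
  have h : homeo '' (interior DD) = Metric.ball (0:ℂ) 1 := by
    rw [interior_DD]
    ext w
    constructor
    · rintro ⟨p, hp, rfl⟩
      obtain ⟨z, rfl⟩ := mk_surj p
      rw [Metric.mem_ball, dist_zero] at hp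
      rw [mem_ball_zero_iff, homeo_mk, norm_pow]
      exact pow_lt_one₀ (norm_nonneg _) hp two_ne_zero
    · intro hw
      refine ⟨mk (root w), ?_, ?_⟩
      · rw [Metric.mem_ball, dist_zero]
        rw [mem_ball_zero_iff, ← root_sq w, norm_pow] at hw
        by_contra hcon
        push Not at hcon
        have := one_le_pow₀ hcon (n := 2)
        linarith
      · rw [homeo_mk, root_sq]
  rw [← h]
  exact ⟨homeo.image _⟩

theorem flat_DD : ∀ p ∈ frontier DD, FlatConvexNear DD p := by
  rw [frontier_DD]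
  rintro p ⟨θ, rfl⟩
  have hx : ‖e θ‖ = 1 := e_norm θ
  set x := e θ with hxdef
  have hiso : ∀ y ∈ Metric.ball (0:ℂ) (1/2), ∀ z ∈ Metric.ball (0:ℂ) (1/2),
      dist (mk (x + y)) (mk (x + z)) = dist y z := by
    intro y hy z hz
    rw [mem_ball_zero_iff] at hy hz
    rw [dist_mk, dist_eq_norm, show x + y - (x + z) = y - z by ring]
    apply min_eq_left
    have h1 : ‖y - z‖ ≤ ‖y‖ + ‖z‖ := norm_sub_le _ _
    have h2 : ‖(2:ℝ) • x‖ ≤ ‖x + y + (x + z)‖ + ‖y + z‖ := by
      calc ‖(2:ℝ) • x‖ = ‖(x + y + (x + z)) - (y + z)‖ := by congr 1; rw [two_smul]; ring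
        _ ≤ _ := norm_sub_le _ _
    have h3 : ‖(2:ℝ) • x‖ = 2 := by rw [norm_smul, hx]; simp
    have h4 : ‖y + z‖ ≤ ‖y‖ + ‖z‖ := norm_add_le _ _
    linarith
  refine ⟨1/2, by norm_num, fun y => mk (x + y), by simp only [add_zero]; rfl, hiso, ?_, ?_⟩
  · ext p
    constructor
    · rintro ⟨y, hy, rfl⟩
      have := hiso y hy 0 (by simp)
      rw [add_zero, dist_zero_right] at this
      rw [Metric.mem_ball]
      show dist (mk (x + y)) (mk x) < 1 / 2
      rw [this]
      exact mem_ball_zero_iff.1 hy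
    · intro hp
      obtain ⟨w, rfl⟩ := mk_surj p
      rw [Metric.mem_ball] at hp
      have hp' : dist (mk w) (mk x) < 1 / 2 := hp
      rw [dist_mk] at hp'
      rcases min_lt_iff.1 hp' with h | h
      · exact ⟨w - x, mem_ball_zero_iff.2 h, by simp⟩
      · refine ⟨-w - x, mem_ball_zero_iff.2 ?_, ?_⟩
        · rw [show -w - x = -(w + x) by ring, norm_neg]; exact h
        · show mk (x + (-w - x)) = mk w
          rw [show x + (-w - x) = -w by ring, mk_neg]
  · have : {y ∈ Metric.ball (0:ℂ) (1/2) | mk (x + y) ∈ DD} =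
        Metric.ball (0:ℂ) (1/2) ∩ Metric.closedBall (-x) 1 := by
      ext y
      show (y ∈ Metric.ball (0:ℂ) (1/2) ∧ mk (x + y) ∈ DD) ↔ _
      rw [mem_DD, mem_inter_iff, Metric.mem_closedBall, dist_eq_norm, sub_neg_eq_add, add_comm y x]
    rw [this]
    exact (convex_ball _ _).inter (convex_closedBall _ _)

theorem inner_orth (θ : ℝ) : inner ℝ (e θ) (Complex.I * e θ) = 0 := by
  rw [e_eq, Complex.inner]
  simp
  ring

theorem one_le_circumRadius : 1 ≤ circumRadius DD := by
  apply le_csInf
  · exact ⟨_, mk 0, mem_DD.2 (by simp), rfl⟩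
  · rintro v ⟨p, hp, rfl⟩
    obtain ⟨z, rfl⟩ := mk_surj p
    rw [mem_DD] at hp
    set θ := Complex.arg z with hθ
    have hz : z = ‖z‖ • e θ := by
      rw [e]
      have := Complex.norm_mul_exp_arg_mul_I z
      rw [Complex.real_smul, this]
    have hq : mk (Complex.I * e θ) ∈ frontier DD := by
      rw [frontier_DD]
      refine ⟨θ + Real.pi / 2, ?_⟩
      rw [cc]; congr 1
      rw [e_eq, e_eq, Real.cos_add_pi_div_two, Real.sin_add_pi_div_two]
      apply Complex.ext <;> simp
    have hd : 1 ≤ dist (mk z) (mk (Complex.I * e θ)) := by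
      have h1 := dist_apex (e_norm θ) (Ie_norm θ) (norm_nonneg z) zero_le_one
      rw [zero_add, zero_add, one_smul, ← hz, inner_orth, abs_zero] at h1
      by_contra hcon
      push Not at hcon
      have h2 := pow_lt_one₀ dist_nonneg hcon two_ne_zero
      have h3 := sq_nonneg ‖z‖
      linarith
    refine hd.trans (le_csSup ?_ ⟨_, hq, rfl⟩)
    refine ⟨2, ?_⟩
    rintro w ⟨q, hq', rfl⟩
    rw [frontier_DD] at hq'
    obtain ⟨t, rfl⟩ := hq'
    show dist (mk z) (mk (e t)) ≤ 2
    refine (dist_mk_le _ _).trans ?_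
    rw [dist_eq_norm]
    have := norm_sub_le z (e t)
    rw [e_norm] at this
    linarith

end Pool.Agent.R763.Cn
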