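import Mathlib

/-!
Gaps of a closed subset of the line and a family of wavy leaves which fill the gaps.
-/

set_option autoImplicit false

open Set Filter Topology

namespace Pool.Agent.R763.Gaps

/-- `lo` and `hi` for a closed set which is unbounded on both sides. -/
structure Good (K : Set ℝ) : Prop where
  closed : IsClosed K
  above : ∀ x : ℝ, ∃ k ∈ K, x ≤ k
  below : ∀ x : ℝ, ∃ k ∈ K, k ≤ x

/-- The last point of `K` before `c`. -/
noncomputable def lo (K : Set ℝ) (c : ℝ) : ℝ := sSup (K ∩ Iic c)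

/-- The first point of `K` after `c`. -/
noncomputable def hi (K : Set ℝ) (c : ℝ) : ℝ := sInf (K ∩ Ici c)

variable {K : Set ℝ}

lemma lo_mem (h : Good K) (c : ℝ) : lo K c ∈ K ∩ Iic c := by
  obtain ⟨k, hk, hkc⟩ := h.below c
  exact (h.closed.inter isClosed_Iic).csSup_mem ⟨k, hk, hkc⟩ ⟨c, fun x hx => hx.2⟩

lemma hi_mem (h : Good K) (c : ℝ) : hi K c ∈ K ∩ Ici c := by
  obtain ⟨k, hk, hkc⟩ := h.above c
  exact (h.closed.inter isClosed_Ici).csInf_mem ⟨k, hk, hkc⟩ ⟨c, fun x hx => hx.2⟩

lemma le_lo {k c : ℝ} (hk : k ∈ K) (hkc : k ≤ c) : k ≤ lo K c :=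
  le_csSup ⟨c, fun x hx => hx.2⟩ ⟨hk, hkc⟩

lemma hi_le {k c : ℝ} (hk : k ∈ K) (hkc : c ≤ k) : hi K c ≤ k :=
  csInf_le ⟨c, fun x hx => hx.2⟩ ⟨hk, hkc⟩

lemma lo_eq (h : Good K) {a c : ℝ} (ha : a ∈ K) (hac : a ≤ c) (hno : ∀ k ∈ K, k ≤ c → k ≤ a) :
    lo K c = a :=
  le_antisymm (hno _ (lo_mem h c).1 (lo_mem h c).2) (le_lo ha hac)

lemma hi_eq (h : Good K) {b c : ℝ} (hb : b ∈ K) (hbc : c ≤ b) (hno : ∀ k ∈ K, c ≤ k → b ≤ k) :
    hi K c = b :=
  le_antisymm (hi_le hb hbc) (hno _ (hi_mem h c).1 (hi_mem h c).2)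

/-- The height of the leaf with parameter `c` over `x`. -/
noncomputable def G (K : Set ℝ) (c x : ℝ) : ℝ :=
  c + 1 / 2 * min (c - lo K c) (hi K c - c) * Real.sin (x / (hi K c - lo K c))

lemma abs_wave (m s : ℝ) (hm : 0 ≤ m) (hs : |s| ≤ 1) : |1 / 2 * m * s| ≤ 1 / 2 * m := by
  rw [abs_mul, abs_of_nonneg (by positivity : 0 ≤ 1 / 2 * m)]
  exact mul_le_of_le_one_right (by positivity) hs

lemma G_bounds (h : Good K) (c x : ℝ) : (c + lo K c) / 2 ≤ G K c x ∧ G K c x ≤ (c + hi K c) / 2 := by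
  have h1 := (lo_mem h c).2
  have h2 := (hi_mem h c).2
  simp only [mem_Iic, mem_Ici] at h1 h2
  have hm : 0 ≤ min (c - lo K c) (hi K c - c) := le_min (by linarith) (by linarith)
  have h3 := abs_le.1 (abs_wave _ _ hm (Real.abs_sin_le_one (x / (hi K c - lo K c))))
  have h4 := min_le_left (c - lo K c) (hi K c - c)
  have h5 := min_le_right (c - lo K c) (hi K c - c)
  unfold G
  constructor <;> linarith [h3.1, h3.2]

lemma G_strictMono (h : Good K) (x : ℝ) : StrictMono fun c => G K c x := by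
  intro c c' hcc
  simp only
  by_cases hk : ∃ k ∈ K, c ≤ k ∧ k ≤ c'
  · obtain ⟨k, hk, h1, h2⟩ := hk
    have h3 := hi_le hk h1
    have h4 := le_lo hk h2
    have h5 := (G_bounds h c x).2
    have h6 := (G_bounds h c' x).1
    linarith
  · push Not at hk
    have hl : lo K c' = lo K c := by
      refine lo_eq h (lo_mem h c).1 ((lo_mem h c).2.trans hcc.le) fun k hkK hk' => ?_
      by_contra hcon
      push Not at hcon
      have : c ≤ k := by
        by_contra h7
        push Not at h7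
        exact absurd (le_lo hkK h7.le) (not_le.2 hcon)
      exact absurd hk' (not_le.2 (hk k hkK this))
    have hh : hi K c = hi K c' := by
      refine hi_eq h (hi_mem h c').1 (hcc.le.trans (hi_mem h c').2) fun k hkK hk' => ?_
      exact hi_le hkK (hk k hkK hk').le
    unfold G
    rw [hl, ← hh]
    set a := lo K c
    set b := hi K c
    set s := Real.sin (x / (b - a)) with hs
    have h1 : |min (c - a) (b - c) - min (c' - a) (b - c')| ≤ |c - c'| := by
      refine (abs_min_sub_min_le_max _ _ _ _).trans ?_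
      apply max_le
      · rw [sub_sub_sub_cancel_right]
      · rw [sub_sub_sub_cancel_left, abs_sub_comm]
    have h2 : |s| ≤ 1 := Real.abs_sin_le_one _
    have h3 : |(min (c - a) (b - c) - min (c' - a) (b - c')) * s| ≤ c' - c := by
      rw [abs_mul]
      calc _ ≤ |c - c'| * 1 := by gcongr
        _ = c' - c := by rw [mul_one, abs_sub_comm, abs_of_pos (by linarith)]
    have h4 := abs_le.1 h3
    nlinarith [h4.1, h4.2]

lemma no_between (h : Good K) {y k : ℝ} (hk : k ∈ K) (h1 : lo K y < k) (h2 : k < hi K y) : False := by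
  rcases le_total k y with h3 | h3
  · exact absurd (le_lo hk h3) (not_le.2 h1)
  · exact absurd (hi_le hk h3) (not_le.2 h2)

lemma lo_of_mem_gap (h : Good K) {y c : ℝ} (h1 : lo K y < c) (h2 : c < hi K y) :
    lo K c = lo K y := by
  refine lo_eq h (lo_mem h y).1 h1.le fun k hk hkc => ?_
  by_contra hcon
  push Not at hcon
  exact no_between h hk hcon (hkc.trans_lt h2)

lemma hi_of_mem_gap (h : Good K) {y c : ℝ} (h1 : lo K y < c) (h2 : c < hi K y) :
    hi K c = hi K y := by
  refine hi_eq h (hi_mem h y).1 h2.le fun k hk hkc => ?_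
  by_contra hcon
  push Not at hcon
  exact no_between h hk (h1.trans_le hkc) hcon

lemma lo_self {y : ℝ} (h : Good K) (hy : y ∈ K) : lo K y = y :=
  lo_eq h hy le_rfl fun _ _ hk => hk

lemma hi_self {y : ℝ} (h : Good K) (hy : y ∈ K) : hi K y = y :=
  hi_eq h hy le_rfl fun _ _ hk => hk

lemma G_self {y : ℝ} (h : Good K) (hy : y ∈ K) (x : ℝ) : G K y x = y := by
  unfold G
  rw [lo_self h hy, hi_self h hy]
  simp

lemma G_surj (h : Good K) (x y : ℝ) : ∃ c, G K c x = y := by
  by_cases hy : y ∈ K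
  · exact ⟨y, G_self h hy x⟩
  have h1 : lo K y < y := lt_of_le_of_ne (lo_mem h y).2 fun he => hy (he ▸ (lo_mem h y).1)
  have h2 : y < hi K y := lt_of_le_of_ne (hi_mem h y).2 fun he => hy (he.symm ▸ (hi_mem h y).1)
  set a := lo K y with ha
  set b := hi K y with hb
  have hcont : Continuous fun c : ℝ => c + 1 / 2 * min (c - a) (b - c) * Real.sin (x / (b - a)) := by
    fun_prop
  have hab : a ≤ b := by linarith
  have hivt := intermediate_value_Icc hab hcont.continuousOn
  have e1 : min (a - a) (b - a) = 0 := by rw [sub_self]; exact min_eq_left (by linarith)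
  have e2 : min (b - a) (b - b) = 0 := by rw [sub_self]; exact min_eq_right (by linarith)
  simp only [e1, e2, mul_zero, zero_mul, add_zero] at hivt
  obtain ⟨c, hc, hcy⟩ := hivt ⟨h1.le, h2.le⟩
  simp only at hcy
  have hca : a < c := by
    rcases hc.1.lt_or_eq with h3 | h3
    · exact h3
    · rw [← h3, e1] at hcy
      simp at hcy
      linarith
  have hcb : c < b := by
    rcases hc.2.lt_or_eq with h3 | h3
    · exact h3
    · rw [h3, e2] at hcy
      simp at hcy
      linarith
  refine ⟨c, ?_⟩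
  unfold G
  rw [lo_of_mem_gap h hca hcb, hi_of_mem_gap h hca hcb]
  exact hcy

/-- There is a closed set, unbounded on both sides, whose complement is dense and of measure less
than one. -/
lemma exists_good : ∃ K : Set ℝ, Good K ∧ Dense Kᶜ ∧ MeasureTheory.volume Kᶜ < 1 := by
  have h0 : MeasureTheory.volume (range ((↑) : ℚ → ℝ)) < 1 := by
    rw [(countable_range _).measure_zero]
    exact one_pos
  obtain ⟨U, hU1, hU2, hU3⟩ := (range ((↑) : ℚ → ℝ)).exists_isOpen_lt_of_lt 1 h0
  have hmeas : ∀ s : Set ℝ, MeasureTheory.volume s = ⊤ → ∃ k ∈ Uᶜ, k ∈ s := by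
    intro s hs
    by_contra hcon
    push Not at hcon
    have : s ⊆ U := fun x hx => by
      by_contra hxU
      exact hcon x hxU hx
    have h1 := MeasureTheory.measure_mono (μ := MeasureTheory.volume) this
    rw [hs, top_le_iff] at h1
    rw [h1] at hU3
    exact absurd hU3 (by simp)
  refine ⟨Uᶜ, ⟨hU2.isClosed_compl, fun x => ?_, fun x => ?_⟩, ?_, ?_⟩
  · exact hmeas (Ici x) Real.volume_Ici
  · exact hmeas (Iic x) Real.volume_Iic
  · rw [compl_compl]
    exact (Rat.denseRange_cast).mono hU1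
  · rw [compl_compl]
    exact hU3

end Pool.Agent.R763.Gaps
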