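import Mathlib

set_option autoImplicit false

namespace Pool.Agent.R763.Quad

/-- numerical data of one quadrant -/
structure Qr (l ρ ρ' s c s' c' : ℝ) : Prop where
  hl : 0 < l
  hρ : 0 < ρ
  hρ' : 0 < ρ'
  hc : 0 < c
  hc' : 0 < c'
  sc : s ^ 2 + c ^ 2 = 1
  sc' : s' ^ 2 + c' ^ 2 = 1
  g1 : ρ' * s ≤ ρ * c
  g2 : -(ρ * s') ≤ ρ' * c'
  lo : ρ ^ 2 + ρ' ^ 2 ≤ l ^ 2
  up : 0 < c * c' + s * s' → l * (c * c' + s * s') ≤ (ρ' * c' + ρ * s') + (ρ * c - ρ' * s)
  deg : s = c' → c = -s' → l ^ 2 ≤ ρ ^ 2 + ρ' ^ 2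

variable {l ρ ρ' s c s' c' : ℝ}

theorem Qr.symm (h : Qr l ρ ρ' s c s' c') : Qr l ρ' ρ (-s') c' (-s) c where
  hl := h.hl
  hρ := h.hρ'
  hρ' := h.hρ
  hc := h.hc'
  hc' := h.hc
  sc := by have := h.sc'; nlinarith
  sc' := by have := h.sc; nlinarith
  g1 := by have := h.g2; linarith
  g2 := by have := h.g1; linarith
  lo := by have := h.lo; linarith
  up := by
    intro h1
    have := h.up (by nlinarith)
    nlinarith
  deg := by
    intro h1 h2
    have := h.deg (by linarith) (by linarith)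
    linarith

/-- if `s > c'` then `s' > 0` -/
theorem Qr.pos (h : Qr l ρ ρ' s c s' c') (h1 : c' < s) : 0 < s' ∧ c < s' := by
  have hs : 0 < s := h.hc'.trans h1
  have h2 : c ^ 2 < s' ^ 2 := by
    have := h.sc; have := h.sc'
    nlinarith [h.hc']
  have h3 : 0 < s' := by
    by_contra hcon
    push Not at hcon
    have h4 : c < -s' := by
      have := h.hc
      nlinarith
    have a1 := h.g1
    have a2 := h.g2
    -- ρ' s ≤ ρ c < ρ (-s') ≤ ρ' c' < ρ' s
    have b1 : ρ * c < ρ * (-s') := mul_lt_mul_of_pos_left h4 h.hρ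
    have b2 : ρ' * c' < ρ' * s := mul_lt_mul_of_pos_left h1 h.hρ'
    linarith
  refine ⟨h3, ?_⟩
  nlinarith [h.hc]

/-- propagation of the exceptional case -/
theorem Qr.next {ρ'' s'' c'' : ℝ} (h : Qr l ρ ρ' s c s' c') (k : Qr l ρ' ρ'' s' c' s'' c'')
    (h1 : c' < s) : c'' < s' := by
  obtain ⟨hs', hcs⟩ := h.pos h1
  by_contra hcon
  push Not at hcon
  have hs : 0 < s := h.hc'.trans h1
  -- l s' > ρ'
  have hls : ρ' < l * s' := by
    have a1 := h.g1
    have a2 := h.lo
    have hlc : ρ' ≤ l * c := by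
      have b1 : (ρ' * s) ^ 2 ≤ (ρ * c) ^ 2 := by
        apply pow_le_pow_left₀ _ a1
        exact mul_nonneg h.hρ'.le hs.le
      have b2 := h.sc
      have b3 : (ρ ^ 2 + ρ' ^ 2) * c ^ 2 ≤ l ^ 2 * c ^ 2 :=
        mul_le_mul_of_nonneg_right a2 (sq_nonneg _)
      have b4 : ρ' ^ 2 ≤ (l * c) ^ 2 := by nlinarith
      exact (le_abs_self _).trans (abs_le_of_sq_le_sq b4 (mul_nonneg h.hl.le h.hc.le))
    have : l * c < l * s' := mul_lt_mul_of_pos_left hcs h.hl
    linarith
  have a3 := k.g1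
  have hs2 : s'' ^ 2 ≤ c' ^ 2 := by
    have b1 := k.sc; have b2 := k.sc'
    nlinarith [k.hc]
  have hs2' : |s''| ≤ c' := abs_le_of_sq_le_sq hs2 k.hc.le
  have hs2l := (abs_le.1 hs2').1
  rcases lt_or_ge 0 (c' * c'' + s' * s'') with hC | hC
  · have b1 := k.up hC
    have b2 : ρ' * (c' * c'' + s' * s'') < l * s' * (c' * c'' + s' * s'') :=
      mul_lt_mul_of_pos_right hls hC
    have b3 := mul_le_mul_of_nonneg_left b1 hs'.le
    have b4 : (c'' - s') * (ρ'' * s' - ρ' * c') ≤ 0 :=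
      mul_nonpos_of_nonneg_of_nonpos (by linarith) (by linarith)
    nlinarith
  · -- degenerate
    have b1 : s' * (-s'') ≤ s' * c' := mul_le_mul_of_nonneg_left (by linarith) hs'.le
    have b2 : c' * s' ≤ c' * c'' := mul_le_mul_of_nonneg_left hcon k.hc.le
    have e1 : c' * c'' = c' * s' := by nlinarith
    have e2 : s' * (-s'') = s' * c' := by nlinarith
    have e3 : c'' = s' := mul_left_cancel₀ k.hc.ne' e1
    have e4 : -s'' = c' := mul_left_cancel₀ hs'.ne' e2
    have b5 := k.deg e3.symm (by linarith)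
    have b6 := k.g2
    have e5 : ρ' * c' = ρ'' * s' := by
      apply le_antisymm
      · rw [← e3, ← e4]; linarith
      · linarith
    have b7 : (l * s') ^ 2 ≤ ρ' ^ 2 := by
      have b8 := k.sc
      have b9 : l ^ 2 * s' ^ 2 ≤ (ρ' ^ 2 + ρ'' ^ 2) * s' ^ 2 :=
        mul_le_mul_of_nonneg_right b5 (sq_nonneg _)
      have b10 : (ρ'' * s') ^ 2 = (ρ' * c') ^ 2 := by rw [e5]
      nlinarith
    have b11 : ρ' ^ 2 < (l * s') ^ 2 := by
      apply pow_lt_pow_left₀ hls k.hρ.le (by norm_num)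
    linarith

/-- the exceptional case never occurs -/
theorem noexc {l ρ0 ρ1 ρ2 ρ3 s0 s1 s2 s3 c0 c1 c2 c3 : ℝ}
    (h0 : Qr l ρ0 ρ1 s0 c0 s1 c1) (h1 : Qr l ρ1 ρ2 s1 c1 s2 c2)
    (h2 : Qr l ρ2 ρ3 s2 c2 s3 c3) (h3 : Qr l ρ3 ρ0 s3 c3 s0 c0) : s0 ≤ c1 := by
  by_contra hcon
  push Not at hcon
  have k1 := h0.next h1 hcon
  have k2 := h1.next h2 k1
  have k3 := h2.next h3 k2
  have a0 := h0.g1
  have a1 := h1.g1
  have a2 := h2.g1
  have a3 := h3.g1
  have b0 : ρ1 * c1 < ρ1 * s0 := mul_lt_mul_of_pos_left hcon h0.hρ'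
  have b1 : ρ2 * c2 < ρ2 * s1 := mul_lt_mul_of_pos_left k1 h1.hρ'
  have b2 : ρ3 * c3 < ρ3 * s2 := mul_lt_mul_of_pos_left k2 h2.hρ'
  have b3 : ρ0 * c0 < ρ0 * s3 := mul_lt_mul_of_pos_left k3 h3.hρ'
  linarith

/-- sign information when the weight is positive -/
theorem Qr.det (h : Qr l ρ ρ' s c s' c') (hw : 0 < 1 + s - s') :
    0 < c * c' + s * s' ∨ (s = c' ∧ c = -s') := by
  by_contra hcon
  push Not at hcon
  obtain ⟨hC, hdeg⟩ := hcon
  have hcc : 0 < c * c' := mul_pos h.hc h.hc'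
  have hss : s * s' < 0 := by linarith
  have sc := h.sc
  have sc' := h.sc'
  rcases lt_or_ge s 0 with hs | hs
  · have hs' : 0 < s' := by
      by_contra h1; push Not at h1
      have := mul_nonneg_of_nonpos_of_nonpos hs.le h1
      linarith
    -- |s| s' ≥ c c'
    have k1 : (c * c') ^ 2 ≤ (s * s') ^ 2 := by
      have : c * c' ≤ -(s * s') := by linarith
      nlinarith
    have k2 : 1 ≤ s ^ 2 + s' ^ 2 := by
      have e : (c * c') ^ 2 = (1 - s ^ 2) * (1 - s' ^ 2) := by
        rw [mul_pow]; rw [show c ^ 2 = 1 - s ^ 2 by linarith, show c' ^ 2 = 1 - s' ^ 2 by linarith]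
      nlinarith
    nlinarith
  · have hs0 : 0 < s := by
      rcases eq_or_lt_of_le hs with h1 | h1
      · rw [← h1] at hss; simp at hss
      · exact h1
    have hs' : s' < 0 := by
      by_contra h1; push Not at h1
      have := mul_nonneg hs h1
      linarith
    have a1 := h.g1
    have a2 := h.g2
    -- product
    have k0 : (ρ' * s) * (-(ρ * s')) ≤ (ρ * c) * (ρ' * c') := by
      apply mul_le_mul a1 a2
      · have := mul_nonneg h.hρ.le (neg_nonneg.2 hs'.le); linarith
      · exact mul_nonneg h.hρ.le h.hc.le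
    have hρρ : 0 < ρ * ρ' := mul_pos h.hρ h.hρ'
    have k1 : -(s * s') ≤ c * c' := by
      have : (ρ * ρ') * (-(s * s')) ≤ (ρ * ρ') * (c * c') := by nlinarith
      exact le_of_mul_le_mul_left this hρρ
    have k2 : c * c' = -(s * s') := by linarith
    have k3 : s ^ 2 + s' ^ 2 = 1 := by
      have e : (c * c') ^ 2 = (1 - s ^ 2) * (1 - s' ^ 2) := by
        rw [mul_pow]; rw [show c ^ 2 = 1 - s ^ 2 by linarith, show c' ^ 2 = 1 - s' ^ 2 by linarith]
      rw [k2] at e
      nlinarith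
    have k4 : s = c' := by
      have : s ^ 2 = c' ^ 2 := by linarith
      rcases sq_eq_sq_iff_eq_or_eq_neg.1 this with h1 | h1
      · exact h1
      · have := h.hc'; linarith
    have k5 : c = -s' := by
      have : c ^ 2 = (-s') ^ 2 := by nlinarith
      rcases sq_eq_sq_iff_eq_or_eq_neg.1 this with h1 | h1
      · exact h1
      · have := h.hc; linarith
    exact hdeg k4 k5

/-- main inequality for one quadrant -/
theorem Qr.main (h : Qr l ρ ρ' s c s' c') (hA : 0 ≤ c + s') (hB : s ≤ c') :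
    (1 + s - s') * l ≤ ρ * (1 + s) + ρ' * (1 - s') := by
  have sc := h.sc
  have sc' := h.sc'
  have hs1 : -1 < s := by nlinarith [h.hc, sq_nonneg (s - 1)]
  have hs2 : s' < 1 := by nlinarith [h.hc', sq_nonneg (s' + 1)]
  have hc1 : c ≤ 1 := by nlinarith [h.hc, sq_nonneg s]
  have hc1' : c' ≤ 1 := by nlinarith [h.hc', sq_nonneg s']
  rcases le_or_gt (1 + s - s') 0 with hw | hw
  · have a1 : (1 + s - s') * l ≤ 0 := mul_nonpos_of_nonpos_of_nonneg hw h.hl.le
    have a2 : 0 ≤ ρ * (1 + s) := mul_nonneg h.hρ.le (by linarith)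
    have a3 : 0 ≤ ρ' * (1 - s') := mul_nonneg h.hρ'.le (by linarith)
    linarith
  · rcases h.det hw with hC | ⟨h1, h2⟩
    · have hup := h.up hC
      set C := c * c' + s * s' with hCdef
      -- multiply by C
      have key : (1 + s - s') * (l * C) ≤ (ρ * (1 + s) + ρ' * (1 - s')) * C := by
        have e : (ρ * (1 + s) + ρ' * (1 - s')) * C
            - (1 + s - s') * ((ρ' * c' + ρ * s') + (ρ * c - ρ' * s))
            = (ρ' * c' + ρ * s') * ((1 - c) * (c + s')) + (ρ * c - ρ' * s) * ((1 - c') * (c' - s)) := by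
          rw [hCdef]
          linear_combination (ρ * s' + ρ' * c') * sc + (ρ * c - s * ρ') * sc'
        have a1 : 0 ≤ (ρ' * c' + ρ * s') * ((1 - c) * (c + s')) := by
          apply mul_nonneg
          · have := h.g2; linarith
          · exact mul_nonneg (by linarith) hA
        have a2 : 0 ≤ (ρ * c - ρ' * s) * ((1 - c') * (c' - s)) := by
          apply mul_nonneg
          · have := h.g1; linarith
          · exact mul_nonneg (by linarith) (by linarith)
        have a3 := mul_le_mul_of_nonneg_left hup hw.le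
        linarith
      have key2 : ((1 + s - s') * l) * C ≤ (ρ * (1 + s) + ρ' * (1 - s')) * C := by
        rw [mul_assoc]; exact key
      exact le_of_mul_le_mul_right key2 hC
    · -- degenerate case : straight arc
      have hd := h.deg h1 h2
      have a1 := h.g1
      have a2 := h.g2
      have e1 : ρ' * s = ρ * c := by
        apply le_antisymm a1
        rw [h2, h1]; linarith
      -- κ with ρ = κ s, ρ' = κ c
      set κ := ρ * s + ρ' * c with hκ
      have e2 : ρ = κ * s := by rw [hκ]; linear_combination -ρ * sc - c * e1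
      have e3 : ρ' = κ * c := by rw [hκ]; linear_combination -ρ' * sc + s * e1
      have hs0 : 0 < s := h1 ▸ h.hc'
      have hκ0 : 0 < κ := by
        have := mul_pos h.hρ hs0
        have := mul_pos h.hρ' h.hc
        linarith
      have e4 : l ^ 2 ≤ κ ^ 2 := by
        have : ρ ^ 2 + ρ' ^ 2 = κ ^ 2 := by
          rw [e2, e3]; linear_combination κ ^ 2 * sc
        linarith
      have e5 : l ≤ κ := (le_abs_self _).trans (abs_le_of_sq_le_sq e4 hκ0.le)
      have e6 : ρ * (1 + s) + ρ' * (1 - s') = κ * (1 + s - s') := by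
        have : s' = -c := by linarith
        rw [this]
        have e7 : ρ * (1 + s) + ρ' * (1 - -c) = κ * s * (1 + s) + κ * c * (1 - -c) := by
          rw [← e2, ← e3]
        rw [e7]; linear_combination κ * sc
      rw [e6, mul_comm]
      exact mul_le_mul_of_nonneg_right e5 hw.le

/-- equality analysis -/
theorem Qr.eq (h : Qr l ρ ρ' s c s' c') (hA : 0 ≤ c + s') (hB : s ≤ c')
    (heq : (1 + s - s') * l = ρ * (1 + s) + ρ' * (1 - s')) : s' ≤ 0 := by
  by_contra hcon
  push Not at hcon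
  have sc := h.sc
  have sc' := h.sc'
  have hs1 : -1 < s := by nlinarith [h.hc, sq_nonneg (s - 1)]
  have hs2 : s' < 1 := by nlinarith [h.hc', sq_nonneg (s' + 1)]
  have hc1 : c ≤ 1 := by nlinarith [h.hc, sq_nonneg s]
  have hc1' : c' < 1 := by nlinarith [h.hc', hcon]
  have hw : 0 < 1 + s - s' := by
    by_contra hw; push Not at hw
    have a1 : (1 + s - s') * l ≤ 0 := mul_nonpos_of_nonpos_of_nonneg hw h.hl.le
    have a2 : 0 < ρ * (1 + s) := mul_pos h.hρ (by linarith)
    have a3 : 0 ≤ ρ' * (1 - s') := mul_nonneg h.hρ'.le (by linarith)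
    linarith
  rcases h.det hw with hC | ⟨h1, h2⟩
  · have hup := h.up hC
    set C := c * c' + s * s' with hCdef
    have e : (ρ * (1 + s) + ρ' * (1 - s')) * C
        - (1 + s - s') * ((ρ' * c' + ρ * s') + (ρ * c - ρ' * s))
        = (ρ' * c' + ρ * s') * ((1 - c) * (c + s')) + (ρ * c - ρ' * s) * ((1 - c') * (c' - s)) := by
      rw [hCdef]
      linear_combination (ρ * s' + ρ' * c') * sc + (ρ * c - s * ρ') * sc'
    have a1 : 0 ≤ (ρ' * c' + ρ * s') * ((1 - c) * (c + s')) := by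
      apply mul_nonneg
      · have := h.g2; linarith
      · exact mul_nonneg (by linarith) hA
    have a2 : 0 ≤ (ρ * c - ρ' * s) * ((1 - c') * (c' - s)) := by
      apply mul_nonneg
      · have := h.g1; linarith
      · exact mul_nonneg (by linarith) (by linarith)
    have a3 := mul_le_mul_of_nonneg_left hup hw.le
    have a4 : (1 + s - s') * (l * C) = (ρ * (1 + s) + ρ' * (1 - s')) * C := by
      rw [← mul_assoc, heq]
    have b1 : (ρ' * c' + ρ * s') * ((1 - c) * (c + s')) = 0 := by linarith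
    have b2 : (ρ * c - ρ' * s) * ((1 - c') * (c' - s)) = 0 := by linarith
    have b3 : 0 < ρ' * c' + ρ * s' := by
      have := mul_pos h.hρ' h.hc'
      have := mul_pos h.hρ hcon
      linarith
    have b4 : (1 - c) * (c + s') = 0 := by
      rcases mul_eq_zero.1 b1 with k | k
      · exact absurd k b3.ne'
      · exact k
    have b5 : c = 1 := by
      rcases mul_eq_zero.1 b4 with k | k
      · linarith
      · have := h.hc; linarith
    have b6 : s = 0 := by
      rw [b5] at sc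
      have : s ^ 2 = 0 := by linarith
      exact pow_eq_zero_iff (by norm_num) |>.1 this
    rw [b6, b5] at b2
    have b7 : 0 < (ρ * 1 - ρ' * 0) * ((1 - c') * (c' - 0)) := by
      apply mul_pos
      · have := h.hρ; linarith
      · apply mul_pos (by linarith)
        have := h.hc'; linarith
    linarith
  · have := h.hc; linarith

/-- The inequality for four quadrants, with the equality case. -/
theorem four {l ρ0 ρ1 ρ2 ρ3 s0 s1 s2 s3 c0 c1 c2 c3 : ℝ}
    (h0 : Qr l ρ0 ρ1 s0 c0 s1 c1) (h1 : Qr l ρ1 ρ2 s1 c1 s2 c2)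
    (h2 : Qr l ρ2 ρ3 s2 c2 s3 c3) (h3 : Qr l ρ3 ρ0 s3 c3 s0 c0) :
    2 * l ≤ ρ0 + ρ1 + ρ2 + ρ3 ∧
    (2 * l = ρ0 + ρ1 + ρ2 + ρ3 → s0 = 0 ∧ s1 = 0 ∧ s2 = 0 ∧ s3 = 0) := by
  have B0 := noexc h0 h1 h2 h3
  have B1 := noexc h1 h2 h3 h0
  have B2 := noexc h2 h3 h0 h1
  have B3 := noexc h3 h0 h1 h2
  -- reflected configuration
  have A0 := noexc h0.symm h3.symm h2.symm h1.symm
  have A3 := noexc h3.symm h2.symm h1.symm h0.symm
  have A2 := noexc h2.symm h1.symm h0.symm h3.symm
  have A1 := noexc h1.symm h0.symm h3.symm h2.symm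
  have m0 := h0.main (by linarith) B0
  have m1 := h1.main (by linarith) B1
  have m2 := h2.main (by linarith) B2
  have m3 := h3.main (by linarith) B3
  refine ⟨by nlinarith, ?_⟩
  intro heq
  have e0 : (1 + s0 - s1) * l = ρ0 * (1 + s0) + ρ1 * (1 - s1) := by nlinarith
  have e1 : (1 + s1 - s2) * l = ρ1 * (1 + s1) + ρ2 * (1 - s2) := by nlinarith
  have e2 : (1 + s2 - s3) * l = ρ2 * (1 + s2) + ρ3 * (1 - s3) := by nlinarith
  have e3 : (1 + s3 - s0) * l = ρ3 * (1 + s3) + ρ0 * (1 - s0) := by nlinarith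
  have p1 := h0.eq (by linarith) B0 e0
  have p2 := h1.eq (by linarith) B1 e1
  have p3 := h2.eq (by linarith) B2 e2
  have p0 := h3.eq (by linarith) B3 e3
  have q0 := h0.symm.eq (by linarith) A0 (by nlinarith)
  have q1 := h1.symm.eq (by linarith) A1 (by nlinarith)
  have q2 := h2.symm.eq (by linarith) A2 (by nlinarith)
  have q3 := h3.symm.eq (by linarith) A3 (by nlinarith)
  refine ⟨by linarith, by linarith, by linarith, by linarith⟩

end Pool.Agent.R763.Quad
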