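import Pool.Agent.R763.StrFF

set_option autoImplicit false
open Real Set MeasureTheory Filter Topology
open scoped ENNReal NNReal

namespace Pool.Agent.R763.Str

theorem norm_pt_one (θ : ℝ) : ‖pt 1 θ‖ = 1 := by
  have : ‖pt 1 θ‖ ^ 2 = 1 := by
    rw [norm_sq_eq]; simp [pt]
  nlinarith [norm_nonneg (pt 1 θ)]

theorem measure_le_of_outer {A B F : Set E2} (hAF : A ⊆ F)
    (hex : ∀ a ∈ A, ∃ b ∈ B, ∀ a' ∈ F, inner ℝ (b - a) (a' - a) ≤ 0) :
    μH[1] A ≤ μH[1] B := by
  have hex' : ∀ a : A, ∃ b ∈ B, ∀ a' ∈ F, inner ℝ (b - a) (a' - (a : E2)) ≤ 0 :=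
    fun a => hex a a.2
  choose f hf hf2 using hex'
  have hanti : AntilipschitzWith 1 f := by
    apply AntilipschitzWith.of_le_mul_dist
    intro a b
    rw [NNReal.coe_one, one_mul, Subtype.dist_eq, dist_eq_norm, dist_eq_norm]
    have haA : (a : E2) ∈ F := hAF a.2
    have hbA : (b : E2) ∈ F := hAF b.2
    have h1 := hf2 a b hbA
    have h2 := hf2 b a haA
    have h3 : inner ℝ (f a - f b) ((a : E2) - b) ≥ ‖(a : E2) - b‖ ^ 2 := by
      have e : inner ℝ (f a - f b) ((a : E2) - b)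
          = inner ℝ ((a : E2) - b) ((a : E2) - b) - inner ℝ (f a - a) ((b : E2) - a)
            - inner ℝ (f b - b) ((a : E2) - b) := by
        have : (b : E2) - a = - ((a : E2) - b) := by abel
        rw [this, inner_neg_right]
        simp only [inner_sub_left, inner_sub_right]
        ring
      rw [e, real_inner_self_eq_norm_sq]
      linarith
    have h4 := real_inner_le_norm (f a - f b) ((a : E2) - b)
    by_contra hlt
    push Not at hlt
    have h5 : 0 ≤ ‖f a - f b‖ := norm_nonneg _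
    have h6 : ‖f a - f b‖ * ‖(a : E2) - b‖ < ‖(a : E2) - b‖ * ‖(a : E2) - b‖ :=
      mul_lt_mul_of_pos_right hlt (lt_of_le_of_lt h5 hlt)
    nlinarith
  have h1 : μH[1] A = μH[1] (univ : Set A) := by
    have := (isometry_subtype_coe (s := A)).hausdorffMeasure_image (d := 1)
      (Or.inl zero_le_one) univ
    rw [image_univ, Subtype.range_coe] at this
    exact this
  have h2 := hanti.le_hausdorffMeasure_image (d := 1) zero_le_one univ
  rw [ENNReal.coe_one, ENNReal.one_rpow, one_mul] at h2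
  rw [h1]
  refine h2.trans (measure_mono ?_)
  rintro _ ⟨a, _, rfl⟩
  exact hf a

/-- last point of a ray in a compact set -/
theorem exists_last {C : Set E2} (hC : IsCompact C) {a : E2} (ha : a ∈ C) (ω : ℝ) :
    ∃ t : ℝ, 0 ≤ t ∧ a + t • pt 1 ω ∈ C ∧ a + t • pt 1 ω ∉ interior C := by
  obtain ⟨R, hR⟩ := hC.isBounded.subset_closedBall 0
  have hnorm := norm_pt_one ω
  set S : Set ℝ := {t | 0 ≤ t ∧ a + t • pt 1 ω ∈ C} with hS
  have hSc : IsCompact S := by
    have hcl : IsClosed S := by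
      apply IsClosed.inter isClosed_Ici
      exact hC.isClosed.preimage (by fun_prop)
    apply Metric.isCompact_of_isClosed_isBounded hcl
    rw [Metric.isBounded_iff_subset_closedBall 0]
    refine ⟨R + ‖a‖, ?_⟩
    rintro t ⟨ht0, ht⟩
    have h1 := hR ht
    rw [mem_closedBall_zero_iff] at h1
    rw [mem_closedBall_zero_iff, Real.norm_eq_abs, abs_of_nonneg ht0]
    have h2 : ‖t • pt 1 ω‖ ≤ ‖a + t • pt 1 ω‖ + ‖a‖ := by
      calc ‖t • pt 1 ω‖ = ‖(a + t • pt 1 ω) - a‖ := by simp
        _ ≤ _ := norm_sub_le _ _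
    rw [norm_smul, hnorm, Real.norm_eq_abs, abs_of_nonneg ht0] at h2
    linarith
  obtain ⟨t, ht, htmax⟩ := hSc.exists_isMaxOn ⟨0, le_rfl, by simpa using ha⟩ continuous_id.continuousOn
  refine ⟨t, ht.1, ht.2, ?_⟩
  intro hint
  have hcont : ContinuousAt (fun s : ℝ => a + s • pt 1 ω) t := by fun_prop
  have hnhds : ∀ᶠ s in nhds t, a + s • pt 1 ω ∈ C := by
    have := hcont.preimage_mem_nhds (IsOpen.mem_nhds isOpen_interior hint)
    filter_upwards [this] with s hs
    exact interior_subset hs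
  obtain ⟨ε, hε, hball⟩ := Metric.eventually_nhds_iff.1 hnhds
  have h1 : t + ε / 2 ∈ S := by
    refine ⟨by linarith [ht.1], hball ?_⟩
    rw [Real.dist_eq]
    rw [show t + ε / 2 - t = ε / 2 by ring, abs_of_pos (by linarith)]
    linarith
  have h2 := htmax h1
  simp only [Set.mem_ofPred_eq, id] at h2
  linarith

/-- coordinates with respect to `o` and direction `u` -/
theorem eq_of_coords {x y : E2} {u : ℝ} (h1 : pr x u = pr y u) (h2 : pr x (u + π / 2) = pr y (u + π / 2)) :
    x = y := ext_pr h1 h2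

theorem pr_coords (x : E2) (u θ : ℝ) :
    pr x (u + θ) = pr x u * cos θ + pr x (u + π / 2) * sin θ := pr_shift_right x u θ

/-- The arc of `∂F` in the quadrant at `o` spanned by the directions `u`, `u + π/2`. -/
def qarc (F : Set E2) (o : E2) (u : ℝ) : Set E2 :=
  {x ∈ frontier F | 0 ≤ pr (x - o) u ∧ 0 ≤ pr (x - o) (u + π / 2)}

/-- lower bound for the length of an arc -/
theorem arc_lower {F : Set E2} (hF : IsCompact F) (hc : Convex ℝ F) {o : E2} {u ρ ρ' : ℝ}
    (hρ : 0 < ρ) (hρ' : 0 < ρ') (hP : o + pt ρ u ∈ F) (hP' : o + pt ρ' (u + π / 2) ∈ F) :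
    ENNReal.ofReal (√(ρ ^ 2 + ρ' ^ 2)) ≤ μH[1] (qarc F o u) := by
  obtain ⟨ψ, h1, h2⟩ := exists_polar ρ' ρ
  set κ := √(ρ' ^ 2 + ρ ^ 2) with hκ
  have hκ' : √(ρ ^ 2 + ρ' ^ 2) = κ := by rw [hκ, add_comm]
  rw [hκ']
  have hκpos : 0 < κ := Real.sqrt_pos.2 (by positivity)
  have hcosψ : 0 < cos ψ := by
    by_contra h; push Not at h
    have := mul_nonpos_of_nonneg_of_nonpos hκpos.le h
    linarith
  have hsinψ : 0 < sin ψ := by
    by_contra h; push Not at h
    have := mul_nonpos_of_nonneg_of_nonpos hκpos.le h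
    linarith
  -- the projection
  set g : E2 → ℝ := fun x => pr (x - o) (u + ψ + π / 2) with hg
  have hgl : LipschitzWith 1 g := by
    apply LipschitzWith.of_dist_le_mul
    intro x y
    rw [Real.dist_eq, dist_eq_norm, NNReal.coe_one, one_mul]
    simp only [hg]
    rw [← pr_sub, sub_sub_sub_cancel_right]
    exact abs_pr_le _ _
  have himg : Icc (-(ρ * sin ψ)) (ρ' * cos ψ) ⊆ g '' (qarc F o u) := by
    intro z hz
    -- point on the chord
    have hlen : ρ * sin ψ + ρ' * cos ψ = κ := by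
      have e3 := Real.sin_sq_add_cos_sq ψ
      calc ρ * sin ψ + ρ' * cos ψ = (κ * sin ψ) * sin ψ + (κ * cos ψ) * cos ψ := by rw [← h2, ← h1]
        _ = κ := by linear_combination κ * e3
    set l := (z + ρ * sin ψ) / κ with hl
    have hl0 : 0 ≤ l := div_nonneg (by linarith [hz.1]) hκpos.le
    have hl1 : l ≤ 1 := by rw [hl, div_le_one hκpos]; linarith [hz.2]
    set X : E2 := (1 - l) • (o + pt ρ u) + l • (o + pt ρ' (u + π / 2)) with hX
    have hXF : X ∈ F := hc hP hP' (by linarith) hl0 (by ring)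
    have hXo : X - o = (1 - l) • pt ρ u + l • pt ρ' (u + π / 2) := by
      rw [hX, smul_add, smul_add]
      have : (1 - l) • o + l • o = o := by rw [← add_smul]; simp
      rw [← this]
      module
    obtain ⟨t, ht0, htF, htn⟩ := exists_last hF hXF (u + ψ)
    refine ⟨X + t • pt 1 (u + ψ), ⟨⟨subset_closure htF, htn⟩, ?_, ?_⟩, ?_⟩
    · have e : X + t • pt 1 (u + ψ) - o = (X - o) + t • pt 1 (u + ψ) := by abel
      rw [e, hXo]
      simp only [pr_add, pr_smul, pr_pt]
      rw [show u - u = 0 by ring, show u - (u + π / 2) = -(π / 2) by ring,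
        show u - (u + ψ) = -ψ by ring, Real.cos_neg, Real.cos_neg, Real.cos_zero, Real.cos_pi_div_two]
      have : 0 ≤ (1 - l) * ρ := mul_nonneg (by linarith) hρ.le
      have : 0 ≤ t * cos ψ := mul_nonneg ht0 hcosψ.le
      nlinarith
    · have e : X + t • pt 1 (u + ψ) - o = (X - o) + t • pt 1 (u + ψ) := by abel
      rw [e, hXo]
      simp only [pr_add, pr_smul, pr_pt]
      rw [show u + π / 2 - u = π / 2 by ring, show u + π / 2 - (u + π / 2) = 0 by ring,
        show u + π / 2 - (u + ψ) = π / 2 - ψ by ring, Real.cos_zero, Real.cos_pi_div_two,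
        Real.cos_pi_div_two_sub]
      have : 0 ≤ l * ρ' := mul_nonneg hl0 hρ'.le
      have : 0 ≤ t * sin ψ := mul_nonneg ht0 hsinψ.le
      nlinarith
    · simp only [hg]
      have e : X + t • pt 1 (u + ψ) - o = (X - o) + t • pt 1 (u + ψ) := by abel
      rw [e, hXo]
      simp only [pr_add, pr_smul, pr_pt]
      rw [show u + ψ + π / 2 - u = ψ + π / 2 by ring, show u + ψ + π / 2 - (u + π / 2) = ψ by ring,
        show u + ψ + π / 2 - (u + ψ) = π / 2 by ring, Real.cos_pi_div_two, Real.cos_add_pi_div_two]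
      have e2 : l * κ = z + ρ * sin ψ := by rw [hl]; field_simp
      have e3 : (1 - l) * (ρ * -sin ψ) + l * (ρ' * cos ψ) = l * κ - ρ * sin ψ := by
        rw [← hlen]; ring
      rw [mul_zero, mul_zero, add_zero, e3, e2]; ring
  have hvol : μH[1] (Icc (-(ρ * sin ψ)) (ρ' * cos ψ)) = ENNReal.ofReal κ := by
    rw [hausdorffMeasure_real, Real.volume_Icc]
    congr 1
    have e3 := Real.sin_sq_add_cos_sq ψ
    calc ρ' * cos ψ - -(ρ * sin ψ) = (κ * cos ψ) * cos ψ + (κ * sin ψ) * sin ψ := by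
          rw [← h2, ← h1]; ring
      _ = κ := by linear_combination κ * e3
  rw [← hvol]
  refine (measure_mono himg).trans ?_
  have := hgl.hausdorffMeasure_image_le (d := 1) zero_le_one (qarc F o u)
  simpa using this

end Pool.Agent.R763.Str
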