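import Pool.Agent.R763.QuadArc

set_option autoImplicit false
open Real Set MeasureTheory Filter Topology
open scoped ENNReal NNReal

namespace Pool.Agent.R763.Str

theorem ray_frontier {F : Set E2} (hc : Convex ℝ F) {o : E2} (ho : o ∈ interior F)
    {v ρ y : ℝ} (hP : o + pt ρ v ∈ F) (hy0 : 0 ≤ y) (hy : y ≤ ρ)
    (hb : o + pt y v ∉ interior F) : y = ρ := by
  rcases eq_or_lt_of_le hy with h | hlt
  · exact h
  · exfalso
    apply hb
    rcases eq_or_lt_of_le hy0 with h0 | h0
    · rw [← h0]
      have : pt 0 v = 0 := by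
        ext i; fin_cases i <;> simp [pt]
      rw [this, add_zero]; exact ho
    · have hρ : 0 < ρ := h0.trans hlt
      have := hc.openSegment_interior_closure_subset_interior ho (subset_closure hP)
      apply this
      rw [openSegment_eq_image]
      refine ⟨y / ρ, ⟨by positivity, (div_lt_one hρ).2 hlt⟩, ?_⟩
      have e : pt y v = (y / ρ) • pt ρ v := by
        ext i; fin_cases i <;> simp [pt] <;> field_simp
      simp only
      rw [e, smul_add, ← add_assoc, ← add_smul]
      simp

theorem pt_eq_coords {x o : E2} {u a b : ℝ} (h1 : pr (x - o) u = a) (h2 : pr (x - o) (u + π / 2) = b) :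
    x = o + a • pt 1 u + b • pt 1 (u + π / 2) := by
  have : x - o = a • pt 1 u + b • pt 1 (u + π / 2) := by
    apply ext_pr (θ := u)
    · rw [h1]
      simp only [pr_add, pr_smul, pr_pt]
      rw [show u - u = 0 by ring, show u - (u + π / 2) = -(π / 2) by ring, Real.cos_neg,
        Real.cos_zero, Real.cos_pi_div_two]; ring
    · rw [h2]
      simp only [pr_add, pr_smul, pr_pt]
      rw [show u + π / 2 - u = π / 2 by ring, show u + π / 2 - (u + π / 2) = 0 by ring,
        Real.cos_zero, Real.cos_pi_div_two]; ring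
  rw [add_assoc, ← this]; abel

theorem pt_smul_one (a v : ℝ) : a • pt 1 v = pt a v := by
  ext i; fin_cases i <;> simp [pt]

theorem pt_zero (v : ℝ) : pt 0 v = 0 := by
  ext i; fin_cases i <;> simp [pt]

/-- the quadrilateral region cut out by the two support lines -/
def Qd (o : E2) (u ρ ρ' θ θ' : ℝ) : Set E2 :=
  {x | 0 ≤ pr (x - o) u ∧ 0 ≤ pr (x - o) (u + π / 2) ∧ pr (x - o) (u + θ) ≤ ρ * cos θ ∧
    pr (x - o) (u + π / 2 + θ') ≤ ρ' * cos θ'}

theorem pr_sub_continuous (o : E2) (v : ℝ) : Continuous (fun x : E2 => pr (x - o) v) :=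
  (continuous_pr_left v).comp (by fun_prop)

theorem Qd_closed (o : E2) (u ρ ρ' θ θ' : ℝ) : IsClosed (Qd o u ρ ρ' θ θ') := by
  apply IsClosed.inter (isClosed_le continuous_const (pr_sub_continuous o _))
  apply IsClosed.inter (isClosed_le continuous_const (pr_sub_continuous o _))
  exact IsClosed.inter (isClosed_le (pr_sub_continuous o _) continuous_const)
    (isClosed_le (pr_sub_continuous o _) continuous_const)

theorem coord_second (z : E2) (u θ' : ℝ) :
    pr z (u + π / 2 + θ') = - pr z u * sin θ' + pr z (u + π / 2) * cos θ' := by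
  have h1 := pr_coords z u (π / 2 + θ')
  rw [show u + (π / 2 + θ') = u + π / 2 + θ' by ring] at h1
  rw [h1]
  have e1 : cos (π / 2 + θ') = - sin θ' := by rw [add_comm]; exact Real.cos_add_pi_div_two θ'
  have e2 : sin (π / 2 + θ') = cos θ' := by rw [add_comm]; exact Real.sin_add_pi_div_two θ'
  rw [e1, e2]; ring

theorem Qd_compact (o : E2) {u ρ ρ' θ θ' : ℝ} (hρ : 0 < ρ) (hρ' : 0 < ρ')
    (hθ : 0 < cos θ) (hθ' : 0 < cos θ') (hcos : 0 < cos (θ' - θ)) :
    IsCompact (Qd o u ρ ρ' θ θ') := by
  -- bound on coordinates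
  obtain ⟨M, hM⟩ : ∃ M : ℝ, ∀ x ∈ Qd o u ρ ρ' θ θ', pr (x - o) u ≤ M ∧ pr (x - o) (u + π / 2) ≤ M := by
    have hcexp : cos (θ' - θ) = cos θ' * cos θ + sin θ' * sin θ := Real.cos_sub _ _
    set c := cos (θ' - θ) with hc
    have s1' := abs_le.1 (Real.abs_sin_le_one θ)
    have s2' := abs_le.1 (Real.abs_sin_le_one θ')
    rcases le_total 0 (sin θ) with hs | hs
    · refine ⟨ρ + ρ' + ρ / cos θ', ?_⟩
      rintro x ⟨hx, hy, h1, h2⟩
      rw [pr_coords] at h1
      rw [coord_second] at h2
      set X := pr (x - o) u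
      set Y := pr (x - o) (u + π / 2)
      have p1 : 0 < ρ / cos θ' := by positivity
      have hX : X ≤ ρ := by
        have : X * cos θ ≤ ρ * cos θ := by nlinarith [mul_nonneg hy hs]
        exact le_of_mul_le_mul_right this hθ
      have hY : Y ≤ ρ' + ρ / cos θ' := by
        rw [← sub_nonneg]
        have : 0 ≤ (ρ' + ρ / cos θ' - Y) * cos θ' := by
          have e : (ρ' + ρ / cos θ' - Y) * cos θ' = ρ' * cos θ' + ρ - Y * cos θ' := by field_simp
          rw [e]
          have : X * sin θ' ≤ ρ := by nlinarith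
          linarith
        exact nonneg_of_mul_nonneg_left this hθ'
      constructor <;> linarith
    · rcases le_total 0 (sin θ') with hs' | hs'
      · refine ⟨(ρ * cos θ * cos θ' - sin θ * (ρ' * cos θ')) / c +
          (ρ' * cos θ' * cos θ + sin θ' * (ρ * cos θ)) / c, ?_⟩
        rintro x ⟨hx, hy, h1, h2⟩
        rw [pr_coords] at h1
        rw [coord_second] at h2
        set X := pr (x - o) u
        set Y := pr (x - o) (u + π / 2)
        have q1 : 0 ≤ (ρ * cos θ * cos θ' - sin θ * (ρ' * cos θ')) := by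
          have : 0 ≤ (-sin θ) * (ρ' * cos θ') := mul_nonneg (by linarith) (by positivity)
          have : 0 ≤ ρ * cos θ * cos θ' := by positivity
          linarith
        have q2 : 0 ≤ (ρ' * cos θ' * cos θ + sin θ' * (ρ * cos θ)) := by
          have : 0 ≤ sin θ' * (ρ * cos θ) := mul_nonneg hs' (by positivity)
          have : 0 ≤ ρ' * cos θ' * cos θ := by positivity
          linarith
        have hX : X ≤ (ρ * cos θ * cos θ' - sin θ * (ρ' * cos θ')) / c := by
          rw [le_div_iff₀ hcos, hcexp]
          have a1 := mul_le_mul_of_nonneg_right h1 hθ'.le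
          have a2 := mul_le_mul_of_nonneg_left h2 (neg_nonneg.2 hs)
          linarith
        have hY : Y ≤ (ρ' * cos θ' * cos θ + sin θ' * (ρ * cos θ)) / c := by
          rw [le_div_iff₀ hcos, hcexp]
          have a1 := mul_le_mul_of_nonneg_right h2 hθ.le
          have a2 := mul_le_mul_of_nonneg_left h1 hs'
          linarith
        have r1 := div_nonneg q1 hcos.le
        have r2 := div_nonneg q2 hcos.le
        constructor <;> linarith
      · refine ⟨ρ + ρ' + ρ' / cos θ, ?_⟩
        rintro x ⟨hx, hy, h1, h2⟩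
        rw [pr_coords] at h1
        rw [coord_second] at h2
        set X := pr (x - o) u
        set Y := pr (x - o) (u + π / 2)
        have p1 : 0 < ρ' / cos θ := by positivity
        have hY : Y ≤ ρ' := by
          have : Y * cos θ' ≤ ρ' * cos θ' := by nlinarith [mul_nonneg hx (neg_nonneg.2 hs')]
          exact le_of_mul_le_mul_right this hθ'
        have hX : X ≤ ρ + ρ' / cos θ := by
          rw [← sub_nonneg]
          have : 0 ≤ (ρ + ρ' / cos θ - X) * cos θ := by
            have e : (ρ + ρ' / cos θ - X) * cos θ = ρ * cos θ + ρ' - X * cos θ := by field_simp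
            rw [e]
            have : - (Y * sin θ) ≤ ρ' := by nlinarith
            linarith
          exact nonneg_of_mul_nonneg_left this hθ
        constructor <;> linarith
  apply Metric.isCompact_of_isClosed_isBounded (Qd_closed o u ρ ρ' θ θ')
  rw [Metric.isBounded_iff_subset_closedBall o]
  refine ⟨|M| + |M|, ?_⟩
  intro x hx
  obtain ⟨h1, h2⟩ := hM x hx
  obtain ⟨h3, h4, _, _⟩ := hx
  rw [Metric.mem_closedBall, dist_eq_norm]
  have h5 := norm_sq_pr (x - o) u
  have h6 : pr (x - o) u ≤ |M| := h1.trans (le_abs_self M)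
  have h7 : pr (x - o) (u + π / 2) ≤ |M| := h2.trans (le_abs_self M)
  have h8 : 0 ≤ |M| := abs_nonneg M
  apply abs_le_of_sq_le_sq' _ (by linarith) |>.2
  rw [h5]
  nlinarith

theorem arc_upper {F : Set E2} (hF : IsCompact F) (hc : Convex ℝ F) {o : E2}
    (ho : o ∈ interior F) {u ρ ρ' θ θ' : ℝ}
    (hρ : 0 < ρ) (hρ' : 0 < ρ') (hP : o + pt ρ u ∈ F) (hP' : o + pt ρ' (u + π / 2) ∈ F)
    (hs1 : pr (o + pt ρ u) (u + θ) = hs F (u + θ))
    (hs2 : pr (o + pt ρ' (u + π / 2)) (u + π / 2 + θ') = hs F (u + π / 2 + θ'))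
    (hθ : 0 < cos θ) (hθ' : 0 < cos θ') (hcos : 0 < cos (θ' - θ)) :
    0 ≤ (ρ' * cos θ' + ρ * sin θ') / cos (θ' - θ) ∧ 0 ≤ (ρ * cos θ - ρ' * sin θ) / cos (θ' - θ) ∧
    μH[1] (qarc F o u) ≤ ENNReal.ofReal ((ρ' * cos θ' + ρ * sin θ') / cos (θ' - θ) +
      (ρ * cos θ - ρ' * sin θ) / cos (θ' - θ)) := by
  have hcexp : cos (θ' - θ) = cos θ' * cos θ + sin θ' * sin θ := Real.cos_sub _ _
  set c := cos (θ' - θ) with hcdef
  -- support inequalities relative to `o`
  have hsup1 : ∀ x ∈ F, pr (x - o) (u + θ) ≤ ρ * cos θ := by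
    intro x hx
    have h1 := le_hs hF hx (u + θ)
    rw [← hs1, pr_add, pr_pt, add_sub_cancel_left] at h1
    rw [pr_sub]; linarith
  have hsup2 : ∀ x ∈ F, pr (x - o) (u + π / 2 + θ') ≤ ρ' * cos θ' := by
    intro x hx
    have h1 := le_hs hF hx (u + π / 2 + θ')
    rw [← hs2, pr_add, pr_pt, add_sub_cancel_left] at h1
    rw [pr_sub]; linarith
  have hc1 : ρ' * sin θ ≤ ρ * cos θ := by
    have := hsup1 _ hP'
    rw [add_sub_cancel_left, pr_pt, show u + θ - (u + π / 2) = θ - π / 2 by ring,
      Real.cos_sub_pi_div_two] at this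
    exact this
  have hc2 : - (ρ * sin θ') ≤ ρ' * cos θ' := by
    have := hsup2 _ hP
    rw [add_sub_cancel_left, pr_pt, show u + π / 2 + θ' - u = θ' + π / 2 by ring,
      Real.cos_add_pi_div_two] at this
    linarith
  set t1 := (ρ' * cos θ' + ρ * sin θ') / c with ht1
  set t2 := (ρ * cos θ - ρ' * sin θ) / c with ht2
  have ht1n : 0 ≤ t1 := div_nonneg (by linarith) hcos.le
  have ht2n : 0 ≤ t2 := div_nonneg (by linarith) hcos.le
  refine ⟨ht1n, ht2n, ?_⟩
  have ht1c : t1 * c = ρ' * cos θ' + ρ * sin θ' := by rw [ht1]; field_simp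
  have ht2c : t2 * c = ρ * cos θ - ρ' * sin θ := by rw [ht2]; field_simp
  have sc1 := Real.sin_sq_add_cos_sq θ
  have sc2 := Real.sin_sq_add_cos_sq θ'
  -- consistency
  have hX : ρ - t1 * sin θ = t2 * cos θ' := by
    have : (ρ - t1 * sin θ) * c = (t2 * cos θ') * c := by
      calc (ρ - t1 * sin θ) * c = ρ * c - (t1 * c) * sin θ := by ring
        _ = (t2 * c) * cos θ' := by rw [ht1c, ht2c, hcexp]; ring
        _ = _ := by ring
    exact mul_right_cancel₀ hcos.ne' this
  have hY : t1 * cos θ = ρ' + t2 * sin θ' := by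
    have : (t1 * cos θ) * c = (ρ' + t2 * sin θ') * c := by
      calc (t1 * cos θ) * c = (t1 * c) * cos θ := by ring
        _ = ρ' * c + (t2 * c) * sin θ' := by rw [ht1c, ht2c, hcexp]; ring
        _ = _ := by ring
    exact mul_right_cancel₀ hcos.ne' this
  set V : E2 := o + ((ρ - t1 * sin θ) • pt 1 u + (t1 * cos θ) • pt 1 (u + π / 2)) with hV
  set P : E2 := o + pt ρ u with hPdef
  set P' : E2 := o + pt ρ' (u + π / 2) with hPdef'
  -- coordinates of points
  have cP : pr (P - o) u = ρ ∧ pr (P - o) (u + π / 2) = 0 := by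
    rw [hPdef, add_sub_cancel_left, pr_pt, pr_pt, show u - u = 0 by ring,
      show u + π / 2 - u = π / 2 by ring, Real.cos_zero, Real.cos_pi_div_two]
    constructor <;> ring
  have cP' : pr (P' - o) u = 0 ∧ pr (P' - o) (u + π / 2) = ρ' := by
    rw [hPdef', add_sub_cancel_left, pr_pt, pr_pt, show u - (u + π / 2) = -(π / 2) by ring,
      show u + π / 2 - (u + π / 2) = 0 by ring, Real.cos_neg, Real.cos_zero, Real.cos_pi_div_two]
    constructor <;> ring
  have cV : pr (V - o) u = ρ - t1 * sin θ ∧ pr (V - o) (u + π / 2) = t1 * cos θ := by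
    rw [hV, add_sub_cancel_left]
    simp only [pr_add, pr_smul, pr_pt]
    rw [show u - u = 0 by ring, show u - (u + π / 2) = -(π / 2) by ring,
      show u + π / 2 - u = π / 2 by ring, show u + π / 2 - (u + π / 2) = 0 by ring,
      Real.cos_neg, Real.cos_zero, Real.cos_pi_div_two]
    constructor <;> ring
  -- tangential coordinates
  have tan1 : ∀ z : E2, pr z (u + θ + π / 2) = - pr z u * sin θ + pr z (u + π / 2) * cos θ := by
    intro z
    rw [show u + θ + π / 2 = u + π / 2 + θ by ring]
    exact coord_second z u θ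
  have tan2 : ∀ z : E2, pr z (u + π / 2 + θ' + π / 2) = - pr z u * cos θ' - pr z (u + π / 2) * sin θ' := by
    intro z
    have h1 := coord_second z u (θ' + π / 2)
    rw [show u + π / 2 + (θ' + π / 2) = u + π / 2 + θ' + π / 2 by ring,
      Real.sin_add_pi_div_two, Real.cos_add_pi_div_two] at h1
    rw [h1]; ring
  have hVP : edist P V = ENNReal.ofReal t1 := by
    rw [dist_of_pr (θ := u + θ)]
    · have h1 := tan1 (V - o)
      have h2 := tan1 (P - o)
      rw [cV.1, cV.2] at h1
      rw [cP.1, cP.2] at h2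
      rw [pr_sub] at h1 h2
      congr 1
      have : pr V (u + θ + π / 2) - pr P (u + θ + π / 2)
          = (-(ρ - t1 * sin θ) * sin θ + t1 * cos θ * cos θ) - (-ρ * sin θ + 0 * cos θ) := by linarith
      rw [this]; linear_combination t1 * sc1
    · have h1 := pr_coords (V - o) u θ
      have h2 := pr_coords (P - o) u θ
      rw [cV.1, cV.2] at h1
      rw [cP.1, cP.2] at h2
      rw [pr_sub] at h1 h2
      linear_combination h2 - h1
    · have h1 := tan1 (V - o)
      have h2 := tan1 (P - o)
      rw [cV.1, cV.2] at h1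
      rw [cP.1, cP.2] at h2
      rw [pr_sub] at h1 h2
      have : pr V (u + θ + π / 2) - pr P (u + θ + π / 2) = t1 := by
        linear_combination h1 - h2 + t1 * sc1
      linarith
  have hVP' : edist V P' = ENNReal.ofReal t2 := by
    rw [dist_of_pr (θ := u + π / 2 + θ')]
    · have h1 := tan2 (V - o)
      have h2 := tan2 (P' - o)
      rw [cV.1, cV.2] at h1
      rw [cP'.1, cP'.2] at h2
      rw [pr_sub] at h1 h2
      congr 1
      rw [hX, hY] at h1
      linear_combination h2 - h1 + t2 * sc2
    · have h1 := coord_second (V - o) u θ'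
      have h2 := coord_second (P' - o) u θ'
      rw [cV.1, cV.2] at h1
      rw [cP'.1, cP'.2] at h2
      rw [pr_sub] at h1 h2
      rw [hX, hY] at h1
      linear_combination h1 - h2
    · have h1 := tan2 (V - o)
      have h2 := tan2 (P' - o)
      rw [cV.1, cV.2] at h1
      rw [cP'.1, cP'.2] at h2
      rw [pr_sub] at h1 h2
      rw [hX, hY] at h1
      have : pr P' (u + π / 2 + θ' + π / 2) - pr V (u + π / 2 + θ' + π / 2) = t2 := by
        linear_combination h2 - h1 + t2 * sc2
      linarith
  have hB : μH[1] (segment ℝ P V ∪ segment ℝ V P') ≤ ENNReal.ofReal (t1 + t2) := by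
    refine (measure_union_le _ _).trans ?_
    rw [hausdorffMeasure_segment, hausdorffMeasure_segment, hVP, hVP',
      ← ENNReal.ofReal_add ht1n ht2n]
  refine le_trans ?_ hB
  apply measure_le_of_outer (F := F) (fun x hx => hF.isClosed.frontier_subset hx.1)
  rintro a ⟨haf, ha1, ha2⟩
  have haF : a ∈ F := hF.isClosed.frontier_subset haf
  have hne : F.Nonempty := ⟨a, haF⟩
  obtain ⟨ω, hω⟩ := exists_support hF hc hne haf
  have haQ : a ∈ Qd o u ρ ρ' θ θ' := ⟨ha1, ha2, hsup1 a haF, hsup2 a haF⟩
  obtain ⟨t, ht0, htQ, htn⟩ := exists_last (Qd_compact o hρ hρ' hθ hθ' hcos) haQ ω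
  set b := a + t • pt 1 ω with hb
  refine ⟨b, ?_, ?_⟩
  swap
  · intro a' ha'
    rw [hb, add_sub_cancel_left, inner_smul_left, inner_pt, pr_sub, hω]
    have h1 := le_hs hF ha' ω
    simp only [conj_trivial]
    exact mul_nonpos_of_nonneg_of_nonpos ht0 (by linarith)
  obtain ⟨hb1, hb2, hb3, hb4⟩ := htQ
  -- if `b ∈ F` then `b = a`
  have hbF : b ∈ F → b = a := by
    intro h
    have h1 := le_hs hF h ω
    rw [hb, pr_add, pr_smul, pr_pt, sub_self, Real.cos_zero, hω] at h1
    have : t = 0 := by linarith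
    rw [hb, this]; simp
  have han : a ∉ interior F := haf.2
  by_cases e1 : pr (b - o) u = 0
  · -- on the segment `o P'`
    right
    set y := pr (b - o) (u + π / 2) with hy
    have hbe : b = o + pt y (u + π / 2) := by
      have := pt_eq_coords e1 hy.symm
      rw [this, zero_smul, add_zero, pt_smul_one]
    have hyle : y ≤ ρ' := by
      rw [coord_second, e1, ← hy] at hb4
      have : y * cos θ' ≤ ρ' * cos θ' := by linarith
      exact le_of_mul_le_mul_right this hθ'
    have hbF' : b ∈ F := by
      have hseg : b ∈ segment ℝ o P' := by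
        rw [segment_eq_image]
        refine ⟨y / ρ', ⟨by positivity, (div_le_one hρ').2 hyle⟩, ?_⟩
        have e : pt y (u + π / 2) = (y / ρ') • pt ρ' (u + π / 2) := by
          rw [← pt_smul_one ρ', smul_smul, div_mul_cancel₀ _ hρ'.ne', pt_smul_one]
        simp only
        rw [hbe, e, hPdef', smul_add, ← add_assoc, ← add_smul]
        simp
      exact hc.segment_subset (interior_subset ho) hP' hseg
    have hba := hbF hbF'
    have hyeq : y = ρ' := by
      apply ray_frontier hc ho hP' hb2 hyle
      rw [← hbe, hba]; exact han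
    rw [hbe, hyeq]
    exact right_mem_segment ℝ V P'
  by_cases e2 : pr (b - o) (u + π / 2) = 0
  · left
    set y := pr (b - o) u with hy
    have hbe : b = o + pt y u := by
      have := pt_eq_coords hy.symm e2
      rw [this, zero_smul, add_zero, pt_smul_one]
    have hyle : y ≤ ρ := by
      rw [pr_coords, e2, ← hy] at hb3
      have : y * cos θ ≤ ρ * cos θ := by linarith
      exact le_of_mul_le_mul_right this hθ
    have hbF' : b ∈ F := by
      have hseg : b ∈ segment ℝ o P := by
        rw [segment_eq_image]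
        refine ⟨y / ρ, ⟨by positivity, (div_le_one hρ).2 hyle⟩, ?_⟩
        have e : pt y u = (y / ρ) • pt ρ u := by
          rw [← pt_smul_one ρ, smul_smul, div_mul_cancel₀ _ hρ.ne', pt_smul_one]
        simp only
        rw [hbe, e, hPdef, smul_add, ← add_assoc, ← add_smul]
        simp
      exact hc.segment_subset (interior_subset ho) hP hseg
    have hba := hbF hbF'
    have hyeq : y = ρ := by
      apply ray_frontier hc ho hP hb1 hyle
      rw [← hbe, hba]; exact han
    rw [hbe, hyeq]
    exact left_mem_segment ℝ P V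
  by_cases e3 : pr (b - o) (u + θ) = ρ * cos θ
  · left
    have f1 := pr_coords (b - o) u θ
    rw [e3] at f1
    have f4 := hb4
    rw [coord_second] at f4
    set X := pr (b - o) u
    set Y := pr (b - o) (u + π / 2)
    apply mem_segment_of_pr (θ := u + θ)
    · have h2 := pr_coords (P - o) u θ
      rw [cP.1, cP.2] at h2
      rw [pr_sub] at e3 h2
      linear_combination e3 - h2
    · have h1 := pr_coords (V - o) u θ
      rw [cV.1, cV.2] at h1
      rw [pr_sub] at e3 h1
      linear_combination e3 - h1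
    · have h1 := tan1 (b - o)
      have h2 := tan1 (P - o)
      rw [cP.1, cP.2] at h2
      rw [pr_sub] at h1 h2
      have : 0 ≤ (pr b (u + θ + π / 2) - pr P (u + θ + π / 2)) * cos θ := by
        have e : (pr b (u + θ + π / 2) - pr P (u + θ + π / 2)) * cos θ = Y := by
          linear_combination (h1 - h2) * cos θ + sin θ * f1 + Y * sc1
        rw [e]; exact hb2
      have := nonneg_of_mul_nonneg_left this hθ
      linarith
    · have h1 := tan1 (b - o)
      have h2 := tan1 (V - o)
      rw [cV.1, cV.2] at h2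
      rw [pr_sub] at h1 h2
      have : 0 ≤ (pr V (u + θ + π / 2) - pr b (u + θ + π / 2)) * (cos θ * c) := by
        have e : (pr V (u + θ + π / 2) - pr b (u + θ + π / 2)) * (cos θ * c)
            = cos θ * (ρ' * cos θ' - (- X * sin θ' + Y * cos θ')) := by
          have k1 : pr V (u + θ + π / 2) - pr b (u + θ + π / 2)
              = -(ρ - t1 * sin θ) * sin θ + t1 * cos θ * cos θ - (-X * sin θ + Y * cos θ) := by
            linarith
          have k2 : (-(ρ - t1 * sin θ) * sin θ + t1 * cos θ * cos θ - (-X * sin θ + Y * cos θ))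
              = t1 - ρ * sin θ + X * sin θ - Y * cos θ := by linear_combination t1 * sc1
          rw [k1, k2]
          rw [show (t1 - ρ * sin θ + X * sin θ - Y * cos θ) * (cos θ * c)
            = cos θ * (t1 * c) + (- ρ * sin θ + X * sin θ - Y * cos θ) * cos θ * c by ring, ht1c, hcexp]
          linear_combination (sin θ' - (cos θ' * cos θ + sin θ' * sin θ) * sin θ) * f1
            - (cos θ' * cos θ + sin θ' * sin θ) * Y * sc1
        rw [e]
        exact mul_nonneg hθ.le (by linarith)
      have := nonneg_of_mul_nonneg_left this (mul_pos hθ hcos)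
      linarith
  by_cases e4 : pr (b - o) (u + π / 2 + θ') = ρ' * cos θ'
  · right
    have f1 := coord_second (b - o) u θ'
    rw [e4] at f1
    have f4 := hb3
    rw [pr_coords] at f4
    set X := pr (b - o) u
    set Y := pr (b - o) (u + π / 2)
    apply mem_segment_of_pr (θ := u + π / 2 + θ')
    · have h1 := coord_second (V - o) u θ'
      rw [cV.1, cV.2] at h1
      rw [pr_sub] at e4 h1
      rw [hX, hY] at h1
      linear_combination e4 - h1
    · have h2 := coord_second (P' - o) u θ'
      rw [cP'.1, cP'.2] at h2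
      rw [pr_sub] at e4 h2
      linear_combination e4 - h2
    · have h1 := tan2 (b - o)
      have h2 := tan2 (V - o)
      rw [cV.1, cV.2] at h2
      rw [pr_sub] at h1 h2
      rw [hX, hY] at h2
      have : 0 ≤ (pr b (u + π / 2 + θ' + π / 2) - pr V (u + π / 2 + θ' + π / 2)) * (cos θ' * c) := by
        have e : (pr b (u + π / 2 + θ' + π / 2) - pr V (u + π / 2 + θ' + π / 2)) * (cos θ' * c)
            = cos θ' * (ρ * cos θ - (X * cos θ + Y * sin θ)) := by
          have k1 : pr b (u + π / 2 + θ' + π / 2) - pr V (u + π / 2 + θ' + π / 2)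
              = t2 + ρ' * sin θ' - X * cos θ' - Y * sin θ' := by
            linear_combination h1 - h2 + t2 * sc2
          rw [k1]
          rw [show (t2 + ρ' * sin θ' - X * cos θ' - Y * sin θ') * (cos θ' * c)
            = cos θ' * (t2 * c) + (ρ' * sin θ' - X * cos θ' - Y * sin θ') * cos θ' * c by ring, ht2c, hcexp]
          linear_combination (sin θ' * (cos θ' * cos θ + sin θ' * sin θ) - sin θ) * f1
            - (cos θ' * cos θ + sin θ' * sin θ) * X * sc2
        rw [e]
        exact mul_nonneg hθ'.le (by linarith)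
      have := nonneg_of_mul_nonneg_left this (mul_pos hθ' hcos)
      linarith
    · have h1 := tan2 (b - o)
      have h2 := tan2 (P' - o)
      rw [cP'.1, cP'.2] at h2
      rw [pr_sub] at h1 h2
      have : 0 ≤ (pr P' (u + π / 2 + θ' + π / 2) - pr b (u + π / 2 + θ' + π / 2)) * cos θ' := by
        have e : (pr P' (u + π / 2 + θ' + π / 2) - pr b (u + π / 2 + θ' + π / 2)) * cos θ' = X := by
          linear_combination (h2 - h1) * cos θ' - sin θ' * f1 + X * sc2
        rw [e]; exact hb1
      have := nonneg_of_mul_nonneg_left this hθ'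
      linarith
  exfalso
  apply htn
  rw [mem_interior]
  refine ⟨{x | 0 < pr (x - o) u} ∩ ({x | 0 < pr (x - o) (u + π / 2)} ∩
    ({x | pr (x - o) (u + θ) < ρ * cos θ} ∩ {x | pr (x - o) (u + π / 2 + θ') < ρ' * cos θ'})),
    ?_, ?_, ?_⟩
  · rintro x ⟨h1, h2, h3, h4⟩
    exact ⟨le_of_lt h1, le_of_lt h2, le_of_lt h3, le_of_lt h4⟩
  · apply IsOpen.inter (isOpen_lt continuous_const (pr_sub_continuous o _))
    apply IsOpen.inter (isOpen_lt continuous_const (pr_sub_continuous o _))
    exact IsOpen.inter (isOpen_lt (pr_sub_continuous o _) continuous_const)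
      (isOpen_lt (pr_sub_continuous o _) continuous_const)
  · exact ⟨lt_of_le_of_ne hb1 (Ne.symm e1), lt_of_le_of_ne hb2 (Ne.symm e2),
      lt_of_le_of_ne hb3 e3, lt_of_le_of_ne hb4 e4⟩

end Pool.Agent.R763.Str
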