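import Pool.Agent.R763.QuadArc2
import Pool.Agent.R763.QuadAlg

set_option autoImplicit false
open Real Set MeasureTheory Filter Topology
open scoped ENNReal NNReal

namespace Pool.Agent.R763.Str

open Pool.Agent.R763.Quad

theorem pr_lt_of_interior {F : Set E2} (hF : IsCompact F) {o : E2} (ho : o ∈ interior F) (ω : ℝ) :
    pr o ω < hs F ω := by
  have hcont : ContinuousAt (fun s : ℝ => o + s • pt 1 ω) 0 := by fun_prop
  have hnhds : ∀ᶠ s in nhds (0:ℝ), o + s • pt 1 ω ∈ F := by
    have := hcont.preimage_mem_nhds (IsOpen.mem_nhds isOpen_interior (by simpa using ho))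
    filter_upwards [this] with s hs
    exact interior_subset hs
  obtain ⟨ε, hε, hball⟩ := Metric.eventually_nhds_iff.1 hnhds
  have h1 := hball (y := ε / 2) (by rw [Real.dist_eq, sub_zero, abs_of_pos (by linarith)]; linarith)
  have h2 := le_hs hF h1 ω
  rw [pr_add, pr_smul, pr_pt, sub_self, Real.cos_zero] at h2
  linarith

theorem arc_degenerate {F : Set E2} (hF : IsCompact F) (hc : Convex ℝ F) {o : E2}
    (ho : o ∈ interior F) {u ρ ρ' θ : ℝ}
    (hρ : 0 < ρ) (hρ' : 0 < ρ') (hP : o + pt ρ u ∈ F) (hP' : o + pt ρ' (u + π / 2) ∈ F)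
    (hs1 : pr (o + pt ρ u) (u + θ) = hs F (u + θ))
    (hθ : 0 < cos θ) (heq : ρ * cos θ = ρ' * sin θ) :
    μH[1] (qarc F o u) ≤ ENNReal.ofReal (√(ρ ^ 2 + ρ' ^ 2)) := by
  have hsup1 : ∀ x ∈ F, pr (x - o) (u + θ) ≤ ρ * cos θ := by
    intro x hx
    have h1 := le_hs hF hx (u + θ)
    rw [← hs1, pr_add, pr_pt, add_sub_cancel_left] at h1
    rw [pr_sub]; linarith
  have hsub : qarc F o u ⊆ segment ℝ (o + pt ρ u) (o + pt ρ' (u + π / 2)) := by
    rintro b ⟨hbf, hb1, hb2⟩
    have hbF : b ∈ F := hF.isClosed.frontier_subset hbf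
    have h1 := hsup1 b hbF
    rw [pr_coords] at h1
    set X := pr (b - o) u with hX
    set Y := pr (b - o) (u + π / 2) with hY
    have hbe := pt_eq_coords hX.symm hY.symm
    set l := X / ρ + Y / ρ' with hl
    have hl0 : 0 ≤ l := by positivity
    have hl1 : l ≤ 1 := by
      have : l * (ρ * cos θ) ≤ 1 * (ρ * cos θ) := by
        have e : l * (ρ * cos θ) = X * cos θ + Y * sin θ := by
          rw [hl, add_mul]
          nth_rewrite 2 [heq]
          field_simp
        rw [e, one_mul]; exact h1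
      exact le_of_mul_le_mul_right this (by positivity)
    rcases eq_or_lt_of_le hl1 with h2 | h2
    · rw [segment_eq_image]
      refine ⟨Y / ρ', ⟨by positivity, ?_⟩, ?_⟩
      · have : 0 ≤ X / ρ := by positivity
        linarith
      · simp only
        have e1 : 1 - Y / ρ' = X / ρ := by linarith
        have e2 : (X / ρ) • pt ρ u = X • pt 1 u := by
          rw [← pt_smul_one ρ, smul_smul, div_mul_cancel₀ _ hρ.ne']
        have e3 : (Y / ρ') • pt ρ' (u + π / 2) = Y • pt 1 (u + π / 2) := by
          rw [← pt_smul_one ρ', smul_smul, div_mul_cancel₀ _ hρ'.ne']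
        rw [hbe, smul_add, smul_add, e3]
        have e4 : (1 - Y / ρ') • pt ρ u = X • pt 1 u := by rw [e1, e2]
        rw [e4]
        module
    · exfalso
      apply hbf.2
      rcases eq_or_lt_of_le hl0 with h3 | h3
      · have hx0 : X / ρ = 0 := by
          have : 0 ≤ X / ρ := by positivity
          have : 0 ≤ Y / ρ' := by positivity
          linarith
        have hy0 : Y / ρ' = 0 := by
          have : 0 ≤ X / ρ := by positivity
          have : 0 ≤ Y / ρ' := by positivity
          linarith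
        have hx : X = 0 := by
          rcases div_eq_zero_iff.1 hx0 with k | k
          · exact k
          · exact absurd k hρ.ne'
        have hy : Y = 0 := by
          rcases div_eq_zero_iff.1 hy0 with k | k
          · exact k
          · exact absurd k hρ'.ne'
        rw [hbe, hx, hy]; simpa using ho
      · set z := (X / ρ / l) • (o + pt ρ u) + (Y / ρ' / l) • (o + pt ρ' (u + π / 2)) with hz
        have hzF : z ∈ F := by
          apply hc hP hP' (by positivity) (by positivity)
          rw [← add_div, ← hl]; exact div_self h3.ne'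
        have := hc.openSegment_interior_closure_subset_interior ho (subset_closure hzF)
        apply this
        rw [openSegment_eq_image]
        refine ⟨l, ⟨h3, h2⟩, ?_⟩
        simp only
        have e1 : l • z = (X / ρ) • (o + pt ρ u) + (Y / ρ') • (o + pt ρ' (u + π / 2)) := by
          rw [hz, smul_add, smul_smul, smul_smul]
          congr 2 <;> field_simp
        have e2 : (X / ρ) • pt ρ u = X • pt 1 u := by
          rw [← pt_smul_one ρ, smul_smul, div_mul_cancel₀ _ hρ.ne']
        have e3 : (Y / ρ') • pt ρ' (u + π / 2) = Y • pt 1 (u + π / 2) := by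
          rw [← pt_smul_one ρ', smul_smul, div_mul_cancel₀ _ hρ'.ne']
        rw [e1, smul_add, smul_add, e2, e3]
        conv_rhs => rw [hbe]
        rw [hl]
        module
  refine (measure_mono hsub).trans ?_
  rw [hausdorffMeasure_segment, edist_dist, dist_eq_norm]
  apply ENNReal.ofReal_le_ofReal
  apply Real.le_sqrt_of_sq_le
  have e : (o + pt ρ u) - (o + pt ρ' (u + π / 2)) = pt ρ u - pt ρ' (u + π / 2) := by abel
  rw [e, norm_sq_pr _ u]
  simp only [pr_sub, pr_pt]
  rw [show u - u = 0 by ring, show u - (u + π / 2) = -(π / 2) by ring,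
    show u + π / 2 - u = π / 2 by ring, show u + π / 2 - (u + π / 2) = 0 by ring,
    Real.cos_neg, Real.cos_zero, Real.cos_pi_div_two]
  apply le_of_eq; ring

/-- the numerical data attached to a quadrant -/
theorem quadrant {F : Set E2} (hF : IsCompact F) (hc : Convex ℝ F) {o : E2}
    (ho : o ∈ interior F) {u ρ ρ' θ θ' l : ℝ}
    (hρ : 0 < ρ) (hρ' : 0 < ρ') (hP : o + pt ρ u ∈ F) (hP' : o + pt ρ' (u + π / 2) ∈ F)
    (hs1 : pr (o + pt ρ u) (u + θ) = hs F (u + θ))
    (hs2 : pr (o + pt ρ' (u + π / 2)) (u + π / 2 + θ') = hs F (u + π / 2 + θ'))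
    (hl : μH[1] (qarc F o u) = ENNReal.ofReal l) :
    Qr l ρ ρ' (sin θ) (cos θ) (sin θ') (cos θ') := by
  have hθ : 0 < cos θ := by
    have h1 := pr_lt_of_interior hF ho (u + θ)
    rw [← hs1, pr_add, pr_pt, add_sub_cancel_left] at h1
    have : 0 < ρ * cos θ := by linarith
    exact (pos_iff_pos_of_mul_pos this).1 hρ
  have hθ' : 0 < cos θ' := by
    have h1 := pr_lt_of_interior hF ho (u + π / 2 + θ')
    rw [← hs2, pr_add, pr_pt, add_sub_cancel_left] at h1
    have : 0 < ρ' * cos θ' := by linarith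
    exact (pos_iff_pos_of_mul_pos this).1 hρ'
  have hlow := arc_lower hF hc hρ hρ' hP hP'
  rw [hl] at hlow
  have hsq : 0 < √(ρ ^ 2 + ρ' ^ 2) := Real.sqrt_pos.2 (by positivity)
  have hlpos : 0 < l := by
    by_contra h; push Not at h
    rw [ENNReal.ofReal_of_nonpos h] at hlow
    have := ENNReal.ofReal_pos.2 hsq
    exact absurd hlow (not_le.2 this)
  have hlow' : √(ρ ^ 2 + ρ' ^ 2) ≤ l := (ENNReal.ofReal_le_ofReal_iff hlpos.le).1 hlow
  have hsqsq : √(ρ ^ 2 + ρ' ^ 2) ^ 2 = ρ ^ 2 + ρ' ^ 2 := Real.sq_sqrt (by positivity)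
  have hsup1 : ∀ x ∈ F, pr (x - o) (u + θ) ≤ ρ * cos θ := by
    intro x hx
    have h1 := le_hs hF hx (u + θ)
    rw [← hs1, pr_add, pr_pt, add_sub_cancel_left] at h1
    rw [pr_sub]; linarith
  have hsup2 : ∀ x ∈ F, pr (x - o) (u + π / 2 + θ') ≤ ρ' * cos θ' := by
    intro x hx
    have h1 := le_hs hF hx (u + π / 2 + θ')
    rw [← hs2, pr_add, pr_pt, add_sub_cancel_left] at h1
    rw [pr_sub]; linarith
  have hc1 : ρ' * sin θ ≤ ρ * cos θ := by
    have := hsup1 _ hP'
    rw [add_sub_cancel_left, pr_pt, show u + θ - (u + π / 2) = θ - π / 2 by ring,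
      Real.cos_sub_pi_div_two] at this
    exact this
  have hc2 : - (ρ * sin θ') ≤ ρ' * cos θ' := by
    have := hsup2 _ hP
    rw [add_sub_cancel_left, pr_pt, show u + π / 2 + θ' - u = θ' + π / 2 by ring,
      Real.cos_add_pi_div_two] at this
    linarith
  exact {
    hl := hlpos
    hρ := hρ
    hρ' := hρ'
    hc := hθ
    hc' := hθ'
    sc := Real.sin_sq_add_cos_sq θ
    sc' := Real.sin_sq_add_cos_sq θ'
    g1 := hc1
    g2 := hc2
    lo := by
      rw [← hsqsq]
      exact pow_le_pow_left₀ hsq.le hlow' 2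
    up := by
      intro hC
      have hcos : 0 < cos (θ' - θ) := by
        rw [Real.cos_sub]; linarith
      obtain ⟨k1, k2, k3⟩ := arc_upper hF hc ho hρ hρ' hP hP' hs1 hs2 hθ hθ' hcos
      rw [hl] at k3
      have k4 := (ENNReal.ofReal_le_ofReal_iff (add_nonneg k1 k2)).1 k3
      rw [← add_div, le_div_iff₀ hcos] at k4
      have : cos (θ' - θ) = cos θ * cos θ' + sin θ * sin θ' := by rw [Real.cos_sub]; ring
      rw [this] at k4
      exact k4
    deg := by
      intro h1 h2
      have heq : ρ * cos θ = ρ' * sin θ := by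
        apply le_antisymm
        · rw [h2, h1]; linarith
        · exact hc1
      have k3 := arc_degenerate hF hc ho hρ hρ' hP hP' hs1 hθ heq
      rw [hl] at k3
      have k4 := (ENNReal.ofReal_le_ofReal_iff hsq.le).1 k3
      rw [← hsqsq]
      exact pow_le_pow_left₀ hlpos.le k4 2 }

end Pool.Agent.R763.Str
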