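import Pool.Agent.R763.QuadTop

set_option autoImplicit false
open Real Set MeasureTheory Filter Topology
open scoped ENNReal NNReal

namespace Pool.Agent.R763.Str

variable {F : Set E2} {a b c d : E2} {A B C D : Set E2}

/-- a point of the plane on the line through `a` and `c` -/
theorem on_line {ν : ℝ} (hac : a ≠ c) (hν : pr (c - a) ν = 0) {x : E2} (hx : pr (x - a) ν = 0) :
    ∃ σ : ℝ, x = a + σ • (c - a) := by
  have hk : pr (c - a) (ν + π / 2) ≠ 0 := by
    intro h0
    have : c - a = 0 := ext_pr (θ := ν) (by rw [hν, pr_zero]) (by rw [h0, pr_zero])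
    exact hac (sub_eq_zero.1 this).symm
  refine ⟨pr (x - a) (ν + π / 2) / pr (c - a) (ν + π / 2), ?_⟩
  have : x - a = (pr (x - a) (ν + π / 2) / pr (c - a) (ν + π / 2)) • (c - a) := by
    apply ext_pr (θ := ν)
    · rw [pr_smul, hν, hx, mul_zero]
    · rw [pr_smul, div_mul_cancel₀ _ hk]
  rw [← this]; abel

theorem mem_chord (hc : Convex ℝ F) {ν : ℝ} (hac : a ≠ c) (hν : pr (c - a) ν = 0)
    (ha : a ∉ interior F) (hcn : c ∉ interior F) (hint : openSegment ℝ a c ⊆ interior F)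
    {x : E2} (hxF : x ∈ F) (hx : pr (x - a) ν = 0) :
    ∃ σ : ℝ, 0 ≤ σ ∧ σ ≤ 1 ∧ x = a + σ • (c - a) := by
  obtain ⟨σ, hσ⟩ := on_line hac hν hx
  have hm : a + (1 / 2 : ℝ) • (c - a) ∈ interior F := by
    apply hint
    rw [openSegment_eq_image']
    exact ⟨1 / 2, by norm_num, rfl⟩
  refine ⟨σ, ?_, ?_, hσ⟩
  · by_contra hneg
    push Not at hneg
    apply ha
    apply hc.openSegment_interior_closure_subset_interior hm (subset_closure hxF)
    rw [openSegment_eq_image]
    have h1 : 0 < 1 / 2 - σ := by linarith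
    refine ⟨(1 / 2) / (1 / 2 - σ), ⟨by positivity, by rw [div_lt_one h1]; linarith⟩, ?_⟩
    simp only
    rw [hσ, smul_add, smul_add]
    have e1 : (1 - 1 / 2 / (1 / 2 - σ)) • a + (1 / 2 / (1 / 2 - σ)) • a = a := by
      rw [← add_smul]; simp
    have e2 : (1 - 1 / 2 / (1 / 2 - σ)) • (1 / 2 : ℝ) • (c - a)
        + (1 / 2 / (1 / 2 - σ)) • σ • (c - a) = 0 := by
      rw [smul_smul, smul_smul, ← add_smul]
      have hk : 1 / 2 / (1 / 2 - σ) * (1 / 2 - σ) = 1 / 2 := div_mul_cancel₀ _ h1.ne'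
      have : (1 - 1 / 2 / (1 / 2 - σ)) * (1 / 2) + 1 / 2 / (1 / 2 - σ) * σ = 0 := by
        linear_combination -hk
      rw [this, zero_smul]
    calc (1 - 1 / 2 / (1 / 2 - σ)) • a + (1 - 1 / 2 / (1 / 2 - σ)) • (1 / 2 : ℝ) • (c - a)
          + ((1 / 2 / (1 / 2 - σ)) • a + (1 / 2 / (1 / 2 - σ)) • σ • (c - a))
        = ((1 - 1 / 2 / (1 / 2 - σ)) • a + (1 / 2 / (1 / 2 - σ)) • a)
          + ((1 - 1 / 2 / (1 / 2 - σ)) • (1 / 2 : ℝ) • (c - a)
          + (1 / 2 / (1 / 2 - σ)) • σ • (c - a)) := by abel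
      _ = a := by rw [e1, e2, add_zero]
  · by_contra hgt
    push Not at hgt
    apply hcn
    apply hc.openSegment_interior_closure_subset_interior hm (subset_closure hxF)
    rw [openSegment_eq_image]
    have h1 : 0 < σ - 1 / 2 := by linarith
    refine ⟨(1 / 2) / (σ - 1 / 2), ⟨by positivity, by rw [div_lt_one h1]; linarith⟩, ?_⟩
    simp only
    rw [hσ, smul_add, smul_add]
    have e1 : (1 - 1 / 2 / (σ - 1 / 2)) • a + (1 / 2 / (σ - 1 / 2)) • a = a := by
      rw [← add_smul]; simp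
    have e2 : (1 - 1 / 2 / (σ - 1 / 2)) • (1 / 2 : ℝ) • (c - a)
        + (1 / 2 / (σ - 1 / 2)) • σ • (c - a) = c - a := by
      rw [smul_smul, smul_smul, ← add_smul]
      have hk : 1 / 2 / (σ - 1 / 2) * (σ - 1 / 2) = 1 / 2 := div_mul_cancel₀ _ h1.ne'
      have : (1 - 1 / 2 / (σ - 1 / 2)) * (1 / 2) + 1 / 2 / (σ - 1 / 2) * σ = 1 := by
        linear_combination hk
      rw [this, one_smul]
    calc (1 - 1 / 2 / (σ - 1 / 2)) • a + (1 - 1 / 2 / (σ - 1 / 2)) • (1 / 2 : ℝ) • (c - a)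
          + ((1 / 2 / (σ - 1 / 2)) • a + (1 / 2 / (σ - 1 / 2)) • σ • (c - a))
        = ((1 - 1 / 2 / (σ - 1 / 2)) • a + (1 / 2 / (σ - 1 / 2)) • a)
          + ((1 - 1 / 2 / (σ - 1 / 2)) • (1 / 2 : ℝ) • (c - a)
          + (1 / 2 / (σ - 1 / 2)) • σ • (c - a)) := by abel
      _ = c := by rw [e1, e2]; abel

/-- on a connected set where a continuous function has no zero, the sign is constant -/
theorem sign_const {U : Set E2} (hU : IsPreconnected U) {g : E2 → ℝ} (hg : Continuous g)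
    (h0 : ∀ x ∈ U, g x ≠ 0) {x y : E2} (hx : x ∈ U) (hy : y ∈ U) (hgx : 0 < g x) : 0 < g y := by
  by_contra hcon
  push Not at hcon
  have := hU.intermediate_value hy hx hg.continuousOn
  obtain ⟨z, hz, hz0⟩ := this ⟨hcon, hgx.le⟩
  exact h0 z hz hz0

theorem Quadrisect.line_frontier (h : Quadrisect F a b c d A B C D) (hF : IsCompact F)
    (hc : Convex ℝ F) (hint : (interior F).Nonempty) {ν : ℝ} (hν : pr (c - a) ν = 0)
    {x : E2} (hx : x ∈ frontier F) (hx0 : pr (x - a) ν = 0) : x = a ∨ x = c := by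
  have hopen := h.chord_interior hF hc hint
  obtain ⟨σ, h1, h2, h3⟩ := mem_chord hc h.ac hν h.mem.1.2 h.mem.2.2.1.2 hopen
    (hF.isClosed.frontier_subset hx) hx0
  rcases eq_or_lt_of_le h1 with h4 | h4
  · left; rw [h3, ← h4]; simp
  · rcases eq_or_lt_of_le h2 with h5 | h5
    · right; rw [h3, h5]; simp
    · exfalso
      apply hx.2
      apply hopen
      rw [openSegment_eq_image', h3]
      exact ⟨σ, ⟨h4, h5⟩, rfl⟩

/-- signs on the arcs -/
theorem Quadrisect.side (h : Quadrisect F a b c d A B C D) (hF : IsCompact F)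
    (hc : Convex ℝ F) (hint : (interior F).Nonempty) {ν : ℝ} (hν : pr (c - a) ν = 0)
    (hb : 0 < pr (b - a) ν) :
    (∀ x ∈ A \ {a}, 0 < pr (x - a) ν) ∧ (∀ x ∈ B \ {c}, 0 < pr (x - a) ν) := by
  have hg := pr_sub_continuous a ν
  have hca : c ∉ A := h.c_notin
  have haB : a ∉ B := h.a_notin
  constructor
  · intro x hx
    refine sign_const h.hA.preconn hg ?_ (x := b) ⟨h.hA.right_mem, h.hA.ne.symm⟩ hx hb
    rintro y ⟨hy, hya⟩ hy0
    rcases h.line_frontier hF hc hint hν (h.sub.1 hy) hy0 with k | k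
    · exact hya k
    · exact hca (k ▸ hy)
  · intro x hx
    refine sign_const h.hB.preconn' hg ?_ (x := b) ⟨h.hB.left_mem, h.hB.ne⟩ hx hb
    rintro y ⟨hy, hyc⟩ hy0
    rcases h.line_frontier hF hc hint hν (h.sub.2.1 hy) hy0 with k | k
    · exact haB (k ▸ hy)
    · exact hyc k

theorem Quadrisect.side_ne (h : Quadrisect F a b c d A B C D) (hF : IsCompact F)
    (hc : Convex ℝ F) (hint : (interior F).Nonempty) {ν : ℝ} (hν : pr (c - a) ν = 0) :
    pr (b - a) ν ≠ 0 := by
  intro h0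
  rcases h.line_frontier hF hc hint hν h.mem.2.1 h0 with k | k
  · exact h.hA.ne k.symm
  · exact h.hB.ne k

theorem Quadrisect.opposite (h : Quadrisect F a b c d A B C D) (hF : IsCompact F)
    (hc : Convex ℝ F) (hint : (interior F).Nonempty) {ν : ℝ} (hν : pr (c - a) ν = 0)
    (hb : 0 < pr (b - a) ν) : pr (d - a) ν < 0 := by
  by_contra hcon
  push Not at hcon
  have hd : 0 < pr (d - a) ν := lt_of_le_of_ne hcon (h.refl.side_ne hF hc hint hν).symm
  have s1 := h.side hF hc hint hν hb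
  have s2 := h.refl.side hF hc hint hν hd
  -- a frontier point on the negative side
  have hm : a + (1 / 2 : ℝ) • (c - a) ∈ interior F := by
    apply h.chord_interior hF hc hint
    rw [openSegment_eq_image']
    exact ⟨1 / 2, by norm_num, rfl⟩
  obtain ⟨t, ht0, htF, htn⟩ := exists_last hF (interior_subset hm) (ν + π)
  set z := a + (1 / 2 : ℝ) • (c - a) + t • pt 1 (ν + π) with hz
  have hzf : z ∈ frontier F := ⟨subset_closure htF, htn⟩
  have hgz : pr (z - a) ν = -t := by
    have e : z - a = (1 / 2 : ℝ) • (c - a) + t • pt 1 (ν + π) := by rw [hz]; abel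
    rw [e, pr_add, pr_smul, pr_smul, hν, pr_pt, show ν - (ν + π) = -π by ring, Real.cos_neg,
      Real.cos_pi]; ring
  have htpos : 0 < t := by
    rcases eq_or_lt_of_le ht0 with k | k
    · exfalso; apply htn; rw [hz, ← k]; simpa using hm
    · exact k
  have hzneg : pr (z - a) ν < 0 := by rw [hgz]; linarith
  have hza : z ≠ a := by
    intro he; rw [he, sub_self, pr_zero] at hzneg; exact lt_irrefl _ hzneg
  have hzc : z ≠ c := by
    intro he; rw [he, hν] at hzneg; exact lt_irrefl _ hzneg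
  rw [← h.union] at hzf
  simp only [mem_union] at hzf
  rcases hzf with ((k | k) | k) | k
  · have := s1.1 z ⟨k, hza⟩; linarith
  · have := s1.2 z ⟨k, hzc⟩; linarith
  · have := s2.2 z ⟨k, hzc⟩; linarith
  · have := s2.1 z ⟨k, hza⟩; linarith

/-- the crossing point -/
theorem Quadrisect.cross (h : Quadrisect F a b c d A B C D) (hF : IsCompact F)
    (hc : Convex ℝ F) (hint : (interior F).Nonempty) {ν : ℝ} (hν : pr (c - a) ν = 0)
    (hb : 0 < pr (b - a) ν) :
    ∃ o, o ∈ openSegment ℝ a c ∧ o ∈ openSegment ℝ b d ∧ o ∈ interior F := by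
  have hd := h.opposite hF hc hint hν hb
  have hopen := h.chord_interior hF hc hint
  have hopen' := h.rot.chord_interior hF hc hint
  set s := pr (b - a) ν / (pr (b - a) ν - pr (d - a) ν) with hs
  have hden : 0 < pr (b - a) ν - pr (d - a) ν := by linarith
  have hs0 : 0 < s := div_pos hb hden
  have hs1 : s < 1 := by rw [hs, div_lt_one hden]; linarith
  set o := b + s • (d - b) with ho
  have hobd : o ∈ openSegment ℝ b d := by
    rw [openSegment_eq_image']; exact ⟨s, ⟨hs0, hs1⟩, rfl⟩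
  have hoi : o ∈ interior F := hopen' hobd
  have hgo : pr (o - a) ν = 0 := by
    have e : o - a = (b - a) + s • ((d - a) - (b - a)) := by rw [ho]; module
    rw [e, pr_add, pr_smul, pr_sub (d - a)]
    rw [hs]; field_simp; ring
  obtain ⟨σ, h1, h2, h3⟩ := mem_chord hc h.ac hν h.mem.1.2 h.mem.2.2.1.2 hopen
    (interior_subset hoi) hgo
  refine ⟨o, ?_, hobd, hoi⟩
  rw [openSegment_eq_image', h3]
  refine ⟨σ, ⟨lt_of_le_of_ne h1 ?_, lt_of_le_of_ne h2 ?_⟩, rfl⟩
  · intro k
    apply h.mem.1.2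
    have : o = a := by rw [h3, ← k]; simp
    rw [← this]; exact hoi
  · intro k
    apply h.mem.2.2.1.2
    have : o = c := by rw [h3, k]; simp
    rw [← this]; exact hoi

end Pool.Agent.R763.Str
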