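import Pool.Agent.R763.QuadCross

set_option autoImplicit false
open Real Set MeasureTheory Filter Topology
open scoped ENNReal NNReal

namespace Pool.Agent.R763.Str

open Pool.Agent.R763.Quad

/-- `F` is a (solid, nondegenerate) rectangle. -/
def IsRectangle (F : Set E2) : Prop :=
  ∃ (z u v : E2) (α β : ℝ), ‖u‖ = 1 ∧ ‖v‖ = 1 ∧ inner ℝ u v = 0 ∧ 0 < α ∧ 0 < β ∧
    F = {x | ∃ s t : ℝ, |s| ≤ α ∧ |t| ≤ β ∧ x = z + s • u + t • v}

theorem integral_lt {f g : ℝ → ℝ} (hf : Continuous f) (hg : Continuous g)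
    (pf : ∀ θ, f (θ + 2 * π) = f θ) (pg : ∀ θ, g (θ + 2 * π) = g θ) (hle : ∀ θ, f θ ≤ g θ)
    (hlt : ∃ θ, f θ < g θ) : ∫ θ in (0:ℝ)..(2 * π), f θ < ∫ θ in (0:ℝ)..(2 * π), g θ := by
  obtain ⟨θ₁, hθ₁⟩ := hlt
  have hp : Function.Periodic (fun θ => g θ - f θ) (2 * π) := by
    intro θ; simp only [pf, pg]
  obtain ⟨θ₀, hθ₀, he⟩ := hp.exists_mem_Ico₀ (by positivity) θ₁
  rw [← sub_pos, ← intervalIntegral.integral_sub (hg.intervalIntegrable _ _)
    (hf.intervalIntegrable _ _)]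
  apply intervalIntegral.integral_pos (by positivity)
  · exact (hg.sub hf).continuousOn
  · intro t _
    exact sub_nonneg.2 (hle t)
  · refine ⟨θ₀, Ico_subset_Icc_self hθ₀, ?_⟩
    rw [← he]
    exact sub_pos.2 hθ₁

theorem eq_of_W {F R : Set E2} (hF : IsCompact F) (hc : Convex ℝ F) (hne : F.Nonempty)
    (hR : IsCompact R) (hFR : F ⊆ R) (hW : W R ≤ W F) : F = R := by
  apply Subset.antisymm hFR
  intro x hx
  by_contra hxF
  rw [mem_iff hF hc hne] at hxF
  push Not at hxF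
  obtain ⟨θ, hθ⟩ := hxF
  have : W F < W R := by
    apply integral_lt (hs_continuous hF hne) (hs_continuous hR (hne.mono hFR)) (hs_periodic F)
      (hs_periodic R) (fun θ => hs_mono hF hne hR hFR θ)
    exact ⟨θ, hθ.trans_le (le_hs hR hx θ)⟩
  linarith

/-- point with given coordinates -/
noncomputable def crd (o : E2) (u x y : ℝ) : E2 := o + x • pt 1 u + y • pt 1 (u + π / 2)

theorem pr_crd (o : E2) (u x y : ℝ) :
    pr (crd o u x y - o) u = x ∧ pr (crd o u x y - o) (u + π / 2) = y := by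
  have e : crd o u x y - o = x • pt 1 u + y • pt 1 (u + π / 2) := by rw [crd]; abel
  rw [e]
  simp only [pr_add, pr_smul, pr_pt]
  rw [show u - u = 0 by ring, show u - (u + π / 2) = -(π / 2) by ring,
    show u + π / 2 - u = π / 2 by ring, show u + π / 2 - (u + π / 2) = 0 by ring,
    Real.cos_neg, Real.cos_zero, Real.cos_pi_div_two]
  constructor <;> ring

theorem pr_eq_of_sub {x y o : E2} {u : ℝ} (h : pr (x - o) u = pr (y - o) u) : pr x u = pr y u := by
  rw [pr_sub, pr_sub] at h; linarith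

/-- the box -/
def Box (o : E2) (u ρ0 ρ1 ρ2 ρ3 : ℝ) : Set E2 :=
  {x | pr (x - o) u ≤ ρ0 ∧ pr (x - o) (u + π / 2) ≤ ρ1 ∧ -ρ2 ≤ pr (x - o) u ∧
    -ρ3 ≤ pr (x - o) (u + π / 2)}

theorem Box_closed (o : E2) (u ρ0 ρ1 ρ2 ρ3 : ℝ) : IsClosed (Box o u ρ0 ρ1 ρ2 ρ3) := by
  apply IsClosed.inter (isClosed_le (pr_sub_continuous o _) continuous_const)
  apply IsClosed.inter (isClosed_le (pr_sub_continuous o _) continuous_const)
  exact IsClosed.inter (isClosed_le continuous_const (pr_sub_continuous o _))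
    (isClosed_le continuous_const (pr_sub_continuous o _))

theorem Box_compact (o : E2) (u ρ0 ρ1 ρ2 ρ3 : ℝ) : IsCompact (Box o u ρ0 ρ1 ρ2 ρ3) := by
  apply Metric.isCompact_of_isClosed_isBounded (Box_closed o u ρ0 ρ1 ρ2 ρ3)
  rw [Metric.isBounded_iff_subset_closedBall o]
  refine ⟨|ρ0| + |ρ1| + |ρ2| + |ρ3|, ?_⟩
  rintro x ⟨h1, h2, h3, h4⟩
  rw [Metric.mem_closedBall, dist_eq_norm]
  have h5 := norm_sq_pr (x - o) u
  have k0 := le_abs_self ρ0
  have k1 := le_abs_self ρ1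
  have k2 := le_abs_self ρ2
  have k3 := le_abs_self ρ3
  have n0 := abs_nonneg ρ0
  have n1 := abs_nonneg ρ1
  have n2 := abs_nonneg ρ2
  have n3 := abs_nonneg ρ3
  have m1 : |pr (x - o) u| ≤ |ρ0| + |ρ2| := abs_le.2 ⟨by linarith, by linarith⟩
  have m2 : |pr (x - o) (u + π / 2)| ≤ |ρ1| + |ρ3| := abs_le.2 ⟨by linarith, by linarith⟩
  apply abs_le_of_sq_le_sq' _ (by linarith) |>.2
  rw [h5, ← sq_abs (pr (x - o) u), ← sq_abs (pr (x - o) (u + π / 2))]
  have a1 := abs_nonneg (pr (x - o) u)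
  have a2 := abs_nonneg (pr (x - o) (u + π / 2))
  nlinarith

theorem Box_convex (o : E2) (u ρ0 ρ1 ρ2 ρ3 : ℝ) : Convex ℝ (Box o u ρ0 ρ1 ρ2 ρ3) := by
  rintro x ⟨h1, h2, h3, h4⟩ y ⟨k1, k2, k3, k4⟩ s t hs ht hst
  have e : ∀ w, pr (s • x + t • y - o) w = s * pr (x - o) w + t * pr (y - o) w := by
    intro w
    have : s • x + t • y - o = s • (x - o) + t • (y - o) := by
      have : o = s • o + t • o := by rw [← add_smul, hst, one_smul]
      conv_lhs => rw [this]
      module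
    rw [this, pr_add, pr_smul, pr_smul]
  have up : ∀ {p q M : ℝ}, p ≤ M → q ≤ M → s * p + t * q ≤ M := by
    intro p q M hp hq
    have a1 := mul_le_mul_of_nonneg_left hp hs
    have a2 := mul_le_mul_of_nonneg_left hq ht
    have a3 : s * M + t * M = M := by rw [← add_mul, hst, one_mul]
    linarith
  have dn : ∀ {p q M : ℝ}, M ≤ p → M ≤ q → M ≤ s * p + t * q := by
    intro p q M hp hq
    have a1 := mul_le_mul_of_nonneg_left hp hs
    have a2 := mul_le_mul_of_nonneg_left hq ht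
    have a3 : s * M + t * M = M := by rw [← add_mul, hst, one_mul]
    linarith
  refine ⟨?_, ?_, ?_, ?_⟩
  · rw [e]; exact up h1 k1
  · rw [e]; exact up h2 k2
  · rw [e]; exact dn h3 k3
  · rw [e]; exact dn h4 k4

theorem Box_perim (o : E2) {u ρ0 ρ1 ρ2 ρ3 : ℝ} (h0 : 0 < ρ0) (h1 : 0 < ρ1) (h2 : 0 < ρ2)
    (h3 : 0 < ρ3) :
    μH[1] (frontier (Box o u ρ0 ρ1 ρ2 ρ3)) ≤ ENNReal.ofReal (2 * (ρ0 + ρ1 + ρ2 + ρ3)) := by
  have hsub : frontier (Box o u ρ0 ρ1 ρ2 ρ3) ⊆
      (segment ℝ (crd o u ρ0 (-ρ3)) (crd o u ρ0 ρ1) ∪ segment ℝ (crd o u (-ρ2) (-ρ3)) (crd o u (-ρ2) ρ1)) ∪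
      (segment ℝ (crd o u ρ0 ρ1) (crd o u (-ρ2) ρ1) ∪ segment ℝ (crd o u ρ0 (-ρ3)) (crd o u (-ρ2) (-ρ3))) := by
    intro x hx
    obtain ⟨b1, b2, b3, b4⟩ := (Box_closed o u ρ0 ρ1 ρ2 ρ3).frontier_subset hx
    have tan : ∀ z : E2, pr (z - o) (u + π / 2 + π / 2) = - pr (z - o) u := by
      intro z; rw [show u + π / 2 + π / 2 = u + π by ring, pr_add_pi]
    have c1 := pr_crd o u ρ0 (-ρ3)
    have c2 := pr_crd o u ρ0 ρ1
    have c3 := pr_crd o u (-ρ2) (-ρ3)
    have c4 := pr_crd o u (-ρ2) ρ1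
    by_cases e1 : pr (x - o) u = ρ0
    · left; left
      apply mem_segment_of_pr (θ := u)
      · exact pr_eq_of_sub (e1.trans c1.1.symm)
      · exact pr_eq_of_sub (e1.trans c2.1.symm)
      · have := c1.2; rw [pr_sub] at this b4; linarith
      · have := c2.2; rw [pr_sub] at this b2; linarith
    by_cases e2 : pr (x - o) u = -ρ2
    · left; right
      apply mem_segment_of_pr (θ := u)
      · exact pr_eq_of_sub (e2.trans c3.1.symm)
      · exact pr_eq_of_sub (e2.trans c4.1.symm)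
      · have := c3.2; rw [pr_sub] at this b4; linarith
      · have := c4.2; rw [pr_sub] at this b2; linarith
    by_cases e3 : pr (x - o) (u + π / 2) = ρ1
    · right; left
      apply mem_segment_of_pr (θ := u + π / 2)
      · exact pr_eq_of_sub (e3.trans c2.2.symm)
      · exact pr_eq_of_sub (e3.trans c4.2.symm)
      · have t1 := tan (crd o u ρ0 ρ1)
        have t2 := tan x
        rw [c2.1] at t1
        rw [pr_sub] at t1 t2; linarith
      · have t1 := tan (crd o u (-ρ2) ρ1)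
        have t2 := tan x
        rw [c4.1] at t1
        rw [pr_sub] at t1 t2; linarith
    by_cases e4 : pr (x - o) (u + π / 2) = -ρ3
    · right; right
      apply mem_segment_of_pr (θ := u + π / 2)
      · exact pr_eq_of_sub (e4.trans c1.2.symm)
      · exact pr_eq_of_sub (e4.trans c3.2.symm)
      · have t1 := tan (crd o u ρ0 (-ρ3))
        have t2 := tan x
        rw [c1.1] at t1
        rw [pr_sub] at t1 t2; linarith
      · have t1 := tan (crd o u (-ρ2) (-ρ3))
        have t2 := tan x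
        rw [c3.1] at t1
        rw [pr_sub] at t1 t2; linarith
    exfalso
    apply hx.2
    rw [mem_interior]
    refine ⟨{x | pr (x - o) u < ρ0} ∩ ({x | pr (x - o) (u + π / 2) < ρ1} ∩
      ({x | -ρ2 < pr (x - o) u} ∩ {x | -ρ3 < pr (x - o) (u + π / 2)})), ?_, ?_, ?_⟩
    · rintro x ⟨k1, k2, k3, k4⟩
      exact ⟨le_of_lt k1, le_of_lt k2, le_of_lt k3, le_of_lt k4⟩
    · apply IsOpen.inter (isOpen_lt (pr_sub_continuous o _) continuous_const)
      apply IsOpen.inter (isOpen_lt (pr_sub_continuous o _) continuous_const)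
      exact IsOpen.inter (isOpen_lt continuous_const (pr_sub_continuous o _))
        (isOpen_lt continuous_const (pr_sub_continuous o _))
    · exact ⟨lt_of_le_of_ne b1 e1, lt_of_le_of_ne b2 e3, lt_of_le_of_ne b3 (Ne.symm e2),
        lt_of_le_of_ne b4 (Ne.symm e4)⟩
  have lenV : ∀ x : ℝ, edist (crd o u x (-ρ3)) (crd o u x ρ1) = ENNReal.ofReal (ρ1 + ρ3) := by
    intro x
    have c1 := pr_crd o u x (-ρ3)
    have c2 := pr_crd o u x ρ1
    rw [dist_of_pr (θ := u)]
    · congr 1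
      have a := c1.2; have b := c2.2; rw [pr_sub] at a b; linarith
    · exact pr_eq_of_sub (c1.1.trans c2.1.symm)
    · have a := c1.2; have b := c2.2; rw [pr_sub] at a b; linarith
  have lenH : ∀ y : ℝ, edist (crd o u ρ0 y) (crd o u (-ρ2) y) = ENNReal.ofReal (ρ0 + ρ2) := by
    intro y
    have tan : ∀ z : E2, pr (z - o) (u + π / 2 + π / 2) = - pr (z - o) u := by
      intro z; rw [show u + π / 2 + π / 2 = u + π by ring, pr_add_pi]
    have c1 := pr_crd o u ρ0 y
    have c2 := pr_crd o u (-ρ2) y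
    have t1 := tan (crd o u ρ0 y)
    have t2 := tan (crd o u (-ρ2) y)
    rw [c1.1, pr_sub] at t1
    rw [c2.1, pr_sub] at t2
    rw [dist_of_pr (θ := u + π / 2)]
    · congr 1; linarith
    · exact pr_eq_of_sub (c1.2.trans c2.2.symm)
    · linarith
  refine (measure_mono hsub).trans ((measure_union_le _ _).trans ?_)
  refine (add_le_add (measure_union_le _ _) (measure_union_le _ _)).trans ?_
  rw [hausdorffMeasure_segment, hausdorffMeasure_segment, hausdorffMeasure_segment,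
    hausdorffMeasure_segment, lenV, lenV, lenH, lenH,
    ← ENNReal.ofReal_add (by positivity) (by positivity),
    ← ENNReal.ofReal_add (by positivity) (by positivity),
    ← ENNReal.ofReal_add (by positivity) (by positivity)]
  apply ENNReal.ofReal_le_ofReal
  linarith

theorem Box_interior (o : E2) {u ρ0 ρ1 ρ2 ρ3 : ℝ} (h0 : 0 < ρ0) (h1 : 0 < ρ1) (h2 : 0 < ρ2)
    (h3 : 0 < ρ3) : o ∈ interior (Box o u ρ0 ρ1 ρ2 ρ3) := by
  rw [mem_interior]
  refine ⟨{x | pr (x - o) u < ρ0} ∩ ({x | pr (x - o) (u + π / 2) < ρ1} ∩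
    ({x | -ρ2 < pr (x - o) u} ∩ {x | -ρ3 < pr (x - o) (u + π / 2)})), ?_, ?_, ?_⟩
  · rintro x ⟨k1, k2, k3, k4⟩
    exact ⟨le_of_lt k1, le_of_lt k2, le_of_lt k3, le_of_lt k4⟩
  · apply IsOpen.inter (isOpen_lt (pr_sub_continuous o _) continuous_const)
    apply IsOpen.inter (isOpen_lt (pr_sub_continuous o _) continuous_const)
    exact IsOpen.inter (isOpen_lt continuous_const (pr_sub_continuous o _))
      (isOpen_lt continuous_const (pr_sub_continuous o _))
  · refine ⟨?_, ?_, ?_, ?_⟩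
    · show pr (o - o) u < ρ0
      rw [sub_self, pr_zero]; exact h0
    · show pr (o - o) (u + π / 2) < ρ1
      rw [sub_self, pr_zero]; exact h1
    · show -ρ2 < pr (o - o) u
      rw [sub_self, pr_zero]; linarith
    · show -ρ3 < pr (o - o) (u + π / 2)
      rw [sub_self, pr_zero]; linarith

theorem Box_rect (o : E2) {u ρ0 ρ1 ρ2 ρ3 : ℝ} (h0 : 0 < ρ0) (h1 : 0 < ρ1) (h2 : 0 < ρ2)
    (h3 : 0 < ρ3) : IsRectangle (Box o u ρ0 ρ1 ρ2 ρ3) := by
  refine ⟨crd o u ((ρ0 - ρ2) / 2) ((ρ1 - ρ3) / 2), pt 1 u, pt 1 (u + π / 2), (ρ0 + ρ2) / 2,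
    (ρ1 + ρ3) / 2, norm_pt_one _, norm_pt_one _, ?_, by positivity, by positivity, ?_⟩
  · rw [inner_pt, pr_pt, show u - (u + π / 2) = -(π / 2) by ring, Real.cos_neg, Real.cos_pi_div_two,
      mul_zero]
  · ext x
    constructor
    · rintro ⟨k1, k2, k3, k4⟩
      refine ⟨pr (x - o) u - (ρ0 - ρ2) / 2, pr (x - o) (u + π / 2) - (ρ1 - ρ3) / 2, ?_, ?_, ?_⟩
      · rw [abs_le]; constructor <;> linarith
      · rw [abs_le]; constructor <;> linarith
      · have := pt_eq_coords (x := x) (o := o) (u := u) rfl rfl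
        conv_lhs => rw [this]
        rw [crd]; module
    · rintro ⟨s, t, hs, ht, rfl⟩
      have e : crd o u ((ρ0 - ρ2) / 2) ((ρ1 - ρ3) / 2) + s • pt 1 u + t • pt 1 (u + π / 2)
          = crd o u ((ρ0 - ρ2) / 2 + s) ((ρ1 - ρ3) / 2 + t) := by
        rw [crd, crd]; module
      rw [e]
      have c := pr_crd o u ((ρ0 - ρ2) / 2 + s) ((ρ1 - ρ3) / 2 + t)
      rw [abs_le] at hs ht
      refine ⟨?_, ?_, ?_, ?_⟩
      · rw [c.1]; linarith
      · rw [c.2]; linarith
      · rw [c.1]; linarith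
      · rw [c.2]; linarith


variable {F : Set E2} {a b c d o : E2} {A B C D : Set E2}

/-- positions of the four points around the crossing point -/
structure Pos (a b c d o : E2) (u ρ0 ρ1 ρ2 ρ3 : ℝ) : Prop where
  h0 : 0 < ρ0
  h1 : 0 < ρ1
  h2 : 0 < ρ2
  h3 : 0 < ρ3
  ha : a = o + pt ρ0 u
  hb : b = o + pt ρ1 (u + π / 2)
  hc : c = o + pt ρ2 (u + π / 2 + π / 2)
  hd : d = o + pt ρ3 (u + π / 2 + π / 2 + π / 2)

theorem pt_two_pi (ρ u : ℝ) : pt ρ (u + π / 2 + π / 2 + π / 2 + π / 2) = pt ρ u := by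
  rw [show u + π / 2 + π / 2 + π / 2 + π / 2 = u + 2 * π by ring]
  ext i; fin_cases i <;> simp [pt]

theorem Pos.rot {u ρ0 ρ1 ρ2 ρ3 : ℝ} (h : Pos a b c d o u ρ0 ρ1 ρ2 ρ3) :
    Pos b c d a o (u + π / 2) ρ1 ρ2 ρ3 ρ0 where
  h0 := h.h1
  h1 := h.h2
  h2 := h.h3
  h3 := h.h0
  ha := h.hb
  hb := h.hc
  hc := h.hd
  hd := by rw [pt_two_pi]; exact h.ha

theorem Pos.coords {u ρ0 ρ1 ρ2 ρ3 : ℝ} (h : Pos a b c d o u ρ0 ρ1 ρ2 ρ3) :
    (pr (a - o) u = ρ0 ∧ pr (a - o) (u + π / 2) = 0) ∧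
    (pr (b - o) u = 0 ∧ pr (b - o) (u + π / 2) = ρ1) ∧
    (pr (c - o) u = -ρ2 ∧ pr (c - o) (u + π / 2) = 0) ∧
    (pr (d - o) u = 0 ∧ pr (d - o) (u + π / 2) = -ρ3) := by
  have ha := h.ha
  have hb := h.hb
  have hc := h.hc
  have hd := h.hd
  refine ⟨⟨?_, ?_⟩, ⟨?_, ?_⟩, ⟨?_, ?_⟩, ⟨?_, ?_⟩⟩
  · rw [ha, add_sub_cancel_left, pr_pt, sub_self, Real.cos_zero, mul_one]
  · rw [ha, add_sub_cancel_left, pr_pt, add_sub_cancel_left, Real.cos_pi_div_two, mul_zero]
  · rw [hb, add_sub_cancel_left, pr_pt, show u - (u + π / 2) = -(π / 2) by ring, Real.cos_neg,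
      Real.cos_pi_div_two, mul_zero]
  · rw [hb, add_sub_cancel_left, pr_pt, sub_self, Real.cos_zero, mul_one]
  · rw [hc, add_sub_cancel_left, pr_pt, show u - (u + π / 2 + π / 2) = -π by ring, Real.cos_neg,
      Real.cos_pi]; ring
  · rw [hc, add_sub_cancel_left, pr_pt, show u + π / 2 - (u + π / 2 + π / 2) = -(π / 2) by ring,
      Real.cos_neg, Real.cos_pi_div_two, mul_zero]
  · rw [hd, add_sub_cancel_left, pr_pt,
      show u - (u + π / 2 + π / 2 + π / 2) = -(π / 2 + π) by ring, Real.cos_neg, Real.cos_add_pi,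
      Real.cos_pi_div_two]; ring
  · rw [hd, add_sub_cancel_left, pr_pt,
      show u + π / 2 - (u + π / 2 + π / 2 + π / 2) = -π by ring, Real.cos_neg,
      Real.cos_pi]; ring

theorem sub_via (x y o : E2) (w : ℝ) : pr (x - y) w = pr (x - o) w - pr (y - o) w := by
  rw [pr_sub, pr_sub, pr_sub]; ring

theorem arc_sub (h : Quadrisect F a b c d A B C D) (hF : IsCompact F)
    (hc : Convex ℝ F) (hint : (interior F).Nonempty) {u ρ0 ρ1 ρ2 ρ3 : ℝ}
    (hp : Pos a b c d o u ρ0 ρ1 ρ2 ρ3) : A ⊆ qarc F o u := by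
  obtain ⟨⟨a1, a2⟩, ⟨b1, b2⟩, ⟨c1, c2⟩, ⟨d1, d2⟩⟩ := hp.coords
  have s1 := h.side hF hc hint (ν := u + π / 2) (by rw [sub_via _ _ o, c2, a2, sub_self])
    (by rw [sub_via _ _ o, b2, a2, sub_zero]; exact hp.h1)
  have s2 := h.rot.rot.rot.side hF hc hint (ν := u) (by rw [sub_via _ _ o, b1, d1, sub_self])
    (by rw [sub_via _ _ o, a1, d1, sub_zero]; exact hp.h0)
  intro x hx
  refine ⟨h.sub.1 hx, ?_, ?_⟩
  · by_cases e : x = b
    · rw [e, b1]
    · have := s2.2 x ⟨hx, e⟩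
      rw [sub_via _ _ o, d1, sub_zero] at this
      exact this.le
  · by_cases e : x = a
    · rw [e, a2]
    · have := s1.1 x ⟨hx, e⟩
      rw [sub_via _ _ o, a2, sub_zero] at this
      exact this.le

theorem arc_eq (h : Quadrisect F a b c d A B C D) (hF : IsCompact F)
    (hc : Convex ℝ F) (hint : (interior F).Nonempty) (ho : o ∈ interior F) {u ρ0 ρ1 ρ2 ρ3 : ℝ}
    (hp : Pos a b c d o u ρ0 ρ1 ρ2 ρ3) : A = qarc F o u := by
  apply Subset.antisymm (arc_sub h hF hc hint hp)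
  obtain ⟨⟨a1, a2⟩, ⟨b1, b2⟩, ⟨c1, c2⟩, ⟨d1, d2⟩⟩ := hp.coords
  rintro x ⟨hxf, hx1, hx2⟩
  have hxf' := hxf
  rw [← h.union] at hxf'
  simp only [mem_union] at hxf'
  have epi : ∀ z : E2, pr z (u + π / 2 + π / 2) = - pr z u := by
    intro z; rw [show u + π / 2 + π / 2 = u + π by ring, pr_add_pi]
  have epi2 : ∀ z : E2, pr z (u + π / 2 + π / 2 + π / 2) = - pr z (u + π / 2) := by
    intro z; rw [show u + π / 2 + π / 2 + π / 2 = (u + π / 2) + π by ring, pr_add_pi]
  rcases hxf' with ((k | k) | k) | k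
  · exact k
  · have hB := arc_sub h.rot hF hc hint hp.rot k
    have h3 := hB.2.2
    rw [epi] at h3
    have h4 : pr (x - o) u = 0 := by linarith
    rcases h.rot.line_frontier hF hc hint (ν := u) (by rw [sub_via _ _ o, d1, b1, sub_self]) hxf
      (by rw [sub_via _ _ o, h4, b1, sub_self]) with e | e
    · rw [e]; exact h.hA.right_mem
    · exfalso
      rw [e, d2] at hx2
      have := hp.h3; linarith
  · have hC := arc_sub h.rot.rot hF hc hint hp.rot.rot k
    have h3 := hC.2.1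
    have h4 := hC.2.2
    rw [epi] at h3
    rw [epi2] at h4
    exfalso
    apply hxf.2
    have : x = o := by
      have : x - o = 0 := ext_pr (θ := u) (by rw [pr_zero]; linarith) (by rw [pr_zero]; linarith)
      exact sub_eq_zero.1 this
    rw [this]; exact ho
  · have hD := arc_sub h.rot.rot.rot hF hc hint hp.rot.rot.rot k
    have h3 := hD.2.1
    rw [epi2] at h3
    have h4 : pr (x - o) (u + π / 2) = 0 := by linarith
    rcases h.line_frontier hF hc hint (ν := u + π / 2) (by rw [sub_via _ _ o, c2, a2, sub_self]) hxf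
      (by rw [sub_via _ _ o, h4, a2, sub_self]) with e | e
    · rw [e]; exact h.hA.left_mem
    · exfalso
      rw [e, c1] at hx1
      have := hp.h2; linarith

theorem core (h : Quadrisect F a b c d A B C D) (hF : IsCompact F)
    (hc : Convex ℝ F) (hint : (interior F).Nonempty) (ho : o ∈ interior F) {u ρ0 ρ1 ρ2 ρ3 : ℝ}
    (hp : Pos a b c d o u ρ0 ρ1 ρ2 ρ3) :
    W F ≤ 2 * (ρ0 + ρ1 + ρ2 + ρ3) ∧ (W F = 2 * (ρ0 + ρ1 + ρ2 + ρ3) → IsRectangle F) := by
  have hne : F.Nonempty := hint.mono interior_subset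
  obtain ⟨hW, hW0⟩ := cauchy hF hc hint
  have q : ENNReal.ofReal (W F) / 4 = ENNReal.ofReal (W F / 4) := by
    rw [ENNReal.ofReal_div_of_pos (by norm_num)]; norm_num
  have lA : μH[1] (qarc F o u) = ENNReal.ofReal (W F / 4) := by
    rw [← arc_eq h hF hc hint ho hp, h.lA, hW, q]
  have lB : μH[1] (qarc F o (u + π / 2)) = ENNReal.ofReal (W F / 4) := by
    rw [← arc_eq h.rot hF hc hint ho hp.rot, h.lB, hW, q]
  have lC : μH[1] (qarc F o (u + π / 2 + π / 2)) = ENNReal.ofReal (W F / 4) := by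
    rw [← arc_eq h.rot.rot hF hc hint ho hp.rot.rot, h.lC, hW, q]
  have lD : μH[1] (qarc F o (u + π / 2 + π / 2 + π / 2)) = ENNReal.ofReal (W F / 4) := by
    rw [← arc_eq h.rot.rot.rot hF hc hint ho hp.rot.rot.rot, h.lD, hW, q]
  have ma := h.mem.1
  have mb := h.mem.2.1
  have mc := h.mem.2.2.1
  have md := h.mem.2.2.2
  have sup : ∀ {ρ v : ℝ}, o + pt ρ v ∈ frontier F → ∃ θ, pr (o + pt ρ v) (v + θ) = hs F (v + θ) := by
    intro ρ v hx
    obtain ⟨ω, hω⟩ := exists_support hF hc hne hx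
    exact ⟨ω - v, by rw [add_sub_cancel]; exact hω⟩
  rw [hp.ha] at ma
  rw [hp.hb] at mb
  rw [hp.hc] at mc
  rw [hp.hd] at md
  have fa := hF.isClosed.frontier_subset ma
  have fb := hF.isClosed.frontier_subset mb
  have fc := hF.isClosed.frontier_subset mc
  have fd := hF.isClosed.frontier_subset md
  obtain ⟨θ0, e0⟩ := sup ma
  obtain ⟨θ1, e1⟩ := sup mb
  obtain ⟨θ2, e2⟩ := sup mc
  obtain ⟨θ3, e3⟩ := sup md
  have fa' : o + pt ρ0 (u + π / 2 + π / 2 + π / 2 + π / 2) ∈ F := by rw [pt_two_pi]; exact fa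
  have e0' : pr (o + pt ρ0 (u + π / 2 + π / 2 + π / 2 + π / 2)) (u + π / 2 + π / 2 + π / 2 + π / 2 + θ0)
      = hs F (u + π / 2 + π / 2 + π / 2 + π / 2 + θ0) := by
    rw [pt_two_pi, show u + π / 2 + π / 2 + π / 2 + π / 2 + θ0 = (u + θ0) + 2 * π by ring,
      pr_periodic, hs_periodic]
    exact e0
  have Q0 := quadrant hF hc ho hp.h0 hp.h1 fa fb e0 e1 lA
  have Q1 := quadrant hF hc ho hp.h1 hp.h2 fb fc e1 e2 lB
  have Q2 := quadrant hF hc ho hp.h2 hp.h3 fc fd e2 e3 lC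
  have Q3 := quadrant hF hc ho hp.h3 hp.h0 fd fa' e3 e0' lD
  obtain ⟨k1, k2⟩ := four Q0 Q1 Q2 Q3
  refine ⟨by linarith, ?_⟩
  intro heq
  obtain ⟨s0, s1, s2, s3⟩ := k2 (by linarith)
  have hpi := Real.pi_pos
  -- support lines are axis parallel
  have ax : ∀ {ρ v θ : ℝ}, 0 < ρ → sin θ = 0 → 0 < cos θ →
      pr (o + pt ρ v) (v + θ) = hs F (v + θ) → ∀ x ∈ F, pr (x - o) v ≤ ρ := by
    intro ρ v θ hρ hsin hcos hsup x hx
    have c1 : cos θ = 1 := by
      have := Real.sin_sq_add_cos_sq θ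
      rw [hsin] at this
      nlinarith
    have h1 := le_hs hF hx (v + θ)
    rw [← hsup, pr_add, pr_pt, add_sub_cancel_left, c1] at h1
    have h2 := pr_coords (x - o) v θ
    rw [c1, hsin, pr_sub] at h2
    linarith
  have b0 := ax hp.h0 s0 Q0.hc e0
  have b1 := ax hp.h1 s1 Q1.hc e1
  have b2 := ax hp.h2 s2 Q2.hc e2
  have b3 := ax hp.h3 s3 Q3.hc e3
  have hsub : F ⊆ Box o u ρ0 ρ1 ρ2 ρ3 := by
    intro x hx
    refine ⟨b0 x hx, b1 x hx, ?_, ?_⟩
    · have := b2 x hx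
      rw [show u + π / 2 + π / 2 = u + π by ring, pr_add_pi] at this
      linarith
    · have := b3 x hx
      rw [show u + π / 2 + π / 2 + π / 2 = (u + π / 2) + π by ring, pr_add_pi] at this
      linarith
  have hRc := Box_compact o u ρ0 ρ1 ρ2 ρ3
  have hRi : (interior (Box o u ρ0 ρ1 ρ2 ρ3)).Nonempty := ⟨o, Box_interior o hp.h0 hp.h1 hp.h2 hp.h3⟩
  obtain ⟨hWR, hWR0⟩ := cauchy hRc (Box_convex o u ρ0 ρ1 ρ2 ρ3) hRi
  have hperim := Box_perim o (u := u) hp.h0 hp.h1 hp.h2 hp.h3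
  rw [hWR] at hperim
  have hsum : 0 < ρ0 + ρ1 + ρ2 + ρ3 := by
    have := hp.h0; have := hp.h1; have := hp.h2; have := hp.h3; linarith
  have hle := (ENNReal.ofReal_le_ofReal_iff (by linarith)).1 hperim
  have hFR := eq_of_W hF hc hne hRc hsub (by rw [heq]; exact hle)
  rw [hFR]
  exact Box_rect o hp.h0 hp.h1 hp.h2 hp.h3

/-- Perpendicular chords quadrisecting the perimeter. -/
theorem quadrisect_main (h : Quadrisect F a b c d A B C D) (hF : IsCompact F)
    (hc : Convex ℝ F) (hint : (interior F).Nonempty) (hperp : inner ℝ (c - a) (d - b) = 0) :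
    W F ≤ 2 * (dist a c + dist b d) ∧ (W F = 2 * (dist a c + dist b d) → IsRectangle F) := by
  obtain ⟨φ, d0, d1⟩ := exists_dir (a - c)
  set κ := ‖a - c‖ with hκ
  have hκpos : 0 < κ := norm_pos_iff.2 (sub_ne_zero.2 h.ac)
  have hac : a - c = pt κ φ := by
    ext i; fin_cases i
    · simpa [pt] using d0
    · simpa [pt] using d1
  have hν : pr (c - a) (φ + π / 2) = 0 := by
    rw [← neg_sub a c, hac]
    have : -pt κ φ = (-1 : ℝ) • pt κ φ := by simp
    rw [this, pr_smul, pr_pt, add_sub_cancel_left, Real.cos_pi_div_two]; ring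
  have hpd : pr (d - b) φ = 0 := by
    have e : c - a = (-κ) • pt 1 φ := by
      rw [← neg_sub a c, hac, neg_smul, pt_smul_one]
    rw [e, inner_smul_left, inner_pt] at hperp
    simp only [conj_trivial] at hperp
    rcases mul_eq_zero.1 hperp with k | k
    · exfalso; linarith
    · exact k
  -- the oriented case
  have oriented : ∀ {b d : E2} {A B C D : Set E2}, Quadrisect F a b c d A B C D →
      pr (d - b) φ = 0 → 0 < pr (b - a) (φ + π / 2) →
      W F ≤ 2 * (dist a c + dist b d) ∧ (W F = 2 * (dist a c + dist b d) → IsRectangle F) := by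
    intro b d A B C D h hpd hb
    obtain ⟨o, o1, o2, o3⟩ := h.cross hF hc hint hν hb
    have mo : o ∈ segment ℝ a c := openSegment_subset_segment ℝ a c o1
    have mo' : o ∈ segment ℝ b d := openSegment_subset_segment ℝ b d o2
    have ds := dist_add_dist_of_mem_segment mo
    have ds' := dist_add_dist_of_mem_segment mo'
    rw [openSegment_eq_image'] at o1 o2
    obtain ⟨s, hs, hso⟩ := o1
    obtain ⟨s', hs', hso'⟩ := o2
    simp only at hso hso'
    have eao : a - o = s • (a - c) := by rw [← hso]; module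
    have eco : c - o = (-(1 - s)) • (a - c) := by rw [← hso]; module
    have ebo : b - o = (-s') • (d - b) := by rw [← hso']; module
    have edo : d - o = (1 - s') • (d - b) := by rw [← hso']; module
    set y := pr (d - b) (φ + π / 2) with hy
    have edb : d - b = y • pt 1 (φ + π / 2) := by
      apply ext_pr (θ := φ)
      · rw [hpd, pr_smul, pr_pt, show φ - (φ + π / 2) = -(π / 2) by ring, Real.cos_neg,
          Real.cos_pi_div_two]; ring
      · rw [pr_smul, pr_pt, sub_self, Real.cos_zero, ← hy]; ring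
    have hao2 : pr (a - o) (φ + π / 2) = 0 := by
      rw [eao, pr_smul, hac, pr_pt, add_sub_cancel_left, Real.cos_pi_div_two]; ring
    have hyneg : y < 0 := by
      have e : pr (b - a) (φ + π / 2) = pr (b - o) (φ + π / 2) - pr (a - o) (φ + π / 2) :=
        sub_via b a o _
      rw [hao2, ebo, pr_smul, ← hy, sub_zero] at e
      rw [e] at hb
      have := hs'.1
      nlinarith
    have hp : Pos a b c d o φ (s * κ) (s' * (-y)) ((1 - s) * κ) ((1 - s') * (-y)) := by
      refine ⟨mul_pos hs.1 hκpos, mul_pos hs'.1 (by linarith), mul_pos (by linarith [hs.2]) hκpos,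
        mul_pos (by linarith [hs'.2]) (by linarith), ?_, ?_, ?_, ?_⟩
      · have : pt (s * κ) φ = a - o := by rw [eao, hac, ← pt_smul_one κ, smul_smul, pt_smul_one]
        rw [this]; abel
      · have : pt (s' * (-y)) (φ + π / 2) = b - o := by
          rw [ebo, edb, smul_smul, pt_smul_one]; congr 1; ring
        rw [this]; abel
      · have : pt ((1 - s) * κ) (φ + π / 2 + π / 2) = c - o := by
          rw [eco, hac, show φ + π / 2 + π / 2 = φ + π by ring]
          ext i; fin_cases i <;> simp [pt] <;> ring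
        rw [this]; abel
      · have : pt ((1 - s') * (-y)) (φ + π / 2 + π / 2 + π / 2) = d - o := by
          rw [edo, edb, smul_smul, pt_smul_one,
            show φ + π / 2 + π / 2 + π / 2 = (φ + π / 2) + π by ring]
          ext i; fin_cases i <;> simp [pt]
        rw [this]; abel
    have hm := core h hF hc hint o3 hp
    have dac : dist a c = κ := by rw [dist_eq_norm]
    have dbd : dist b d = -y := by
      rw [dist_comm, dist_eq_norm, edb, norm_smul, norm_pt_one, mul_one, Real.norm_eq_abs,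
        abs_of_neg hyneg]
    have e : s * κ + s' * (-y) + (1 - s) * κ + (1 - s') * (-y) = dist a c + dist b d := by
      rw [dac, dbd]; ring
    rw [e] at hm
    exact hm
  rcases lt_or_gt_of_ne (h.side_ne hF hc hint hν) with hneg | hpos
  · have hν' : pr (c - a) (φ + π / 2 + π) = 0 := by rw [pr_add_pi, hν, neg_zero]
    have hb' : 0 < pr (b - a) (φ + π / 2 + π) := by rw [pr_add_pi]; linarith
    have hd' := h.opposite hF hc hint hν' hb'
    rw [pr_add_pi] at hd'
    have := oriented h.refl (by rw [← neg_sub]; rw [show -(d - b) = (-1 : ℝ) • (d - b) by simp, pr_smul, hpd, mul_zero]) (by linarith)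
    rw [dist_comm d b] at this
    exact this
  · exact oriented h hpd hpos

end Pool.Agent.R763.Str
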