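import Pool.Agent.R763.StrCompare

set_option autoImplicit false
open Real Set MeasureTheory Filter Topology
open scoped ENNReal NNReal

namespace Pool.Agent.R763.Str

variable {K : Set E2}

/-- sublevel set -/
def LL (h : ℝ → ℝ) (l : ℝ) : Set E2 := {x | FF h x ≤ l}

theorem pt_of_dir {x : E2} {α : ℝ} (h0 : x 0 = ‖x‖ * cos α) (h1 : x 1 = ‖x‖ * sin α) :
    x = pt ‖x‖ α := by
  ext i
  fin_cases i
  · simpa [pt] using h0
  · simpa [pt] using h1

theorem FF_lower {h : ℝ → ℝ} (hh : Continuous h) (hper : ∀ θ, h (θ + 2 * π) = h θ)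
    (h0 : ∀ s, 0 ≤ h s) (x : E2) : 2 * ‖x‖ ≤ FF h x := by
  obtain ⟨α, ha, hb⟩ := exists_dir x
  rw [pt_of_dir ha hb, FF_pt hh hper h0 (norm_nonneg _), ← pt_of_dir ha hb]
  have h1 : 0 ≤ AA h α := intervalIntegral.integral_nonneg (by linarith [Real.pi_pos])
    (fun θ _ => h0 θ)
  have h2 : 0 ≤ GG h ‖x‖ α := intervalIntegral.integral_nonneg (by linarith [Real.pi_pos])
    (fun θ _ => le_max_right _ _)
  linarith

theorem LL_closed {h : ℝ → ℝ} (hh : Continuous h) (l : ℝ) : IsClosed (LL h l) :=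
  isClosed_le (FF_continuous hh) continuous_const

theorem LL_compact {h : ℝ → ℝ} (hh : Continuous h) (hper : ∀ θ, h (θ + 2 * π) = h θ)
    (h0 : ∀ s, 0 ≤ h s) (l : ℝ) : IsCompact (LL h l) := by
  apply Metric.isCompact_of_isClosed_isBounded (LL_closed hh l)
  rw [Metric.isBounded_iff_subset_closedBall 0]
  refine ⟨l / 2, fun x hx => ?_⟩
  have := FF_lower hh hper h0 x
  have hx' : FF h x ≤ l := hx
  rw [mem_closedBall_zero_iff]
  linarith

theorem LL_convex {h : ℝ → ℝ} (hh : Continuous h) (l : ℝ) : Convex ℝ (LL h l) := by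
  intro x hx y hy s t hs ht hst
  have hx' : FF h x ≤ l := hx
  have hy' : FF h y ≤ l := hy
  show FF h (s • x + t • y) ≤ l
  have hcx : Continuous (fun θ : ℝ => max (pr x θ) (h θ)) := (continuous_pr_right _).max hh
  have hcy : Continuous (fun θ : ℝ => max (pr y θ) (h θ)) := (continuous_pr_right _).max hh
  have hcz : Continuous (fun θ : ℝ => max (pr (s • x + t • y) θ) (h θ)) :=
    (continuous_pr_right _).max hh
  have h1 : FF h (s • x + t • y) ≤ s * FF h x + t * FF h y := by
    unfold FF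
    rw [← intervalIntegral.integral_const_mul, ← intervalIntegral.integral_const_mul,
      ← intervalIntegral.integral_add ((hcx.const_mul s).intervalIntegrable _ _)
      ((hcy.const_mul t).intervalIntegrable _ _)]
    apply intervalIntegral.integral_mono_on (by positivity) (hcz.intervalIntegrable _ _)
    · exact ((hcx.const_mul s).add (hcy.const_mul t)).intervalIntegrable _ _
    · intro θ _
      rw [pr_add, pr_smul, pr_smul]
      apply max_le
      · exact add_le_add (mul_le_mul_of_nonneg_left (le_max_left _ _) hs)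
          (mul_le_mul_of_nonneg_left (le_max_left _ _) ht)
      · calc h θ = s * h θ + t * h θ := by rw [← add_mul, hst, one_mul]
          _ ≤ _ := add_le_add (mul_le_mul_of_nonneg_left (le_max_right _ _) hs)
            (mul_le_mul_of_nonneg_left (le_max_right _ _) ht)
  calc FF h (s • x + t • y) ≤ s * FF h x + t * FF h y := h1
    _ ≤ s * l + t * l := add_le_add (mul_le_mul_of_nonneg_left hx' hs)
      (mul_le_mul_of_nonneg_left hy' ht)
    _ = l := by rw [← add_mul, hst, one_mul]

theorem FF_zero {h : ℝ → ℝ} (h0 : ∀ s, 0 ≤ h s) : FF h 0 = ∫ θ in (0:ℝ)..(2 * π), h θ := by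
  unfold FF
  apply intervalIntegral.integral_congr
  intro θ _
  simp only [pr_zero]
  exact max_eq_right (h0 θ)

theorem LL_interior {h : ℝ → ℝ} (hh : Continuous h) (h0 : ∀ s, 0 ≤ h s) {l : ℝ}
    (hl : (∫ θ in (0:ℝ)..(2 * π), h θ) < l) : (0 : E2) ∈ interior (LL h l) := by
  rw [mem_interior]
  refine ⟨{x | FF h x < l}, fun x hx => (le_of_lt hx : FF h x ≤ l), isOpen_lt (FF_continuous hh) continuous_const, ?_⟩
  show FF h 0 < l
  rw [FF_zero h0]; exact hl

theorem lt_FF {h : ℝ → ℝ} (hh : Continuous h) (hper : ∀ θ, h (θ + 2 * π) = h θ) {x : E2} {θ : ℝ}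
    (hx : h θ < pr x θ) : (∫ θ in (0:ℝ)..(2 * π), h θ) < FF h x := by
  have e : (∫ θ in (0:ℝ)..(2 * π), h θ) = ∫ t in θ..(θ + 2 * π), h t := by
    have hp : Function.Periodic h (2 * π) := hper
    have := hp.intervalIntegral_add_eq 0 θ
    rwa [zero_add] at this
  have hcx : Continuous (fun θ : ℝ => max (pr x θ) (h θ)) := (continuous_pr_right _).max hh
  rw [e, FF_shift hper x θ, ← sub_pos, ← intervalIntegral.integral_sub (hcx.intervalIntegrable _ _)
    (hh.intervalIntegrable _ _)]
  apply intervalIntegral.integral_pos (by linarith [Real.pi_pos])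
  · exact (hcx.sub hh).continuousOn
  · intro t _
    exact sub_nonneg.2 (le_max_right _ _)
  · refine ⟨θ, ⟨le_rfl, by linarith [Real.pi_pos]⟩, ?_⟩
    exact sub_pos.2 (lt_max_of_lt_left hx)

/-- supporting inequality at a corner -/
theorem cap_ineq (hK : IsCompact K) (hne : K.Nonempty) {θ s : ℝ} (hs0 : 0 < s) (hs1 : s < π / 2)
    {P : E2} (hP1 : pr P (θ - s) = hs K (θ - s)) (hP2 : pr P (θ + s) = hs K (θ + s)) (X : E2) :
    FF (hs K) P + 2 * sin s * pr (X - P) θ ≤ FF (hs K) X := by
  have hh := hs_continuous hK hne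
  have hpi := Real.pi_pos
  rw [FF_shift (hs_periodic K) P (θ - s), FF_shift (hs_periodic K) X (θ - s)]
  have hcP : Continuous (fun θ : ℝ => max (pr P θ) (hs K θ)) := (continuous_pr_right _).max hh
  have hcX : Continuous (fun θ : ℝ => max (pr X θ) (hs K θ)) := (continuous_pr_right _).max hh
  rw [← intervalIntegral.integral_add_adjacent_intervals
    (hcP.intervalIntegrable (θ - s) (θ + s)) (hcP.intervalIntegrable (θ + s) (θ - s + 2 * π)),
    ← intervalIntegral.integral_add_adjacent_intervals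
    (hcX.intervalIntegrable (θ - s) (θ + s)) (hcX.intervalIntegrable (θ + s) (θ - s + 2 * π))]
  have e1 : ∫ t in (θ - s)..(θ + s), max (pr P t) (hs K t) = ∫ t in (θ - s)..(θ + s), pr P t := by
    apply intervalIntegral.integral_congr
    intro t ht
    rw [uIcc_of_le (by linarith)] at ht
    exact max_eq_left (corner_ge hK hne (α := θ - s) (β := θ + s) (by linarith) (by linarith)
      hP1 hP2 ht.1 ht.2)
  have e2 : ∫ t in (θ + s)..(θ - s + 2 * π), max (pr P t) (hs K t)
      = ∫ t in (θ + s)..(θ - s + 2 * π), hs K t := by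
    apply intervalIntegral.integral_congr
    intro t ht
    rw [uIcc_of_le (by linarith)] at ht
    exact max_eq_right (corner_le hK hne (α := θ - s) (β := θ + s) (by linarith) (by linarith)
      hP1 hP2 ht.1 ht.2)
  have e3 : ∫ t in (θ - s)..(θ + s), pr X t ≤ ∫ t in (θ - s)..(θ + s), max (pr X t) (hs K t) :=
    intervalIntegral.integral_mono_on (by linarith) ((continuous_pr_right _).intervalIntegrable _ _)
      (hcX.intervalIntegrable _ _) (fun t _ => le_max_left _ _)
  have e4 : ∫ t in (θ + s)..(θ - s + 2 * π), hs K t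
      ≤ ∫ t in (θ + s)..(θ - s + 2 * π), max (pr X t) (hs K t) :=
    intervalIntegral.integral_mono_on (by linarith) (hh.intervalIntegrable _ _)
      (hcX.intervalIntegrable _ _) (fun t _ => le_max_right _ _)
  rw [e1, e2, pr_sub, integral_pr_arc]
  rw [integral_pr_arc] at e3
  linarith

/-- the analytic string transitivity hypothesis -/
def Hyp (K : Set E2) : Prop := ∀ l, W K < l → ∀ x y : E2,
  FF (hs (LL (hs K) l)) x = FF (hs (LL (hs K) l)) y →
    W (LL (hs K) l) < FF (hs (LL (hs K) l)) x → FF (hs K) x = FF (hs K) y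

theorem level (hK : IsCompact K) (h0 : (0 : E2) ∈ interior K) (hyp : Hyp K) :
    ∃ s1, 0 ≤ s1 ∧ s1 < π / 2 ∧ ∀ s, s1 < s → s < π / 2 → ∀ θ : ℝ, ∃ g : ℝ → ℝ, ∃ c : ℝ,
      (∀ φ, 0 < g φ) ∧ (∀ φ, g φ - g (φ + π) = hs K φ - hs K (φ + π)) ∧
      (∀ φ, ((g φ + g (φ + π)) / 2) ^ 2 = ((hs K φ + hs K (φ + π)) / 2) ^ 2 + c) ∧
      (g θ = (hs K (θ + s) + hs K (θ - s)) / (2 * cos s)) ∧
      (∀ φ, cos (φ - θ) * g θ + sin (φ - θ) * ((hs K (θ + s) - hs K (θ - s)) / (2 * sin s)) ≤ g φ) := by
  have hpi := Real.pi_pos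
  have hne : K.Nonempty := ⟨0, interior_subset h0⟩
  obtain ⟨r, hr, hlow⟩ := pos_of_interior hK h0
  obtain ⟨R, hR⟩ := hK.isBounded.subset_closedBall 0
  have hup : ∀ θ, hs K θ ≤ R := by
    intro θ
    apply hs_le hK hne
    intro y hy
    exact (pr_le_norm y θ).trans (by simpa using hR hy)
  have hRpos : 0 < R := lt_of_lt_of_le hr ((hlow 0).trans (hup 0))
  have hh := hs_continuous hK hne
  have hnn : ∀ θ, 0 ≤ hs K θ := fun θ => hr.le.trans (hlow θ)
  -- choose s1 with cos s < r / R for s > s1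
  have hratio : 0 < r / (R + 1) := by positivity
  obtain ⟨s1, hs1, hs1', hcos1⟩ : ∃ s1, 0 ≤ s1 ∧ s1 < π / 2 ∧ cos s1 ≤ r / (R + 1) := by
    refine ⟨arccos (r / (R + 1)), arccos_nonneg _, arccos_lt_pi_div_two.2 hratio, ?_⟩
    rw [cos_arccos (by linarith) ?_]
    rw [div_le_one (by positivity)]
    have := (hlow 0).trans (hup 0); linarith
  refine ⟨s1, hs1, hs1', ?_⟩
  intro s hs_gt hs_lt θ
  have hs0 : 0 < s := lt_of_le_of_lt hs1 hs_gt
  have hsin : 0 < sin s := Real.sin_pos_of_pos_of_lt_pi hs0 (by linarith)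
  have hcos : 0 < cos s := Real.cos_pos_of_mem_Ioo ⟨by linarith, hs_lt⟩
  have hcos2 : cos s < r / (R + 1) :=
    lt_of_lt_of_le (Real.cos_lt_cos_of_nonneg_of_le_pi hs1 (by linarith) hs_gt) hcos1
  have hs2 : sin ((θ + s) - (θ - s)) ≠ 0 := by
    rw [show (θ + s) - (θ - s) = 2 * s by ring, Real.sin_two_mul]; positivity
  set P := corner (hs K (θ - s)) (hs K (θ + s)) (θ - s) (θ + s) with hP
  have hP1 : pr P (θ - s) = hs K (θ - s) := pr_corner_left _ _ hs2
  have hP2 : pr P (θ + s) = hs K (θ + s) := pr_corner_right _ _ hs2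
  have hPθ : pr P θ = (hs K (θ + s) + hs K (θ - s)) / (2 * cos s) := by
    rw [eq_div_iff (by positivity), ← hP1, ← hP2]
    simp only [pr, Real.cos_add, Real.cos_sub, Real.sin_add, Real.sin_sub]; ring
  have hPθ' : pr P (θ + π / 2) = (hs K (θ + s) - hs K (θ - s)) / (2 * sin s) := by
    rw [eq_div_iff (by positivity), ← hP1, ← hP2]
    have h1 := Real.cos_add_pi_div_two θ
    have h2 := Real.sin_add_pi_div_two θ
    simp only [pr, h1, h2, Real.cos_add θ s, Real.cos_sub θ s, Real.sin_add θ s, Real.sin_sub θ s]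
    ring
  have hPbig : hs K θ < pr P θ := by
    rw [hPθ, lt_div_iff₀ (by positivity)]
    have a := hlow (θ + s)
    have b := hlow (θ - s)
    have c := hup θ
    have d : hs K θ * (2 * cos s) ≤ R * (2 * cos s) := mul_le_mul_of_nonneg_right c (by positivity)
    have e : cos s * (R + 1) < r := (lt_div_iff₀ (by positivity)).1 hcos2
    nlinarith
  set l := FF (hs K) P with hl
  have hWl : W K < l := lt_FF hh (hs_periodic K) hPbig
  set L := LL (hs K) l with hL
  have hLc : IsCompact L := LL_compact hh (hs_periodic K) hnn l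
  have hL0 : (0 : E2) ∈ interior L := LL_interior hh hnn hWl
  have hLne : L.Nonempty := ⟨0, interior_subset hL0⟩
  obtain ⟨r', hr', hlow'⟩ := pos_of_interior hLc hL0
  obtain ⟨R', hR'⟩ := hLc.isBounded.subset_closedBall 0
  have hup' : ∀ θ, hs L θ ≤ R' := by
    intro θ
    apply hs_le hLc hLne
    intro y hy
    exact (pr_le_norm y θ).trans (by simpa using hR' hy)
  have hcomp := compare2 hh (hs_continuous hLc hLne) (hs_periodic K) (hs_periodic L) hnn
    (fun θ => hr'.le.trans (hlow' θ)) (M := max R R') (lt_max_of_lt_left hRpos)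
    (fun θ => (hup θ).trans (le_max_left _ _)) (fun θ => (hup' θ).trans (le_max_right _ _))
    (hyp l hWl)
  obtain ⟨hc1, c, hc2⟩ := hcomp
  have hPL : P ∈ L := le_refl (FF (hs K) P)
  have hLθ : hs L θ = pr P θ := by
    apply le_antisymm
    · apply hs_le hLc hLne
      intro X hX
      have h1 := cap_ineq hK hne hs0 hs_lt hP1 hP2 X
      have h2 : FF (hs K) X ≤ l := hX
      rw [pr_sub] at h1
      by_contra hcon
      push Not at hcon
      have : 0 < 2 * sin s * (pr X θ - pr P θ) := by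
        apply mul_pos (by positivity); linarith
      linarith
    · exact le_hs hLc hPL θ
  refine ⟨hs L, c, fun φ => hr'.trans_le (hlow' φ), hc1, hc2, ?_, ?_⟩
  · rw [hLθ, hPθ]
  · intro φ
    rw [hLθ, ← hPθ']
    have h1 := le_hs hLc hPL φ
    have h2 : pr P φ = cos (φ - θ) * pr P θ + sin (φ - θ) * pr P (θ + π / 2) := by
      have := pr_shift_right P θ (φ - θ)
      rw [add_sub_cancel] at this
      rw [this]; ring
    rw [← h2]; exact h1

end Pool.Agent.R763.Str
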