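import Pool.Agent.R763.QuadArc3
import Pool.Agent.R763.StrLevel

set_option autoImplicit false
open Real Set MeasureTheory Filter Topology
open scoped ENNReal NNReal

namespace Pool.Agent.R763.Str

/-- `A` is a simple arc with endpoints `x` and `y`. -/
def IsArc (A : Set E2) (x y : E2) : Prop :=
  ∃ f : ℝ → E2, ContinuousOn f (Icc 0 1) ∧ InjOn f (Icc 0 1) ∧ f 0 = x ∧ f 1 = y ∧
    f '' (Icc 0 1) = A

variable {A : Set E2} {x y : E2}

theorem IsArc.symm (h : IsArc A x y) : IsArc A y x := by
  obtain ⟨f, hc, hi, h0, h1, hA⟩ := h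
  have hm : MapsTo (fun t : ℝ => 1 - t) (Icc 0 1) (Icc 0 1) := by
    intro t ht; exact ⟨by linarith [ht.2], by linarith [ht.1]⟩
  refine ⟨fun t => f (1 - t), ?_, ?_, by simpa using h1, by simpa using h0, ?_⟩
  · exact hc.comp (by fun_prop) hm
  · intro s hs t ht hst
    have := hi (hm hs) (hm ht) hst
    simp only at this
    linarith
  · rw [← hA]
    ext z; constructor
    · rintro ⟨t, ht, rfl⟩; exact ⟨1 - t, hm ht, rfl⟩
    · rintro ⟨t, ht, rfl⟩; exact ⟨1 - t, hm ht, by simp⟩

theorem IsArc.left_mem (h : IsArc A x y) : x ∈ A := by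
  obtain ⟨f, hc, hi, h0, h1, hA⟩ := h
  rw [← hA, ← h0]; exact ⟨0, by simp, rfl⟩

theorem IsArc.right_mem (h : IsArc A x y) : y ∈ A := h.symm.left_mem

theorem IsArc.ne (h : IsArc A x y) : x ≠ y := by
  obtain ⟨f, hc, hi, h0, h1, hA⟩ := h
  intro he
  have := hi (by simp : (0:ℝ) ∈ Icc 0 1) (by simp : (1:ℝ) ∈ Icc 0 1) (by rw [h0, h1, he])
  norm_num at this

theorem IsArc.isClosed (h : IsArc A x y) : IsClosed A := by
  obtain ⟨f, hc, hi, h0, h1, hA⟩ := h
  rw [← hA]; exact (isCompact_Icc.image_of_continuousOn hc).isClosed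

theorem IsArc.preconn (h : IsArc A x y) : IsPreconnected (A \ {x}) := by
  obtain ⟨f, hc, hi, h0, h1, hA⟩ := h
  have e : A \ {x} = f '' (Ioc 0 1) := by
    rw [← hA]
    ext z; constructor
    · rintro ⟨⟨t, ht, rfl⟩, hz⟩
      refine ⟨t, ⟨lt_of_le_of_ne ht.1 ?_, ht.2⟩, rfl⟩
      intro h; apply hz; rw [← h, h0]; rfl
    · rintro ⟨t, ht, rfl⟩
      refine ⟨⟨t, ⟨ht.1.le, ht.2⟩, rfl⟩, ?_⟩
      intro hz
      have hz' : f t = f 0 := by rw [h0]; exact hz
      have := hi (⟨ht.1.le, ht.2⟩ : t ∈ Icc 0 1) (by simp : (0:ℝ) ∈ Icc 0 1) hz'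
      linarith [ht.1]
  rw [e]
  exact isPreconnected_Ioc.image f (hc.mono Ioc_subset_Icc_self)

theorem IsArc.preconn' (h : IsArc A x y) : IsPreconnected (A \ {y}) := h.symm.preconn

/-- a connected subset of an arc containing both endpoints is the whole arc -/
theorem IsArc.subset_of_preconn (h : IsArc A x y) {S : Set E2} (hS : IsPreconnected S)
    (hSA : S ⊆ A) (hx : x ∈ S) (hy : y ∈ S) : A ⊆ S := by
  obtain ⟨f, hc, hi, h0, h1, hA⟩ := h
  rw [← hA]
  rintro _ ⟨t, ht, rfl⟩
  have hcl1 : IsClosed (f '' (Icc 0 t)) :=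
    (isCompact_Icc.image_of_continuousOn (hc.mono (Icc_subset_Icc_right ht.2))).isClosed
  have hcl2 : IsClosed (f '' (Icc t 1)) :=
    (isCompact_Icc.image_of_continuousOn (hc.mono (Icc_subset_Icc_left ht.1))).isClosed
  have hcov : S ⊆ f '' (Icc 0 t) ∪ f '' (Icc t 1) := by
    intro z hz
    have := hSA hz
    rw [← hA] at this
    obtain ⟨s, hs, rfl⟩ := this
    rcases le_total s t with h | h
    · left; exact ⟨s, ⟨hs.1, h⟩, rfl⟩
    · right; exact ⟨s, ⟨h, hs.2⟩, rfl⟩
  obtain ⟨z, hzS, ⟨s1, hs1, e1⟩, ⟨s2, hs2, e2⟩⟩ := isPreconnected_closed_iff.1 hS _ _ hcl1 hcl2 hcov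
    ⟨x, hx, ⟨0, ⟨le_rfl, ht.1⟩, h0⟩⟩ ⟨y, hy, ⟨1, ⟨ht.2, le_rfl⟩, h1⟩⟩
  have : s1 = s2 := hi ⟨hs1.1, hs1.2.trans ht.2⟩ ⟨ht.1.trans hs2.1, hs2.2⟩ (e1.trans e2.symm)
  have h3 : s1 = t := le_antisymm hs1.2 (this ▸ hs2.1)
  rw [← h3, e1]; exact hzS

/-- The points `a, b, c, d` cut the boundary of `F`, in this cyclic order, into four simple arcs
of equal length. -/
structure Quadrisect (F : Set E2) (a b c d : E2) (A B C D : Set E2) : Prop where
  hA : IsArc A a b
  hB : IsArc B b c
  hC : IsArc C c d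
  hD : IsArc D d a
  union : A ∪ B ∪ C ∪ D = frontier F
  hAB : A ∩ B = {b}
  hBC : B ∩ C = {c}
  hCD : C ∩ D = {d}
  hDA : D ∩ A = {a}
  hAC : A ∩ C = ∅
  hBD : B ∩ D = ∅
  lA : μH[1] A = μH[1] (frontier F) / 4
  lB : μH[1] B = μH[1] (frontier F) / 4
  lC : μH[1] C = μH[1] (frontier F) / 4
  lD : μH[1] D = μH[1] (frontier F) / 4

variable {F : Set E2} {a b c d : E2} {B C D : Set E2}

theorem Quadrisect.rot (h : Quadrisect F a b c d A B C D) : Quadrisect F b c d a B C D A where
  hA := h.hB
  hB := h.hC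
  hC := h.hD
  hD := h.hA
  union := by rw [← h.union]; ext z; simp only [mem_union]; tauto
  hAB := h.hBC
  hBC := h.hCD
  hCD := h.hDA
  hDA := h.hAB
  hAC := h.hBD
  hBD := by rw [inter_comm]; exact h.hAC
  lA := h.lB
  lB := h.lC
  lC := h.lD
  lD := h.lA

theorem Quadrisect.refl (h : Quadrisect F a b c d A B C D) : Quadrisect F a d c b D C B A where
  hA := h.hD.symm
  hB := h.hC.symm
  hC := h.hB.symm
  hD := h.hA.symm
  union := by rw [← h.union]; ext z; simp only [mem_union]; tauto
  hAB := by rw [inter_comm]; exact h.hCD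
  hBC := by rw [inter_comm]; exact h.hBC
  hCD := by rw [inter_comm]; exact h.hAB
  hDA := by rw [inter_comm]; exact h.hDA
  hAC := by rw [inter_comm]; exact h.hBD
  hBD := by rw [inter_comm]; exact h.hAC
  lA := h.lD
  lB := h.lC
  lC := h.lB
  lD := h.lA

theorem Quadrisect.sub (h : Quadrisect F a b c d A B C D) :
    A ⊆ frontier F ∧ B ⊆ frontier F ∧ C ⊆ frontier F ∧ D ⊆ frontier F := by
  rw [← h.union]
  refine ⟨?_, ?_, ?_, ?_⟩ <;> intro z hz <;> simp only [mem_union] <;> tauto

theorem Quadrisect.mem (h : Quadrisect F a b c d A B C D) :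
    a ∈ frontier F ∧ b ∈ frontier F ∧ c ∈ frontier F ∧ d ∈ frontier F :=
  ⟨h.sub.1 h.hA.left_mem, h.sub.1 h.hA.right_mem, h.sub.2.1 h.hB.right_mem, h.sub.2.2.1 h.hC.right_mem⟩

theorem Quadrisect.ac (h : Quadrisect F a b c d A B C D) : a ≠ c := by
  intro he
  have h1 : a ∈ A ∩ C := ⟨h.hA.left_mem, he ▸ h.hC.left_mem⟩
  rw [h.hAC] at h1; exact h1

theorem Quadrisect.c_notin (h : Quadrisect F a b c d A B C D) : c ∉ A := by
  intro hc
  have h1 : c ∈ A ∩ B := ⟨hc, h.hB.right_mem⟩
  rw [h.hAB] at h1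
  exact h.hB.ne h1.symm

theorem Quadrisect.a_notin (h : Quadrisect F a b c d A B C D) : a ∉ B := by
  intro hc
  have h1 : a ∈ A ∩ B := ⟨h.hA.left_mem, hc⟩
  rw [h.hAB] at h1
  exact h.hA.ne h1

theorem isPreconnected_openSegment (x y : E2) : IsPreconnected (openSegment ℝ x y) := by
  exact (convex_openSegment x y).isPreconnected

/-- perimeter is larger than twice the length of any segment in `F` -/
theorem two_mul_dist_lt (hF : IsCompact F) (hc : Convex ℝ F) (hint : (interior F).Nonempty)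
    {x y : E2} (hx : x ∈ F) (hy : y ∈ F) : 2 * dist x y < W F := by
  have hne : F.Nonempty := hint.mono interior_subset
  have hh := hs_continuous hF hne
  have e1 : ∫ θ in (0:ℝ)..(2 * π), max (pr (x - y) θ) 0 = FF (fun _ => 0) (x - y) := rfl
  have e2 := FF_lower (h := fun _ => 0) continuous_const (fun _ => rfl) (fun _ => le_rfl) (x - y)
  have hcx : Continuous (fun θ : ℝ => max (pr (x - y) θ) 0) := (continuous_pr_right _).max continuous_const
  have e3 : ∫ θ in (0:ℝ)..(2 * π), (max (pr (x - y) θ) 0 + pr y θ) = FF (fun _ => 0) (x - y) := by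
    rw [intervalIntegral.integral_add (hcx.intervalIntegrable _ _)
      ((continuous_pr_right y).intervalIntegrable _ _), integral_pr_period, add_zero]
    exact e1
  have hle : ∀ θ, max (pr (x - y) θ) 0 + pr y θ ≤ hs F θ := by
    intro θ
    rw [pr_sub, ← max_add_add_right, sub_add_cancel, zero_add]
    exact max_le (le_hs hF hx θ) (le_hs hF hy θ)
  -- strict at the normal direction
  obtain ⟨φ, h0, h1⟩ := exists_dir (x - y)
  obtain ⟨z, hz⟩ := hint
  have hstrict : ∃ θ, max (pr (x - y) θ) 0 + pr y θ < hs F θ := by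
    have hprx : ∀ θ, pr (x - y) θ = ‖x - y‖ * cos (θ - φ) := pr_of_dir h0 h1
    by_contra hcon
    push Not at hcon
    have k1 := hcon (φ + π / 2)
    have k2 := hcon (φ + π / 2 + π)
    rw [hprx, add_sub_cancel_left, Real.cos_pi_div_two, mul_zero, max_self, zero_add] at k1
    rw [hprx, show φ + π / 2 + π - φ = π / 2 + π by ring, Real.cos_add_pi, Real.cos_pi_div_two,
      neg_zero, mul_zero, max_self, zero_add, pr_add_pi] at k2
    have k3 := pr_lt_of_interior hF hz (φ + π / 2)
    have k4 := pr_lt_of_interior hF hz (φ + π / 2 + π)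
    rw [pr_add_pi] at k4
    linarith
  have hlt : ∫ θ in (0:ℝ)..(2 * π), (max (pr (x - y) θ) 0 + pr y θ) < W F := by
    obtain ⟨θ₁, hθ₁⟩ := hstrict
    have hp : Function.Periodic (fun θ => hs F θ - (max (pr (x - y) θ) 0 + pr y θ)) (2 * π) := by
      intro θ; simp only [hs_periodic, pr_periodic]
    obtain ⟨θ₀, hθ₀, he⟩ := hp.exists_mem_Ico₀ (by positivity) θ₁
    have hcy : Continuous (fun θ : ℝ => max (pr (x - y) θ) 0 + pr y θ) := hcx.add (continuous_pr_right _)
    unfold W
    rw [← sub_pos, ← intervalIntegral.integral_sub (hh.intervalIntegrable _ _)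
      (hcy.intervalIntegrable _ _)]
    apply intervalIntegral.integral_pos (by positivity)
    · exact (hh.sub hcy).continuousOn
    · intro t _
      exact sub_nonneg.2 (hle t)
    · refine ⟨θ₀, Ico_subset_Icc_self hθ₀, ?_⟩
      rw [← he]
      exact sub_pos.2 hθ₁
  rw [e3] at hlt
  rw [dist_eq_norm]
  linarith

theorem half_segment {A' B' : Set E2} {a b' : E2} (hA' : IsClosed A') (hB' : IsClosed B')
    (hAB' : A' ∩ B' = {b'}) (haA : a ∈ A') (hbA : b' ∈ A') (hab : a ≠ b')
    (hsub : ∀ τ : ℝ, 0 < τ → τ < 1 → a + τ • (b' - a) ∈ A' ∪ B') : segment ℝ a b' ⊆ A' := by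
  have hpre : IsPreconnected ((fun τ : ℝ => a + τ • (b' - a)) '' Ico 0 1) :=
    isPreconnected_Ico.image _ (by fun_prop)
  have hcov : ((fun τ : ℝ => a + τ • (b' - a)) '' Ico 0 1) ⊆ A' ∪ B' := by
    rintro _ ⟨τ, hτ, rfl⟩
    rcases eq_or_lt_of_le hτ.1 with h | h
    · left; simp only; rw [← h]; simpa using haA
    · exact hsub τ h hτ.2
  have hS : ((fun τ : ℝ => a + τ • (b' - a)) '' Ico 0 1) ⊆ A' := by
    intro z hz
    rcases hcov hz with h | h
    · exact h
    · exfalso
      obtain ⟨w, hw, hw2⟩ := isPreconnected_closed_iff.1 hpre A' B' hA' hB' hcov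
        ⟨a, ⟨0, by simp, by simp⟩, haA⟩ ⟨z, hz, h⟩
      rw [hAB', mem_singleton_iff] at hw2
      obtain ⟨τ, hτ, hwe⟩ := hw
      simp only at hwe
      rw [hw2] at hwe
      have : (1 - τ) • (b' - a) = 0 := by
        rw [sub_smul, one_smul]
        have : τ • (b' - a) = b' - a := by
          have h9 := congrArg (fun z => z - a) hwe
          simpa using h9
        rw [this, sub_self]
      rcases smul_eq_zero.1 this with h1 | h1
      · linarith [hτ.2]
      · exact hab (sub_eq_zero.1 h1).symm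
  intro z hz
  rw [segment_eq_image'] at hz
  obtain ⟨τ, hτ, rfl⟩ := hz
  rcases eq_or_lt_of_le hτ.2 with h | h
  · simp only; rw [h]; simpa using hbA
  · exact hS ⟨τ, ⟨hτ.1, h⟩, rfl⟩

/-- the open chord `ac` is interior -/
theorem Quadrisect.chord_interior (h : Quadrisect F a b c d A B C D) (hF : IsCompact F)
    (hc : Convex ℝ F) (hint : (interior F).Nonempty) : openSegment ℝ a c ⊆ interior F := by
  by_contra hcon
  rw [not_subset] at hcon
  obtain ⟨m, hm, hmi⟩ := hcon
  have hne : F.Nonempty := hint.mono interior_subset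
  have haF : a ∈ F := hF.isClosed.frontier_subset h.mem.1
  have hcF : c ∈ F := hF.isClosed.frontier_subset h.mem.2.2.1
  have hmF : m ∈ F := hc.segment_subset haF hcF (openSegment_subset_segment ℝ a c hm)
  have hmf : m ∈ frontier F := ⟨subset_closure hmF, hmi⟩
  obtain ⟨ω, hω⟩ := exists_support hF hc hne hmf
  -- the whole open segment is in the frontier
  have hfr : openSegment ℝ a c ⊆ frontier F := by
    intro z hz
    have hzF : z ∈ F := hc.segment_subset haF hcF (openSegment_subset_segment ℝ a c hz)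
    refine ⟨subset_closure hzF, ?_⟩
    intro hzi
    have h1 := pr_lt_of_interior hF hzi ω
    obtain ⟨s, t, hs0, ht0, hst, rfl⟩ := hm
    obtain ⟨s', t', hs0', ht0', hst', rfl⟩ := hz
    have ka := le_hs hF haF ω
    have kc := le_hs hF hcF ω
    rw [pr_add, pr_smul, pr_smul] at hω h1
    have ea : pr a ω = hs F ω := by
      by_contra hne'
      have hlt : pr a ω < hs F ω := lt_of_le_of_ne ka hne'
      have j1 := mul_lt_mul_of_pos_left hlt hs0
      have j2 := mul_le_mul_of_nonneg_left kc ht0.le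
      have j3 : s * hs F ω + t * hs F ω = hs F ω := by rw [← add_mul, hst, one_mul]
      linarith
    have ec : pr c ω = hs F ω := by
      by_contra hne'
      have hlt : pr c ω < hs F ω := lt_of_le_of_ne kc hne'
      have j1 := mul_le_mul_of_nonneg_left ka hs0.le
      have j2 := mul_lt_mul_of_pos_left hlt ht0
      have j3 : s * hs F ω + t * hs F ω = hs F ω := by rw [← add_mul, hst, one_mul]
      linarith
    rw [ea, ec, ← add_mul, hst', one_mul] at h1
    exact lt_irrefl _ h1
  have hclAB : IsClosed (A ∪ B) := h.hA.isClosed.union h.hB.isClosed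
  have hclCD : IsClosed (C ∪ D) := h.hC.isClosed.union h.hD.isClosed
  -- key claim in one of two symmetric situations
  have key : ∀ {b' : E2} {A' B' : Set E2}, IsArc A' a b' → IsArc B' b' c → A' ∩ B' = {b'} →
      c ∉ A' → a ∉ B' → μH[1] A' = μH[1] (frontier F) / 4 → μH[1] B' = μH[1] (frontier F) / 4 →
      openSegment ℝ a c ⊆ A' ∪ B' → False := by
    intro b' A' B' hA' hB' hAB' hcA' haB' lA' lB' hsub
    have hb' : b' ∈ openSegment ℝ a c := by
      by_contra hb
      -- then the segment lies in A' or B'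
      have hpre := isPreconnected_openSegment a c
      have hor := (isPreconnected_closed_iff.1 hpre) A' B' hA'.isClosed hB'.isClosed hsub
      have hclos : closure (openSegment ℝ a c) = segment ℝ a c := closure_openSegment a c
      rcases (openSegment ℝ a c ∩ A').eq_empty_or_nonempty with hE | hN
      · have : openSegment ℝ a c ⊆ B' := by
          intro z hz
          rcases hsub hz with h1 | h1
          · exact absurd (show z ∈ openSegment ℝ a c ∩ A' from ⟨hz, h1⟩) (by rw [hE]; simp)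
          · exact h1
        have h2 := closure_minimal this hB'.isClosed
        rw [hclos] at h2
        exact haB' (h2 (left_mem_segment ℝ a c))
      · rcases (openSegment ℝ a c ∩ B').eq_empty_or_nonempty with hE | hN'
        · have : openSegment ℝ a c ⊆ A' := by
            intro z hz
            rcases hsub hz with h1 | h1
            · exact h1
            · exact absurd (show z ∈ openSegment ℝ a c ∩ B' from ⟨hz, h1⟩) (by rw [hE]; simp)
          have h2 := closure_minimal this hA'.isClosed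
          rw [hclos] at h2
          exact hcA' (h2 (right_mem_segment ℝ a c))
        · obtain ⟨z, hz, hz2⟩ := hor hN hN'
          rw [hAB'] at hz2
          rw [mem_singleton_iff] at hz2
          exact hb (hz2 ▸ hz)
    -- [a,b'] ⊆ A' and [b',c] ⊆ B'
    have hsA : segment ℝ a b' ⊆ A' := by
      apply half_segment hA'.isClosed hB'.isClosed hAB' hA'.left_mem hA'.right_mem hA'.ne
      intro τ hτ0 hτ1
      apply hsub
      rw [openSegment_eq_image'] at hb' ⊢
      obtain ⟨β, hβ, he⟩ := hb'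
      refine ⟨τ * β, ⟨mul_pos hτ0 hβ.1, by nlinarith [hβ.1, hβ.2]⟩, ?_⟩
      simp only at he ⊢
      rw [← he, add_sub_cancel_left, smul_smul]
    have hsB : segment ℝ c b' ⊆ B' := by
      have hBA' : B' ∩ A' = {b'} := by rw [inter_comm]; exact hAB'
      apply half_segment hB'.isClosed hA'.isClosed hBA' hB'.right_mem hB'.left_mem hB'.ne.symm
      intro τ hτ0 hτ1
      rw [union_comm]
      apply hsub
      rw [openSegment_symm, openSegment_eq_image'] at hb' ⊢
      obtain ⟨β, hβ, he⟩ := hb'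
      refine ⟨τ * β, ⟨mul_pos hτ0 hβ.1, by nlinarith [hβ.1, hβ.2]⟩, ?_⟩
      simp only at he ⊢
      rw [← he, add_sub_cancel_left, smul_smul]
    have eA : A' = segment ℝ a b' := by
      apply Subset.antisymm _ hsA
      exact hA'.subset_of_preconn (convex_segment a b').isPreconnected hsA
        (left_mem_segment ℝ a b') (right_mem_segment ℝ a b')
    have eB : B' = segment ℝ c b' := by
      apply Subset.antisymm _ hsB
      exact hB'.subset_of_preconn (convex_segment c b').isPreconnected hsB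
        (right_mem_segment ℝ c b') (left_mem_segment ℝ c b')
    obtain ⟨hW, hW0⟩ := cauchy hF hc hint
    rw [eA, hausdorffMeasure_segment, hW, edist_dist] at lA'
    rw [eB, hausdorffMeasure_segment, hW, edist_dist] at lB'
    have q : ENNReal.ofReal (W F) / 4 = ENNReal.ofReal (W F / 4) := by
      rw [ENNReal.ofReal_div_of_pos (by norm_num)]; norm_num
    rw [q] at lA' lB'
    have r1 : dist a b' = W F / 4 :=
      (ENNReal.ofReal_eq_ofReal_iff dist_nonneg (by positivity)).1 lA'
    have r2 : dist c b' = W F / 4 :=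
      (ENNReal.ofReal_eq_ofReal_iff dist_nonneg (by positivity)).1 lB'
    have r3 := dist_add_dist_of_mem_segment (openSegment_subset_segment ℝ a c hb')
    rw [dist_comm b' c] at r3
    have r4 := two_mul_dist_lt hF hc hint haF hcF
    linarith
  have hcov : openSegment ℝ a c ⊆ (A ∪ B) ∪ (C ∪ D) := by
    intro z hz
    have := hfr hz
    rw [← h.union] at this
    simp only [mem_union] at this ⊢
    tauto
  have hnotboth : ∀ z ∈ openSegment ℝ a c, z ∈ A ∪ B → z ∈ C ∪ D → False := by
    intro z hz h1 h2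
    have hza : z ≠ a := by
      intro he; rw [he] at hz
      exact h.ac (left_mem_openSegment_iff.1 hz)
    have hzc : z ≠ c := by
      intro he; rw [he] at hz
      exact h.ac (right_mem_openSegment_iff.1 hz)
    rcases h1 with h1 | h1 <;> rcases h2 with h2 | h2
    · have : z ∈ A ∩ C := ⟨h1, h2⟩
      rw [h.hAC] at this; exact this
    · have : z ∈ D ∩ A := ⟨h2, h1⟩
      rw [h.hDA] at this; exact hza this
    · have : z ∈ B ∩ C := ⟨h1, h2⟩
      rw [h.hBC] at this; exact hzc this
    · have : z ∈ B ∩ D := ⟨h1, h2⟩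
      rw [h.hBD] at this; exact this
  have hor := (isPreconnected_closed_iff.1 (isPreconnected_openSegment a c)) _ _ hclAB hclCD hcov
  rcases (openSegment ℝ a c ∩ (A ∪ B)).eq_empty_or_nonempty with hE | hN
  · apply key h.hD.symm h.hC.symm (by rw [inter_comm]; exact h.hCD) h.refl.c_notin h.refl.a_notin h.lD h.lC
    intro z hz
    rcases hcov hz with h1 | h1
    · exact absurd (show z ∈ openSegment ℝ a c ∩ (A ∪ B) from ⟨hz, h1⟩) (by rw [hE]; simp)
    · rw [union_comm]; exact h1
  · rcases (openSegment ℝ a c ∩ (C ∪ D)).eq_empty_or_nonempty with hE | hN'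
    · apply key h.hA h.hB h.hAB h.c_notin h.a_notin h.lA h.lB
      intro z hz
      rcases hcov hz with h1 | h1
      · exact h1
      · exact absurd (show z ∈ openSegment ℝ a c ∩ (C ∪ D) from ⟨hz, h1⟩) (by rw [hE]; simp)
    · obtain ⟨z, hz, hz1, hz2⟩ := hor hN hN'
      exact hnotboth z hz hz1 hz2

end Pool.Agent.R763.Str
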