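import Pool.Agent.R763.StrFF

set_option autoImplicit false
open Real Set MeasureTheory Filter Topology
open scoped ENNReal NNReal

namespace Pool.Agent.R763.Str

theorem tendsto_mul_sin (t : ℝ) : Tendsto (fun R : ℝ => R * sin (t / R)) atTop (𝓝 t) := by
  have h : HasDerivAt (fun x : ℝ => sin (t * x)) t 0 := by
    have h1 : HasDerivAt (fun x : ℝ => t * x) t 0 := by
      simpa using (hasDerivAt_id (0:ℝ)).const_mul t
    have h2 : HasDerivAt (fun x : ℝ => sin (t * x)) (cos (t * 0) * t) 0 := h1.sin
    simpa using h2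
  rw [hasDerivAt_iff_tendsto_slope_zero] at h
  simp only [zero_add, mul_zero, Real.sin_zero, sub_zero, smul_eq_mul] at h
  have h3 : Tendsto (fun R : ℝ => R⁻¹) atTop (𝓝[≠] 0) := by
    rw [tendsto_nhdsWithin_iff]
    refine ⟨tendsto_inv_atTop_zero, ?_⟩
    filter_upwards [eventually_gt_atTop 0] with R hR
    exact inv_ne_zero hR.ne'
  have h4 := h.comp h3
  apply h4.congr
  intro R
  simp only [Function.comp, inv_inv, div_eq_mul_inv]

theorem integral_tri {c T : ℝ} (hc : 0 ≤ c) (hT : c ≤ T) :
    ∫ t in (0:ℝ)..T, max (c - t) 0 = c ^ 2 / 2 := by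
  have hcont : Continuous (fun t : ℝ => max (c - t) 0) := by fun_prop
  rw [← intervalIntegral.integral_add_adjacent_intervals (hcont.intervalIntegrable 0 c)
    (hcont.intervalIntegrable c T)]
  have h1 : ∫ t in (0:ℝ)..c, max (c - t) 0 = ∫ t in (0:ℝ)..c, (c - t) := by
    apply intervalIntegral.integral_congr
    intro t ht
    rw [uIcc_of_le hc] at ht
    exact max_eq_left (by linarith [ht.2])
  have h2 : ∫ t in c..T, max (c - t) 0 = ∫ t in c..T, (0:ℝ) := by
    apply intervalIntegral.integral_congr
    intro t ht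
    rw [uIcc_of_le hT] at ht
    exact max_eq_right (by linarith [ht.1])
  rw [h1, h2, intervalIntegral.integral_sub (by simp) (by simp), intervalIntegral.integral_const,
    integral_id, intervalIntegral.integral_zero]
  simp only [smul_eq_mul]
  ring

theorem asym_one {k : ℝ → ℝ} (hk : Continuous k) {M : ℝ} (hM : 0 < M) (hkM : ∀ s, k s ≤ M)
    (hk0 : 0 ≤ k 0) :
    Tendsto (fun R : ℝ => R * ∫ s in (0:ℝ)..(π / 2), max (k s - R * sin s) 0) atTop
      (𝓝 (k 0 ^ 2 / 2)) := by
  have hpi := Real.pi_pos
  set T := M * π / 2 with hT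
  have hTM : M ≤ T := by
    rw [hT]; nlinarith [Real.pi_gt_three]
  have hTpos : 0 < T := by positivity
  have hmain : Tendsto (fun R : ℝ => ∫ t in (0:ℝ)..T, max (k (t / R) - R * sin (t / R)) 0) atTop
      (𝓝 (∫ t in (0:ℝ)..T, max (k 0 - t) 0)) := by
    apply intervalIntegral.tendsto_integral_filter_of_dominated_convergence (fun _ => M)
    · filter_upwards [eventually_gt_atTop 0] with R hR
      apply Continuous.aestronglyMeasurable
      fun_prop
    · filter_upwards [eventually_ge_atTop M] with R hR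
      apply Eventually.of_forall
      intro t ht
      rw [uIoc_of_le hTpos.le] at ht
      have hR0 : 0 < R := hM.trans_le hR
      have h1 : 0 ≤ sin (t / R) := by
        apply Real.sin_nonneg_of_nonneg_of_le_pi (div_nonneg ht.1.le hR0.le)
        rw [div_le_iff₀ hR0]
        have : T ≤ π * R := by rw [hT]; nlinarith
        linarith [ht.2]
      rw [Real.norm_eq_abs, abs_of_nonneg (le_max_right _ _)]
      apply max_le _ hM.le
      have := hkM (t / R)
      have : 0 ≤ R * sin (t / R) := mul_nonneg hR0.le h1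
      linarith
    · exact intervalIntegrable_const
    · apply Eventually.of_forall
      intro t _
      have h1 : Tendsto (fun R : ℝ => t / R) atTop (𝓝 0) := tendsto_const_nhds.div_atTop tendsto_id
      have h2 : Tendsto (fun R : ℝ => k (t / R)) atTop (𝓝 (k 0)) := (hk.tendsto 0).comp h1
      exact (h2.sub (tendsto_mul_sin t)).max tendsto_const_nhds
  rw [integral_tri hk0 ((hkM 0).trans hTM)] at hmain
  apply hmain.congr'
  filter_upwards [eventually_ge_atTop M] with R hR
  have hR0 : 0 < R := hM.trans_le hR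
  have h1 := intervalIntegral.integral_comp_div (a := 0) (b := T)
    (fun s => max (k s - R * sin s) 0) hR0.ne'
  rw [h1, zero_div, smul_eq_mul]
  congr 1
  have hcont : Continuous (fun s : ℝ => max (k s - R * sin s) 0) := by fun_prop
  rw [← intervalIntegral.integral_add_adjacent_intervals (hcont.intervalIntegrable 0 (T / R))
    (hcont.intervalIntegrable (T / R) (π / 2))]
  have h2 : ∫ s in (T / R)..(π / 2), max (k s - R * sin s) 0 = ∫ s in (T / R)..(π / 2), (0:ℝ) := by
    apply intervalIntegral.integral_congr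
    intro s hs
    have hTR : T / R ≤ π / 2 := by
      rw [div_le_div_iff₀ hR0 (by norm_num), hT]; nlinarith
    rw [uIcc_of_le hTR] at hs
    apply max_eq_right
    have hs0 : 0 ≤ s := (div_nonneg hTpos.le hR0.le).trans hs.1
    have h3 := Real.mul_le_sin hs0 hs.2
    have h4 : T ≤ s * R := (div_le_iff₀ hR0).1 hs.1
    have h5 : M ≤ R * sin s := by
      have : R * (2 / π * s) ≤ R * sin s := mul_le_mul_of_nonneg_left h3 hR0.le
      have e : M = 2 / π * T := by rw [hT]; field_simp
      have : 2 / π * T ≤ 2 / π * (s * R) := mul_le_mul_of_nonneg_left h4 (by positivity)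
      rw [e]; linarith
    linarith [hkM s]
  rw [h2]; simp

/-- remainder term -/
noncomputable def GG (h : ℝ → ℝ) (R α : ℝ) : ℝ :=
  ∫ θ in (α - π / 2)..(α + π / 2), max (h θ - R * cos (θ - α)) 0

noncomputable def AA (h : ℝ → ℝ) (α : ℝ) : ℝ := ∫ θ in (α + π / 2)..(α + 3 * π / 2), h θ

theorem GG_tendsto {h : ℝ → ℝ} (hh : Continuous h) {M : ℝ} (hM : 0 < M) (hkM : ∀ s, h s ≤ M)
    (h0 : ∀ s, 0 ≤ h s) (α : ℝ) :
    Tendsto (fun R : ℝ => R * GG h R α) atTop
      (𝓝 ((h (α + π / 2) ^ 2 + h (α - π / 2) ^ 2) / 2)) := by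
  have h1 := asym_one (k := fun s => h (α - π / 2 + s)) (by fun_prop) hM (fun s => hkM _) (h0 _)
  have h2 := asym_one (k := fun s => h (α + π / 2 - s)) (by fun_prop) hM (fun s => hkM _) (h0 _)
  have h3 := h1.add h2
  simp only [add_zero, sub_zero] at h3
  have e : (h (α - π / 2) ^ 2 / 2 + h (α + π / 2) ^ 2 / 2)
      = ((h (α + π / 2) ^ 2 + h (α - π / 2) ^ 2) / 2) := by ring
  rw [e] at h3
  apply h3.congr
  intro R
  unfold GG
  have hcont : Continuous (fun θ : ℝ => max (h θ - R * cos (θ - α)) 0) := by fun_prop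
  rw [← intervalIntegral.integral_add_adjacent_intervals (hcont.intervalIntegrable (α - π / 2) α)
    (hcont.intervalIntegrable α (α + π / 2)), mul_add]
  congr 2
  · have := intervalIntegral.integral_comp_add_left (a := 0) (b := π / 2)
      (fun θ => max (h θ - R * cos (θ - α)) 0) (α - π / 2)
    rw [add_zero, sub_add_cancel] at this
    rw [← this]
    apply intervalIntegral.integral_congr
    intro s _
    simp only
    rw [show α - π / 2 + s - α = s - π / 2 by ring, Real.cos_sub_pi_div_two]
  · have := intervalIntegral.integral_comp_sub_left (a := 0) (b := π / 2)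
      (fun θ => max (h θ - R * cos (θ - α)) 0) (α + π / 2)
    rw [sub_zero, add_sub_cancel_right] at this
    rw [← this]
    apply intervalIntegral.integral_congr
    intro s _
    simp only
    rw [show α + π / 2 - s - α = π / 2 - s by ring, Real.cos_pi_div_two_sub]

theorem FF_shift {h : ℝ → ℝ} (hper : ∀ θ, h (θ + 2 * π) = h θ) (x : E2) (a : ℝ) :
    FF h x = ∫ θ in a..(a + 2 * π), max (pr x θ) (h θ) := by
  unfold FF
  have hp : Function.Periodic (fun θ => max (pr x θ) (h θ)) (2 * π) := by
    intro θ; simp only [pr_periodic, hper]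
  have := hp.intervalIntegral_add_eq 0 a
  rwa [zero_add] at this

theorem FF_pt {h : ℝ → ℝ} (hh : Continuous h) (hper : ∀ θ, h (θ + 2 * π) = h θ)
    (h0 : ∀ s, 0 ≤ h s) {R : ℝ} (hR : 0 ≤ R) (α : ℝ) :
    FF h (pt R α) = 2 * R + AA h α + GG h R α := by
  have hpi := Real.pi_pos
  rw [FF_shift hper _ (α - π / 2)]
  have hcont : Continuous (fun θ : ℝ => max (pr (pt R α) θ) (h θ)) := (continuous_pr_right _).max hh
  rw [← intervalIntegral.integral_add_adjacent_intervals
    (hcont.intervalIntegrable (α - π / 2) (α + π / 2))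
    (hcont.intervalIntegrable (α + π / 2) (α - π / 2 + 2 * π))]
  have e1 : ∫ θ in (α + π / 2)..(α - π / 2 + 2 * π), max (pr (pt R α) θ) (h θ) = AA h α := by
    unfold AA
    rw [show α - π / 2 + 2 * π = α + 3 * π / 2 by ring]
    apply intervalIntegral.integral_congr
    intro θ hθ
    rw [uIcc_of_le (by linarith)] at hθ
    apply max_eq_right
    rw [pr_pt]
    have : cos (θ - α) ≤ 0 := Real.cos_nonpos_of_pi_div_two_le_of_le (by linarith [hθ.1])
      (by linarith [hθ.2])
    have := mul_nonpos_of_nonneg_of_nonpos hR this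
    linarith [h0 θ]
  have e2 : ∫ θ in (α - π / 2)..(α + π / 2), max (pr (pt R α) θ) (h θ) = 2 * R + GG h R α := by
    unfold GG
    have e3 : ∀ θ, max (pr (pt R α) θ) (h θ) = pr (pt R α) θ + max (h θ - R * cos (θ - α)) 0 := by
      intro θ
      rw [pr_pt, max_comm, ← max_add_add_left, add_zero]
      congr 1; ring
    simp only [e3]
    rw [intervalIntegral.integral_add ((continuous_pr_right _).intervalIntegrable _ _)
      (Continuous.intervalIntegrable (by fun_prop) _ _), integral_pr_arc, pr_pt]
    simp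
  rw [e1, e2]; ring

end Pool.Agent.R763.Str
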