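import Pool.Agent.R763.StrPoly3

set_option autoImplicit false
open Real Set MeasureTheory Filter Topology
open scoped ENNReal NNReal Pointwise

namespace Pool.Agent.R763.Str

variable {K : Set E2}

theorem riemann {f : ℝ → ℝ} {R δ : ℝ} {n : ℕ} (hcont : Continuous f)
    (hR : 0 ≤ R) (hlip : ∀ θ φ, |f θ - f φ| ≤ R * |θ - φ|) (hn : n * δ = 2 * π) (hδ : 0 < δ) :
    |δ * ∑ i ∈ Finset.range n, f (i * δ) - ∫ θ in (0:ℝ)..(2 * π), f θ| ≤ 2 * π * R * δ := by
  have h1 := intervalIntegral.sum_integral_adjacent_intervals (μ := volume) (f := f)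
    (a := fun i : ℕ => (i : ℝ) * δ) (n := n) (fun k _ => hcont.intervalIntegrable _ _)
  simp only [Nat.cast_zero, zero_mul, hn] at h1
  rw [← h1, Finset.mul_sum, ← Finset.sum_sub_distrib]
  have h2 : ∀ i ∈ Finset.range n, |δ * f (i * δ) - ∫ x in ((i : ℝ) * δ)..(((i + 1 : ℕ) : ℝ) * δ), f x|
      ≤ R * δ * δ := by
    intro i _
    have e1 : δ * f (i * δ) = ∫ x in ((i : ℝ) * δ)..(((i + 1 : ℕ) : ℝ) * δ), f (i * δ) := by
      rw [intervalIntegral.integral_const]
      push_cast
      simp only [smul_eq_mul]; ring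
    rw [e1, ← intervalIntegral.integral_sub (continuous_const.intervalIntegrable _ _)
      (hcont.intervalIntegrable _ _)]
    have h3 := intervalIntegral.norm_integral_le_of_norm_le_const (a := (i : ℝ) * δ)
      (b := ((i + 1 : ℕ) : ℝ) * δ) (f := fun x => f (i * δ) - f x) (C := R * δ) (by
        intro x hx
        rw [uIoc_of_le (by push_cast; nlinarith)] at hx
        push_cast at hx
        rw [Real.norm_eq_abs]
        refine (hlip _ _).trans ?_
        apply mul_le_mul_of_nonneg_left _ hR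
        rw [abs_le]
        constructor <;> linarith [hx.1, hx.2])
    rw [Real.norm_eq_abs] at h3
    refine h3.trans ?_
    have : |((i + 1 : ℕ) : ℝ) * δ - i * δ| = δ := by
      push_cast
      rw [show ((i:ℝ) + 1) * δ - i * δ = δ by ring, abs_of_pos hδ]
    rw [this]
  refine (Finset.abs_sum_le_sum_abs _ _).trans ((Finset.sum_le_sum h2).trans ?_)
  rw [Finset.sum_const, Finset.card_range, nsmul_eq_mul]
  have : (n : ℝ) * (R * δ * δ) = (n * δ) * R * δ := by ring
  rw [this, hn]

theorem half_tan {x : ℝ} (hx : 0 < x) (hx2 : x ≤ π / 2) :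
    2 * (1 - cos x) / sin x = 2 * tan (x / 2) := by
  have hpi := Real.pi_pos
  have h1 : 0 < cos (x / 2) := Real.cos_pos_of_mem_Ioo ⟨by linarith, by linarith⟩
  have h2 : 0 < sin (x / 2) := Real.sin_pos_of_pos_of_lt_pi (by linarith) (by linarith)
  rw [show cos x = cos (2 * (x / 2)) by ring_nf, show sin x = sin (2 * (x / 2)) by ring_nf,
    Real.cos_two_mul, Real.sin_two_mul, Real.tan_eq_sin_div_cos]
  have h3 := Real.sin_sq_add_cos_sq (x / 2)
  rw [div_eq_iff (by positivity)]
  field_simp
  linear_combination -2 * h3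

theorem tendsto_half_tan : Tendsto (fun x : ℝ => x⁻¹ * (2 * tan (x / 2))) (𝓝[≠] 0) (𝓝 1) := by
  have h : HasDerivAt (fun x : ℝ => 2 * tan (x / 2)) 1 0 := by
    have h1 : HasDerivAt (fun x : ℝ => x / 2) (1 / 2) 0 := (hasDerivAt_id 0).div_const 2
    have h2 : HasDerivAt tan (1 / cos (0 / 2 : ℝ) ^ 2) (0 / 2 : ℝ) := Real.hasDerivAt_tan (by simp)
    have h4 : HasDerivAt (fun x : ℝ => tan (x / 2)) (1 / cos (0 / 2 : ℝ) ^ 2 * (1 / 2)) 0 :=
      HasDerivAt.comp (h₂ := tan) (h := fun x : ℝ => x / 2) (0:ℝ) h2 h1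
    have h3 : HasDerivAt (fun x : ℝ => 2 * tan (x / 2)) (2 * (1 / cos (0 / 2 : ℝ) ^ 2 * (1 / 2))) 0 :=
      h4.const_mul 2
    have e : (2 * (1 / cos (0 / 2 : ℝ) ^ 2 * (1 / 2)) : ℝ) = 1 := by
      rw [zero_div, Real.cos_zero]; norm_num
    rwa [e] at h3
  rw [hasDerivAt_iff_tendsto_slope_zero] at h
  simpa using h

/-- the total of the support function -/
noncomputable def W (K : Set E2) : ℝ := ∫ θ in (0:ℝ)..(2 * π), hs K θ

theorem perim_limit (hK : IsCompact K) (hne : K.Nonempty) :
    Tendsto (fun n : ℕ => 2 * (1 - cos (2 * π / n)) / sin (2 * π / n) *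
      ∑ i ∈ Finset.range n, hs K (i * (2 * π / n))) atTop (𝓝 (W K)) := by
  obtain ⟨R, hR⟩ := hK.isBounded.subset_closedBall 0
  have hR' : K ⊆ Metric.closedBall 0 (max R 0) :=
    hR.trans (Metric.closedBall_subset_closedBall (le_max_left _ _))
  have hpi := Real.pi_pos
  have hδ0 : Tendsto (fun n : ℕ => 2 * π / (n : ℝ)) atTop (𝓝 0) := by
    exact tendsto_const_div_atTop_nhds_zero_nat (2 * π)
  have h1 : Tendsto (fun n : ℕ => (2 * π / n) * ∑ i ∈ Finset.range n, hs K (i * (2 * π / n)))
      atTop (𝓝 (W K)) := by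
    rw [tendsto_iff_norm_sub_tendsto_zero]
    have h2 : Tendsto (fun n : ℕ => 2 * π * (max R 0) * (2 * π / (n : ℝ))) atTop (𝓝 0) := by
      have := hδ0.const_mul (2 * π * (max R 0))
      simpa using this
    apply squeeze_zero' (Eventually.of_forall (fun _ => norm_nonneg _)) _ h2
    filter_upwards [eventually_gt_atTop 0] with n hn
    have hn' : (0:ℝ) < n := by exact_mod_cast hn
    exact riemann (hs_continuous hK hne) (le_max_right _ _) (hs_lip hK hne hR')
      (by field_simp) (by positivity)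
  have h3 : Tendsto (fun n : ℕ => (2 * π / (n : ℝ))⁻¹ * (2 * tan ((2 * π / n) / 2))) atTop (𝓝 1) := by
    apply tendsto_half_tan.comp
    rw [tendsto_nhdsWithin_iff]
    refine ⟨hδ0, ?_⟩
    filter_upwards [eventually_gt_atTop 0] with n hn
    have hn' : (0:ℝ) < n := by exact_mod_cast hn
    have : 0 < 2 * π / (n : ℝ) := by positivity
    exact this.ne'
  have h4 := h3.mul h1
  rw [one_mul] at h4
  apply h4.congr'
  filter_upwards [eventually_ge_atTop 4] with n hn
  have hn' : (4:ℝ) ≤ n := by exact_mod_cast hn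
  have hpos : 0 < 2 * π / (n : ℝ) := by positivity
  have hle : 2 * π / (n : ℝ) ≤ π / 2 := by
    rw [div_le_div_iff₀ (by positivity) (by norm_num)]
    nlinarith
  rw [half_tan hpos hle]
  field_simp

theorem cauchy_zero (hK : IsCompact K) (hc : Convex ℝ K) (h0 : (0 : E2) ∈ interior K) :
    μH[1] (frontier K) = ENNReal.ofReal (W K) := by
  have hpi := Real.pi_pos
  have hne : K.Nonempty := ⟨0, interior_subset h0⟩
  obtain ⟨R, hR⟩ := hK.isBounded.subset_closedBall 0
  obtain ⟨r, hr, hball⟩ := Metric.isOpen_iff.1 isOpen_interior 0 h0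
  have hlow : ∀ θ, r / 2 ≤ hs K θ := by
    intro θ
    have hmem : pt (r / 2) θ ∈ K := by
      apply interior_subset
      apply hball
      rw [mem_ball_zero_iff]
      have : ‖pt (r / 2) θ‖ ^ 2 = (r / 2) ^ 2 := by
        rw [norm_sq_eq]; simp only [pt, PiLp.toLp_apply, Matrix.cons_val_zero, Matrix.cons_val_one]
        have := Real.sin_sq_add_cos_sq θ
        linear_combination ((r / 2) ^ 2) * this
      have h2 : ‖pt (r / 2) θ‖ = r / 2 := by
        rwa [sq_eq_sq₀ (norm_nonneg _) (by positivity)] at this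
      rw [h2]; linarith
    have := le_hs hK hmem θ
    rw [pr_pt] at this
    simpa using this
  have hr2 : 0 < r / 2 := by positivity
  have hpos : ∀ θ, 0 < hs K θ := fun θ => hr2.trans_le (hlow θ)
  have hRpos : 0 < R := by
    obtain ⟨x, hx, he, _⟩ := exists_max hK hne 0
    have h1 := hpos 0
    rw [← he] at h1
    have h2 := pr_le_norm x 0
    have h3 : ‖x‖ ≤ R := by simpa using hR hx
    linarith
  -- eventually statements
  have hδ0 : Tendsto (fun n : ℕ => 2 * π / (n : ℝ)) atTop (𝓝 0) :=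
    tendsto_const_div_atTop_nhds_zero_nat (2 * π)
  have hcos : ∀ᶠ n : ℕ in atTop, 1 / 2 ≤ cos (2 * π / (n : ℝ)) := by
    have : Tendsto (fun n : ℕ => cos (2 * π / (n : ℝ))) atTop (𝓝 (cos 0)) :=
      (Real.continuous_cos.tendsto 0).comp hδ0
    rw [Real.cos_zero] at this
    exact this.eventually_const_le (by norm_num)
  have hstep : ∀ᶠ n : ℕ in atTop,
      μH[1] (frontier K) ≤ ENNReal.ofReal (2 * (1 - cos (2 * π / n)) / sin (2 * π / n) *
        ∑ i ∈ Finset.range n, hs K (i * (2 * π / n))) ∧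
      ENNReal.ofReal (2 * (1 - cos (2 * π / n)) / sin (2 * π / n) *
        ∑ i ∈ Finset.range n, hs K (i * (2 * π / n)))
        ≤ ENNReal.ofReal (1 + 3 * R * (2 * π / n) / (r / 2)) * μH[1] (frontier K) := by
    filter_upwards [eventually_ge_atTop 4, hcos] with n hn hcn
    have hn' : (4:ℝ) ≤ n := by exact_mod_cast hn
    have hn0 : 0 < n := by omega
    set δ := 2 * π / (n : ℝ) with hδ
    have hδpos : 0 < δ := by positivity
    have hδle : δ ≤ π / 2 := by
      rw [hδ, div_le_div_iff₀ (by positivity) (by norm_num)]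
      nlinarith
    have hnδ : n * δ = 2 * π := by rw [hδ]; field_simp
    rw [← perimeter_Q hK hne hpos hnδ hn0 hδpos hδle]
    have hb := Q_bounds hK hc hne hr2 hlow hR hδpos (by linarith) hcn
    have hQc : IsCompact (Q K δ) := by
      apply Metric.isCompact_of_isClosed_isBounded (Q_closed K δ)
      rw [Metric.isBounded_iff_subset_closedBall 0]
      exact ⟨2 * R, fun x hx => by simpa using hb.1 x hx⟩
    refine ⟨frontier_mono hK hc hQc (subset_Q hK δ), ?_⟩
    set c := 1 + 3 * R * δ / (r / 2) with hcdef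
    have hcpos : 0 < c := by positivity
    have hsub : Q K δ ⊆ (fun x => c • x) '' K := by
      intro x hx
      refine ⟨c⁻¹ • x, hb.2 x hx, ?_⟩
      simp only
      rw [smul_smul, mul_inv_cancel₀ hcpos.ne', one_smul]
    have hcK : IsCompact ((fun x => c • x) '' K) := hK.image (by fun_prop)
    refine (frontier_mono hQc (Q_convex K δ) hcK hsub).trans ?_
    have hfr : frontier ((fun x : E2 => c • x) '' K) = (fun x : E2 => c • x) '' (frontier K) := by
      exact ((Homeomorph.smulOfNeZero (α := E2) c hcpos.ne').image_frontier K).symm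
    rw [hfr]
    have hL : LipschitzWith (Real.toNNReal c) (fun x : E2 => c • x) := by
      apply LipschitzWith.of_dist_le_mul
      intro x y
      rw [Real.coe_toNNReal _ hcpos.le, dist_smul₀, Real.norm_eq_abs, abs_of_pos hcpos]
    have := hL.hausdorffMeasure_image_le (d := 1) zero_le_one (frontier K)
    rw [ENNReal.rpow_one] at this
    exact this
  have hlim := perim_limit hK hne
  have hlimE : Tendsto (fun n : ℕ => ENNReal.ofReal (2 * (1 - cos (2 * π / n)) / sin (2 * π / n) *
      ∑ i ∈ Finset.range n, hs K (i * (2 * π / n)))) atTop (𝓝 (ENNReal.ofReal (W K))) :=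
    (ENNReal.continuous_ofReal.tendsto _).comp hlim
  apply le_antisymm
  · exact ge_of_tendsto hlimE (hstep.mono (fun n h => h.1))
  · have hfin : μH[1] (frontier K) ≠ ⊤ := by
      obtain ⟨n, hn⟩ := hstep.exists
      exact ne_top_of_le_ne_top ENNReal.ofReal_ne_top hn.1
    have hl2 : Tendsto (fun n : ℕ => ENNReal.ofReal (1 + 3 * R * (2 * π / n) / (r / 2)) *
        μH[1] (frontier K)) atTop (𝓝 (ENNReal.ofReal 1 * μH[1] (frontier K))) := by
      apply ENNReal.Tendsto.mul_const _ (Or.inr hfin)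
      apply (ENNReal.continuous_ofReal.tendsto _).comp
      have h5 := (hδ0.const_mul (3 * R)).div_const (r / 2)
      have h6 := h5.const_add 1
      simpa using h6
    rw [ENNReal.ofReal_one, one_mul] at hl2
    exact le_of_tendsto_of_tendsto hlimE hl2 (hstep.mono (fun n h => h.2))

end Pool.Agent.R763.Str
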