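import Pool.Agent.R763.StrAsym

set_option autoImplicit false
open Real Set MeasureTheory Filter Topology
open scoped ENNReal NNReal

namespace Pool.Agent.R763.Str

theorem FF_lip {h : ℝ → ℝ} (hh : Continuous h) (x y : E2) :
    |FF h x - FF h y| ≤ ‖x - y‖ * (2 * π) := by
  unfold FF
  have hcx : Continuous (fun θ : ℝ => max (pr x θ) (h θ)) := (continuous_pr_right _).max hh
  have hcy : Continuous (fun θ : ℝ => max (pr y θ) (h θ)) := (continuous_pr_right _).max hh
  rw [← intervalIntegral.integral_sub (hcx.intervalIntegrable _ _) (hcy.intervalIntegrable _ _)]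
  have := intervalIntegral.norm_integral_le_of_norm_le_const (a := (0:ℝ))
      (b := 2 * π) (f := fun θ => max (pr x θ) (h θ) - max (pr y θ) (h θ)) (C := ‖x - y‖) (by
        intro θ _
        rw [Real.norm_eq_abs]
        refine (abs_max_sub_max_le_abs _ _ _).trans ?_
        rw [← pr_sub]
        exact abs_pr_le _ _)
  rw [Real.norm_eq_abs, sub_zero, abs_of_pos (a := 2 * π) (by positivity)] at this
  exact this

theorem FF_continuous {h : ℝ → ℝ} (hh : Continuous h) : Continuous (FF h) := by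
  have hl : LipschitzWith (Real.toNNReal (2 * π)) (FF h) := by
    apply LipschitzWith.of_dist_le_mul
    intro x y
    rw [Real.dist_eq, dist_eq_norm, Real.coe_toNNReal _ (by positivity), mul_comm]
    exact FF_lip hh x y
  exact hl.continuous

theorem continuous_pt (α : ℝ) : Continuous (fun R => pt R α) := by
  unfold pt
  apply (PiLp.continuous_toLp 2 _).comp
  apply continuous_pi
  intro i
  fin_cases i
  · simp; fun_prop
  · simp; fun_prop

theorem AA_GG_bounds {h : ℝ → ℝ} (hh : Continuous h) {M : ℝ} (hkM : ∀ s, h s ≤ M)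
    (h0 : ∀ s, 0 ≤ h s) {R : ℝ} (hR : 0 ≤ R) (α : ℝ) :
    0 ≤ AA h α ∧ AA h α ≤ π * M ∧ 0 ≤ GG h R α ∧ GG h R α ≤ π * M := by
  have hpi := Real.pi_pos
  have hM : 0 ≤ M := (h0 0).trans (hkM 0)
  have hle1 : α + π / 2 ≤ α + 3 * π / 2 := by linarith
  have hle2 : α - π / 2 ≤ α + π / 2 := by linarith
  refine ⟨?_, ?_, ?_, ?_⟩
  · exact intervalIntegral.integral_nonneg hle1 (fun θ _ => h0 θ)
  · have := intervalIntegral.integral_mono_on hle1 (hh.intervalIntegrable _ _)
      (continuous_const.intervalIntegrable (μ := volume) _ _) (fun θ _ => hkM θ)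
    rw [intervalIntegral.integral_const] at this
    refine this.trans (le_of_eq ?_)
    simp only [smul_eq_mul]; ring
  · exact intervalIntegral.integral_nonneg hle2 (fun θ _ => le_max_right _ _)
  · have hcont : Continuous (fun θ : ℝ => max (h θ - R * cos (θ - α)) 0) := by fun_prop
    have := intervalIntegral.integral_mono_on hle2 (hcont.intervalIntegrable _ _)
      (continuous_const.intervalIntegrable (μ := volume) (α - π / 2) (α + π / 2)) (g := fun _ => M) (by
        intro θ hθ
        apply max_le _ hM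
        have : 0 ≤ cos (θ - α) := Real.cos_nonneg_of_neg_pi_div_two_le_of_le (by linarith [hθ.1])
          (by linarith [hθ.2])
        have := mul_nonneg hR this
        linarith [hkM θ])
    rw [intervalIntegral.integral_const] at this
    refine this.trans (le_of_eq ?_)
    simp only [smul_eq_mul]; ring

theorem compare {h g : ℝ → ℝ} (hh : Continuous h) (hg : Continuous g)
    (hper : ∀ θ, h (θ + 2 * π) = h θ) (gper : ∀ θ, g (θ + 2 * π) = g θ)
    (h0 : ∀ s, 0 ≤ h s) (g0 : ∀ s, 0 ≤ g s) {M : ℝ} (hM : 0 < M)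
    (hkM : ∀ s, h s ≤ M) (gkM : ∀ s, g s ≤ M)
    (hyp : ∀ x y : E2, FF g x = FF g y → (∫ θ in (0:ℝ)..(2 * π), g θ) < FF g x → FF h x = FF h y)
    (α β : ℝ) :
    AA g α - AA h α = AA g β - AA h β ∧
    (g (α + π / 2) ^ 2 + g (α - π / 2) ^ 2) - (h (α + π / 2) ^ 2 + h (α - π / 2) ^ 2)
      = (g (β + π / 2) ^ 2 + g (β - π / 2) ^ 2) - (h (β + π / 2) ^ 2 + h (β - π / 2) ^ 2) := by
  have hpi := Real.pi_pos
  have hex : ∀ R : ℝ, ∃ ρ : ℝ, π * M ≤ R → (0 ≤ ρ ∧ |ρ - R| ≤ π * M ∧
      FF g (pt ρ β) = FF g (pt R α)) := by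
    intro R
    by_cases hR : π * M ≤ R
    · have hR0 : 0 ≤ R := le_trans (by positivity) hR
      have b1 := AA_GG_bounds hg gkM g0 hR0 α
      have e1 := FF_pt hg gper g0 hR0 α
      have hc : ContinuousOn (fun t => FF g (pt t β)) (Icc 0 (R + π * M)) :=
        ((FF_continuous hg).comp (continuous_pt β)).continuousOn
      have hivt := intermediate_value_Icc (a := 0) (b := R + π * M) (by positivity) hc
      have hmem : FF g (pt R α) ∈ Icc (FF g (pt 0 β)) (FF g (pt (R + π * M) β)) := by
        have b2 := AA_GG_bounds hg gkM g0 le_rfl β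
        have e2 := FF_pt hg gper g0 le_rfl β
        have b3 := AA_GG_bounds hg gkM g0 (R := R + π * M) (by positivity) β
        have e3 := FF_pt hg gper g0 (R := R + π * M) (by positivity) β
        constructor
        · rw [e1, e2]; linarith
        · rw [e1, e3]; linarith
      obtain ⟨ρ, hρ, he⟩ := hivt hmem
      simp only at he
      refine ⟨ρ, fun _ => ⟨hρ.1, ?_, he⟩⟩
      have b4 := AA_GG_bounds hg gkM g0 hρ.1 β
      have e4 := FF_pt hg gper g0 hρ.1 β
      rw [e1, e4] at he
      rw [abs_le]; constructor <;> linarith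
    · exact ⟨0, fun h => absurd h hR⟩
  choose ρ hρ using hex
  have hlarge : ∀ᶠ R : ℝ in atTop, π * M ≤ R := eventually_ge_atTop _
  have hρtop : Tendsto ρ atTop atTop := by
    have h1 : Tendsto (fun R : ℝ => R - π * M) atTop atTop :=
      tendsto_atTop_add_const_right _ _ tendsto_id
    apply tendsto_atTop_mono' _ _ h1
    filter_upwards [hlarge] with R hR
    have := (abs_le.1 (hρ R hR).2.1).1
    linarith
  have hratio : Tendsto (fun R => R / ρ R) atTop (𝓝 1) := by
    have h1 : Tendsto (fun R => (R - ρ R) / ρ R) atTop (𝓝 0) := by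
      have h2 : Tendsto (fun R => (π * M) / ρ R) atTop (𝓝 0) := tendsto_const_nhds.div_atTop hρtop
      apply squeeze_zero_norm' _ h2
      filter_upwards [hlarge, hρtop.eventually_gt_atTop 0] with R hR hpos
      rw [norm_div, Real.norm_eq_abs, Real.norm_eq_abs, abs_of_pos hpos, abs_sub_comm]
      exact div_le_div_of_nonneg_right (hρ R hR).2.1 hpos.le
    have h3 := h1.add_const 1
    rw [zero_add] at h3
    apply h3.congr'
    filter_upwards [hρtop.eventually_gt_atTop 0] with R hpos
    field_simp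
    ring
  -- the difference of remainders
  have key : ∀ γ : ℝ, Tendsto (fun R : ℝ => R * (GG g R γ - GG h R γ)) atTop
      (𝓝 (((g (γ + π / 2) ^ 2 + g (γ - π / 2) ^ 2) / 2 -
        (h (γ + π / 2) ^ 2 + h (γ - π / 2) ^ 2) / 2))) := by
    intro γ
    have := (GG_tendsto hg hM gkM g0 γ).sub (GG_tendsto hh hM hkM h0 γ)
    apply this.congr
    intro R; ring
  have key0 : ∀ γ : ℝ, Tendsto (fun R : ℝ => (GG g R γ - GG h R γ)) atTop (𝓝 0) := by
    intro γ
    have h1 := tendsto_inv_atTop_zero.mul (key γ)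
    rw [zero_mul] at h1
    apply h1.congr'
    filter_upwards [eventually_gt_atTop (0:ℝ)] with R hR
    field_simp
  have hWlt : ∀ᶠ R : ℝ in atTop, (∫ θ in (0:ℝ)..(2 * π), g θ) < 2 * R := by
    have : Tendsto (fun R : ℝ => 2 * R) atTop atTop := tendsto_id.const_mul_atTop (by norm_num)
    exact this.eventually_gt_atTop _
  have heq : ∀ᶠ R : ℝ in atTop, (AA g α - AA h α) + (GG g R α - GG h R α)
      = (AA g β - AA h β) + (GG g (ρ R) β - GG h (ρ R) β) := by
    filter_upwards [hlarge, hWlt] with R hR hW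
    have hR0 : 0 ≤ R := le_trans (by positivity) hR
    obtain ⟨hρ0, _, hρe⟩ := hρ R hR
    have b1 := AA_GG_bounds hg gkM g0 hR0 α
    have e1 := FF_pt hg gper g0 hR0 α
    have e2 := FF_pt hg gper g0 hρ0 β
    have e3 := FF_pt hh hper h0 hR0 α
    have e4 := FF_pt hh hper h0 hρ0 β
    have h5 := hyp (pt R α) (pt (ρ R) β) hρe.symm (by rw [e1]; linarith)
    rw [e3, e4] at h5
    rw [e1, e2] at hρe
    linarith
  have hA : AA g α - AA h α = AA g β - AA h β := by
    have l1 := (key0 α).const_add (AA g α - AA h α)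
    have l2 := ((key0 β).comp hρtop).const_add (AA g β - AA h β)
    rw [add_zero] at l1 l2
    exact tendsto_nhds_unique (l1.congr' heq) l2
  refine ⟨hA, ?_⟩
  have l3 := hratio.mul ((key β).comp hρtop)
  rw [one_mul] at l3
  have l4 := tendsto_nhds_unique_of_eventuallyEq (key α) l3 (by
    filter_upwards [heq, hρtop.eventually_gt_atTop 0] with R hR hpos
    have h6 : GG g R α - GG h R α = GG g (ρ R) β - GG h (ρ R) β := by linarith
    rw [h6]
    simp only [Function.comp]
    field_simp)
  linarith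

/-- consequence: the difference is `π`-periodic, and squares of even parts differ by a constant -/
theorem compare2 {h g : ℝ → ℝ} (hh : Continuous h) (hg : Continuous g)
    (hper : ∀ θ, h (θ + 2 * π) = h θ) (gper : ∀ θ, g (θ + 2 * π) = g θ)
    (h0 : ∀ s, 0 ≤ h s) (g0 : ∀ s, 0 ≤ g s) {M : ℝ} (hM : 0 < M)
    (hkM : ∀ s, h s ≤ M) (gkM : ∀ s, g s ≤ M)
    (hyp : ∀ x y : E2, FF g x = FF g y → (∫ θ in (0:ℝ)..(2 * π), g θ) < FF g x → FF h x = FF h y) :
    (∀ θ, g θ - g (θ + π) = h θ - h (θ + π)) ∧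
    ∃ c, ∀ θ, ((g θ + g (θ + π)) / 2) ^ 2 = ((h θ + h (θ + π)) / 2) ^ 2 + c := by
  have hcmp := compare hh hg hper gper h0 g0 hM hkM gkM hyp
  have hd : ∀ {f : ℝ → ℝ}, Continuous f → ∀ α, HasDerivAt (AA f)
      (f (α + 3 * π / 2) - f (α + π / 2)) α := by
    intro f hf α
    have e : AA f = fun α => (∫ θ in (0:ℝ)..(α + 3 * π / 2), f θ) - ∫ θ in (0:ℝ)..(α + π / 2), f θ := by
      funext α
      unfold AA
      rw [intervalIntegral.integral_interval_sub_left (hf.intervalIntegrable _ _)
        (hf.intervalIntegrable _ _)]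
    rw [e]
    have h1 : HasDerivAt (fun u => ∫ θ in (0:ℝ)..u, f θ) (f (α + 3 * π / 2)) (α + 3 * π / 2) :=
      intervalIntegral.integral_hasDerivAt_right (hf.intervalIntegrable _ _)
        (hf.stronglyMeasurableAtFilter _ _) hf.continuousAt
    have h2 : HasDerivAt (fun u => ∫ θ in (0:ℝ)..u, f θ) (f (α + π / 2)) (α + π / 2) :=
      intervalIntegral.integral_hasDerivAt_right (hf.intervalIntegrable _ _)
        (hf.stronglyMeasurableAtFilter _ _) hf.continuousAt
    exact (h1.comp_add_const α (3 * π / 2)).sub (h2.comp_add_const α (π / 2))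
  have hB : ∀ α, g (α + 3 * π / 2) - g (α + π / 2) = h (α + 3 * π / 2) - h (α + π / 2) := by
    intro α
    have d1 := (hd hg α).sub (hd hh α)
    have e : (AA g - AA h) = fun _ => AA g 0 - AA h 0 := by
      funext x
      exact (hcmp x 0).1
    rw [e] at d1
    have d2 := d1.unique (hasDerivAt_const α (AA g 0 - AA h 0))
    linarith
  have hC : ∀ θ, g θ - g (θ + π) = h θ - h (θ + π) := by
    intro θ
    have := hB (θ - π / 2)
    rw [show θ - π / 2 + 3 * π / 2 = θ + π by ring, show θ - π / 2 + π / 2 = θ by ring] at this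
    linarith
  refine ⟨hC, ((g 0 ^ 2 + g π ^ 2) - (h 0 ^ 2 + h π ^ 2)) / 2 , ?_⟩
  intro θ
  have h1 := (hcmp (θ + π / 2) (π / 2)).2
  rw [show θ + π / 2 + π / 2 = θ + π by ring, show θ + π / 2 - π / 2 = θ by ring,
    show π / 2 + π / 2 = π by ring, show π / 2 - π / 2 = 0 by ring] at h1
  have h2 := hC θ
  have h3 : (g θ - g (θ + π)) ^ 2 = (h θ - h (θ + π)) ^ 2 := by rw [h2]
  linear_combination (1 / 2) * h1 - (1 / 4) * h3

end Pool.Agent.R763.Str
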