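import Pool.Agent.R763.StrMain

set_option autoImplicit false
open Real Set MeasureTheory Filter Topology
open scoped ENNReal NNReal

namespace Pool.Agent.R763.Str

variable {K : Set E2}

/-- lower triangular linear equivalence -/
noncomputable def triEquiv (l m n : ℝ) (hl : l ≠ 0) (hn : n ≠ 0) : E2 ≃ₗ[ℝ] E2 where
  toFun x := !₂[l * x 0, m * x 0 + n * x 1]
  map_add' x y := by
    ext i; fin_cases i
    · simp; ring
    · simp; ring
  map_smul' c x := by
    ext i; fin_cases i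
    · simp; ring
    · simp; ring
  invFun y := !₂[y 0 / l, (y 1 - m * (y 0 / l)) / n]
  left_inv x := by
    ext i; fin_cases i
    · simp; field_simp
    · simp; field_simp; ring
  right_inv y := by
    ext i; fin_cases i
    · simp; field_simp
    · simp; field_simp; ring

theorem triEquiv_zero (l m n : ℝ) (hl : l ≠ 0) (hn : n ≠ 0) (x : E2) :
    triEquiv l m n hl hn x 0 = l * x 0 := rfl

theorem triEquiv_one (l m n : ℝ) (hl : l ≠ 0) (hn : n ≠ 0) (x : E2) :
    triEquiv l m n hl hn x 1 = m * x 0 + n * x 1 := rfl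

theorem ellipse_of_form (hK : IsCompact K) (hc : Convex ℝ K) (hne : K.Nonempty)
    {v0 v1 a p q : ℝ} (hpos : ∀ θ, 0 < a + p * cos (2 * θ) + q * sin (2 * θ))
    (hform : ∀ θ, hs K θ = v0 * cos θ + v1 * sin θ + √(a + p * cos (2 * θ) + q * sin (2 * θ))) :
    ∃ f : E2 ≃ᵃ[ℝ] E2, K = f '' Metric.closedBall 0 1 := by
  have h1 : 0 < a + p := by simpa using hpos 0
  have h2 : 0 < a - p := by
    have := hpos (π / 2)
    rw [show 2 * (π / 2) = π by ring, Real.cos_pi, Real.sin_pi] at this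
    linarith
  have hapos : 0 < a := by linarith
  have hdet : p ^ 2 + q ^ 2 < a ^ 2 := by
    obtain ⟨φ, ha, hb⟩ := exists_polar (-p) (-q)
    have h3 := hpos (φ / 2)
    rw [show 2 * (φ / 2) = φ by ring] at h3
    set ρ := √((-p) ^ 2 + (-q) ^ 2) with hρ
    have hρ0 : 0 ≤ ρ := Real.sqrt_nonneg _
    have hρ2 : ρ ^ 2 = p ^ 2 + q ^ 2 := by
      rw [hρ, Real.sq_sqrt (by positivity)]; ring
    have h4 : a + p * cos φ + q * sin φ = a - ρ := by
      have e1 : p = - (ρ * cos φ) := by linarith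
      have e2 : q = - (ρ * sin φ) := by linarith
      have e3 := Real.sin_sq_add_cos_sq φ
      calc a + p * cos φ + q * sin φ = a + (- (ρ * cos φ)) * cos φ + (- (ρ * sin φ)) * sin φ := by
            rw [← e1, ← e2]
        _ = a - ρ := by linear_combination (-ρ) * e3
    rw [h4] at h3
    nlinarith
  set l := √(a + p) with hl
  have hl0 : 0 < l := Real.sqrt_pos.2 h1
  have hl2 : l ^ 2 = a + p := Real.sq_sqrt h1.le
  set m := q / l with hm
  have hlm : l * m = q := by rw [hm]; field_simp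
  have hn1 : 0 < a - p - m ^ 2 := by
    have : m ^ 2 * (a + p) = q ^ 2 := by rw [← hl2, ← hlm]; ring
    by_contra hcon
    push Not at hcon
    have h5 : (a - p - m ^ 2) * (a + p) ≤ 0 := mul_nonpos_of_nonpos_of_nonneg hcon h1.le
    nlinarith
  set n := √(a - p - m ^ 2) with hn
  have hn0 : 0 < n := Real.sqrt_pos.2 hn1
  have hn2 : n ^ 2 = a - p - m ^ 2 := Real.sq_sqrt hn1.le
  have hquad : ∀ θ, (l * cos θ + m * sin θ) ^ 2 + (n * sin θ) ^ 2
      = a + p * cos (2 * θ) + q * sin (2 * θ) := by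
    intro θ
    rw [Real.cos_two_mul, Real.sin_two_mul]
    have e3 := Real.sin_sq_add_cos_sq θ
    linear_combination (cos θ) ^ 2 * hl2 + 2 * cos θ * sin θ * hlm + (sin θ) ^ 2 * hn2
      + (a - p) * e3
  set v : E2 := !₂[v0, v1] with hv
  have hprv : ∀ θ, pr v θ = v0 * cos θ + v1 * sin θ := by
    intro θ; simp [pr, hv]
  set A := triEquiv l m n hl0.ne' hn0.ne' with hA
  have hprA : ∀ (x : E2) θ, pr (A x) θ = x 0 * (l * cos θ + m * sin θ) + x 1 * (n * sin θ) := by
    intro x θ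
    rw [pr, hA, triEquiv_zero, triEquiv_one]; ring
  refine ⟨A.toAffineEquiv.trans (AffineEquiv.constVAdd ℝ E2 v), ?_⟩
  have hf : ∀ x : E2, (A.toAffineEquiv.trans (AffineEquiv.constVAdd ℝ E2 v)) x = v + A x := by
    intro x; rfl
  ext y
  rw [mem_iff hK hc hne]
  constructor
  · intro hy
    set x := A.symm (y - v) with hx
    have hAx : A x = y - v := by rw [hx, LinearEquiv.apply_symm_apply]
    refine ⟨x, ?_, by rw [hf, hAx]; abel⟩
    rw [mem_closedBall_zero_iff]
    by_cases hx0 : x = 0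
    · rw [hx0, norm_zero]; exact zero_le_one
    · obtain ⟨θ, hw0, hw1⟩ := exists_polar ((x 0 - m * (x 1 / n)) / l) (x 1 / n)
      set ρ := √(((x 0 - m * (x 1 / n)) / l) ^ 2 + (x 1 / n) ^ 2) with hρ
      have hx1e : x 1 = ρ * (n * sin θ) := by
        rw [div_eq_iff hn0.ne'] at hw1
        linarith
      have hx0e : x 0 = ρ * (l * cos θ + m * sin θ) := by
        rw [div_eq_iff hl0.ne'] at hw0
        rw [hw1] at hw0
        linarith
      have hρ0 : 0 ≤ ρ := Real.sqrt_nonneg _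
      set Q1 := (l * cos θ + m * sin θ) ^ 2 + (n * sin θ) ^ 2 with hQ1
      have hQ1pos : 0 < Q1 := by rw [hQ1, hquad]; exact hpos θ
      have h5 : pr (A x) θ ≤ √Q1 := by
        have := hy θ
        rw [hform, ← hquad, ← hprv] at this
        rw [hAx, pr_sub]; linarith
      have h6 : pr (A x) θ = ρ * Q1 := by
        rw [hprA, hx0e, hx1e, hQ1]
        ring
      rw [h6] at h5
      have hs0 : 0 < √Q1 := Real.sqrt_pos.2 hQ1pos
      have hs2 : √Q1 * √Q1 = Q1 := Real.mul_self_sqrt hQ1pos.le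
      have h7 : ρ * √Q1 ≤ 1 := by
        have : ρ * √Q1 * √Q1 ≤ 1 * √Q1 := by rw [mul_assoc, hs2, one_mul]; exact h5
        exact le_of_mul_le_mul_right this hs0
      have h8 : ‖x‖ ^ 2 = (ρ * √Q1) ^ 2 := by
        have hsq : √Q1 ^ 2 = Q1 := Real.sq_sqrt hQ1pos.le
        have e4 : (ρ * √Q1) ^ 2 = ρ ^ 2 * Q1 := by
          calc (ρ * √Q1) ^ 2 = ρ ^ 2 * √Q1 ^ 2 := mul_pow _ _ _
            _ = ρ ^ 2 * Q1 := by rw [hsq]
        rw [e4, norm_sq_eq, hx0e, hx1e, hQ1]; ring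
      have h9 : ‖x‖ = ρ * √Q1 := by
        rwa [sq_eq_sq₀ (norm_nonneg _) (mul_nonneg hρ0 hs0.le)] at h8
      rw [h9]; exact h7
  · rintro ⟨x, hx, rfl⟩ θ
    rw [mem_closedBall_zero_iff] at hx
    rw [hf, pr_add, hprv, hform, ← hquad, hprA]
    have hxsq : x 0 ^ 2 + x 1 ^ 2 ≤ 1 := by
      rw [← norm_sq_eq]
      nlinarith [norm_nonneg x]
    have h5 : |x 0 * (l * cos θ + m * sin θ) + x 1 * (n * sin θ)|
        ≤ √((l * cos θ + m * sin θ) ^ 2 + (n * sin θ) ^ 2) := by
      apply Real.abs_le_sqrt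
      set A1 := l * cos θ + m * sin θ
      set B1 := n * sin θ
      calc (x 0 * A1 + x 1 * B1) ^ 2 ≤ (x 0 ^ 2 + x 1 ^ 2) * (A1 ^ 2 + B1 ^ 2) := by
            nlinarith [sq_nonneg (x 0 * B1 - x 1 * A1)]
        _ ≤ 1 * (A1 ^ 2 + B1 ^ 2) := mul_le_mul_of_nonneg_right hxsq (by positivity)
        _ = _ := one_mul _
    have := (abs_le.1 h5).2
    linarith

end Pool.Agent.R763.Str
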