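import Pool.Agent.R763.StrCauchy

set_option autoImplicit false
open Real Set MeasureTheory Filter Topology
open scoped ENNReal NNReal Pointwise

namespace Pool.Agent.R763.Str

variable {K : Set E2}

theorem integral_pr (x : E2) (a b : ℝ) :
    ∫ θ in a..b, pr x θ = pr x (b - π / 2) - pr x (a - π / 2) := by
  have := intervalIntegral.integral_eq_sub_of_hasDerivAt (a := a) (b := b)
    (f := fun t => pr x (t - π / 2)) (f' := fun t => pr x t) (by
      intro t _
      have h := (hasDerivAt_pr x (t - π / 2)).comp_sub_const t (π / 2)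
      rw [sub_add_cancel] at h
      exact h) ((continuous_pr_right x).intervalIntegrable _ _)
  exact this

theorem integral_pr_period (x : E2) : ∫ θ in (0:ℝ)..(2 * π), pr x θ = 0 := by
  rw [integral_pr]
  have : pr x (2 * π - π / 2) = pr x (0 - π / 2) := by
    rw [← pr_periodic x (0 - π / 2)]; congr 1; ring
  rw [this, sub_self]

theorem integral_pr_arc (x : E2) (θ s : ℝ) :
    ∫ φ in (θ - s)..(θ + s), pr x φ = 2 * sin s * pr x θ := by
  rw [integral_pr]
  simp only [pr]
  have e1 : cos (θ + s - π / 2) = sin (θ + s) := Real.cos_sub_pi_div_two _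
  have e2 : sin (θ + s - π / 2) = - cos (θ + s) := Real.sin_sub_pi_div_two _
  have e3 : cos (θ - s - π / 2) = sin (θ - s) := Real.cos_sub_pi_div_two _
  have e4 : sin (θ - s - π / 2) = - cos (θ - s) := Real.sin_sub_pi_div_two _
  rw [e1, e2, e3, e4, Real.sin_add, Real.sin_sub, Real.cos_add, Real.cos_sub]
  ring

/-- the string functional -/
noncomputable def FF (h : ℝ → ℝ) (x : E2) : ℝ := ∫ θ in (0:ℝ)..(2 * π), max (pr x θ) (h θ)

theorem hs_translate (hK : IsCompact K) (hne : K.Nonempty) (v : E2) (θ : ℝ) :
    hs ((fun x => x + v) '' K) θ = hs K θ + pr v θ := by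
  have hc : IsCompact ((fun x => x + v) '' K) := hK.image (by fun_prop)
  apply le_antisymm
  · apply hs_le hc (hne.image _)
    rintro _ ⟨y, hy, rfl⟩
    simp only
    rw [pr_add]
    linarith [le_hs hK hy θ]
  · obtain ⟨x, hx, he, _⟩ := exists_max hK hne θ
    have := le_hs hc (mem_image_of_mem (fun x => x + v) hx) θ
    rw [pr_add, he] at this
    exact this

theorem FF_translate {h : ℝ → ℝ} (hh : Continuous h) (x v : E2) :
    FF (fun θ => h θ + pr v θ) (x + v) = FF h x := by
  unfold FF
  have : ∀ θ, max (pr (x + v) θ) (h θ + pr v θ) = max (pr x θ) (h θ) + pr v θ := by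
    intro θ; rw [pr_add, max_add_add_right]
  simp only [this]
  rw [intervalIntegral.integral_add, integral_pr_period, add_zero]
  · exact (((continuous_pr_right x).max hh)).intervalIntegrable _ _
  · exact (continuous_pr_right v).intervalIntegrable _ _

theorem W_translate (hK : IsCompact K) (hne : K.Nonempty) (v : E2) :
    W ((fun x => x + v) '' K) = W K := by
  unfold W
  simp only [hs_translate hK hne]
  rw [intervalIntegral.integral_add, integral_pr_period, add_zero]
  · exact (hs_continuous hK hne).intervalIntegrable _ _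
  · exact (continuous_pr_right v).intervalIntegrable _ _

theorem pos_of_interior (hK : IsCompact K) (h0 : (0 : E2) ∈ interior K) :
    ∃ r, 0 < r ∧ ∀ θ, r ≤ hs K θ := by
  obtain ⟨r, hr, hball⟩ := Metric.isOpen_iff.1 isOpen_interior 0 h0
  refine ⟨r / 2, by positivity, ?_⟩
  intro θ
  have hmem : pt (r / 2) θ ∈ K := by
    apply interior_subset
    apply hball
    rw [mem_ball_zero_iff]
    have : ‖pt (r / 2) θ‖ ^ 2 = (r / 2) ^ 2 := by
      rw [norm_sq_eq]; simp only [pt, PiLp.toLp_apply, Matrix.cons_val_zero, Matrix.cons_val_one]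
      have := Real.sin_sq_add_cos_sq θ
      linear_combination ((r / 2) ^ 2) * this
    have h2 : ‖pt (r / 2) θ‖ = r / 2 := by
      rwa [sq_eq_sq₀ (norm_nonneg _) (by positivity)] at this
    rw [h2]; linarith
  have := le_hs hK hmem θ
  rw [pr_pt] at this
  simpa using this

theorem cauchy (hK : IsCompact K) (hc : Convex ℝ K) (hint : (interior K).Nonempty) :
    μH[1] (frontier K) = ENNReal.ofReal (W K) ∧ 0 ≤ W K := by
  obtain ⟨x0, hx0⟩ := hint
  have hne : K.Nonempty := ⟨x0, interior_subset hx0⟩
  set f : E2 ≃ᵢ E2 := IsometryEquiv.addRight (-x0) with hf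
  have hK' : IsCompact ((fun x => x + -x0) '' K) := hK.image (by fun_prop)
  have hc' : Convex ℝ ((fun x => x + -x0) '' K) := by
    have := hc.translate (-x0)
    have e : (fun x : E2 => x + -x0) = (fun x => -x0 + x) := by
      funext y; exact add_comm _ _
    rw [e]; exact this
  have h0 : (0 : E2) ∈ interior ((fun x => x + -x0) '' K) := by
    have := f.toHomeomorph.image_interior K
    show (0 : E2) ∈ interior (f.toHomeomorph '' K)
    rw [← this]
    exact ⟨x0, hx0, by simp [hf]⟩
  have h1 := cauchy_zero hK' hc' h0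
  rw [W_translate hK hne] at h1
  have h2 : μH[1] (frontier ((fun x => x + -x0) '' K)) = μH[1] (frontier K) := by
    have : frontier (f.toHomeomorph '' K) = f.toHomeomorph '' (frontier K) :=
      (f.toHomeomorph.image_frontier K).symm
    show μH[1] (frontier (f.toHomeomorph '' K)) = _
    rw [this]
    exact f.hausdorffMeasure_image 1 (frontier K)
  refine ⟨h2 ▸ h1, ?_⟩
  obtain ⟨r, hr, hlow⟩ := pos_of_interior hK' h0
  rw [← W_translate hK hne (-x0)]
  unfold W
  apply intervalIntegral.integral_nonneg (by positivity)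
  intro θ _
  exact hr.le.trans (hlow θ)

theorem perim_toReal (hK : IsCompact K) (hc : Convex ℝ K) (hint : (interior K).Nonempty) :
    (μH[1] (frontier K)).toReal = W K := by
  obtain ⟨h1, h2⟩ := cauchy hK hc hint
  rw [h1, ENNReal.toReal_ofReal h2]

theorem perim_hull (hK : IsCompact K) (hc : Convex ℝ K) (hint : (interior K).Nonempty) (x : E2) :
    (μH[1] (frontier (convexHull ℝ (insert x K)))).toReal = FF (hs K) x := by
  have hne : K.Nonempty := hint.mono interior_subset
  rw [perim_toReal (isCompact_hull hK hc hne x) (convex_convexHull ℝ _)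
    (hint.mono (interior_mono ((subset_insert x K).trans (subset_convexHull ℝ _))))]
  unfold W FF
  simp only [hs_hull hK hc hne x]

end Pool.Agent.R763.Str
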