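import Mathlib

set_option autoImplicit false
open Real Set MeasureTheory Filter Topology

namespace Pool.Agent.R763.Str

/-- sub-derivative -/
def Sub (f : ℝ → ℝ) (d θ : ℝ) : Prop :=
  ∀ ε > 0, ∀ᶠ φ in 𝓝 θ, f θ + d * (φ - θ) - ε * |φ - θ| ≤ f φ

theorem deriv_bound {m : ℝ → ℝ} {d θ : ℝ} (hm : HasDerivAt m d θ) {ε : ℝ} (hε : 0 < ε) :
    ∀ᶠ φ in 𝓝 θ, |m φ - m θ - d * (φ - θ)| ≤ ε * |φ - θ| := by
  have h := hasDerivAt_iff_isLittleO.1 hm
  have h2 := h.bound hε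
  filter_upwards [h2] with φ hφ
  simpa [Real.norm_eq_abs, mul_comm] using hφ

theorem sub_of_touch {f m : ℝ → ℝ} {d θ : ℝ} (hm : HasDerivAt m d θ) (h0 : m θ = f θ)
    (hle : ∀ᶠ φ in 𝓝 θ, m φ ≤ f φ) : Sub f d θ := by
  intro ε hε
  filter_upwards [deriv_bound hm hε, hle] with φ h1 h2
  have := (abs_le.1 h1).1
  rw [← h0]; linarith

theorem mono_of_sub {G : ℝ → ℝ} (hc : Continuous G) (h : ∀ x, Sub G 0 x) : Monotone G := by
  intro a b hab
  have := image_le_of_liminf_slope_right_le_deriv_boundary (f := fun x => - G x) (a := a) (b := b)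
    (hc.neg.continuousOn) (B := fun _ => - G a) (B' := fun _ => 0) le_rfl continuousOn_const
    (fun x _ => hasDerivWithinAt_const _ _ _) (by
      intro x _ r hr
      have hr' : (0:ℝ) < r / 2 := by linarith
      have h1 := h x (r / 2) hr'
      have h2 : ∀ᶠ z in 𝓝[>] x, slope (fun x => - G x) x z < r := by
        have h3 : ∀ᶠ z in 𝓝[>] x, G x + 0 * (z - x) - r / 2 * |z - x| ≤ G z :=
          h1.filter_mono nhdsWithin_le_nhds
        filter_upwards [h3, self_mem_nhdsWithin] with z hz hzx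
        have hzx' : 0 < z - x := sub_pos.2 hzx
        rw [abs_of_pos hzx'] at hz
        rw [slope_def_field, div_lt_iff₀ hzx']
        nlinarith
      exact h2.frequently)
  have h5 : - G b ≤ - G a := this (right_mem_Icc.2 hab)
  linarith

theorem const_of_sub {G : ℝ → ℝ} (hc : Continuous G) (h : ∀ x, Sub G 0 x) (a b : ℝ) :
    G a = G b := by
  have h1 := mono_of_sub hc h
  have h2 : Monotone (fun x => G (-x)) := by
    apply mono_of_sub (by fun_prop)
    intro x ε hε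
    have h3 := h (-x) ε hε
    have h4 : Tendsto (fun y : ℝ => -y) (𝓝 x) (𝓝 (-x)) := (continuous_neg.tendsto x)
    filter_upwards [h4.eventually h3] with y hy
    rw [show -y - -x = -(y - x) by ring, abs_neg] at hy
    linarith
  have key : ∀ a b, a ≤ b → G a = G b := by
    intro a b hab
    apply le_antisymm (h1 hab)
    have := h2 (neg_le_neg hab)
    simpa using this
  rcases le_total a b with hab | hab
  · exact key a b hab
  · exact (key b a hab).symm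

theorem hasDerivAt_of_sub {f d : ℝ → ℝ} (hf : Continuous f) (hd : Continuous d)
    (h : ∀ θ, Sub f (d θ) θ) (θ : ℝ) : HasDerivAt f (d θ) θ := by
  set I : ℝ → ℝ := fun x => ∫ t in (0:ℝ)..x, d t with hI
  have hI' : ∀ x, HasDerivAt I (d x) x := by
    intro x
    exact intervalIntegral.integral_hasDerivAt_right (hd.intervalIntegrable _ _)
      (hd.stronglyMeasurableAtFilter _ _) hd.continuousAt
  have hIc : Continuous I := by
    rw [continuous_iff_continuousAt]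
    exact fun x => (hI' x).continuousAt
  have hG : ∀ x, Sub (fun x => f x - I x) 0 x := by
    intro x ε hε
    have hε' : 0 < ε / 2 := by linarith
    filter_upwards [h x (ε / 2) hε', deriv_bound (hI' x) hε'] with y h1 h2
    have := (abs_le.1 h2).2
    linarith
  have hconst := const_of_sub (hf.sub hIc) hG
  have e : f = fun x => I x + (f 0 - I 0) := by
    funext x
    have : f x - I x = f 0 - I 0 := hconst x 0
    linarith
  rw [e]
  exact (hI' θ).add_const _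

/-- ODE lemma -/
theorem ode_one {o : ℝ → ℝ} (ho : ∀ θ, HasDerivAt o (o (θ + π / 2)) θ)
    (hanti : ∀ θ, o (θ + π) = - o θ) :
    ∃ p q : ℝ, ∀ θ, o θ = p * cos θ + q * sin θ := by
  have h1 : ∀ θ, HasDerivAt (fun θ => o (θ + π / 2)) (- o θ) θ := by
    intro θ
    have := (ho (θ + π / 2)).comp_add_const θ (π / 2)
    rw [show θ + π / 2 + π / 2 = θ + π by ring, hanti] at this
    exact this
  have hp : ∀ θ, HasDerivAt (fun θ => o θ * cos θ - o (θ + π / 2) * sin θ) 0 θ := by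
    intro θ
    exact (((ho θ).mul (Real.hasDerivAt_cos θ)).sub
      ((h1 θ).mul (Real.hasDerivAt_sin θ))).congr_deriv (by ring)
  have hq : ∀ θ, HasDerivAt (fun θ => o θ * sin θ + o (θ + π / 2) * cos θ) 0 θ := by
    intro θ
    exact (((ho θ).mul (Real.hasDerivAt_sin θ)).add
      ((h1 θ).mul (Real.hasDerivAt_cos θ))).congr_deriv (by ring)
  have hpc := is_const_of_deriv_eq_zero (fun θ => (hp θ).differentiableAt) (fun θ => (hp θ).deriv)
  have hqc := is_const_of_deriv_eq_zero (fun θ => (hq θ).differentiableAt) (fun θ => (hq θ).deriv)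
  refine ⟨o 0 * cos 0 - o (0 + π / 2) * sin 0, o 0 * sin 0 + o (0 + π / 2) * cos 0, fun θ => ?_⟩
  have a := hpc θ 0
  have b := hqc θ 0
  have c := Real.sin_sq_add_cos_sq θ
  linear_combination (cos θ) * a + (sin θ) * b - (o θ) * c

theorem ode_two {D D2 : ℝ → ℝ} (h1 : ∀ θ, HasDerivAt D (D2 θ) θ)
    (h2 : ∀ θ, HasDerivAt D2 (-4 * D θ) θ) :
    ∃ p q : ℝ, ∀ θ, D θ = p * cos (2 * θ) + q * sin (2 * θ) := by
  have hc2 : ∀ θ : ℝ, HasDerivAt (fun θ : ℝ => cos (2 * θ)) (- sin (2 * θ) * 2) θ := by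
    intro θ
    have : HasDerivAt (fun θ : ℝ => 2 * θ) 2 θ := by simpa using (hasDerivAt_id θ).const_mul 2
    exact this.cos
  have hs2 : ∀ θ : ℝ, HasDerivAt (fun θ : ℝ => sin (2 * θ)) (cos (2 * θ) * 2) θ := by
    intro θ
    have : HasDerivAt (fun θ : ℝ => 2 * θ) 2 θ := by simpa using (hasDerivAt_id θ).const_mul 2
    exact this.sin
  have hp : ∀ θ, HasDerivAt (fun θ => D θ * cos (2 * θ) - D2 θ * sin (2 * θ) / 2) 0 θ := by
    intro θ
    exact (((h1 θ).mul (hc2 θ)).sub (((h2 θ).mul (hs2 θ)).div_const 2)).congr_deriv (by ring)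
  have hq : ∀ θ, HasDerivAt (fun θ => D θ * sin (2 * θ) + D2 θ * cos (2 * θ) / 2) 0 θ := by
    intro θ
    exact (((h1 θ).mul (hs2 θ)).add (((h2 θ).mul (hc2 θ)).div_const 2)).congr_deriv (by ring)
  have hpc := is_const_of_deriv_eq_zero (fun θ => (hp θ).differentiableAt) (fun θ => (hp θ).deriv)
  have hqc := is_const_of_deriv_eq_zero (fun θ => (hq θ).differentiableAt) (fun θ => (hq θ).deriv)
  refine ⟨D 0 * cos (2 * 0) - D2 0 * sin (2 * 0) / 2, D 0 * sin (2 * 0) + D2 0 * cos (2 * 0) / 2,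
    fun θ => ?_⟩
  have a := hpc θ 0
  have b := hqc θ 0
  have c := Real.sin_sq_add_cos_sq (2 * θ)
  linear_combination (cos (2 * θ)) * a + (sin (2 * θ)) * b - (D θ) * c

/-- the functional equation forces second harmonics -/
theorem E_form {E D : ℝ → ℝ} {s1 : ℝ} (hs1 : s1 < π / 2) (hs10 : 0 ≤ s1)
    (hED : ∀ θ, HasDerivAt E (D θ) θ) (hper : ∀ θ, E (θ + π) = E θ)
    (hfun : ∀ s, s1 < s → s < π / 2 → ∀ θ, D θ * sin (2 * s) = E (θ + s) - E (θ - s)) :
    ∃ a p q : ℝ, ∀ θ, E θ = a + p * cos (2 * θ) + q * sin (2 * θ) := by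
  have hpi := Real.pi_pos
  set ρ1 := π / 2 - s1 with hρ1
  have hρ1pos : 0 < ρ1 := by linarith
  have hρ1le : ρ1 ≤ π / 2 := by linarith
  have hsinpos : ∀ ρ, 0 < ρ → ρ < ρ1 → 0 < sin (2 * ρ) := fun ρ h1 h2 =>
    Real.sin_pos_of_pos_of_lt_pi (by linarith) (by linarith)
  -- equation (1)
  have eq1 : ∀ ρ, 0 < ρ → ρ < ρ1 → ∀ θ, E (θ + π / 2 - ρ) - E (θ + π / 2 + ρ) = sin (2 * ρ) * D θ := by
    intro ρ h1 h2 θ
    have := hfun (π / 2 - ρ) (by linarith) (by linarith) θ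
    rw [show 2 * (π / 2 - ρ) = π - 2 * ρ by ring, Real.sin_pi_sub] at this
    have h3 := hper (θ - (π / 2 - ρ))
    rw [show θ - (π / 2 - ρ) + π = θ + π / 2 + ρ by ring] at h3
    rw [h3, show θ + π / 2 - ρ = θ + (π / 2 - ρ) by ring, ← this]; ring
  -- D (θ + π/2) = - D θ
  have hDanti : ∀ θ, D (θ + π / 2) = - D θ := by
    intro θ
    have hA : HasDerivAt (fun ρ => E (θ + π / 2 - ρ) - E (θ + π / 2 + ρ)) (-2 * D (θ + π / 2)) 0 := by
      have a1 : HasDerivAt (fun ρ => E (θ + π / 2 - ρ)) (- D (θ + π / 2 - 0)) 0 :=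
        HasDerivAt.comp_const_sub (θ + π / 2) 0 (by simpa using hED (θ + π / 2))
      have a2 : HasDerivAt (fun ρ => E (θ + π / 2 + ρ)) (D (θ + π / 2 + 0)) 0 :=
        HasDerivAt.comp_const_add (θ + π / 2) 0 (by simpa using hED (θ + π / 2))
      rw [sub_zero] at a1
      rw [add_zero] at a2
      exact (a1.sub a2).congr_deriv (by ring)
    have hB : HasDerivAt (fun ρ : ℝ => sin (2 * ρ) * D θ) (2 * D θ) 0 := by
      have b1 : HasDerivAt (fun ρ : ℝ => 2 * ρ) 2 0 := by simpa using (hasDerivAt_id (0:ℝ)).const_mul 2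
      have b2 : HasDerivAt (fun ρ : ℝ => sin (2 * ρ)) (cos (2 * 0) * 2) 0 := b1.sin
      have b3 := b2.mul_const (D θ)
      rw [mul_zero, Real.cos_zero, one_mul] at b3
      exact b3
    have hA' := (hasDerivWithinAt_iff_tendsto_slope' (s := Ioi (0:ℝ)) (by simp)).1 (hA.hasDerivWithinAt (s := Ioi 0))
    have hB' := (hasDerivWithinAt_iff_tendsto_slope' (s := Ioi (0:ℝ)) (by simp)).1 (hB.hasDerivWithinAt (s := Ioi 0))
    have hAB : (slope (fun ρ => E (θ + π / 2 - ρ) - E (θ + π / 2 + ρ)) 0)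
        =ᶠ[𝓝[>] (0:ℝ)] (slope (fun ρ : ℝ => sin (2 * ρ) * D θ) 0) := by
      filter_upwards [Ioo_mem_nhdsGT hρ1pos] with ρ hρ
      rw [slope_def_field, slope_def_field, eq1 ρ hρ.1 hρ.2 θ]
      simp
    have := tendsto_nhds_unique (hA'.congr' hAB) hB'
    linarith
  -- equation (2)
  have eq2 : ∀ ρ, 0 < ρ → ρ < ρ1 → ∀ θ, E (θ + ρ) - E (θ - ρ) = sin (2 * ρ) * D θ := by
    intro ρ h1 h2 θ
    have h3 := eq1 ρ h1 h2 (θ - π / 2)
    rw [sub_add_cancel] at h3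
    have h4 := hDanti (θ - π / 2)
    rw [sub_add_cancel] at h4
    rw [h4]; linarith
  -- D is differentiable
  set ρ0 := ρ1 / 2 with hρ0
  have hρ0pos : 0 < ρ0 := by linarith
  have hρ0lt : ρ0 < ρ1 := by linarith
  have hs0 := hsinpos ρ0 hρ0pos hρ0lt
  set D2 : ℝ → ℝ := fun θ => (D (θ + ρ0) - D (θ - ρ0)) / sin (2 * ρ0) with hD2
  have hD : ∀ θ, HasDerivAt D (D2 θ) θ := by
    intro θ
    have a1 := ((hED (θ + ρ0)).comp_add_const θ ρ0)
    have a2 := ((hED (θ - ρ0)).comp_sub_const θ ρ0)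
    have a3 := (a1.sub a2).div_const (sin (2 * ρ0))
    have e : D = fun θ => (E (θ + ρ0) - E (θ - ρ0)) / sin (2 * ρ0) := by
      funext t
      rw [eq2 ρ0 hρ0pos hρ0lt t]
      field_simp
    rw [e]
    exact a3
  set D3 : ℝ → ℝ := fun θ => (D2 (θ + ρ0) - D2 (θ - ρ0)) / sin (2 * ρ0) with hD3
  have hD2' : ∀ θ, HasDerivAt D2 (D3 θ) θ := by
    intro θ
    have a1 := ((hD (θ + ρ0)).comp_add_const θ ρ0)
    have a2 := ((hD (θ - ρ0)).comp_sub_const θ ρ0)
    exact (a1.sub a2).div_const (sin (2 * ρ0))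
  -- differentiate eq2 in ρ
  have eq3 : ∀ ρ, 0 < ρ → ρ < ρ1 → ∀ θ, D (θ + ρ) + D (θ - ρ) = 2 * cos (2 * ρ) * D θ := by
    intro ρ h1 h2 θ
    have a1 : HasDerivAt (fun ρ => E (θ + ρ)) (D (θ + ρ)) ρ := HasDerivAt.comp_const_add θ ρ (hED _)
    have a2 : HasDerivAt (fun ρ => E (θ - ρ)) (- D (θ - ρ)) ρ := HasDerivAt.comp_const_sub θ ρ (hED _)
    have a3 := a1.sub a2
    have b1 : HasDerivAt (fun ρ : ℝ => 2 * ρ) 2 ρ := by simpa using (hasDerivAt_id ρ).const_mul 2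
    have b2 : HasDerivAt (fun ρ : ℝ => sin (2 * ρ)) (cos (2 * ρ) * 2) ρ := b1.sin
    have b3 := b2.mul_const (D θ)
    have e : ((fun ρ => E (θ + ρ)) - fun ρ => E (θ - ρ)) =ᶠ[𝓝 ρ] fun ρ => sin (2 * ρ) * D θ := by
      filter_upwards [Ioo_mem_nhds h1 h2] with t ht
      exact eq2 t ht.1 ht.2 θ
    have := (a3.congr_of_eventuallyEq e.symm).unique b3
    linarith
  have eq4 : ∀ ρ, 0 < ρ → ρ < ρ1 → ∀ θ, D2 (θ + ρ) - D2 (θ - ρ) = -4 * sin (2 * ρ) * D θ := by
    intro ρ h1 h2 θ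
    have a1 : HasDerivAt (fun ρ => D (θ + ρ)) (D2 (θ + ρ)) ρ := HasDerivAt.comp_const_add θ ρ (hD _)
    have a2 : HasDerivAt (fun ρ => D (θ - ρ)) (- D2 (θ - ρ)) ρ := HasDerivAt.comp_const_sub θ ρ (hD _)
    have a3 := a1.add a2
    have b1 : HasDerivAt (fun ρ : ℝ => 2 * ρ) 2 ρ := by simpa using (hasDerivAt_id ρ).const_mul 2
    have b2 : HasDerivAt (fun ρ : ℝ => cos (2 * ρ)) (- sin (2 * ρ) * 2) ρ := b1.cos
    have b3 := (b2.const_mul 2).mul_const (D θ)
    have e : ((fun ρ => D (θ + ρ)) + fun ρ => D (θ - ρ)) =ᶠ[𝓝 ρ] fun ρ => 2 * cos (2 * ρ) * D θ := by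
      filter_upwards [Ioo_mem_nhds h1 h2] with t ht
      exact eq3 t ht.1 ht.2 θ
    have := (a3.congr_of_eventuallyEq e.symm).unique b3
    linarith
  have hD3eq : ∀ θ, D3 θ = -4 * D θ := by
    intro θ
    rw [hD3]
    simp only
    rw [eq4 ρ0 hρ0pos hρ0lt θ]
    field_simp
  have hD2'' : ∀ θ, HasDerivAt D2 (-4 * D θ) θ := fun θ => hD3eq θ ▸ hD2' θ
  obtain ⟨p, q, hpq⟩ := ode_two hD hD2''
  refine ⟨E 0 + q / 2, - q / 2, p / 2, ?_⟩
  have hc2 : ∀ θ : ℝ, HasDerivAt (fun θ : ℝ => cos (2 * θ)) (- sin (2 * θ) * 2) θ := by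
    intro θ
    have : HasDerivAt (fun θ : ℝ => 2 * θ) 2 θ := by simpa using (hasDerivAt_id θ).const_mul 2
    exact this.cos
  have hs2 : ∀ θ : ℝ, HasDerivAt (fun θ : ℝ => sin (2 * θ)) (cos (2 * θ) * 2) θ := by
    intro θ
    have : HasDerivAt (fun θ : ℝ => 2 * θ) 2 θ := by simpa using (hasDerivAt_id θ).const_mul 2
    exact this.sin
  have hfin : ∀ θ, HasDerivAt (fun θ => E θ - ((- q / 2) * cos (2 * θ) + (p / 2) * sin (2 * θ))) 0 θ := by
    intro θ
    exact ((hED θ).sub (((hc2 θ).const_mul (- q / 2)).add ((hs2 θ).const_mul (p / 2)))).congr_deriv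
      (by rw [hpq θ]; ring)
  have hconst := is_const_of_deriv_eq_zero (fun θ => (hfin θ).differentiableAt)
    (fun θ => (hfin θ).deriv)
  intro θ
  have := hconst θ 0
  simp only [mul_zero, Real.cos_zero, Real.sin_zero] at this
  linarith

end Pool.Agent.R763.Str
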