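import Pool.Agent.R763.StrLevel
import Pool.Agent.R763.StrSub

set_option autoImplicit false
open Real Set MeasureTheory Filter Topology
open scoped ENNReal NNReal

namespace Pool.Agent.R763.Str

variable {K : Set E2}

theorem form (hK : IsCompact K) (h0 : (0 : E2) ∈ interior K) (hyp : Hyp K) :
    ∃ v0 v1 a p q : ℝ, (∀ θ, 0 < a + p * cos (2 * θ) + q * sin (2 * θ)) ∧
      ∀ θ, hs K θ = v0 * cos θ + v1 * sin θ + √(a + p * cos (2 * θ) + q * sin (2 * θ)) := by
  have hpi := Real.pi_pos
  have hne : K.Nonempty := ⟨0, interior_subset h0⟩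
  obtain ⟨r, hr, hlow⟩ := pos_of_interior hK h0
  obtain ⟨R, hR⟩ := hK.isBounded.subset_closedBall 0
  have hup : ∀ θ, hs K θ ≤ R := by
    intro θ
    apply hs_le hK hne
    intro y hy
    exact (pr_le_norm y θ).trans (by simpa using hR hy)
  have hRpos : 0 < R := lt_of_lt_of_le hr ((hlow 0).trans (hup 0))
  have hh := hs_continuous hK hne
  obtain ⟨s1, hs10, hs1, hlev⟩ := level hK h0 hyp
  set h := hs K with hhdef
  have hper : ∀ θ, h (θ + 2 * π) = h θ := hs_periodic K
  have hlip : ∀ θ φ, |h θ - h φ| ≤ R * |θ - φ| := hs_lip hK hne hR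
  set e : ℝ → ℝ := fun θ => (h θ + h (θ + π)) / 2 with he
  set o : ℝ → ℝ := fun θ => (h θ - h (θ + π)) / 2 with ho
  set E : ℝ → ℝ := fun θ => (e θ) ^ 2 with hE
  have hoc : Continuous o := by simp only [ho]; fun_prop
  have hec : Continuous e := by simp only [he]; fun_prop
  have hEc : Continuous E := by simp only [hE]; fun_prop
  have hoanti : ∀ θ, o (θ + π) = - o θ := by
    intro θ
    simp only [ho]
    rw [show θ + π + π = θ + 2 * π by ring, hper]; ring
  have heper : ∀ θ, e (θ + π) = e θ := by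
    intro θ
    simp only [he]
    rw [show θ + π + π = θ + 2 * π by ring, hper]; ring
  have hepos : ∀ θ, 0 < e θ := by
    intro θ
    have := hlow θ
    have := hlow (θ + π)
    simp only [he]; linarith
  have heR : ∀ θ, e θ ≤ R := by
    intro θ
    have := hup θ
    have := hup (θ + π)
    simp only [he]; linarith
  have hoR : ∀ θ, o θ ≤ R := by
    intro θ
    have := hup θ
    have := hlow (θ + π)
    simp only [ho]; linarith
  have helip : ∀ θ φ, |e θ - e φ| ≤ R * |θ - φ| := by
    intro θ φ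
    have h1 := abs_le.1 (hlip θ φ)
    have h2 := abs_le.1 (hlip (θ + π) (φ + π))
    rw [show θ + π - (φ + π) = θ - φ by ring] at h2
    rw [abs_le]
    simp only [he]
    constructor <;> linarith [h1.1, h1.2, h2.1, h2.2]
  have hElip : ∀ θ φ, |E θ - E φ| ≤ 2 * R ^ 2 * |θ - φ| := by
    intro θ φ
    have h1 : E θ - E φ = (e θ - e φ) * (e θ + e φ) := by simp only [hE]; ring
    rw [h1, abs_mul]
    have h2 : |e θ + e φ| ≤ 2 * R := by
      rw [abs_of_pos (add_pos (hepos θ) (hepos φ))]
      linarith [heR θ, heR φ]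
    calc |e θ - e φ| * |e θ + e φ| ≤ (R * |θ - φ|) * (2 * R) :=
          mul_le_mul (helip θ φ) h2 (abs_nonneg _) (by positivity)
      _ = _ := by ring
  -- the odd part
  have hsubo : ∀ θ, Sub o (o (θ + π / 2)) θ := by
    intro θ ε hε
    have hε4 : 0 < ε / 4 := by linarith
    obtain ⟨s, hs_gt, hs_lt, hcos_small, hts⟩ : ∃ s, s1 < s ∧ s < π / 2 ∧
        cos s < r / (R + 8 * R ^ 2 / ε) ∧
        |(h (θ + s) - h (θ - s)) / (2 * sin s) - o (θ + π / 2)| < ε / 4 := by
      have hl1 : Tendsto (fun s : ℝ => cos s) (𝓝[<] (π / 2)) (𝓝 0) := by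
        have := (Real.continuous_cos.tendsto (π / 2))
        rw [Real.cos_pi_div_two] at this
        exact this.mono_left nhdsWithin_le_nhds
      have hl2 : Tendsto (fun s : ℝ => (h (θ + s) - h (θ - s)) / (2 * sin s)) (𝓝[<] (π / 2))
          (𝓝 (o (θ + π / 2))) := by
        have h1 : ContinuousAt (fun s : ℝ => (h (θ + s) - h (θ - s)) / (2 * sin s)) (π / 2) := by
          apply ContinuousAt.div
          · fun_prop
          · fun_prop
          · simp
        have h2 : (h (θ + π / 2) - h (θ - π / 2)) / (2 * sin (π / 2)) = o (θ + π / 2) := by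
          simp only [ho]
          rw [Real.sin_pi_div_two, mul_one]
          have := hper (θ - π / 2)
          rw [show θ - π / 2 + 2 * π = θ + π / 2 + π by ring] at this
          rw [this]
        have h3 := h1.tendsto
        rw [h2] at h3
        exact h3.mono_left nhdsWithin_le_nhds
      have hpos : 0 < r / (R + 8 * R ^ 2 / ε) := by positivity
      have h1 := hl1.eventually_lt_const hpos
      have h2 : ∀ᶠ s in 𝓝[<] (π / 2), |(h (θ + s) - h (θ - s)) / (2 * sin s) - o (θ + π / 2)| < ε / 4 := by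
        have := Metric.tendsto_nhds.1 hl2 (ε / 4) hε4
        simpa [Real.dist_eq] using this
      have h3 : ∀ᶠ s in 𝓝[<] (π / 2), s1 < s ∧ s < π / 2 := Ioo_mem_nhdsLT hs1
      obtain ⟨s, ⟨a, b⟩, c⟩ := ((h1.and h2).and h3).exists
      exact ⟨s, c.1, c.2, a, b⟩
    obtain ⟨g, c, hgpos, hgo, hge, hgθ, hgφ⟩ := hlev s hs_gt hs_lt θ
    have hs0 : 0 < s := lt_of_le_of_lt hs10 hs_gt
    have hcos : 0 < cos s := Real.cos_pos_of_mem_Ioo ⟨by linarith, hs_lt⟩
    set t := (h (θ + s) - h (θ - s)) / (2 * sin s) with ht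
    -- even part of g
    have heg : ∀ φ, (g φ + g (φ + π)) / 2 = g φ - o φ := by
      intro φ
      have := hgo φ
      simp only [ho]; linarith
    have hegpos : ∀ φ, 0 < g φ - o φ := by
      intro φ
      rw [← heg]
      have := hgpos φ
      have := hgpos (φ + π)
      linarith
    have hgeE : ∀ φ, (g φ - o φ) ^ 2 = E φ + c := by
      intro φ
      rw [← heg, hge]
    have hbig : 8 * R ^ 2 / ε ≤ g θ - o θ := by
      have h1 : R + 8 * R ^ 2 / ε ≤ g θ := by
        rw [hgθ, le_div_iff₀ (by positivity)]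
        have h2 : cos s * (R + 8 * R ^ 2 / ε) < r := (lt_div_iff₀ (by positivity)).1 hcos_small
        have := hlow (θ + s)
        have := hlow (θ - s)
        nlinarith
      linarith [hoR θ]
    have hegθ := hegpos θ
    set m : ℝ → ℝ := fun φ => cos (φ - θ) * g θ + sin (φ - θ) * t with hm
    have hmθ : m θ = g θ := by simp [hm]
    have hmd : HasDerivAt m t θ := by
      have a1 : HasDerivAt (fun φ : ℝ => φ - θ) 1 θ := (hasDerivAt_id θ).sub_const θ
      have a2 := (a1.cos.mul_const (g θ)).add (a1.sin.mul_const t)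
      refine a2.congr_deriv ?_
      simp
    filter_upwards [deriv_bound hmd hε4] with φ hφ
    have b1 := (abs_le.1 hφ).1
    rw [hmθ] at b1
    have b2 : m φ ≤ g φ := hgφ φ
    -- bound for even part of g
    have b3 : g φ - o φ ≤ (g θ - o θ) + ε / 4 * |φ - θ| := by
      have h1 : ((g φ - o φ) - (g θ - o θ)) * ((g φ - o φ) + (g θ - o θ)) = E φ - E θ := by
        linear_combination hgeE φ - hgeE θ
      have h2 := (abs_le.1 (hElip φ θ)).2
      by_contra hcon
      push Not at hcon
      have hx : 0 ≤ ε / 4 * |φ - θ| := by positivity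
      have h3 : ε / 4 * |φ - θ| * (8 * R ^ 2 / ε) < ((g φ - o φ) - (g θ - o θ)) * ((g φ - o φ) + (g θ - o θ)) := by
        have k1 : ε / 4 * |φ - θ| < (g φ - o φ) - (g θ - o θ) := by linarith
        have k2 : 8 * R ^ 2 / ε ≤ (g φ - o φ) + (g θ - o θ) := by linarith [hegpos φ]
        have k3 : 0 < 8 * R ^ 2 / ε := by positivity
        calc ε / 4 * |φ - θ| * (8 * R ^ 2 / ε) < ((g φ - o φ) - (g θ - o θ)) * (8 * R ^ 2 / ε) :=
              mul_lt_mul_of_pos_right k1 k3
          _ ≤ _ := mul_le_mul_of_nonneg_left k2 (by linarith)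
      have h4 : ε / 4 * |φ - θ| * (8 * R ^ 2 / ε) = 2 * R ^ 2 * |φ - θ| := by
        field_simp; ring
      linarith
    have b4 : -(ε / 4 * |φ - θ|) ≤ (t - o (θ + π / 2)) * (φ - θ) := by
      have h1 : |(t - o (θ + π / 2)) * (φ - θ)| ≤ ε / 4 * |φ - θ| := by
        rw [abs_mul]
        exact mul_le_mul_of_nonneg_right hts.le (abs_nonneg _)
      exact (abs_le.1 h1).1
    have hx : 0 ≤ ε / 4 * |φ - θ| := by positivity
    nlinarith
  have hod : ∀ θ, HasDerivAt o (o (θ + π / 2)) θ :=
    hasDerivAt_of_sub hoc (by fun_prop) hsubo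
  obtain ⟨v0, v1, hv⟩ := ode_one hod hoanti
  -- the even part
  have hEd : ∀ s, s1 < s → s < π / 2 → ∀ θ, HasDerivAt E ((E (θ + s) - E (θ - s)) / sin (2 * s)) θ := by
    intro s hs_gt hs_lt
    have hs0 : 0 < s := lt_of_le_of_lt hs10 hs_gt
    have hsin : 0 < sin s := Real.sin_pos_of_pos_of_lt_pi hs0 (by linarith)
    have hcos : 0 < cos s := Real.cos_pos_of_mem_Ioo ⟨by linarith, hs_lt⟩
    have hsin2 : 0 < sin (2 * s) := by rw [Real.sin_two_mul]; positivity
    apply hasDerivAt_of_sub hEc (by fun_prop)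
    intro θ
    obtain ⟨g, c, hgpos, hgo, hge, hgθ, hgφ⟩ := hlev s hs_gt hs_lt θ
    set t := (h (θ + s) - h (θ - s)) / (2 * sin s) with ht
    have heg : ∀ φ, (g φ + g (φ + π)) / 2 = g φ - o φ := by
      intro φ
      have := hgo φ
      simp only [ho]; linarith
    have hegpos : ∀ φ, 0 < g φ - o φ := by
      intro φ
      rw [← heg]
      have := hgpos φ
      have := hgpos (φ + π)
      linarith
    have hgeE : ∀ φ, (g φ - o φ) ^ 2 = E φ + c := by
      intro φ
      rw [← heg, hge]
    set m : ℝ → ℝ := fun φ => cos (φ - θ) * g θ + sin (φ - θ) * t - o φ with hm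
    have hmθ : m θ = g θ - o θ := by simp [hm]
    have hmd : HasDerivAt m (t - o (θ + π / 2)) θ := by
      have a1 : HasDerivAt (fun φ : ℝ => φ - θ) 1 θ := (hasDerivAt_id θ).sub_const θ
      have a2 := ((a1.cos.mul_const (g θ)).add (a1.sin.mul_const t)).sub (hod θ)
      refine a2.congr_deriv ?_
      simp
    have hmd2 : HasDerivAt (fun φ => m φ ^ 2 - c) ((E (θ + s) - E (θ - s)) / sin (2 * s)) θ := by
      have a3 := (hmd.pow 2).sub_const c
      refine a3.congr_deriv ?_
      rw [hmθ]
      have hh2 : ∀ φ, h φ = e φ + o φ := by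
        intro φ; simp only [he, ho]; ring
      have e1 : g θ - o θ = (e (θ + s) + e (θ - s)) / (2 * cos s) := by
        rw [hgθ, hh2, hh2, eq_div_iff (by positivity), sub_mul, div_mul_cancel₀ _ (by positivity),
          hv (θ + s), hv (θ - s), hv θ, Real.cos_add, Real.cos_sub, Real.sin_add, Real.sin_sub]
        ring
      have e2 : t - o (θ + π / 2) = (e (θ + s) - e (θ - s)) / (2 * sin s) := by
        rw [ht, hh2, hh2, eq_div_iff (by positivity), sub_mul, div_mul_cancel₀ _ (by positivity),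
          hv (θ + s), hv (θ - s), hv (θ + π / 2), Real.cos_add_pi_div_two, Real.sin_add_pi_div_two,
          Real.cos_add, Real.cos_sub, Real.sin_add, Real.sin_sub]
        ring
      rw [e1, e2, Real.sin_two_mul, show (2 - 1 : ℕ) = 1 from rfl, pow_one]
      simp only [hE, Nat.cast_ofNat]
      field_simp
      ring
    apply sub_of_touch hmd2
    · rw [hmθ, hgeE]; ring
    · have hmpos : ∀ᶠ φ in 𝓝 θ, 0 < m φ := by
        apply hmd.continuousAt.eventually_const_lt
        rw [hmθ]; exact hegpos θ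
      filter_upwards [hmpos] with φ hφ
      have h1 : m φ ≤ g φ - o φ := by
        have := hgφ φ
        simp only [hm]; linarith
      have h2 : m φ ^ 2 ≤ (g φ - o φ) ^ 2 := pow_le_pow_left₀ hφ.le h1 2
      rw [hgeE] at h2
      linarith
  obtain ⟨s, hsa, hsb⟩ := exists_between hs1
  have hEper : ∀ θ, E (θ + π) = E θ := fun θ => by simp only [hE, heper]
  obtain ⟨a, p, q, hform⟩ := E_form (E := E) (D := fun θ => (E (θ + s) - E (θ - s)) / sin (2 * s))
    hs1 hs10 (fun θ => hEd s hsa hsb θ) hEper (by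
      intro s' h1 h2 θ
      have h3 := (hEd s hsa hsb θ).unique (hEd s' h1 h2 θ)
      have hs0 : 0 < s' := lt_of_le_of_lt hs10 h1
      have hsin2 : 0 < sin (2 * s') := Real.sin_pos_of_pos_of_lt_pi (by linarith) (by linarith)
      rw [h3, div_mul_cancel₀ _ hsin2.ne'])
  have hEpos : ∀ θ, 0 < E θ := fun θ => by
    have := hepos θ
    simp only [hE]; positivity
  refine ⟨v0, v1, a, p, q, fun θ => by rw [← hform]; exact hEpos θ, ?_⟩
  intro θ
  rw [← hform, ← hv]
  have : √(E θ) = e θ := by
    simp only [hE]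
    exact Real.sqrt_sq (hepos θ).le
  rw [this]
  simp only [he, ho]; ring

end Pool.Agent.R763.Str
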