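import Pool.Agent.R763.StrSupport

set_option autoImplicit false
open Real Set MeasureTheory
open scoped ENNReal NNReal

namespace Pool.Agent.R763.Str

theorem inner_pt (θ : ℝ) (w : E2) : inner ℝ (pt 1 θ) w = pr w θ := by
  rw [PiLp.inner_apply]
  simp [Fin.sum_univ_two, pt, pr]

theorem mem_interior_of_lt {K : Set E2} (hK : IsCompact K) (hc : Convex ℝ K) (hne : K.Nonempty)
    {a : E2} (h : ∀ θ, pr a θ < hs K θ) : a ∈ interior K := by
  have hcont : Continuous (fun θ => hs K θ - pr a θ) :=
    (hs_continuous hK hne).sub (continuous_pr_right a)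
  obtain ⟨θ₀, hθ₀, hmin⟩ := (isCompact_Icc (a := (0:ℝ)) (b := 2 * π)).exists_isMinOn
    ⟨0, by constructor <;> positivity⟩ hcont.continuousOn
  set m := hs K θ₀ - pr a θ₀ with hm
  have hmpos : 0 < m := by have := h θ₀; linarith
  have hall : ∀ θ, m ≤ hs K θ - pr a θ := by
    intro θ
    have hper : Function.Periodic (fun θ => hs K θ - pr a θ) (2 * π) := by
      intro θ; simp only [hs_periodic, pr_periodic]
    obtain ⟨y, hy, he⟩ := hper.exists_mem_Ico₀ (by positivity) θ
    have := hmin (Ico_subset_Icc_self hy)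
    simp only [Set.mem_ofPred_eq] at this
    calc m ≤ _ := this
      _ = _ := he.symm
  rw [mem_interior]
  refine ⟨Metric.ball a m, ?_, Metric.isOpen_ball, Metric.mem_ball_self hmpos⟩
  intro y hy
  rw [mem_iff hK hc hne]
  intro θ
  rw [Metric.mem_ball, dist_eq_norm] at hy
  have h1 := pr_le_norm (y - a) θ
  rw [pr_sub] at h1
  have := hall θ
  linarith

theorem exists_support {K : Set E2} (hK : IsCompact K) (hc : Convex ℝ K) (hne : K.Nonempty)
    {a : E2} (ha : a ∈ frontier K) : ∃ θ, pr a θ = hs K θ := by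
  by_contra hcon
  push Not at hcon
  have haK : a ∈ K := hK.isClosed.frontier_subset ha
  have : a ∈ interior K := by
    apply mem_interior_of_lt hK hc hne
    intro θ
    exact lt_of_le_of_ne (le_hs hK haK θ) (hcon θ)
  exact ha.2 this

theorem exists_outer {A B : Set E2} (hA : IsCompact A) (hAc : Convex ℝ A) (hB : IsCompact B)
    (hAB : A ⊆ B) {a : E2} (ha : a ∈ frontier A) :
    ∃ b ∈ frontier B, ∀ a' ∈ A, inner ℝ (b - a) (a' - a) ≤ 0 := by
  have haA : a ∈ A := hA.isClosed.frontier_subset ha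
  obtain ⟨θ, hθ⟩ := exists_support hA hAc ⟨a, haA⟩ ha
  obtain ⟨R, hR⟩ := hB.isBounded.subset_closedBall 0
  have hnorm : ‖pt 1 θ‖ = 1 := by
    have : ‖pt 1 θ‖ ^ 2 = 1 := by
      rw [norm_sq_eq]; simp [pt]
    nlinarith [norm_nonneg (pt 1 θ)]
  set S : Set ℝ := {t | 0 ≤ t ∧ a + t • pt 1 θ ∈ B} with hS
  have hSc : IsCompact S := by
    have hcl : IsClosed S := by
      apply IsClosed.inter isClosed_Ici
      exact hB.isClosed.preimage (by fun_prop)
    apply Metric.isCompact_of_isClosed_isBounded hcl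
    rw [Metric.isBounded_iff_subset_closedBall 0]
    refine ⟨R + ‖a‖, ?_⟩
    rintro t ⟨ht0, ht⟩
    have h1 := hR ht
    rw [mem_closedBall_zero_iff] at h1
    rw [mem_closedBall_zero_iff, Real.norm_eq_abs, abs_of_nonneg ht0]
    have h2 : ‖t • pt 1 θ‖ ≤ ‖a + t • pt 1 θ‖ + ‖a‖ := by
      calc ‖t • pt 1 θ‖ = ‖(a + t • pt 1 θ) - a‖ := by simp
        _ ≤ _ := norm_sub_le _ _
    rw [norm_smul, hnorm, Real.norm_eq_abs, abs_of_nonneg ht0] at h2
    linarith
  obtain ⟨t, ht, htmax⟩ := hSc.exists_isMaxOn ⟨0, le_rfl, by simpa using hAB haA⟩ continuous_id.continuousOn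
  refine ⟨a + t • pt 1 θ, ⟨subset_closure ht.2, ?_⟩, ?_⟩
  · intro hint
    have hcont : ContinuousAt (fun s : ℝ => a + s • pt 1 θ) t := by fun_prop
    have hnhds : ∀ᶠ s in nhds t, a + s • pt 1 θ ∈ B := by
      have := hcont.preimage_mem_nhds (IsOpen.mem_nhds isOpen_interior hint)
      filter_upwards [this] with s hs
      exact interior_subset hs
    obtain ⟨ε, hε, hball⟩ := Metric.eventually_nhds_iff.1 hnhds
    have h1 : t + ε / 2 ∈ S := by
      refine ⟨by linarith [ht.1], hball ?_⟩
      rw [Real.dist_eq]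
      rw [show t + ε / 2 - t = ε / 2 by ring, abs_of_pos (by linarith)]
      linarith
    have h2 := htmax h1
    simp only [Set.mem_ofPred_eq, id] at h2
    linarith
  · intro a' ha'
    rw [add_sub_cancel_left, inner_smul_left, inner_pt, pr_sub, hθ]
    have h1 := le_hs hA ha' θ
    simp only [conj_trivial]
    exact mul_nonpos_of_nonneg_of_nonpos ht.1 (by linarith)

theorem frontier_mono {A B : Set E2} (hA : IsCompact A) (hAc : Convex ℝ A) (hB : IsCompact B)
    (hAB : A ⊆ B) : μH[1] (frontier A) ≤ μH[1] (frontier B) := by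
  have hex : ∀ a : frontier A, ∃ b ∈ frontier B, ∀ a' ∈ A, inner ℝ (b - a) (a' - (a : E2)) ≤ 0 :=
    fun a => exists_outer hA hAc hB hAB a.2
  choose f hf hf2 using hex
  have hanti : AntilipschitzWith 1 f := by
    apply AntilipschitzWith.of_le_mul_dist
    intro a b
    rw [NNReal.coe_one, one_mul, Subtype.dist_eq, dist_eq_norm, dist_eq_norm]
    have haA : (a : E2) ∈ A := hA.isClosed.frontier_subset a.2
    have hbA : (b : E2) ∈ A := hA.isClosed.frontier_subset b.2
    have h1 := hf2 a b hbA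
    have h2 := hf2 b a haA
    have h3 : inner ℝ (f a - f b) ((a : E2) - b) ≥ ‖(a : E2) - b‖ ^ 2 := by
      have e : inner ℝ (f a - f b) ((a : E2) - b)
          = inner ℝ ((a : E2) - b) ((a : E2) - b) - inner ℝ (f a - a) ((b : E2) - a)
            - inner ℝ (f b - b) ((a : E2) - b) := by
        have : (b : E2) - a = - ((a : E2) - b) := by abel
        rw [this, inner_neg_right]
        simp only [inner_sub_left, inner_sub_right]
        ring
      rw [e, real_inner_self_eq_norm_sq]
      linarith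
    have h4 := real_inner_le_norm (f a - f b) ((a : E2) - b)
    by_contra hlt
    push Not at hlt
    have h5 : 0 ≤ ‖f a - f b‖ := norm_nonneg _
    have h6 : ‖f a - f b‖ * ‖(a : E2) - b‖ < ‖(a : E2) - b‖ * ‖(a : E2) - b‖ :=
      mul_lt_mul_of_pos_right hlt (lt_of_le_of_lt h5 hlt)
    nlinarith
  have h1 : μH[1] (frontier A) = μH[1] (univ : Set (frontier A)) := by
    have := (isometry_subtype_coe (s := frontier A)).hausdorffMeasure_image (d := 1)
      (Or.inl zero_le_one) univ
    rw [image_univ, Subtype.range_coe] at this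
    exact this
  have h2 := hanti.le_hausdorffMeasure_image (d := 1) zero_le_one univ
  rw [ENNReal.coe_one, ENNReal.one_rpow, one_mul] at h2
  rw [h1]
  refine h2.trans (measure_mono ?_)
  rintro _ ⟨a, _, rfl⟩
  exact hf a

end Pool.Agent.R763.Str
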