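import Pool.Agent.R763.StrMono

set_option autoImplicit false
open Real Set MeasureTheory
open scoped ENNReal NNReal

namespace Pool.Agent.R763.Str

/-- the point with prescribed projections -/
noncomputable def corner (a b α β : ℝ) : E2 :=
  !₂[(a * sin β - b * sin α) / sin (β - α), (b * cos α - a * cos β) / sin (β - α)]

theorem pr_corner_left (a b : ℝ) {α β : ℝ} (h : sin (β - α) ≠ 0) :
    pr (corner a b α β) α = a := by
  simp only [pr, corner, PiLp.toLp_apply, Matrix.cons_val_zero, Matrix.cons_val_one]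
  field_simp
  rw [Real.sin_sub]; ring

theorem pr_corner_right (a b : ℝ) {α β : ℝ} (h : sin (β - α) ≠ 0) :
    pr (corner a b α β) β = b := by
  simp only [pr, corner, PiLp.toLp_apply, Matrix.cons_val_zero, Matrix.cons_val_one]
  field_simp
  rw [Real.sin_sub]; ring

theorem ext_pr {x y : E2} {θ : ℝ} (h1 : pr x θ = pr y θ)
    (h2 : pr x (θ + π / 2) = pr y (θ + π / 2)) : x = y := by
  simp only [pr, Real.cos_add_pi_div_two, Real.sin_add_pi_div_two] at h1 h2
  have hsc := Real.sin_sq_add_cos_sq θ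
  ext i
  fin_cases i
  · simp only [Fin.zero_eta, Fin.isValue]
    linear_combination (cos θ) * h1 - (sin θ) * h2 + (y 0 - x 0) * hsc
  · simp only [Fin.mk_one, Fin.isValue]
    linear_combination (sin θ) * h1 + (cos θ) * h2 + (y 1 - x 1) * hsc

theorem ext_pr2 {x y : E2} {α β : ℝ} (hs : sin (β - α) ≠ 0) (h1 : pr x α = pr y α)
    (h2 : pr x β = pr y β) : x = y := by
  have h : ∀ θ, pr x θ = pr y θ := by
    intro θ
    have a := pr_three x α β θ
    have b := pr_three y α β θ
    rw [h1, h2, ← b] at a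
    exact mul_right_cancel₀ hs a
  exact ext_pr (h 0) (h _)

theorem norm_sq_pr (x : E2) (θ : ℝ) : ‖x‖ ^ 2 = pr x θ ^ 2 + pr x (θ + π / 2) ^ 2 := by
  rw [norm_sq_eq]
  simp only [pr, Real.cos_add_pi_div_two, Real.sin_add_pi_div_two]
  have hsc := Real.sin_sq_add_cos_sq θ
  linear_combination -(x 0 ^ 2 + x 1 ^ 2) * hsc

theorem mem_segment_of_pr {x y z : E2} {θ : ℝ} (hy : pr x θ = pr y θ) (hz : pr x θ = pr z θ)
    (h1 : pr y (θ + π / 2) ≤ pr x (θ + π / 2)) (h2 : pr x (θ + π / 2) ≤ pr z (θ + π / 2)) :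
    x ∈ segment ℝ y z := by
  rcases eq_or_lt_of_le (h1.trans h2) with he | hlt
  · have : x = y := ext_pr hy (le_antisymm (he ▸ h2) h1)
    rw [this]; exact left_mem_segment ℝ y z
  · rw [segment_eq_image]
    set d := pr z (θ + π / 2) - pr y (θ + π / 2) with hd
    have hdpos : 0 < d := by linarith
    refine ⟨(pr x (θ + π / 2) - pr y (θ + π / 2)) / d, ⟨div_nonneg (by linarith) hdpos.le, ?_⟩, ?_⟩
    · rw [div_le_one hdpos]; linarith
    · apply ext_pr (θ := θ)
      · rw [pr_add, pr_smul, pr_smul, ← hy, ← hz]; ring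
      · rw [pr_add, pr_smul, pr_smul]
        field_simp
        rw [hd]; ring

theorem dist_of_pr {y z : E2} {θ : ℝ} (h : pr y θ = pr z θ)
    (h1 : pr y (θ + π / 2) ≤ pr z (θ + π / 2)) :
    edist y z = ENNReal.ofReal (pr z (θ + π / 2) - pr y (θ + π / 2)) := by
  rw [edist_dist, dist_comm, dist_eq_norm]
  congr 1
  have := norm_sq_pr (z - y) θ
  rw [pr_sub, pr_sub, h, sub_self] at this
  have h2 : ‖z - y‖ ^ 2 = (pr z (θ + π / 2) - pr y (θ + π / 2)) ^ 2 := by rw [this]; ring
  have h3 : 0 ≤ pr z (θ + π / 2) - pr y (θ + π / 2) := by linarith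
  rwa [sq_eq_sq₀ (norm_nonneg _) h3] at h2

/-- outside the cap, the corner lies below the support function -/
theorem corner_le {K : Set E2} (hK : IsCompact K) (hne : K.Nonempty) {α β φ : ℝ} {T : E2}
    (h0 : 0 < β - α) (h1 : β - α < π) (hα : pr T α = hs K α) (hβ : pr T β = hs K β)
    (h2 : β ≤ φ) (h3 : φ ≤ α + 2 * π) : pr T φ ≤ hs K φ := by
  have hsin : 0 < sin (β - α) := Real.sin_pos_of_pos_of_lt_pi h0 h1
  have key : pr T φ * sin (β - α) = hs K α * sin (β - φ) + hs K β * sin (φ - α) := by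
    rw [pr_three T α β φ, hα, hβ]
  rw [← mul_le_mul_iff_left₀ hsin, key]
  rcases le_total φ (α + π) with hc | hc
  · have := hs_three hK hne (α := α) (θ := β) (β := φ) (by linarith) h2 hc
    have e : sin (β - φ) = - sin (φ - β) := by rw [← Real.sin_neg]; congr 1; ring
    rw [e]; linarith
  · rcases le_total φ (β + π) with hd | hd
    · -- φ - π ∈ [α, β]
      have ha : 0 ≤ sin (β - (φ - π)) :=
        Real.sin_nonneg_of_nonneg_of_le_pi (by linarith) (by linarith)
      have hb : 0 ≤ sin ((φ - π) - α) :=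
        Real.sin_nonneg_of_nonneg_of_le_pi (by linarith) (by linarith)
      obtain ⟨x, hx, he, _⟩ := exists_max hK hne φ
      obtain ⟨y, hy⟩ := hne
      have h4 := le_hs hK hy α
      have h5 := le_hs hK hy β
      have h6 := le_hs hK hy φ
      have h7 := pr_three y α β φ
      have e1 : sin (β - (φ - π)) = - sin (β - φ) := by
        rw [show β - (φ - π) = (β - φ) + π by ring, Real.sin_add_pi]
      have e2 : sin ((φ - π) - α) = - sin (φ - α) := by
        rw [show (φ - π) - α = (φ - α) - π by ring, Real.sin_sub_pi]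
      rw [e1] at ha
      rw [e2] at hb
      nlinarith [mul_le_mul_of_nonneg_left h4 ha, mul_le_mul_of_nonneg_left h5 hb,
        mul_le_mul_of_nonneg_right h6 hsin.le]
    · have hper : ∀ θ, hs K (θ - 2 * π) = hs K θ := by
        intro θ
        have := hs_periodic K (θ - 2 * π)
        rw [sub_add_cancel] at this
        exact this.symm
      have := hs_three hK hne (α := φ - 2 * π) (θ := α) (β := β) (by linarith) (by linarith) (by linarith)
      rw [hper] at this
      have e : sin (β - (φ - 2 * π)) = sin (β - φ) := by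
        rw [show β - (φ - 2 * π) = (β - φ) + 2 * π by ring, Real.sin_add_two_pi]
      have e2 : sin (α - (φ - 2 * π)) = - sin (φ - α) := by
        rw [show α - (φ - 2 * π) = -(φ - α) + 2 * π by ring, Real.sin_add_two_pi, Real.sin_neg]
      rw [e, e2] at this
      linarith

/-- inside the cap, the corner lies above the support function -/
theorem corner_ge {K : Set E2} (hK : IsCompact K) (hne : K.Nonempty) {α β φ : ℝ} {T : E2}
    (h0 : 0 < β - α) (h1 : β - α < π) (hα : pr T α = hs K α) (hβ : pr T β = hs K β)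
    (h2 : α ≤ φ) (h3 : φ ≤ β) : hs K φ ≤ pr T φ := by
  have hsin : 0 < sin (β - α) := Real.sin_pos_of_pos_of_lt_pi h0 h1
  have key : pr T φ * sin (β - α) = hs K α * sin (β - φ) + hs K β * sin (φ - α) := by
    rw [pr_three T α β φ, hα, hβ]
  rw [← mul_le_mul_iff_left₀ hsin, key]
  exact hs_three hK hne h2 h3 (by linarith)

theorem corner_le_all {K : Set E2} (hK : IsCompact K) (hne : K.Nonempty) {α β : ℝ} {T : E2}
    (h0 : 0 < β - α) (h1 : β - α < π) (hα : pr T α = hs K α) (hβ : pr T β = hs K β)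
    {δ : ℝ} {n : ℕ} (hn : n * δ = 2 * π) (hδ : 0 < δ) (k : ℕ) (hk1 : α = k * δ)
    (hk2 : β = (k + 1) * δ) (j : ℕ) : pr T (j * δ) ≤ hs K (j * δ) := by
  -- reduce j to the range [k+1, k+n]
  have hnpos : 0 < n := by
    rcases Nat.eq_zero_or_pos n with h | h
    · subst h; simp at hn
    · exact h
  have hper : ∀ m : ℕ, ∀ θ : ℝ, pr T (θ + m * (2 * π)) = pr T θ ∧
      hs K (θ + m * (2 * π)) = hs K θ := by
    intro m
    induction m with
    | zero => intro θ; simp
    | succ m ih =>
      intro θ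
      have : θ + ((m + 1 : ℕ) : ℝ) * (2 * π) = (θ + m * (2 * π)) + 2 * π := by push_cast; ring
      rw [this, pr_periodic, hs_periodic]
      exact ih θ
  -- choose m, l with j + m n = l , k+1 ≤ ...
  obtain ⟨l, m, m', hl1, hl2, hl3⟩ : ∃ l m m' : ℕ, k + 1 ≤ l ∧ l ≤ k + n ∧ j + m * n = l + m' * n := by
    refine ⟨k + 1 + (j + (k + 1) * n - (k + 1)) % n, k + 1, (j + (k + 1) * n - (k + 1)) / n, by omega, ?_, ?_⟩
    · have := Nat.mod_lt (j + (k + 1) * n - (k + 1)) hnpos
      omega
    · have h1 := Nat.mod_add_div (j + (k + 1) * n - (k + 1)) n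
      have h2 : k + 1 ≤ j + (k + 1) * n := by nlinarith
      have h3 : n * ((j + (k + 1) * n - (k + 1)) / n) = ((j + (k + 1) * n - (k + 1)) / n) * n := by ring
      omega
  have e1 : (j : ℝ) * δ + m * (2 * π) = l * δ + m' * (2 * π) := by
    rw [← hn]
    have : ((j + m * n : ℕ) : ℝ) = ((l + m' * n : ℕ) : ℝ) := by rw [hl3]
    push_cast at this
    linear_combination δ * this
  have a1 := hper m (j * δ)
  have a2 := hper m' (l * δ)
  rw [← a1.1, ← a1.2, e1, a2.1, a2.2]
  apply corner_le hK hne h0 h1 hα hβ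
  · rw [hk2]
    have : ((k + 1 : ℕ) : ℝ) ≤ l := by exact_mod_cast hl1
    push_cast at this
    exact mul_le_mul_of_nonneg_right this hδ.le
  · rw [hk1, ← hn]
    have : (l : ℝ) ≤ ((k + n : ℕ) : ℝ) := by exact_mod_cast hl2
    push_cast at this
    nlinarith

end Pool.Agent.R763.Str
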