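import Pool.Agent.R763.StrPoly

set_option autoImplicit false
open Real Set MeasureTheory
open scoped ENNReal NNReal

namespace Pool.Agent.R763.Str

/-- circumscribed equiangular polygon -/
def Q (K : Set E2) (δ : ℝ) : Set E2 := {x | ∀ i : ℕ, pr x (i * δ) ≤ hs K (i * δ)}

theorem Q_closed (K : Set E2) (δ : ℝ) : IsClosed (Q K δ) := by
  have : Q K δ = ⋂ i : ℕ, {x | pr x (i * δ) ≤ hs K (i * δ)} := by
    ext x; simp [Q]
  rw [this]
  exact isClosed_iInter (fun i => isClosed_le (continuous_pr_left _) continuous_const)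

theorem Q_convex (K : Set E2) (δ : ℝ) : Convex ℝ (Q K δ) := by
  intro a ha b hb s t hs0 ht hst i
  rw [pr_add, pr_smul, pr_smul]
  calc s * pr a (i * δ) + t * pr b (i * δ) ≤ s * hs K (i * δ) + t * hs K (i * δ) :=
        add_le_add (mul_le_mul_of_nonneg_left (ha i) hs0) (mul_le_mul_of_nonneg_left (hb i) ht)
    _ = hs K (i * δ) := by rw [← add_mul, hst, one_mul]

theorem subset_Q {K : Set E2} (hK : IsCompact K) (δ : ℝ) : K ⊆ Q K δ :=
  fun _ hx _ => le_hs hK hx _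

/-- every direction is within `δ` of a polygon direction -/
theorem exists_near {δ : ℝ} (hδ : 0 < δ) (hδ3 : δ ≤ π) (θ : ℝ) :
    ∃ i : ℕ, ∃ φ : ℝ, |φ - i * δ| ≤ δ ∧ (∀ x : E2, pr x φ = pr x θ) ∧
      (∀ K : Set E2, hs K φ = hs K θ) ∧ cos δ ≤ cos (φ - i * δ) := by
  have hpi : (0:ℝ) < 2 * π := by positivity
  have hmem := toIcoMod_mem_Ico hpi 0 θ
  have heq := self_sub_toIcoDiv_zsmul hpi 0 θ
  set φ := toIcoMod hpi 0 θ with hφ
  have h0 : 0 ≤ φ := hmem.1
  refine ⟨⌊φ / δ⌋₊, φ, ?_, ?_, ?_, ?_⟩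
  · have h1 := Nat.floor_le (div_nonneg h0 hδ.le)
    have h2 := Nat.lt_floor_add_one (φ / δ)
    rw [le_div_iff₀ hδ] at h1
    rw [div_lt_iff₀ hδ] at h2
    rw [abs_le]; constructor <;> linarith
  · intro x
    have hp : Function.Periodic (fun t => pr x t) (2 * π) := fun t => pr_periodic x t
    have := hp.sub_zsmul_eq (x := θ) (toIcoDiv hpi 0 θ)
    rw [heq] at this
    exact this
  · intro K
    have hp : Function.Periodic (fun t => hs K t) (2 * π) := fun t => hs_periodic K t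
    have := hp.sub_zsmul_eq (x := θ) (toIcoDiv hpi 0 θ)
    rw [heq] at this
    exact this
  · have h1 := Nat.floor_le (div_nonneg h0 hδ.le)
    have h2 := Nat.lt_floor_add_one (φ / δ)
    rw [le_div_iff₀ hδ] at h1
    rw [div_lt_iff₀ hδ] at h2
    apply Real.cos_le_cos_of_nonneg_of_le_pi <;> linarith

theorem Q_bounds {K : Set E2} (hK : IsCompact K) (hc : Convex ℝ K) (hne : K.Nonempty) {r R : ℝ}
    (hr : 0 < r) (hr1 : ∀ θ, r ≤ hs K θ) (hR : K ⊆ Metric.closedBall 0 R) {δ : ℝ}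
    (hδ : 0 < δ) (hδ3 : δ ≤ π) (hδ2 : 1 / 2 ≤ cos δ) :
    (∀ x ∈ Q K δ, ‖x‖ ≤ 2 * R) ∧
    (∀ x ∈ Q K δ, (1 + 3 * R * δ / r)⁻¹ • x ∈ K) := by
  have hR0 : ∀ θ, hs K θ ≤ R := by
    intro θ
    apply hs_le hK hne
    intro y hy
    exact (pr_le_norm y θ).trans (by simpa using hR hy)
  have hRpos : 0 < R := lt_of_lt_of_le hr ((hr1 0).trans (hR0 0))
  have hb : ∀ x ∈ Q K δ, ‖x‖ ≤ 2 * R := by
    intro x hx
    obtain ⟨α, h0, h1⟩ := exists_dir x
    obtain ⟨i, φ, h2, h3, h4, h5⟩ := exists_near hδ hδ3 α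
    have h6 : pr x (i * δ) ≥ ‖x‖ * cos δ := by
      have e : pr x (i * δ) = ‖x‖ * cos (φ - i * δ) := by
        have e1 : x 0 = ‖x‖ * cos φ ∧ x 1 = ‖x‖ * sin φ := by
          have a := h3 !₂[1, 0]
          have b := h3 !₂[0, 1]
          simp [pr] at a b
          rw [a, b]
          exact ⟨h0, h1⟩
        rw [pr_of_dir e1.1 e1.2, ← Real.cos_neg]
        congr 2; ring
      rw [e]
      exact mul_le_mul_of_nonneg_left h5 (norm_nonneg _)
    have h7 := hx i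
    have h8 := hR0 (i * δ)
    have h9 : ‖x‖ * (1 / 2) ≤ ‖x‖ * cos δ := mul_le_mul_of_nonneg_left hδ2 (norm_nonneg _)
    linarith
  refine ⟨hb, ?_⟩
  intro x hx
  rw [mem_iff hK hc hne]
  intro θ
  have hpos : 0 < 1 + 3 * R * δ / r := by positivity
  rw [pr_smul, inv_mul_le_iff₀ hpos]
  obtain ⟨i, φ, h2, h3, h4, h5⟩ := exists_near hδ hδ3 θ
  rw [← h3 x, ← h4 K]
  have h6 := pr_lip x φ (i * δ)
  have h7 := hs_lip hK hne hR φ (i * δ)
  have h8 := hx i
  have h9 := hb x hx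
  have h10 : ‖x‖ * |φ - i * δ| ≤ 2 * R * δ :=
    mul_le_mul h9 h2 (abs_nonneg _) (by positivity)
  have h11 : R * |φ - i * δ| ≤ R * δ := mul_le_mul_of_nonneg_left h2 hRpos.le
  have h12 := (abs_le.1 h6).2
  have h13 := (abs_le.1 h7).1
  have h14 := hr1 φ
  have h15 : 3 * R * δ ≤ 3 * R * δ / r * hs K φ := by
    have : 3 * R * δ = 3 * R * δ / r * r := by field_simp
    calc 3 * R * δ = 3 * R * δ / r * r := this
      _ ≤ _ := mul_le_mul_of_nonneg_left h14 (by positivity)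
  linarith


section perimeter

variable {K : Set E2} {δ : ℝ} {n : ℕ}

/-- vertices of the polygon -/
noncomputable def T (K : Set E2) (δ : ℝ) (i : ℕ) : E2 :=
  corner (hs K (i * δ)) (hs K ((i + 1) * δ)) (i * δ) ((i + 1) * δ)

theorem T_left (hs : sin δ ≠ 0) (i : ℕ) : pr (T K δ i) (i * δ) = Str.hs K (i * δ) := by
  apply pr_corner_left
  rwa [show ((i:ℝ) + 1) * δ - i * δ = δ by ring]

theorem T_right (hs : sin δ ≠ 0) (i : ℕ) : pr (T K δ i) ((i + 1) * δ) = Str.hs K ((i + 1) * δ) := by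
  apply pr_corner_right
  rwa [show ((i:ℝ) + 1) * δ - i * δ = δ by ring]

theorem T_mem (hK : IsCompact K) (hne : K.Nonempty) (hn : n * δ = 2 * π) (hδ : 0 < δ)
    (hδ3 : δ < π) (i : ℕ) : T K δ i ∈ Q K δ := by
  have hsin : sin δ ≠ 0 := (Real.sin_pos_of_pos_of_lt_pi hδ hδ3).ne'
  intro j
  exact corner_le_all hK hne (α := i * δ) (β := (i + 1) * δ) (by linarith) (by linarith)
    (T_left hsin i) (T_right hsin i) hn hδ i rfl rfl j

/-- tangential coordinates of vertices -/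
theorem T_tan_left (hs : sin δ ≠ 0) (i : ℕ) :
    pr (T K δ i) ((i + 1) * δ + π / 2) =
      (Str.hs K ((i + 1) * δ) * cos δ - Str.hs K (i * δ)) / sin δ := by
  have h := pr_three (T K δ i) (i * δ) ((i + 1) * δ) ((i + 1) * δ + π / 2)
  rw [T_left hs, T_right hs, show ((i:ℝ) + 1) * δ - i * δ = δ by ring,
    show ((i:ℝ) + 1) * δ - ((i + 1) * δ + π / 2) = -(π / 2) by ring,
    show ((i:ℝ) + 1) * δ + π / 2 - i * δ = δ + π / 2 by ring, Real.sin_add_pi_div_two,
    Real.sin_neg, Real.sin_pi_div_two] at h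
  rw [eq_div_iff hs, h]; ring

theorem T_tan_right (hs : sin δ ≠ 0) (i : ℕ) :
    pr (T K δ i) (i * δ + π / 2) =
      (Str.hs K ((i + 1) * δ) - Str.hs K (i * δ) * cos δ) / sin δ := by
  have h := pr_three (T K δ i) (i * δ) ((i + 1) * δ) (i * δ + π / 2)
  rw [T_left hs, T_right hs, show ((i:ℝ) + 1) * δ - i * δ = δ by ring,
    show ((i:ℝ) + 1) * δ - (i * δ + π / 2) = -(π / 2 - δ) by ring,
    show (i:ℝ) * δ + π / 2 - i * δ = π / 2 by ring,
    Real.sin_neg, Real.sin_pi_div_two_sub, Real.sin_pi_div_two] at h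
  rw [eq_div_iff hs, h]; ring

theorem pr_shift_left (x : E2) (θ δ : ℝ) :
    pr x (θ - δ) = pr x θ * cos δ - pr x (θ + π / 2) * sin δ := by
  simp only [pr, Real.cos_add_pi_div_two, Real.sin_add_pi_div_two, Real.cos_sub, Real.sin_sub]
  ring

theorem pr_shift_right (x : E2) (θ δ : ℝ) :
    pr x (θ + δ) = pr x θ * cos δ + pr x (θ + π / 2) * sin δ := by
  have h1 := Real.cos_add_pi_div_two θ
  have h2 := Real.sin_add_pi_div_two θ
  simp only [pr, h1, h2, Real.cos_add θ δ, Real.sin_add θ δ]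
  ring

/-- edges -/
theorem edge_eq (hK : IsCompact K) (hne : K.Nonempty) (hn : n * δ = 2 * π) (hδ : 0 < δ)
    (hδ3 : δ < π) (i : ℕ) :
    {x ∈ Q K δ | pr x ((i + 1) * δ) = hs K ((i + 1) * δ)}
      = segment ℝ (T K δ i) (T K δ (i + 1)) := by
  have hsp : 0 < sin δ := Real.sin_pos_of_pos_of_lt_pi hδ hδ3
  have hsin : sin δ ≠ 0 := hsp.ne'
  have hR := T_left (K := K) hsin (i + 1)
  push_cast at hR
  have hR2 := T_tan_right (K := K) hsin (i + 1)
  push_cast at hR2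
  apply Subset.antisymm
  · rintro x ⟨hx, he⟩
    apply mem_segment_of_pr (θ := (i + 1) * δ)
    · rw [he, T_right hsin]
    · rw [he, hR]
    · rw [T_tan_left hsin, div_le_iff₀ hsp]
      have h1 := hx i
      rw [show (i:ℝ) * δ = (i + 1) * δ - δ by ring, pr_shift_left, he] at h1
      rw [show ((i:ℝ) + 1) * δ - δ = i * δ by ring] at h1
      linarith
    · rw [hR2, le_div_iff₀ hsp]
      have h1 := hx (i + 2)
      push_cast at h1
      rw [show ((i:ℝ) + 2) * δ = (i + 1) * δ + δ by ring, pr_shift_right, he] at h1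
      rw [show ((i:ℝ) + 1) * δ + δ = (i + 1 + 1) * δ by ring] at h1
      linarith
  · have hconv : Convex ℝ {x ∈ Q K δ | pr x ((i + 1) * δ) = hs K ((i + 1) * δ)} := by
      intro a ha b hb s t hs0 ht hst
      refine ⟨Q_convex K δ ha.1 hb.1 hs0 ht hst, ?_⟩
      rw [pr_add, pr_smul, pr_smul, ha.2, hb.2, ← add_mul, hst, one_mul]
    apply hconv.segment_subset
    · exact ⟨T_mem hK hne hn hδ hδ3 i, T_right hsin i⟩
    · exact ⟨T_mem hK hne hn hδ hδ3 (i + 1), hR⟩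

theorem edge_length (hK : IsCompact K) (hne : K.Nonempty) (hδ : 0 < δ)
    (hδ3 : δ ≤ π / 2) (i : ℕ) :
    μH[1] (segment ℝ (T K δ i) (T K δ (i + 1))) =
      ENNReal.ofReal ((hs K (i * δ) + hs K ((i + 2) * δ) - 2 * hs K ((i + 1) * δ) * cos δ) / sin δ)
    ∧ 0 ≤ (hs K (i * δ) + hs K ((i + 2) * δ) - 2 * hs K ((i + 1) * δ) * cos δ) / sin δ := by
  have hpi := Real.pi_pos
  have hsp : 0 < sin δ := Real.sin_pos_of_pos_of_lt_pi hδ (by linarith)
  have hsin : sin δ ≠ 0 := hsp.ne'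
  have hR := T_left (K := K) hsin (i + 1)
  push_cast at hR
  have hR2 := T_tan_right (K := K) hsin (i + 1)
  push_cast at hR2
  have h3 := hs_three hK hne (α := i * δ) (θ := (i + 1) * δ) (β := (i + 2) * δ)
    (by linarith) (by linarith) (by linarith)
  rw [show ((i:ℝ) + 2) * δ - i * δ = 2 * δ by ring, show ((i:ℝ) + 2) * δ - (i + 1) * δ = δ by ring,
    show ((i:ℝ) + 1) * δ - i * δ = δ by ring, Real.sin_two_mul] at h3
  have h4 : 0 ≤ (hs K (i * δ) + hs K ((i + 2) * δ) - 2 * hs K ((i + 1) * δ) * cos δ) := by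
    nlinarith
  refine ⟨?_, div_nonneg h4 hsp.le⟩
  have e1 : (hs K ((i + 1 + 1) * δ) - hs K ((i + 1) * δ) * cos δ) / sin δ -
      (Str.hs K ((i + 1) * δ) * cos δ - Str.hs K (i * δ)) / sin δ
      = (hs K (i * δ) + hs K ((i + 2) * δ) - 2 * hs K ((i + 1) * δ) * cos δ) / sin δ := by
    rw [show ((i:ℝ) + 1 + 1) = i + 2 by ring]; ring
  rw [hausdorffMeasure_segment, dist_of_pr (θ := (i + 1) * δ), T_tan_left hsin, hR2, e1]
  · rw [T_right hsin, hR]
  · rw [T_tan_left hsin, hR2, ← sub_nonneg, e1]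
    exact div_nonneg h4 hsp.le

end perimeter

end Pool.Agent.R763.Str
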