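import Pool.Agent.R763.StrPoly2

set_option autoImplicit false
open Real Set MeasureTheory
open scoped ENNReal NNReal

namespace Pool.Agent.R763.Str

variable {K : Set E2} {δ : ℝ} {n : ℕ}

theorem periodic_nat (f : ℝ → ℝ) (hf : ∀ θ, f (θ + 2 * π) = f θ) (m : ℕ) (θ : ℝ) :
    f (θ + m * (2 * π)) = f θ := by
  induction m with
  | zero => simp
  | succ m ih =>
    have : θ + ((m + 1 : ℕ) : ℝ) * (2 * π) = (θ + m * (2 * π)) + 2 * π := by push_cast; ring
    rw [this, hf, ih]

theorem red_index (hn : n * δ = 2 * π) (hn0 : 0 < n) (j : ℕ) :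
    ∃ i < n, (∀ f : ℝ → ℝ, (∀ θ, f (θ + 2 * π) = f θ) → f (j * δ) = f ((i + 1) * δ)) := by
  refine ⟨(j + n - 1) % n, Nat.mod_lt _ hn0, ?_⟩
  intro f hf
  have h1 := Nat.mod_add_div (j + n - 1) n
  set i := (j + n - 1) % n
  set q := (j + n - 1) / n
  have h2 : (i + 1) + n * q = j + n := by omega
  have h3 : ((i : ℝ) + 1) * δ + q * (2 * π) = j * δ + (1 : ℕ) * (2 * π) := by
    rw [← hn]
    have : (((i + 1) + n * q : ℕ) : ℝ) = ((j + n : ℕ) : ℝ) := by rw [h2]
    push_cast at this ⊢
    linear_combination δ * this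
  have h4 := periodic_nat f hf q ((i + 1) * δ)
  have h5 := periodic_nat f hf 1 (j * δ)
  rw [← h4, ← h5, h3]

theorem frontier_Q (hn : n * δ = 2 * π) (hn0 : 0 < n) :
    frontier (Q K δ) = ⋃ i ∈ Finset.range n, {x ∈ Q K δ | pr x ((i + 1) * δ) = hs K ((i + 1) * δ)} := by
  ext x
  constructor
  · intro hx
    have hxQ : x ∈ Q K δ := (Q_closed K δ).frontier_subset hx
    by_contra hcon
    simp only [mem_iUnion, not_exists] at hcon
    have hlt : ∀ i ∈ Finset.range n, pr x (((i : ℕ) + 1) * δ) < hs K ((i + 1) * δ) := by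
      intro i hi
      have h1 := hxQ (i + 1)
      push_cast at h1
      exact lt_of_le_of_ne h1 (fun he => hcon i hi ⟨hxQ, he⟩)
    apply hx.2
    rw [mem_interior]
    refine ⟨⋂ i ∈ Finset.range n, {y : E2 | pr y (((i : ℕ) + 1) * δ) < hs K ((i + 1) * δ)}, ?_, ?_, ?_⟩
    · intro y hy j
      simp only [mem_iInter] at hy
      obtain ⟨i, hi, hf⟩ := red_index hn hn0 j
      rw [hf (fun θ => pr y θ) (pr_periodic y), hf (fun θ => hs K θ) (hs_periodic K)]
      exact (hy i (Finset.mem_range.2 hi)).le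
    · apply isOpen_biInter_finset
      intro i _
      exact isOpen_lt (continuous_pr_left _) continuous_const
    · simp only [mem_iInter]
      exact hlt
  · intro hx
    simp only [mem_iUnion] at hx
    obtain ⟨i, hi, hxQ, he⟩ := hx
    refine ⟨subset_closure hxQ, ?_⟩
    intro hint
    have hcont : ContinuousAt (fun s : ℝ => x + s • pt 1 ((i + 1) * δ)) 0 := by fun_prop
    have hnhds : ∀ᶠ s in nhds (0:ℝ), x + s • pt 1 ((i + 1) * δ) ∈ Q K δ := by
      have := hcont.preimage_mem_nhds (IsOpen.mem_nhds isOpen_interior (by simpa using hint))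
      filter_upwards [this] with s hs
      exact interior_subset hs
    obtain ⟨ε, hε, hball⟩ := Metric.eventually_nhds_iff.1 hnhds
    have h1 := hball (y := ε / 2) (by rw [Real.dist_eq, sub_zero, abs_of_pos (by linarith)]; linarith)
      (i + 1)
    push_cast at h1
    rw [pr_add, pr_smul, pr_pt, he, sub_self, Real.cos_zero] at h1
    linarith

theorem edges_disj (hpos : ∀ θ, 0 < hs K θ) (hn : n * δ = 2 * π) (hδ : 0 < δ)
    {i j : ℕ} (hj : j < n) (hij : i < j) :
    ({x ∈ Q K δ | pr x ((i + 1) * δ) = hs K ((i + 1) * δ)} ∩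
      {x ∈ Q K δ | pr x ((j + 1) * δ) = hs K ((j + 1) * δ)}).Subsingleton := by
  rintro x ⟨⟨_, hx1⟩, ⟨_, hx2⟩⟩ y ⟨⟨_, hy1⟩, ⟨_, hy2⟩⟩
  by_cases hsin : sin (((j : ℝ) + 1) * δ - (i + 1) * δ) = 0
  · exfalso
    rw [Real.sin_eq_zero_iff] at hsin
    obtain ⟨m, hm⟩ := hsin
    have hij' : (i : ℝ) < j := by exact_mod_cast hij
    have hjn : (j : ℝ) < n := by exact_mod_cast hj
    have h1 : 0 < (m : ℝ) * π := by rw [hm]; nlinarith
    have hi0 : (0:ℝ) ≤ i := by positivity
    have h2 : (m : ℝ) * π < 2 * π := by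
      rw [hm, ← hn]; nlinarith
    have h3 : (0 : ℝ) < m := by
      by_contra h; push Not at h
      have := mul_nonpos_of_nonpos_of_nonneg h Real.pi_pos.le
      linarith
    have h4 : (m : ℝ) < 2 := by
      by_contra h; push Not at h
      have := mul_le_mul_of_nonneg_right h Real.pi_pos.le
      linarith
    have h5 : m = 1 := by
      have a : (0 : ℤ) < m := by exact_mod_cast h3
      have b : m < (2 : ℤ) := by exact_mod_cast h4
      omega
    rw [h5] at hm
    have h6 : ((j : ℝ) + 1) * δ = (i + 1) * δ + π := by push_cast at hm; linarith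
    rw [h6, pr_add_pi, hx1] at hx2
    have := hpos ((i + 1) * δ)
    have := hpos ((i + 1) * δ + π)
    linarith
  · exact ext_pr2 hsin (hx1.trans hy1.symm) (hx2.trans hy2.symm)

theorem sum_shift (f : ℝ → ℝ) (hf : ∀ θ, f (θ + 2 * π) = f θ) (hn : n * δ = 2 * π) :
    ∑ i ∈ Finset.range n, f ((i + 1) * δ) = ∑ i ∈ Finset.range n, f (i * δ) ∧
    ∑ i ∈ Finset.range n, f ((i + 2) * δ) = ∑ i ∈ Finset.range n, f (i * δ) := by
  have key : ∀ c : ℝ, ∑ i ∈ Finset.range n, f ((i + 1) * δ + c) = ∑ i ∈ Finset.range n, f (i * δ + c) := by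
    intro c
    have h1 := Finset.sum_range_succ (fun i : ℕ => f (i * δ + c)) n
    have h2 := Finset.sum_range_succ' (fun i : ℕ => f (i * δ + c)) n
    have h3 : f ((n : ℝ) * δ + c) = f (((0 : ℕ) : ℝ) * δ + c) := by
      rw [hn, add_comm, hf]; simp
    rw [h1, h3] at h2
    have h4 := add_right_cancel h2
    rw [h4]
    apply Finset.sum_congr rfl
    intro i _
    push_cast; ring_nf
  refine ⟨?_, ?_⟩
  · have := key 0
    simpa using this
  · have h1 := key δ
    have h2 := key 0
    simp only [add_zero] at h2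
    rw [← h2]
    convert h1 using 2
    · ring_nf
    · ring_nf

theorem perimeter_Q (hK : IsCompact K) (hne : K.Nonempty) (hpos : ∀ θ, 0 < hs K θ)
    (hn : n * δ = 2 * π) (hn0 : 0 < n) (hδ : 0 < δ) (hδ3 : δ ≤ π / 2) :
    μH[1] (frontier (Q K δ)) =
      ENNReal.ofReal (2 * (1 - cos δ) / sin δ * ∑ i ∈ Finset.range n, hs K (i * δ)) := by
  have hpi := Real.pi_pos
  have hδ4 : δ < π := by linarith
  have hsp : 0 < sin δ := Real.sin_pos_of_pos_of_lt_pi hδ hδ4
  have := Measure.nullSingletonClass_hausdorff E2 zero_lt_one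
  rw [frontier_Q hn hn0, measure_biUnion_finset₀]
  · have h1 : ∀ i ∈ Finset.range n, μH[1] {x ∈ Q K δ | pr x ((i + 1) * δ) = hs K ((i + 1) * δ)}
        = ENNReal.ofReal ((hs K (i * δ) + hs K ((i + 2) * δ) - 2 * hs K ((i + 1) * δ) * cos δ) / sin δ) := by
      intro i _
      rw [edge_eq hK hne hn hδ hδ4 i]
      exact (edge_length hK hne hδ hδ3 i).1
    rw [Finset.sum_congr rfl h1, ← ENNReal.ofReal_sum_of_nonneg
      (fun i _ => (edge_length hK hne hδ hδ3 i).2)]
    congr 1
    rw [← Finset.sum_div, Finset.sum_sub_distrib, Finset.sum_add_distrib]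
    obtain ⟨h2, h3⟩ := sum_shift (fun θ => hs K θ) (hs_periodic K) hn
    have h4 : ∑ i ∈ Finset.range n, 2 * hs K ((i + 1) * δ) * cos δ
        = 2 * cos δ * ∑ i ∈ Finset.range n, hs K ((i + 1) * δ) := by
      rw [Finset.mul_sum]; apply Finset.sum_congr rfl; intro i _; ring
    rw [h4, h2, h3]
    generalize (∑ i ∈ Finset.range n, hs K (i * δ)) = S
    ring
  · intro i hi j hj hij
    simp only [Finset.coe_range, mem_Iio] at hi hj
    simp only [Function.onFun, AEDisjoint]
    rcases lt_or_gt_of_ne hij with h | h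
    · exact (edges_disj hpos hn hδ hj h).measure_zero _
    · rw [inter_comm]
      exact (edges_disj hpos hn hδ hi h).measure_zero _
  · intro i _
    apply MeasurableSet.nullMeasurableSet
    apply IsClosed.measurableSet
    exact (Q_closed K δ).inter (isClosed_eq (continuous_pr_left _) continuous_const)

end Pool.Agent.R763.Str
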