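import Mathlib

set_option autoImplicit false
open Real Set MeasureTheory

namespace Pool.Agent.R763.Str

abbrev E2 := EuclideanSpace ℝ (Fin 2)

/-- projection of `x` on the direction `θ` -/
noncomputable def pr (x : E2) (θ : ℝ) : ℝ := x 0 * cos θ + x 1 * sin θ

/-- support function -/
noncomputable def hs (K : Set E2) (θ : ℝ) : ℝ := sSup ((fun x => pr x θ) '' K)

theorem pr_add (x y : E2) (θ : ℝ) : pr (x + y) θ = pr x θ + pr y θ := by
  simp [pr]; ring

theorem pr_sub (x y : E2) (θ : ℝ) : pr (x - y) θ = pr x θ - pr y θ := by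
  simp [pr]; ring

theorem pr_smul (c : ℝ) (x : E2) (θ : ℝ) : pr (c • x) θ = c * pr x θ := by
  simp [pr]; ring

theorem pr_zero (θ : ℝ) : pr (0 : E2) θ = 0 := by
  simp [pr]

theorem pr_periodic (x : E2) (θ : ℝ) : pr x (θ + 2 * π) = pr x θ := by
  simp [pr]

theorem pr_add_pi (x : E2) (θ : ℝ) : pr x (θ + π) = - pr x θ := by
  simp [pr]; ring

theorem norm_sq_eq (x : E2) : ‖x‖ ^ 2 = x 0 ^ 2 + x 1 ^ 2 := by
  rw [EuclideanSpace.norm_sq_eq]
  simp [Fin.sum_univ_two]

theorem abs_pr_le (x : E2) (θ : ℝ) : |pr x θ| ≤ ‖x‖ := by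
  apply abs_le_of_sq_le_sq _ (norm_nonneg x)
  rw [norm_sq_eq]
  unfold pr
  nlinarith [sq_nonneg (x 0 * sin θ - x 1 * cos θ), Real.sin_sq_add_cos_sq θ]

theorem pr_le_norm (x : E2) (θ : ℝ) : pr x θ ≤ ‖x‖ := (le_abs_self _).trans (abs_pr_le x θ)

theorem continuous_pr : Continuous (fun p : E2 × ℝ => pr p.1 p.2) := by
  unfold pr
  fun_prop

theorem continuous_pr_left (θ : ℝ) : Continuous (fun x : E2 => pr x θ) := by
  unfold pr
  fun_prop

theorem continuous_pr_right (x : E2) : Continuous (fun θ : ℝ => pr x θ) := by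
  unfold pr
  fun_prop

/-- derivative in direction -/
theorem hasDerivAt_pr (x : E2) (θ : ℝ) : HasDerivAt (fun t => pr x t) (pr x (θ + π / 2)) θ := by
  have h := ((Real.hasDerivAt_cos θ).const_mul (x 0)).add ((Real.hasDerivAt_sin θ).const_mul (x 1))
  have : x 0 * -sin θ + x 1 * cos θ = pr x (θ + π / 2) := by
    simp [pr, Real.cos_add_pi_div_two, Real.sin_add_pi_div_two]
  rw [← this]
  exact h

theorem pr_lip (x : E2) (θ φ : ℝ) : |pr x θ - pr x φ| ≤ ‖x‖ * |θ - φ| := by
  have := Convex.norm_image_sub_le_of_norm_hasDerivWithin_le (f := fun t => pr x t)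
    (f' := fun t => pr x (t + π / 2)) (s := Set.univ) (C := ‖x‖) (x := φ) (y := θ)
    (fun t _ => (hasDerivAt_pr x t).hasDerivWithinAt)
    (fun t _ => by rw [Real.norm_eq_abs]; exact abs_pr_le x _) convex_univ (mem_univ _) (mem_univ _)
  simpa [Real.norm_eq_abs] using this

/-- polar coordinates -/
theorem exists_polar (a b : ℝ) : ∃ θ : ℝ, a = √(a ^ 2 + b ^ 2) * cos θ ∧ b = √(a ^ 2 + b ^ 2) * sin θ := by
  refine ⟨Complex.arg ⟨a, b⟩, ?_, ?_⟩
  · have := Complex.norm_mul_cos_arg ⟨a, b⟩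
    rw [Complex.norm_def, Complex.normSq_mk] at this
    simp only at this
    rw [show a ^ 2 + b ^ 2 = a * a + b * b by ring, this]
  · have := Complex.norm_mul_sin_arg ⟨a, b⟩
    rw [Complex.norm_def, Complex.normSq_mk] at this
    simp only at this
    rw [show a ^ 2 + b ^ 2 = a * a + b * b by ring, this]

theorem exists_dir (x : E2) : ∃ θ : ℝ, x 0 = ‖x‖ * cos θ ∧ x 1 = ‖x‖ * sin θ := by
  obtain ⟨θ, h0, h1⟩ := exists_polar (x 0) (x 1)
  refine ⟨θ, ?_, ?_⟩
  · rw [EuclideanSpace.norm_eq]; simpa [Fin.sum_univ_two] using h0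
  · rw [EuclideanSpace.norm_eq]; simpa [Fin.sum_univ_two] using h1

theorem pr_of_dir {x : E2} {α : ℝ} (h0 : x 0 = ‖x‖ * cos α) (h1 : x 1 = ‖x‖ * sin α) (θ : ℝ) :
    pr x θ = ‖x‖ * cos (θ - α) := by
  unfold pr
  rw [h0, h1, Real.cos_sub]; ring

/-- the point at distance `R` in direction `α` -/
noncomputable def pt (R α : ℝ) : E2 := !₂[R * cos α, R * sin α]

theorem pr_pt (R α θ : ℝ) : pr (pt R α) θ = R * cos (θ - α) := by
  simp only [pr, pt, PiLp.toLp_apply, Matrix.cons_val_zero, Matrix.cons_val_one]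
  rw [Real.cos_sub]; ring

theorem pr_three (x : E2) (α β θ : ℝ) :
    pr x θ * sin (β - α) = pr x α * sin (β - θ) + pr x β * sin (θ - α) := by
  simp only [pr, Real.sin_sub]; ring

section support

variable {K : Set E2}

theorem exists_max (hK : IsCompact K) (hne : K.Nonempty) (θ : ℝ) :
    ∃ x ∈ K, pr x θ = hs K θ ∧ ∀ y ∈ K, pr y θ ≤ hs K θ := by
  obtain ⟨x, hx, hmax⟩ := hK.exists_isMaxOn hne (continuous_pr_left θ).continuousOn
  have hg : IsGreatest ((fun x => pr x θ) '' K) (pr x θ) := by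
    refine ⟨⟨x, hx, rfl⟩, ?_⟩
    rintro _ ⟨y, hy, rfl⟩
    exact hmax hy
  refine ⟨x, hx, hg.csSup_eq.symm, ?_⟩
  intro y hy
  rw [hs, hg.csSup_eq]
  exact hmax hy

theorem le_hs (hK : IsCompact K) {x : E2} (hx : x ∈ K) (θ : ℝ) : pr x θ ≤ hs K θ :=
  (exists_max hK ⟨x, hx⟩ θ).choose_spec.2.2 x hx

theorem hs_le (hK : IsCompact K) (hne : K.Nonempty) {θ c : ℝ} (h : ∀ y ∈ K, pr y θ ≤ c) :
    hs K θ ≤ c := by
  obtain ⟨x, hx, he, _⟩ := exists_max hK hne θ
  rw [← he]; exact h x hx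

theorem hs_lip (hK : IsCompact K) (hne : K.Nonempty) {R : ℝ} (hR : K ⊆ Metric.closedBall 0 R)
    (θ φ : ℝ) : |hs K θ - hs K φ| ≤ R * |θ - φ| := by
  have key : ∀ θ φ : ℝ, hs K θ - hs K φ ≤ R * |θ - φ| := by
    intro θ φ
    obtain ⟨x, hx, he, _⟩ := exists_max hK hne θ
    have h1 := le_hs hK hx φ
    have h2 := pr_lip x θ φ
    have h3 := (abs_le.1 h2).2
    have h4 : ‖x‖ ≤ R := by simpa using hR hx
    have h5 : ‖x‖ * |θ - φ| ≤ R * |θ - φ| := mul_le_mul_of_nonneg_right h4 (abs_nonneg _)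
    linarith
  rw [abs_le]
  refine ⟨?_, key θ φ⟩
  have := key φ θ
  rw [abs_sub_comm] at this
  linarith

theorem hs_continuous (hK : IsCompact K) (hne : K.Nonempty) : Continuous (hs K) := by
  obtain ⟨R, hR⟩ := hK.isBounded.subset_closedBall 0
  have hl : LipschitzWith (Real.toNNReal (max R 0)) (hs K) := by
    apply LipschitzWith.of_dist_le_mul
    intro x y
    rw [Real.dist_eq, Real.dist_eq, Real.coe_toNNReal _ (le_max_right _ _)]
    refine hs_lip hK hne (hR.trans (Metric.closedBall_subset_closedBall (le_max_left _ _))) x y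
  exact hl.continuous

theorem hs_periodic (K : Set E2) (θ : ℝ) : hs K (θ + 2 * π) = hs K θ := by
  unfold hs
  simp only [pr_periodic]

theorem hs_comb (hK : IsCompact K) (hne : K.Nonempty) {a b c θ α β : ℝ} (ha : 0 ≤ a) (hb : 0 ≤ b)
    (hcos : c * cos θ = a * cos α + b * cos β)
    (hsin : c * sin θ = a * sin α + b * sin β) :
    c * hs K θ ≤ a * hs K α + b * hs K β := by
  obtain ⟨x, hx, he, _⟩ := exists_max hK hne θ
  have h1 := le_hs hK hx α
  have h2 := le_hs hK hx β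
  have h3 : c * pr x θ = a * pr x α + b * pr x β := by
    unfold pr
    linear_combination (x 0) * hcos + (x 1) * hsin
  rw [← he, h3]
  nlinarith [mul_le_mul_of_nonneg_left h1 ha, mul_le_mul_of_nonneg_left h2 hb]

/-- three angle inequality -/
theorem hs_three (hK : IsCompact K) (hne : K.Nonempty) {α β θ : ℝ} (h1 : α ≤ θ) (h2 : θ ≤ β)
    (h3 : β ≤ α + π) :
    hs K θ * sin (β - α) ≤ hs K α * sin (β - θ) + hs K β * sin (θ - α) := by
  have ha : 0 ≤ sin (β - θ) := Real.sin_nonneg_of_nonneg_of_le_pi (by linarith) (by linarith)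
  have hb : 0 ≤ sin (θ - α) := Real.sin_nonneg_of_nonneg_of_le_pi (by linarith) (by linarith)
  have := hs_comb hK hne (a := sin (β - θ)) (b := sin (θ - α)) (c := sin (β - α)) (θ := θ) (α := α)
    (β := β) ha hb (by simp only [Real.sin_sub]; ring) (by simp only [Real.sin_sub]; ring)
  linarith

theorem hs_add_pi (hK : IsCompact K) (hne : K.Nonempty) (θ : ℝ) : 0 ≤ hs K θ + hs K (θ + π) := by
  obtain ⟨x, hx⟩ := hne
  have h1 := le_hs hK hx θ
  have h2 := le_hs hK hx (θ + π)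
  rw [pr_add_pi] at h2
  linarith

theorem mem_iff (hK : IsCompact K) (hc : Convex ℝ K) (hne : K.Nonempty) (x : E2) :
    x ∈ K ↔ ∀ θ, pr x θ ≤ hs K θ := by
  constructor
  · intro hx θ; exact le_hs hK hx θ
  · intro h
    by_contra hx
    obtain ⟨f, u, hu1, hu2⟩ := geometric_hahn_banach_closed_point hc hK.isClosed hx
    set w : E2 := (InnerProductSpace.toDual ℝ E2).symm f with hw
    have hf : ∀ y : E2, f y = w 0 * y 0 + w 1 * y 1 := by
      intro y
      have : f y = inner ℝ w y := by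
        rw [hw, InnerProductSpace.toDual_symm_apply]
      rw [this, PiLp.inner_apply]
      simp [Fin.sum_univ_two, mul_comm]
    obtain ⟨θ, h0, h1⟩ := exists_dir w
    have hfp : ∀ y : E2, f y = ‖w‖ * pr y θ := by
      intro y
      rw [hf y, pr, h0, h1]; ring
    obtain ⟨y, hy, he, hm⟩ := exists_max hK hne θ
    have h2 := hu1 y hy
    rw [hfp, he] at h2
    rw [hfp] at hu2
    have h3 := mul_le_mul_of_nonneg_left (h θ) (norm_nonneg w)
    linarith

theorem hs_mono {K L : Set E2} (hK : IsCompact K) (hne : K.Nonempty) (hL : IsCompact L)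
    (h : K ⊆ L) (θ : ℝ) : hs K θ ≤ hs L θ :=
  hs_le hK hne (fun _ hy => le_hs hL (h hy) θ)

theorem isCompact_hull {K : Set E2} (hK : IsCompact K) (hc : Convex ℝ K) (hne : K.Nonempty)
    (x : E2) : IsCompact (convexHull ℝ (insert x K)) := by
  rw [convexHull_insert hne, hc.convexHull_eq]
  have : convexJoin ℝ {x} K = (fun p : ℝ × E2 => (1 - p.1) • x + p.1 • p.2) '' (Set.Icc 0 1 ×ˢ K) := by
    ext y
    rw [mem_convexJoin]
    constructor
    · rintro ⟨a, ha, b, hb, hy⟩
      rw [Set.mem_singleton_iff] at ha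
      subst ha
      rw [segment_eq_image] at hy
      obtain ⟨t, ht, rfl⟩ := hy
      exact ⟨(t, b), ⟨ht, hb⟩, rfl⟩
    · rintro ⟨⟨t, b⟩, ⟨ht, hb⟩, rfl⟩
      refine ⟨x, rfl, b, hb, ?_⟩
      rw [segment_eq_image]
      exact ⟨t, ht, rfl⟩
  rw [this]
  apply (isCompact_Icc.prod hK).image
  fun_prop

theorem hs_hull (hK : IsCompact K) (hc : Convex ℝ K) (hne : K.Nonempty) (x : E2) (θ : ℝ) :
    hs (convexHull ℝ (insert x K)) θ = max (pr x θ) (hs K θ) := by
  have hcomp := isCompact_hull hK hc hne x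
  have hsub : insert x K ⊆ convexHull ℝ (insert x K) := subset_convexHull ℝ _
  apply le_antisymm
  · apply hs_le hcomp ⟨x, hsub (mem_insert _ _)⟩
    intro y hy
    have hconv : Convex ℝ {y : E2 | pr y θ ≤ max (pr x θ) (hs K θ)} := by
      intro a ha b hb s t hs0 ht hst
      simp only [Set.mem_ofPred_eq] at ha hb ⊢
      rw [pr_add, pr_smul, pr_smul]
      calc s * pr a θ + t * pr b θ ≤ s * max (pr x θ) (Str.hs K θ) + t * max (pr x θ) (Str.hs K θ) :=
            add_le_add (mul_le_mul_of_nonneg_left ha hs0) (mul_le_mul_of_nonneg_left hb ht)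
        _ = max (pr x θ) (Str.hs K θ) := by rw [← add_mul, hst, one_mul]
    have : convexHull ℝ (insert x K) ⊆ {y : E2 | pr y θ ≤ max (pr x θ) (hs K θ)} := by
      apply convexHull_min _ hconv
      intro y hy
      rcases hy with rfl | hy
      · exact le_max_left (pr y θ) (Str.hs K θ)
      · exact (le_hs hK hy θ).trans (le_max_right (pr x θ) (Str.hs K θ))
    exact this hy
  · apply max_le
    · exact le_hs hcomp (hsub (mem_insert _ _)) θ
    · exact hs_mono hK hne hcomp ((subset_insert x K).trans hsub) θ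

end support

end Pool.Agent.R763.Str
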