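import Mathlib

set_option autoImplicit false
open MeasureTheory Set Filter Topology

namespace Pool.Agent.R763.Tet

/-- Euclidean space -/
abbrev E3 := EuclideanSpace ℝ (Fin 3)

/-- the triangular wave -/
noncomputable def T (x : ℝ) : ℝ := |x - 2 * round (x / 2)|

theorem exists_near (x : ℝ) : ∃ n : ℤ, |x - 2 * n| ≤ 1 := by
  refine ⟨round (x / 2), ?_⟩
  have := abs_sub_round (x / 2)
  rw [abs_le] at this ⊢
  constructor <;> linarith [this.1, this.2]

theorem T_le (x : ℝ) : T x ≤ 1 := by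
  have := abs_sub_round (x / 2)
  rw [T, abs_le]
  rw [abs_le] at this
  constructor <;> linarith [this.1, this.2]

theorem T_nonneg (x : ℝ) : 0 ≤ T x := abs_nonneg _

theorem T_eq {x : ℝ} {n : ℤ} (h : |x - 2 * n| ≤ 1) : T x = |x - 2 * n| := by
  have h1 := T_le x
  rw [T] at h1 ⊢
  set m := round (x / 2) with hm
  have h2 : |(m : ℝ) - n| ≤ 1 := by
    rw [abs_le] at h h1 ⊢
    constructor <;> linarith [h.1, h.2, h1.1, h1.2]
  have h3 : |m - n| ≤ 1 := by exact_mod_cast h2
  rw [abs_le] at h3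
  rw [abs_le] at h h1
  have h4 : m = n ∨ m = n + 1 ∨ m = n - 1 := by omega
  rcases h4 with h4 | h4 | h4
  · rw [h4]
  · rw [h4] at h1 ⊢
    push_cast at h1 ⊢
    have e : x - 2 * n = 1 := by linarith [h.1, h.2, h1.1, h1.2]
    have e2 : x - 2 * ((n : ℝ) + 1) = -1 := by linarith
    rw [e, e2]; simp
  · rw [h4] at h1 ⊢
    push_cast at h1 ⊢
    have e : x - 2 * n = -1 := by linarith [h.1, h.2, h1.1, h1.2]
    have e2 : x - 2 * ((n : ℝ) - 1) = 1 := by linarith
    rw [e, e2]; simp

theorem T_neg (x : ℝ) : T (-x) = T x := by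
  obtain ⟨n, hn⟩ := exists_near x
  have h1 : |(-x) - 2 * ((-n : ℤ) : ℝ)| ≤ 1 := by
    push_cast
    rw [show -x - 2 * -(n : ℝ) = -(x - 2 * n) by ring, abs_neg]; exact hn
  rw [T_eq h1, T_eq hn]
  push_cast
  rw [show -x - 2 * -(n : ℝ) = -(x - 2 * n) by ring, abs_neg]

theorem T_add_one (x : ℝ) : T (x + 1) = 1 - T x := by
  obtain ⟨n, hn⟩ := exists_near x
  rcases le_total 0 (x - 2 * n) with h | h
  · have h1 : |(x + 1) - 2 * ((n + 1 : ℤ) : ℝ)| ≤ 1 := by
      push_cast
      rw [abs_le] at hn ⊢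
      constructor <;> linarith [hn.1, hn.2]
    rw [T_eq h1, T_eq hn, abs_of_nonneg h]
    push_cast
    rw [abs_of_nonpos]
    · ring
    · rw [abs_le] at hn; linarith [hn.2]
  · have h1 : |(x + 1) - 2 * (n : ℝ)| ≤ 1 := by
      rw [abs_le] at hn ⊢
      constructor <;> linarith [hn.1, hn.2]
    rw [T_eq h1, T_eq hn, abs_of_nonpos h, abs_of_nonneg]
    · ring
    · rw [abs_le] at hn; linarith [hn.1]

theorem T_sub_one (x : ℝ) : T (x - 1) = 1 - T x := by
  have := T_add_one (x - 1)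
  rw [sub_add_cancel] at this
  linarith

theorem T_add_two (x : ℝ) : T (x + 2) = T x := by
  rw [show x + 2 = (x + 1) + 1 by ring, T_add_one, T_add_one]; ring

theorem T_add_int (x : ℝ) (n : ℤ) : T (x + 2 * n) = T x := by
  obtain ⟨m, hm⟩ := exists_near x
  have h1 : |(x + 2 * n) - 2 * ((m + n : ℤ) : ℝ)| ≤ 1 := by
    push_cast
    rw [show x + 2 * (n : ℝ) - 2 * (m + n) = x - 2 * m by ring]; exact hm
  rw [T_eq h1, T_eq hm]
  push_cast
  rw [show x + 2 * (n : ℝ) - 2 * (m + n) = x - 2 * m by ring]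

theorem T_abs {x : ℝ} (h : |x| ≤ 1) : T x = |x| := by
  have := T_eq (x := x) (n := 0) (by simpa using h)
  simpa using this

theorem T_of_mem {x : ℝ} (h0 : 0 ≤ x) (h1 : x ≤ 1) : T x = x := by
  rw [T_abs (by rw [abs_of_nonneg h0]; exact h1), abs_of_nonneg h0]

theorem T_of_mem2 {x : ℝ} (h0 : 1 ≤ x) (h1 : x ≤ 2) : T x = 2 - x := by
  have : T x = T ((-x) + 2) := by rw [T_add_two, T_neg]
  rw [this, T_of_mem (by linarith) (by linarith)]; ring

/-- one sided derivative of the triangular wave -/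
theorem T_dir (x a : ℝ) : ∃ f : ℝ, |f| = |a| ∧ ∀ᶠ h in 𝓝[>] (0:ℝ), T (x + h * a) = T x + h * f := by
  obtain ⟨n, hn⟩ := exists_near x
  -- reduce to `y = x - 2 n ∈ [-1, 1]`
  have hred : ∀ y, T (2 * n + y) = T y := by
    intro y; rw [add_comm, T_add_int]
  have hx : x = 2 * n + (x - 2 * n) := by ring
  generalize x - 2 * n = y at hn hx
  subst hx
  have key : ∃ f : ℝ, |f| = |a| ∧ ∀ᶠ h in 𝓝[>] (0:ℝ), T (y + h * a) = T y + h * f := by
    have small : ∀ ε > 0, ∀ᶠ h in 𝓝[>] (0:ℝ), 0 < h ∧ |h * a| < ε := by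
      intro ε hε
      have h1 : Tendsto (fun h : ℝ => |h * a|) (𝓝[>] (0:ℝ)) (𝓝 0) := by
        have : Tendsto (fun h : ℝ => |h * a|) (𝓝 (0:ℝ)) (𝓝 |0 * a|) := by
          apply Continuous.tendsto; fun_prop
        rw [zero_mul, abs_zero] at this
        exact this.mono_left nhdsWithin_le_nhds
      filter_upwards [h1.eventually (gt_mem_nhds hε), self_mem_nhdsWithin] with h h2 h3
      exact ⟨h3, h2⟩
    rw [abs_le] at hn
    rcases lt_trichotomy y 0 with hy | hy | hy
    · -- y < 0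
      rcases eq_or_lt_of_le hn.1 with h1 | h1
      · -- y = -1
        refine ⟨-|a|, by simp, ?_⟩
        filter_upwards [small 1 one_pos] with h ⟨h0, h2⟩
        rw [← h1]
        rw [show -1 + h * a = h * a - 1 by ring, T_sub_one, T_abs h2.le, abs_mul, abs_of_pos h0]
        rw [T_neg, T_of_mem zero_le_one le_rfl]; ring
      · refine ⟨-a, by simp, ?_⟩
        filter_upwards [small (min (-y) (y + 1)) (lt_min (by linarith) (by linarith))] with h ⟨h0, h2⟩
        have h3 := lt_min_iff.1 h2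
        have h4 := abs_lt.1 h3.1
        have h5 := abs_lt.1 h3.2
        rw [T_abs (x := y + h * a), T_abs (x := y), abs_of_neg hy, abs_of_neg]
        · ring
        · linarith [h4.1, h4.2]
        · rw [abs_le]; constructor <;> linarith
        · rw [abs_le]; constructor <;> linarith [h4.1, h4.2, h5.1, h5.2]
    · refine ⟨|a|, by simp, ?_⟩
      filter_upwards [small 1 one_pos] with h ⟨h0, h2⟩
      rw [hy, zero_add, T_abs h2.le, abs_mul, abs_of_pos h0, T_abs (by simp), abs_zero, zero_add]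
    · rcases eq_or_lt_of_le hn.2 with h1 | h1
      · refine ⟨-|a|, by simp, ?_⟩
        filter_upwards [small 1 one_pos] with h ⟨h0, h2⟩
        rw [h1]
        rw [show 1 + h * a = h * a + 1 by ring, T_add_one, T_abs h2.le, abs_mul, abs_of_pos h0]
        rw [T_of_mem zero_le_one le_rfl]; ring
      · refine ⟨a, rfl, ?_⟩
        filter_upwards [small (min y (1 - y)) (lt_min (by linarith) (by linarith))] with h ⟨h0, h2⟩
        have h3 := lt_min_iff.1 h2
        have h4 := abs_lt.1 h3.1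
        have h5 := abs_lt.1 h3.2
        rw [T_of_mem (x := y + h * a), T_of_mem (x := y)] <;> linarith [h4.1, h4.2, h5.1, h5.2]
  obtain ⟨f, hf1, hf2⟩ := key
  refine ⟨f, hf1, ?_⟩
  filter_upwards [hf2] with h hh
  rw [add_assoc, hred, hred, hh]

theorem T_continuous : Continuous T := by
  apply continuous_iff_continuousAt.2
  intro x
  have : LipschitzWith 1 T := by
    apply LipschitzWith.of_dist_le_mul
    intro x y
    rw [NNReal.coe_one, one_mul, Real.dist_eq, Real.dist_eq]
    have key : ∀ x y : ℝ, T x ≤ T y + |x - y| := by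
      intro x y
      obtain ⟨n, hn⟩ := exists_near y
      rw [T_eq hn]
      have h1 : T x ≤ |x - 2 * n| := by
        rcases le_or_gt |x - 2 * (n:ℝ)| 1 with h | h
        · rw [T_eq h]
        · exact (T_le x).trans h.le
      have h2 : |x - 2 * n| ≤ |x - y| + |y - 2 * n| := by
        have := abs_sub_le x y (2 * n); exact this
      linarith
    rw [abs_le]
    constructor
    · have := key y x
      rw [abs_sub_comm] at this; linarith
    · have := key x y; linarith
  exact this.continuous.continuousAt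

/-- the folding map -/
noncomputable def F (z : ℝ × ℝ) : E3 := !₂[T z.1, T z.2, T (z.1 + z.2)]

theorem F0 (z : ℝ × ℝ) : F z 0 = T z.1 := rfl
theorem F1 (z : ℝ × ℝ) : F z 1 = T z.2 := rfl
theorem F2 (z : ℝ × ℝ) : F z 2 = T (z.1 + z.2) := rfl

/-- the regular tetrahedron -/
def K : Set E3 := {p | p 0 ≤ p 1 + p 2 ∧ p 1 ≤ p 0 + p 2 ∧ p 2 ≤ p 0 + p 1 ∧ p 0 + p 1 + p 2 ≤ 2}

theorem K_closed : IsClosed K := by
  have h0 : Continuous (fun p : E3 => p 0) := by fun_prop
  have h1 : Continuous (fun p : E3 => p 1) := by fun_prop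
  have h2 : Continuous (fun p : E3 => p 2) := by fun_prop
  exact (isClosed_le h0 (h1.add h2)).inter ((isClosed_le h1 (h0.add h2)).inter
    ((isClosed_le h2 (h0.add h1)).inter (isClosed_le ((h0.add h1).add h2) continuous_const)))

theorem K_interior {p : E3} (h1 : p 0 < p 1 + p 2) (h2 : p 1 < p 0 + p 2) (h3 : p 2 < p 0 + p 1)
    (h4 : p 0 + p 1 + p 2 < 2) : p ∈ interior K := by
  have c0 : Continuous (fun p : E3 => p 0) := by fun_prop
  have c1 : Continuous (fun p : E3 => p 1) := by fun_prop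
  have c2 : Continuous (fun p : E3 => p 2) := by fun_prop
  have hopen : IsOpen {p : E3 | p 0 < p 1 + p 2 ∧ p 1 < p 0 + p 2 ∧ p 2 < p 0 + p 1 ∧
      p 0 + p 1 + p 2 < 2} :=
    (isOpen_lt c0 (c1.add c2)).inter ((isOpen_lt c1 (c0.add c2)).inter
    ((isOpen_lt c2 (c0.add c1)).inter (isOpen_lt ((c0.add c1).add c2) continuous_const)))
  have hsub : {p : E3 | p 0 < p 1 + p 2 ∧ p 1 < p 0 + p 2 ∧ p 2 < p 0 + p 1 ∧
      p 0 + p 1 + p 2 < 2} ⊆ K := fun p ⟨a, b, c, d⟩ => ⟨a.le, b.le, c.le, d.le⟩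
  exact interior_maximal hsub hopen ⟨h1, h2, h3, h4⟩

theorem not_interior {a b c d : ℝ} (habc : 0 < a ^ 2 + b ^ 2 + c ^ 2)
    (hS : ∀ x ∈ K, a * x 0 + b * x 1 + c * x 2 ≤ d) {x : E3} (hx : a * x 0 + b * x 1 + c * x 2 = d) :
    x ∉ interior K := by
  intro hint
  have hcont : ContinuousAt (fun s : ℝ => x + s • (!₂[a, b, c] : E3)) 0 := by fun_prop
  have hnhds : ∀ᶠ s in nhds (0:ℝ), x + s • (!₂[a, b, c] : E3) ∈ K := by
    have := hcont.preimage_mem_nhds (IsOpen.mem_nhds isOpen_interior (by simpa using hint))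
    filter_upwards [this] with s hs
    exact interior_subset hs
  obtain ⟨ε, hε, hball⟩ := Metric.eventually_nhds_iff.1 hnhds
  have h1 := hball (y := ε / 2) (by rw [Real.dist_eq, sub_zero, abs_of_pos (by linarith)]; linarith)
  have h2 := hS _ h1
  simp at h2
  nlinarith

/-- the boundary of the tetrahedron -/
theorem mem_frontier {p : E3} : p ∈ frontier K ↔ p ∈ K ∧
    (p 0 = p 1 + p 2 ∨ p 1 = p 0 + p 2 ∨ p 2 = p 0 + p 1 ∨ p 0 + p 1 + p 2 = 2) := by
  rw [K_closed.frontier_eq]
  constructor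
  · rintro ⟨h1, h2⟩
    refine ⟨h1, ?_⟩
    by_contra hne
    push Not at hne
    obtain ⟨a, b, c, d⟩ := h1
    exact h2 (K_interior (lt_of_le_of_ne a hne.1) (lt_of_le_of_ne b hne.2.1)
      (lt_of_le_of_ne c hne.2.2.1) (lt_of_le_of_ne d hne.2.2.2))
  · rintro ⟨h1, h2⟩
    refine ⟨h1, ?_⟩
    rcases h2 with h | h | h | h
    · apply not_interior (a := 1) (b := -1) (c := -1) (d := 0) (by norm_num)
      · intro x hx; linarith [hx.1]
      · linarith
    · apply not_interior (a := -1) (b := 1) (c := -1) (d := 0) (by norm_num)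
      · intro x hx; linarith [hx.2.1]
      · linarith
    · apply not_interior (a := -1) (b := -1) (c := 1) (d := 0) (by norm_num)
      · intro x hx; linarith [hx.2.2.1]
      · linarith
    · apply not_interior (a := 1) (b := 1) (c := 1) (d := 2) (by norm_num)
      · intro x hx; linarith [hx.2.2.2]
      · linarith

/-- The folding map takes values in the surface. -/
theorem F_mem (z : ℝ × ℝ) : F z ∈ frontier K := by
  obtain ⟨s, t⟩ := z
  obtain ⟨m, hm⟩ := exists_near s
  obtain ⟨n, hn⟩ := exists_near t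
  have hs : T s = |s - 2 * m| := T_eq hm
  have ht : T t = |t - 2 * n| := T_eq hn
  have hst : T (s + t) = T ((s - 2 * m) + (t - 2 * n)) := by
    rw [show s + t = ((s - 2 * m) + (t - 2 * n)) + 2 * ((m + n : ℤ) : ℝ) by push_cast; ring, T_add_int]
  rw [mem_frontier]
  have e0 : F (s, t) 0 = |s - 2 * m| := hs
  have e1 : F (s, t) 1 = |t - 2 * n| := ht
  have e2 : F (s, t) 2 = T ((s - 2 * m) + (t - 2 * n)) := hst
  generalize s - 2 * (m:ℝ) = a at *
  generalize t - 2 * (n:ℝ) = b at *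
  rw [abs_le] at hm hn
  -- four sign cases
  have key : (|a| ≤ |b| + T (a + b) ∧ |b| ≤ |a| + T (a + b) ∧ T (a + b) ≤ |a| + |b| ∧
      |a| + |b| + T (a + b) ≤ 2) ∧ (|a| = |b| + T (a + b) ∨ |b| = |a| + T (a + b) ∨
      T (a + b) = |a| + |b| ∨ |a| + |b| + T (a + b) = 2) := by
    rcases le_total 0 a with ha | ha <;> rcases le_total 0 b with hb | hb
    · rw [abs_of_nonneg ha, abs_of_nonneg hb]
      rcases le_total (a + b) 1 with h | h
      · rw [T_of_mem (by linarith) h]
        exact ⟨⟨by linarith, by linarith, by linarith, by linarith⟩, Or.inr (Or.inr (Or.inl rfl))⟩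
      · rw [T_of_mem2 h (by linarith [hm.2, hn.2])]
        exact ⟨⟨by linarith [hm.2, hn.2], by linarith [hm.2, hn.2], by linarith, by linarith⟩,
          Or.inr (Or.inr (Or.inr (by ring)))⟩
    · rw [abs_of_nonneg ha, abs_of_nonpos hb]
      rw [T_abs (by rw [abs_le]; constructor <;> linarith [hm.2, hn.1])]
      rcases le_total 0 (a + b) with h | h
      · rw [abs_of_nonneg h]
        exact ⟨⟨by linarith, by linarith, by linarith, by linarith [hm.2]⟩, Or.inl (by ring)⟩
      · rw [abs_of_nonpos h]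
        exact ⟨⟨by linarith, by linarith, by linarith, by linarith [hn.1]⟩, Or.inr (Or.inl (by ring))⟩
    · rw [abs_of_nonpos ha, abs_of_nonneg hb]
      rw [T_abs (by rw [abs_le]; constructor <;> linarith [hm.1, hn.2])]
      rcases le_total 0 (a + b) with h | h
      · rw [abs_of_nonneg h]
        exact ⟨⟨by linarith, by linarith, by linarith, by linarith [hn.2]⟩, Or.inr (Or.inl (by ring))⟩
      · rw [abs_of_nonpos h]
        exact ⟨⟨by linarith, by linarith, by linarith, by linarith [hm.1]⟩, Or.inl (by ring)⟩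
    · rw [abs_of_nonpos ha, abs_of_nonpos hb, ← T_neg, neg_add]
      rcases le_total (-a + -b) 1 with h | h
      · rw [T_of_mem (by linarith) h]
        exact ⟨⟨by linarith, by linarith, by linarith, by linarith⟩, Or.inr (Or.inr (Or.inl rfl))⟩
      · rw [T_of_mem2 h (by linarith [hm.1, hn.1])]
        exact ⟨⟨by linarith [hm.1, hn.1], by linarith [hm.1, hn.1], by linarith, by linarith⟩,
          Or.inr (Or.inr (Or.inr (by ring)))⟩
  obtain ⟨⟨k1, k2, k3, k4⟩, k5⟩ := key
  refine ⟨⟨?_, ?_, ?_, ?_⟩, ?_⟩ <;> rw [e0, e1, e2] <;> assumption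

theorem F_continuous : Continuous F := by
  have : F = fun z : ℝ × ℝ => (WithLp.toLp 2 ![T z.1, T z.2, T (z.1 + z.2)] : E3) := rfl
  rw [this]
  have hT := T_continuous
  fun_prop

end Pool.Agent.R763.Tet
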