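import Pool.Agent.R763.Tet1

set_option autoImplicit false
open MeasureTheory Set Filter Topology

namespace Pool.Agent.R763.Tet

/-- The unit tangent directions at `p` of the surface `∂K`. -/
def Link (K : Set E3) (p : E3) : Set E3 :=
  {u | ‖u‖ = 1 ∧ ∀ᶠ t in 𝓝[>] (0:ℝ), p + t • u ∈ frontier K}

/-- auxiliary form of the angle condition -/
def AL (K : Set E3) (p u v : E3) : Prop :=
  ∀ C ⊆ Link K p \ {u, v}, IsPreconnected C → μH[1] C ≤ ENNReal.ofReal Real.pi

/-- `u` is the direction of the folding map at `z` along `w` -/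
def Dir (z w : ℝ × ℝ) (u : E3) : Prop := ∀ᶠ h in 𝓝[>] (0:ℝ), F (z + h • w) = F z + h • u

/-- the quadratic form -/
def N (w : ℝ × ℝ) : ℝ := w.1 ^ 2 + w.2 ^ 2 + (w.1 + w.2) ^ 2

theorem norm_sq_E3 (u : E3) : ‖u‖ ^ 2 = u 0 ^ 2 + u 1 ^ 2 + u 2 ^ 2 := by
  rw [EuclideanSpace.real_norm_sq_eq, Fin.sum_univ_three]

theorem exists_dir (z w : ℝ × ℝ) : ∃ u : E3, Dir z w u ∧ ‖u‖ ^ 2 = N w := by
  obtain ⟨f1, h1, k1⟩ := T_dir z.1 w.1
  obtain ⟨f2, h2, k2⟩ := T_dir z.2 w.2
  obtain ⟨f3, h3, k3⟩ := T_dir (z.1 + z.2) (w.1 + w.2)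
  refine ⟨!₂[f1, f2, f3], ?_, ?_⟩
  · filter_upwards [k1, k2, k3] with h a b c
    ext i
    fin_cases i
    · simp [F, a]
    · simp [F, b]
    · simp [F]
      rw [← c]; ring_nf
  · rw [norm_sq_E3, N]
    have e1 : f1 ^ 2 = w.1 ^ 2 := by rw [← sq_abs, h1, sq_abs]
    have e2 : f2 ^ 2 = w.2 ^ 2 := by rw [← sq_abs, h2, sq_abs]
    have e3 : f3 ^ 2 = (w.1 + w.2) ^ 2 := by rw [← sq_abs, h3, sq_abs]
    simp [e1, e2, e3]

theorem Dir.unique {z w : ℝ × ℝ} {u v : E3} (h1 : Dir z w u) (h2 : Dir z w v) : u = v := by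
  obtain ⟨h, ⟨a, b⟩, c⟩ := ((h1.and h2).and self_mem_nhdsWithin).exists
  have hpos : (0:ℝ) < h := c
  rw [a] at b
  have : h • u = h • v := by simpa using b
  exact smul_right_injective _ hpos.ne' this

theorem Dir.mem_link {z w : ℝ × ℝ} {u : E3} (h : Dir z w u) (hu : ‖u‖ = 1) : u ∈ Link K (F z) := by
  refine ⟨hu, ?_⟩
  filter_upwards [h] with t ht
  rw [← ht]; exact F_mem _

/-- The angle condition at the folding image of `z`. -/
def Good (z : ℝ × ℝ) : Prop :=
  ∀ w : ℝ × ℝ, ∀ u v : E3, ‖u‖ = 1 → ‖v‖ = 1 → Dir z w u → Dir z (-w) v → AL K (F z) u v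

/-- transfer of the angle condition by a symmetry -/
theorem AL_transfer {L : E3 ≃ₗᵢ[ℝ] E3} {b : E3} (hK : ∀ q, L q + b ∈ frontier K ↔ q ∈ frontier K)
    {p u v : E3} (h : AL K (L p + b) (L u) (L v)) : AL K p u v := by
  intro C hC hconn
  have h1 : L '' C ⊆ Link K (L p + b) \ {L u, L v} := by
    rintro _ ⟨x, hx, rfl⟩
    obtain ⟨⟨hx1, hx2⟩, hx3⟩ := hC hx
    refine ⟨⟨by rw [L.norm_map, hx1], ?_⟩, ?_⟩
    · filter_upwards [hx2] with t ht
      rw [← hK] at ht
      convert ht using 1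
      rw [map_add, map_smul]; abel
    · simpa using hx3
  have h2 : IsPreconnected (L '' C) := hconn.image _ L.continuous.continuousOn
  have h3 := h _ h1 h2
  rwa [L.isometry.hausdorffMeasure_image (Or.inl zero_le_one)] at h3

theorem Good_transfer {L : E3 ≃ₗᵢ[ℝ] E3} {b : E3} (hK : ∀ q, L q + b ∈ frontier K ↔ q ∈ frontier K)
    {z z' : ℝ × ℝ} (e : ℝ) (hF : ∀ w : ℝ × ℝ, F (z' + w) = L (F (z + e • w)) + b)
    (he : e = 1 ∨ e = -1) (h : Good z') : Good z := by
  intro w u v hu hv hDu hDv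
  have hz : F z' = L (F z) + b := by
    have := hF 0; simpa using this
  apply AL_transfer hK
  rw [← hz]
  apply h (e • w) (L u) (L v) (by rw [L.norm_map, hu]) (by rw [L.norm_map, hv])
  · filter_upwards [hDu] with t ht
    rw [hF, hz]
    have : e • t • e • w = t • w := by
      rcases he with rfl | rfl <;> simp
    rw [this, ht, map_add, map_smul]; abel
  · filter_upwards [hDv] with t ht
    rw [hF, hz]
    have : e • t • (-(e • w)) = t • (-w) := by
      rcases he with rfl | rfl <;> simp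
    rw [this, ht, map_add, map_smul]; abel

/-- The linear part of the symmetries. -/
noncomputable def LL (a b c : ℝ) (ha : a ^ 2 = 1) (hb : b ^ 2 = 1) (hc : c ^ 2 = 1) : E3 ≃ₗᵢ[ℝ] E3 where
  toFun := fun x => !₂[a * x 0, b * x 1, c * x 2]
  invFun := fun x => !₂[a * x 0, b * x 1, c * x 2]
  left_inv := by
    intro x; ext i
    fin_cases i
    · simp; rw [← mul_assoc, ← sq, ha, one_mul]
    · simp; rw [← mul_assoc, ← sq, hb, one_mul]
    · simp; rw [← mul_assoc, ← sq, hc, one_mul]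
  right_inv := by
    intro x; ext i
    fin_cases i
    · simp; rw [← mul_assoc, ← sq, ha, one_mul]
    · simp; rw [← mul_assoc, ← sq, hb, one_mul]
    · simp; rw [← mul_assoc, ← sq, hc, one_mul]
  map_add' := by
    intro x y; ext i
    fin_cases i <;> simp <;> ring
  map_smul' := by
    intro r x; ext i
    fin_cases i <;> simp <;> ring
  norm_map' := by
    intro x
    have : ‖(!₂[a * x 0, b * x 1, c * x 2] : E3)‖ ^ 2 = ‖x‖ ^ 2 := by
      rw [norm_sq_E3, norm_sq_E3]
      simp [mul_pow, ha, hb, hc]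
    exact (sq_eq_sq₀ (norm_nonneg _) (norm_nonneg _)).1 this

theorem LL_apply (a b c : ℝ) (ha : a ^ 2 = 1) (hb : b ^ 2 = 1) (hc : c ^ 2 = 1) (x : E3) :
    LL a b c ha hb hc x = !₂[a * x 0, b * x 1, c * x 2] := rfl

noncomputable def L1 : E3 ≃ₗᵢ[ℝ] E3 := LL (-1) 1 (-1) (by norm_num) (by norm_num) (by norm_num)
noncomputable def L2 : E3 ≃ₗᵢ[ℝ] E3 := LL 1 (-1) (-1) (by norm_num) (by norm_num) (by norm_num)
noncomputable def L3 : E3 ≃ₗᵢ[ℝ] E3 := LL (-1) (-1) 1 (by norm_num) (by norm_num) (by norm_num)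

theorem R1_apply (x : E3) : L1 x + !₂[1, 0, 1] = !₂[1 - x 0, x 1, 1 - x 2] := by
  rw [L1, LL_apply]; ext i; fin_cases i <;> simp <;> ring
theorem R2_apply (x : E3) : L2 x + !₂[0, 1, 1] = !₂[x 0, 1 - x 1, 1 - x 2] := by
  rw [L2, LL_apply]; ext i; fin_cases i <;> simp <;> ring
theorem R3_apply (x : E3) : L3 x + !₂[1, 1, 0] = !₂[1 - x 0, 1 - x 1, x 2] := by
  rw [L3, LL_apply]; ext i; fin_cases i <;> simp <;> ring

theorem mem_frontier' {a b c : ℝ} : (!₂[a, b, c] : E3) ∈ frontier K ↔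
    (a ≤ b + c ∧ b ≤ a + c ∧ c ≤ a + b ∧ a + b + c ≤ 2) ∧
    (a = b + c ∨ b = a + c ∨ c = a + b ∨ a + b + c = 2) := mem_frontier

theorem R1_frontier (q : E3) : L1 q + !₂[1, 0, 1] ∈ frontier K ↔ q ∈ frontier K := by
  rw [R1_apply, mem_frontier', mem_frontier]
  constructor
  · rintro ⟨⟨a, b, c, d⟩, e⟩
    refine ⟨⟨by linarith, by linarith, by linarith, by linarith⟩, ?_⟩
    rcases e with e | e | e | e
    · right; right; left; linarith
    · right; right; right; linarith
    · left; linarith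
    · right; left; linarith
  · rintro ⟨⟨a, b, c, d⟩, e⟩
    refine ⟨⟨by linarith, by linarith, by linarith, by linarith⟩, ?_⟩
    rcases e with e | e | e | e
    · right; right; left; linarith
    · right; right; right; linarith
    · left; linarith
    · right; left; linarith

theorem R2_frontier (q : E3) : L2 q + !₂[0, 1, 1] ∈ frontier K ↔ q ∈ frontier K := by
  rw [R2_apply, mem_frontier', mem_frontier]
  constructor
  · rintro ⟨⟨a, b, c, d⟩, e⟩
    refine ⟨⟨by linarith, by linarith, by linarith, by linarith⟩, ?_⟩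
    rcases e with e | e | e | e
    · right; right; right; linarith
    · right; right; left; linarith
    · right; left; linarith
    · left; linarith
  · rintro ⟨⟨a, b, c, d⟩, e⟩
    refine ⟨⟨by linarith, by linarith, by linarith, by linarith⟩, ?_⟩
    rcases e with e | e | e | e
    · right; right; right; linarith
    · right; right; left; linarith
    · right; left; linarith
    · left; linarith

theorem R3_frontier (q : E3) : L3 q + !₂[1, 1, 0] ∈ frontier K ↔ q ∈ frontier K := by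
  rw [R3_apply, mem_frontier', mem_frontier]
  constructor
  · rintro ⟨⟨a, b, c, d⟩, e⟩
    refine ⟨⟨by linarith, by linarith, by linarith, by linarith⟩, ?_⟩
    rcases e with e | e | e | e
    · right; left; linarith
    · left; linarith
    · right; right; right; linarith
    · right; right; left; linarith
  · rintro ⟨⟨a, b, c, d⟩, e⟩
    refine ⟨⟨by linarith, by linarith, by linarith, by linarith⟩, ?_⟩
    rcases e with e | e | e | e
    · right; left; linarith
    · left; linarith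
    · right; right; right; linarith
    · right; right; left; linarith

theorem F_e1 (z : ℝ × ℝ) : F (z + (1, 0)) = L1 (F z) + !₂[1, 0, 1] := by
  rw [R1_apply, F0, F1, F2, F]
  simp only [Prod.fst_add, Prod.snd_add, add_zero, T_add_one]
  rw [show z.1 + 1 + z.2 = (z.1 + z.2) + 1 by ring, T_add_one]

theorem F_e2 (z : ℝ × ℝ) : F (z + (0, 1)) = L2 (F z) + !₂[0, 1, 1] := by
  rw [R2_apply, F0, F1, F2, F]
  simp only [Prod.fst_add, Prod.snd_add, add_zero, T_add_one]
  rw [show z.1 + (z.2 + 1) = (z.1 + z.2) + 1 by ring, T_add_one]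

theorem F_sub_e1 (z : ℝ × ℝ) : F (z - (1, 0)) = L1 (F z) + !₂[1, 0, 1] := by
  rw [R1_apply, F0, F1, F2, F]
  simp only [Prod.fst_sub, Prod.snd_sub, sub_zero, T_sub_one]
  rw [show z.1 - 1 + z.2 = (z.1 + z.2) - 1 by ring, T_sub_one]

theorem F_sub_e2 (z : ℝ × ℝ) : F (z - (0, 1)) = L2 (F z) + !₂[0, 1, 1] := by
  rw [R2_apply, F0, F1, F2, F]
  simp only [Prod.fst_sub, Prod.snd_sub, sub_zero, T_sub_one]
  rw [show z.1 + (z.2 - 1) = (z.1 + z.2) - 1 by ring, T_sub_one]

theorem F_neg (z : ℝ × ℝ) : F (-z) = F z := by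
  rw [F, F]
  simp only [Prod.fst_neg, Prod.snd_neg, T_neg]
  rw [show -z.1 + -z.2 = -(z.1 + z.2) by ring, T_neg]

theorem F_flip (z : ℝ × ℝ) : F ((1, 1) - z) = L3 (F z) + !₂[1, 1, 0] := by
  rw [R3_apply, F0, F1, F2, F]
  simp only [Prod.fst_sub, Prod.snd_sub]
  rw [show 1 - z.1 = (-z.1) + 1 by ring, show 1 - z.2 = (-z.2) + 1 by ring, T_add_one, T_add_one,
    T_neg, T_neg, show -z.1 + 1 + (-z.2 + 1) = -(z.1 + z.2) + 2 by ring, T_add_two, T_neg]

theorem Good_e1 {z : ℝ × ℝ} (h : Good z) : Good (z + (1, 0)) := by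
  apply Good_transfer R1_frontier 1 _ (Or.inl rfl) h
  intro w
  rw [one_smul, ← F_sub_e1]; congr 1; abel

theorem Good_sub_e1 {z : ℝ × ℝ} (h : Good z) : Good (z - (1, 0)) := by
  apply Good_transfer R1_frontier 1 _ (Or.inl rfl) h
  intro w
  rw [one_smul, ← F_e1]; congr 1; abel

theorem Good_e2 {z : ℝ × ℝ} (h : Good z) : Good (z + (0, 1)) := by
  apply Good_transfer R2_frontier 1 _ (Or.inl rfl) h
  intro w
  rw [one_smul, ← F_sub_e2]; congr 1; abel

theorem Good_sub_e2 {z : ℝ × ℝ} (h : Good z) : Good (z - (0, 1)) := by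
  apply Good_transfer R2_frontier 1 _ (Or.inl rfl) h
  intro w
  rw [one_smul, ← F_e2]; congr 1; abel

theorem Good_flip {z : ℝ × ℝ} (h : Good ((1, 1) - z)) : Good z := by
  apply Good_transfer R3_frontier (-1) _ (Or.inr rfl) h
  intro w
  rw [← F_flip]; congr 1
  simp only [neg_smul, one_smul]; abel

theorem Good_int1 (n : ℤ) : ∀ {z : ℝ × ℝ}, Good z → Good (z + ((n : ℝ), 0)) := by
  induction n using Int.induction_on with
  | zero => intro z h; rw [show z + (((0:ℤ):ℝ), (0:ℝ)) = z from by ext <;> simp]; exact h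
  | succ i hi =>
    intro z h
    have := Good_e1 (hi h)
    convert this using 1
    rw [add_assoc]; congr 1
    simp
  | pred i hi =>
    intro z h
    have := Good_sub_e1 (hi h)
    convert this using 1
    rw [add_sub_assoc]; congr 1
    simp

theorem Good_int2 (n : ℤ) : ∀ {z : ℝ × ℝ}, Good z → Good (z + (0, (n : ℝ))) := by
  induction n using Int.induction_on with
  | zero => intro z h; rw [show z + ((0:ℝ), ((0:ℤ):ℝ)) = z from by ext <;> simp]; exact h
  | succ i hi =>
    intro z h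
    have := Good_e2 (hi h)
    convert this using 1
    rw [add_assoc]; congr 1
    simp
  | pred i hi =>
    intro z h
    have := Good_sub_e2 (hi h)
    convert this using 1
    rw [add_sub_assoc]; congr 1
    simp

end Pool.Agent.R763.Tet
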