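import Pool.Agent.R763.Tet2

set_option autoImplicit false
open MeasureTheory Set Filter Topology

namespace Pool.Agent.R763.Tet

theorem N_decomp {w0 : ℝ × ℝ} (h0 : N w0 = 1) : ∃ w1 : ℝ × ℝ,
    (∀ α β : ℝ, N (α • w0 + β • w1) = α ^ 2 + β ^ 2) ∧
    ∀ w : ℝ × ℝ, ∃ α : ℝ, w = α • w0 + (Real.sqrt 3 * (w0.1 * w.2 - w0.2 * w.1)) • w1 := by
  obtain ⟨p, q⟩ := w0
  have h3 : Real.sqrt 3 ^ 2 = 3 := Real.sq_sqrt (by norm_num)
  have h3' : Real.sqrt 3 ≠ 0 := by positivity
  simp only [N] at h0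
  have h0' : 2 * p ^ 2 + 2 * p * q + 2 * q ^ 2 = 1 := by linarith
  set r := Real.sqrt 3 with hr
  refine ⟨(-(p + 2 * q) / r, (2 * p + q) / r), ?_, ?_⟩
  · intro α β
    simp only [N, Prod.smul_mk, smul_eq_mul, Prod.mk_add_mk]
    have e : (α * p + β * (-(p + 2 * q) / r)) ^ 2 + (α * q + β * ((2 * p + q) / r)) ^ 2 +
      (α * p + β * (-(p + 2 * q) / r) + (α * q + β * ((2 * p + q) / r))) ^ 2
      = (α ^ 2 + 3 * β ^ 2 / r ^ 2) * (2 * p ^ 2 + 2 * p * q + 2 * q ^ 2) := by
      field_simp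
      ring
    rw [e, h0', h3]
    ring
  · rintro ⟨a, b⟩
    refine ⟨2 * p * a + 2 * q * b + p * b + q * a, ?_⟩
    ext
    · simp only [Prod.fst_add, Prod.smul_fst, smul_eq_mul]
      have e : (2 * p * a + 2 * q * b + p * b + q * a) * p + r * (p * b - q * a) * (-(p + 2 * q) / r)
        = a * (2 * p ^ 2 + 2 * p * q + 2 * q ^ 2) := by
        field_simp
        ring
      rw [e, h0', mul_one]
    · simp only [Prod.snd_add, Prod.smul_snd, smul_eq_mul]
      have e : (2 * p * a + 2 * q * b + p * b + q * a) * q + r * (p * b - q * a) * ((2 * p + q) / r)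
        = b * (2 * p ^ 2 + 2 * p * q + 2 * q ^ 2) := by
        field_simp
        ring
      rw [e, h0', mul_one]

theorem half_measure {g : ℝ × ℝ → E3} (hlip : ∀ w w', ‖g w - g w'‖ ^ 2 ≤ N (w - w'))
    {w0 w1 : ℝ × ℝ} (h : ∀ α β : ℝ, N (α • w0 + β • w1) = α ^ 2 + β ^ 2) :
    μH[1] ((fun θ : ℝ => g (Real.cos θ • w0 + Real.sin θ • w1)) '' Icc 0 Real.pi) ≤
      ENNReal.ofReal Real.pi := by
  have hL : LipschitzWith 1 (fun θ : ℝ => g (Real.cos θ • w0 + Real.sin θ • w1)) := by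
    apply LipschitzWith.of_dist_le_mul
    intro x y
    rw [NNReal.coe_one, one_mul, Real.dist_eq, dist_eq_norm]
    have h1 := hlip (Real.cos x • w0 + Real.sin x • w1) (Real.cos y • w0 + Real.sin y • w1)
    have h2 : (Real.cos x • w0 + Real.sin x • w1) - (Real.cos y • w0 + Real.sin y • w1)
        = (Real.cos x - Real.cos y) • w0 + (Real.sin x - Real.sin y) • w1 := by
      rw [sub_smul, sub_smul]; abel
    rw [h2, h] at h1
    have h3 := Real.one_sub_sq_div_two_le_cos (x := x - y)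
    rw [Real.cos_sub] at h3
    have h4 : (Real.cos x - Real.cos y) ^ 2 + (Real.sin x - Real.sin y) ^ 2 ≤ |x - y| ^ 2 := by
      rw [sq_abs]
      nlinarith [Real.sin_sq_add_cos_sq x, Real.sin_sq_add_cos_sq y]
    exact (sq_le_sq₀ (norm_nonneg _) (abs_nonneg _)).1 (h1.trans h4)
  have h1 := hL.lipschitzOnWith.hausdorffMeasure_image_le (s := Icc 0 Real.pi) (d := 1) zero_le_one
  refine h1.trans ?_
  simp

theorem exists_angle {α β : ℝ} (h : α ^ 2 + β ^ 2 = 1) (hβ : 0 ≤ β) :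
    ∃ θ ∈ Icc 0 Real.pi, Real.cos θ = α ∧ Real.sin θ = β := by
  have h1 : -1 ≤ α := by nlinarith
  have h2 : α ≤ 1 := by nlinarith
  refine ⟨Real.arccos α, ⟨Real.arccos_nonneg _, Real.arccos_le_pi _⟩, Real.cos_arccos h1 h2, ?_⟩
  rw [Real.sin_arccos, show 1 - α ^ 2 = β ^ 2 by linarith, Real.sqrt_sq hβ]

theorem AL_of_param {p : E3} {g : ℝ × ℝ → E3} {P : E3 → ℝ × ℝ} (hP : Continuous P)
    (hinv : ∀ w, P (g w) = w) (hlip : ∀ w w', ‖g w - g w'‖ ^ 2 ≤ N (w - w'))
    (hlink : ∀ u ∈ Link K p, ∃ w, N w = 1 ∧ g w = u) {w0 : ℝ × ℝ} (h0 : N w0 = 1) :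
    AL K p (g w0) (g (-w0)) := by
  intro C hC hconn
  obtain ⟨w1, hw1, hdec⟩ := N_decomp h0
  have h3 : (0:ℝ) < Real.sqrt 3 := by positivity
  have hcontφ : Continuous (fun x : E3 => w0.1 * (P x).2 - w0.2 * (P x).1) := by fun_prop
  have hne : ∀ x ∈ C, w0.1 * (P x).2 - w0.2 * (P x).1 ≠ 0 := by
    intro x hx h0'
    obtain ⟨hx1, hx2⟩ := hC hx
    obtain ⟨w, hw, rfl⟩ := hlink x hx1
    rw [hinv] at h0'
    obtain ⟨α, hα⟩ := hdec w
    rw [h0', mul_zero] at hα
    have h4 : α ^ 2 = 1 := by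
      have := hw1 α 0
      rw [← hα, hw] at this; linarith
    rw [zero_smul, add_zero] at hα
    apply hx2
    have h4' : α * α = 1 := by rw [← sq]; exact h4
    rcases mul_self_eq_one_iff.1 h4' with h | h
    · left; rw [hα, h, one_smul]
    · right; rw [hα, h, neg_one_smul]; exact mem_singleton _
  have hsign : (∀ x ∈ C, 0 < w0.1 * (P x).2 - w0.2 * (P x).1) ∨
      (∀ x ∈ C, w0.1 * (P x).2 - w0.2 * (P x).1 < 0) := by
    by_contra hcon
    push Not at hcon
    obtain ⟨⟨x, hx, hx2⟩, ⟨y, hy, hy2⟩⟩ := hcon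
    obtain ⟨z, hz, hz2⟩ := hconn.intermediate_value hx hy hcontφ.continuousOn ⟨hx2, hy2⟩
    exact hne z hz hz2
  have hneg : ∀ α β : ℝ, N (α • w0 + β • (-w1)) = α ^ 2 + β ^ 2 := by
    intro α β
    rw [smul_neg, ← neg_smul, hw1]; ring
  rcases hsign with hs | hs
  · refine le_trans (measure_mono ?_) (half_measure hlip hw1)
    intro x hx
    obtain ⟨w, hw, rfl⟩ := hlink x (hC hx).1
    have h5 := hs _ hx
    rw [hinv] at h5
    obtain ⟨α, hα⟩ := hdec w
    have h6 : α ^ 2 + (Real.sqrt 3 * (w0.1 * w.2 - w0.2 * w.1)) ^ 2 = 1 := by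
      rw [← hw1, ← hα, hw]
    obtain ⟨θ, hθ, hc, hsn⟩ := exists_angle h6 (by positivity)
    refine ⟨θ, hθ, ?_⟩
    simp only [hc, hsn, ← hα]
  · refine le_trans (measure_mono ?_) (half_measure hlip hneg)
    intro x hx
    obtain ⟨w, hw, rfl⟩ := hlink x (hC hx).1
    have h5 := hs _ hx
    rw [hinv] at h5
    obtain ⟨α, hα⟩ := hdec w
    have h6 : α ^ 2 + (-(Real.sqrt 3 * (w0.1 * w.2 - w0.2 * w.1))) ^ 2 = 1 := by
      rw [neg_sq, ← hw1, ← hα, hw]
    obtain ⟨θ, hθ, hc, hsn⟩ := exists_angle h6 (by nlinarith)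
    refine ⟨θ, hθ, ?_⟩
    simp only [hc, hsn]
    rw [smul_neg, neg_smul, neg_neg, ← hα]

/-! ### local expansions -/

theorem ev_lt {a b : ℝ} (h : a < b) (c d : ℝ) : ∀ᶠ t in 𝓝[>] (0:ℝ), a + t * c < b + t * d := by
  have h1 : ContinuousAt (fun t : ℝ => a + t * c) 0 := by fun_prop
  have h2 : ContinuousAt (fun t : ℝ => b + t * d) 0 := by fun_prop
  have := h1.eventually_lt h2 (by simpa using h)
  exact this.filter_mono nhdsWithin_le_nhds

theorem T_in {s : ℝ} (h0 : 0 < s) (h1 : s < 1) (a : ℝ) :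
    ∀ᶠ t in 𝓝[>] (0:ℝ), T (s + t * a) = s + t * a := by
  filter_upwards [ev_lt h0 0 a, ev_lt h1 a 0] with t k1 k2
  exact T_of_mem (by linarith) (by linarith)

theorem T_zero (a : ℝ) : ∀ᶠ t in 𝓝[>] (0:ℝ), T (t * a) = t * |a| := by
  filter_upwards [ev_lt (show (0:ℝ) < 1 by norm_num) |a| 0, self_mem_nhdsWithin] with t k1 k2
  have k3 : (0:ℝ) < t := k2
  have e : |t * a| = t * |a| := by rw [abs_mul, abs_of_pos k3]
  rw [T_abs (by rw [e]; linarith), e]

theorem T_one (a : ℝ) : ∀ᶠ t in 𝓝[>] (0:ℝ), T (1 + t * a) = 1 - t * |a| := by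
  filter_upwards [T_zero a] with t k1
  rw [add_comm, T_add_one, k1]

theorem T_zero' : T 0 = 0 := T_of_mem le_rfl zero_le_one
theorem T_one' : T 1 = 1 := T_of_mem zero_le_one le_rfl

theorem Good_of_param {z : ℝ × ℝ} {g : ℝ × ℝ → E3} {P : E3 → ℝ × ℝ} (hP : Continuous P)
    (hinv : ∀ w, P (g w) = w) (hlip : ∀ w w', ‖g w - g w'‖ ^ 2 ≤ N (w - w'))
    (hnorm : ∀ w, ‖g w‖ ^ 2 = N w) (hdir : ∀ w, Dir z w (g w))
    (hlink : ∀ u ∈ Link K (F z), ∃ w, g w = u) : Good z := by
  intro w u v hu hv hDu hDv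
  have e1 := hDu.unique (hdir w)
  have e2 := hDv.unique (hdir (-w))
  have hN : N w = 1 := by rw [← hnorm, ← e1, hu]; norm_num
  rw [e1, e2]
  apply AL_of_param hP hinv hlip _ hN
  intro u' hu'
  obtain ⟨w', hw'⟩ := hlink u' hu'
  refine ⟨w', ?_, hw'⟩
  rw [← hnorm, hw', hu'.1]; norm_num

theorem Good_a {s t : ℝ} (hs : 0 < s) (ht : 0 < t) (hst : s + t < 1) : Good (s, t) := by
  apply Good_of_param (g := fun w => !₂[w.1, w.2, w.1 + w.2]) (P := fun x => (x 0, x 1))
  · fun_prop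
  · intro w; rfl
  · intro w w'
    rw [norm_sq_E3, N]; simp
    apply le_of_eq; ring
  · intro w
    rw [norm_sq_E3, N]; simp
  · intro w
    filter_upwards [T_in hs (by linarith) w.1, T_in ht (by linarith) w.2,
      T_in (show 0 < s + t by linarith) hst (w.1 + w.2)] with h k1 k2 k3
    ext i
    fin_cases i
    · simp [F, k1, T_of_mem hs.le (by linarith)]
    · simp [F, k2, T_of_mem ht.le (by linarith)]
    · simp [F, T_of_mem (show 0 ≤ s + t by linarith) (by linarith)]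
      rw [← k3]; ring_nf
  · rintro u ⟨hu1, hu2⟩
    have hF : F (s, t) = !₂[s, t, s + t] := by
      rw [F]; simp only
      rw [T_of_mem hs.le (by linarith), T_of_mem ht.le (by linarith), T_of_mem (by linarith) hst.le]
    rw [hF] at hu2
    obtain ⟨h, ⟨⟨⟨⟨k1, k2⟩, k3⟩, k4⟩, k5⟩⟩ := ((((hu2.and (ev_lt (show s < t + (s + t) by linarith) (u 0) (u 1 + u 2))).and
      (ev_lt (show t < s + (s + t) by linarith) (u 1) (u 0 + u 2))).and
      (ev_lt (show s + t + (s + t) < 2 by linarith) (u 0 + u 1 + u 2) 0)).and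
      self_mem_nhdsWithin).exists
    have k6 : (0:ℝ) < h := k5
    rw [mem_frontier] at k1
    simp at k1
    obtain ⟨⟨c1, c2, c3, c4⟩, c5⟩ := k1
    have e : u 2 = u 0 + u 1 := by
      rcases c5 with c | c | c | c
      · exfalso; linarith
      · exfalso; linarith
      · have : h * (u 2 - (u 0 + u 1)) = 0 := by linarith
        rcases mul_eq_zero.1 this with h' | h' <;> linarith
      · exfalso; linarith
    refine ⟨(u 0, u 1), ?_⟩
    ext i
    fin_cases i
    · rfl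
    · rfl
    · simp [e]

theorem abs_sub_abs_sq (a b : ℝ) : (|a| - |b|) ^ 2 ≤ (a - b) ^ 2 := by
  have := abs_abs_sub_abs_le_abs_sub a b
  exact sq_le_sq.2 this

theorem Good_b {t : ℝ} (ht : 0 < t) (ht1 : t < 1) : Good (0, t) := by
  apply Good_of_param (g := fun w => !₂[|w.1|, w.2, w.1 + w.2]) (P := fun x => (x 2 - x 1, x 1))
  · fun_prop
  · intro w; ext <;> simp
  · intro w w'
    rw [norm_sq_E3, N]; simp
    have := abs_sub_abs_sq w.1 w'.1
    have e : (w.1 + w.2 - (w'.1 + w'.2)) ^ 2 = (w.1 - w'.1 + (w.2 - w'.2)) ^ 2 := by ring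
    linarith
  · intro w
    rw [norm_sq_E3, N]; simp
  · intro w
    filter_upwards [T_zero w.1, T_in ht ht1 w.2, T_in ht ht1 (w.1 + w.2)] with h k1 k2 k3
    ext i
    fin_cases i
    · simp [F, k1, T_zero']
    · simp [F, k2, T_of_mem ht.le ht1.le]
    · simp [F, T_of_mem ht.le ht1.le]
      rw [← k3]; ring_nf
  · rintro u ⟨hu1, hu2⟩
    have hF : F (0, t) = !₂[0, t, t] := by
      rw [F]; simp only
      rw [zero_add, T_zero', T_of_mem ht.le (by linarith)]
    rw [hF] at hu2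
    obtain ⟨h, ⟨⟨⟨k1, k2⟩, k4⟩, k5⟩⟩ := (((hu2.and (ev_lt (show 0 < t + t by linarith) (u 0) (u 1 + u 2))).and
      (ev_lt (show t + t < 2 by linarith) (u 0 + u 1 + u 2) 0)).and
      self_mem_nhdsWithin).exists
    have k6 : (0:ℝ) < h := k5
    rw [mem_frontier] at k1
    simp at k1
    obtain ⟨⟨c1, c2, c3, c4⟩, c5⟩ := k1
    simp at c1 c2 c3 c4
    have d2 : u 1 ≤ u 0 + u 2 := by
      by_contra hcon; push Not at hcon; nlinarith
    have d3 : u 2 ≤ u 0 + u 1 := by
      by_contra hcon; push Not at hcon; nlinarith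
    have e : u 1 = u 0 + u 2 ∨ u 2 = u 0 + u 1 := by
      rcases c5 with c | c | c | c
      · exfalso; linarith
      · left
        have : h * (u 1 - (u 0 + u 2)) = 0 := by linarith
        rcases mul_eq_zero.1 this with h' | h' <;> linarith
      · right
        have : h * (u 2 - (u 0 + u 1)) = 0 := by linarith
        rcases mul_eq_zero.1 this with h' | h' <;> linarith
      · exfalso; linarith
    have hu0 : 0 ≤ u 0 := by rcases e with e | e <;> linarith
    rcases e with e | e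
    · refine ⟨(-u 0, u 1), ?_⟩
      ext i
      fin_cases i
      · simp [abs_of_nonneg hu0]
      · rfl
      · simp; linarith
    · refine ⟨(u 0, u 1), ?_⟩
      ext i
      fin_cases i
      · simp [abs_of_nonneg hu0]
      · rfl
      · simp [e]

theorem Good_c {s : ℝ} (hs : 0 < s) (hs1 : s < 1) : Good (s, 0) := by
  apply Good_of_param (g := fun w => !₂[w.1, |w.2|, w.1 + w.2]) (P := fun x => (x 0, x 2 - x 0))
  · fun_prop
  · intro w; ext <;> simp
  · intro w w'
    rw [norm_sq_E3, N]; simp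
    have := abs_sub_abs_sq w.2 w'.2
    have e : (w.1 + w.2 - (w'.1 + w'.2)) ^ 2 = (w.1 - w'.1 + (w.2 - w'.2)) ^ 2 := by ring
    linarith
  · intro w
    rw [norm_sq_E3, N]; simp
  · intro w
    filter_upwards [T_in hs hs1 w.1, T_zero w.2, T_in hs hs1 (w.1 + w.2)] with h k1 k2 k3
    ext i
    fin_cases i
    · simp [F, k1, T_of_mem hs.le hs1.le]
    · simp [F, k2, T_zero']
    · simp [F, T_of_mem hs.le hs1.le]
      rw [← k3]; ring_nf
  · rintro u ⟨hu1, hu2⟩
    have hF : F (s, 0) = !₂[s, 0, s] := by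
      rw [F]; simp only
      rw [add_zero, T_zero', T_of_mem hs.le (by linarith)]
    rw [hF] at hu2
    obtain ⟨h, ⟨⟨⟨k1, k2⟩, k4⟩, k5⟩⟩ := (((hu2.and (ev_lt (show 0 < s + s by linarith) (u 1) (u 0 + u 2))).and
      (ev_lt (show s + s < 2 by linarith) (u 0 + u 1 + u 2) 0)).and
      self_mem_nhdsWithin).exists
    have k6 : (0:ℝ) < h := k5
    rw [mem_frontier] at k1
    simp at k1
    obtain ⟨⟨c1, c2, c3, c4⟩, c5⟩ := k1
    simp at c1 c2 c3 c4
    have d2 : u 0 ≤ u 1 + u 2 := by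
      by_contra hcon; push Not at hcon; nlinarith
    have d3 : u 2 ≤ u 0 + u 1 := by
      by_contra hcon; push Not at hcon; nlinarith
    have e : u 0 = u 1 + u 2 ∨ u 2 = u 0 + u 1 := by
      rcases c5 with c | c | c | c
      · left
        have : h * (u 0 - (u 1 + u 2)) = 0 := by linarith
        rcases mul_eq_zero.1 this with h' | h' <;> linarith
      · exfalso; linarith
      · right
        have : h * (u 2 - (u 0 + u 1)) = 0 := by linarith
        rcases mul_eq_zero.1 this with h' | h' <;> linarith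
      · exfalso; linarith
    have hu0 : 0 ≤ u 1 := by rcases e with e | e <;> linarith
    rcases e with e | e
    · refine ⟨(u 0, -u 1), ?_⟩
      ext i
      fin_cases i
      · rfl
      · simp [abs_of_nonneg hu0]
      · simp; linarith
    · refine ⟨(u 0, u 1), ?_⟩
      ext i
      fin_cases i
      · rfl
      · simp [abs_of_nonneg hu0]
      · simp [e]

theorem Good_d {s t : ℝ} (hs : 0 < s) (ht : 0 < t) (hst : s + t = 1) : Good (s, t) := by
  apply Good_of_param (g := fun w => !₂[w.1, w.2, -|w.1 + w.2|]) (P := fun x => (x 0, x 1))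
  · fun_prop
  · intro w; rfl
  · intro w w'
    rw [norm_sq_E3, N]; simp
    have h1 := abs_sub_abs_sq (w.1 + w.2) (w'.1 + w'.2)
    have e : (w.1 + w.2 - (w'.1 + w'.2)) ^ 2 = (w.1 - w'.1 + (w.2 - w'.2)) ^ 2 := by ring
    have e2 : (-|w.1 + w.2| + |w'.1 + w'.2|) ^ 2 = (|w.1 + w.2| - |w'.1 + w'.2|) ^ 2 := by ring
    linarith
  · intro w
    rw [norm_sq_E3, N]; simp
  · intro w
    filter_upwards [T_in hs (by linarith) w.1, T_in ht (by linarith) w.2,
      T_one (w.1 + w.2)] with h k1 k2 k3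
    ext i
    fin_cases i
    · simp [F, k1, T_of_mem hs.le (by linarith)]
    · simp [F, k2, T_of_mem ht.le (by linarith)]
    · simp [F, hst, T_one']
      rw [show s + h * w.1 + (t + h * w.2) = 1 + h * (w.1 + w.2) by linear_combination hst, k3]; ring
  · rintro u ⟨hu1, hu2⟩
    have hF : F (s, t) = !₂[s, t, 1] := by
      rw [F]; simp only
      rw [T_of_mem hs.le (by linarith), T_of_mem ht.le (by linarith), hst, T_one']
    rw [hF] at hu2
    obtain ⟨h, ⟨⟨⟨k1, k2⟩, k3⟩, k5⟩⟩ := (((hu2.and (ev_lt (show s < t + 1 by linarith) (u 0) (u 1 + u 2))).and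
      (ev_lt (show t < s + 1 by linarith) (u 1) (u 0 + u 2))).and
      self_mem_nhdsWithin).exists
    have k6 : (0:ℝ) < h := k5
    rw [mem_frontier] at k1
    simp at k1
    obtain ⟨⟨c1, c2, c3, c4⟩, c5⟩ := k1
    simp at c1 c2 c3 c4
    have d2 : u 2 ≤ u 0 + u 1 := by
      by_contra hcon; push Not at hcon; nlinarith
    have d3 : u 0 + u 1 + u 2 ≤ 0 := by
      by_contra hcon; push Not at hcon; nlinarith
    have e : u 2 = u 0 + u 1 ∨ u 2 = -(u 0 + u 1) := by
      rcases c5 with c | c | c | c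
      · exfalso; linarith
      · exfalso; linarith
      · left
        have : h * (u 2 - (u 0 + u 1)) = 0 := by linarith
        rcases mul_eq_zero.1 this with h' | h' <;> linarith
      · right
        have : h * (u 0 + u 1 + u 2) = 0 := by linarith
        rcases mul_eq_zero.1 this with h' | h' <;> linarith
    have e2 : u 2 = -|u 0 + u 1| := by
      rcases e with e | e
      · rw [abs_of_nonpos (by linarith)]; linarith
      · rw [abs_of_nonneg (by linarith)]; linarith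
    refine ⟨(u 0, u 1), ?_⟩
    ext i
    fin_cases i
    · rfl
    · rfl
    · simp [e2]

/-- At every non-lattice point the angle condition holds. -/
theorem Good_all {z : ℝ × ℝ} (h : ¬ ∃ m n : ℤ, z = ((m : ℝ), (n : ℝ))) : Good z := by
  obtain ⟨s, t⟩ := z
  have hz : ((s, t) : ℝ × ℝ) = (Int.fract s, Int.fract t) + ((⌊s⌋ : ℝ), 0) + (0, (⌊t⌋ : ℝ)) := by
    ext
    · simp
    · simp
  rw [hz]
  apply Good_int2
  apply Good_int1
  have h1 := Int.fract_nonneg s
  have h2 := Int.fract_lt_one s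
  have h3 := Int.fract_nonneg t
  have h4 := Int.fract_lt_one t
  have h5 : ¬ (Int.fract s = 0 ∧ Int.fract t = 0) := by
    rintro ⟨a, b⟩
    apply h
    refine ⟨⌊s⌋, ⌊t⌋, ?_⟩
    rw [Int.fract] at a b
    ext <;> simp <;> linarith
  generalize Int.fract s = a at *
  generalize Int.fract t = b at *
  rcases le_or_gt (a + b) 1 with h6 | h6
  · rcases eq_or_lt_of_le h1 with h7 | h7
    · subst h7
      rcases eq_or_lt_of_le h3 with h8 | h8
      · exact absurd ⟨rfl, h8.symm⟩ h5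
      · exact Good_b h8 h4
    · rcases eq_or_lt_of_le h3 with h8 | h8
      · subst h8
        exact Good_c h7 h2
      · rcases eq_or_lt_of_le h6 with h9 | h9
        · exact Good_d h7 h8 h9
        · exact Good_a h7 h8 h9
  · apply Good_flip
    have : ((1, 1) : ℝ × ℝ) - (a, b) = (1 - a, 1 - b) := by ext <;> simp
    rw [this]
    exact Good_a (by linarith) (by linarith) (by linarith)

/-- at the vertex `0` the total angle is at most `π` -/
theorem AL_zero (u v : E3) : AL K 0 u v := by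
  intro C hC _
  have h0 : N (1 / Real.sqrt 2, 0) = 1 := by
    have : Real.sqrt 2 ^ 2 = 2 := Real.sq_sqrt (by norm_num)
    rw [N]; simp only
    have h2 : Real.sqrt 2 ≠ 0 := by positivity
    field_simp
    rw [this]; norm_num
  obtain ⟨w1, hw1, hdec⟩ := N_decomp h0
  set g : ℝ × ℝ → E3 := fun w => !₂[|w.1|, |w.2|, |w.1 + w.2|] with hg
  have hgneg : ∀ w, g (-w) = g w := by
    intro w
    simp only [hg, Prod.fst_neg, Prod.snd_neg, abs_neg]
    rw [show -w.1 + -w.2 = -(w.1 + w.2) by ring, abs_neg]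
  have hlip : ∀ w w', ‖g w - g w'‖ ^ 2 ≤ N (w - w') := by
    intro w w'
    rw [norm_sq_E3, N]; simp [hg]
    have h1 := abs_sub_abs_sq w.1 w'.1
    have h2 := abs_sub_abs_sq w.2 w'.2
    have h3 := abs_sub_abs_sq (w.1 + w.2) (w'.1 + w'.2)
    have e : (w.1 + w.2 - (w'.1 + w'.2)) ^ 2 = (w.1 - w'.1 + (w.2 - w'.2)) ^ 2 := by ring
    linarith
  refine le_trans (measure_mono ?_) (half_measure hlip hw1)
  intro x hx
  obtain ⟨⟨hx1, hx2⟩, -⟩ := hC hx
  obtain ⟨h, ⟨⟨k1, k4⟩, k5⟩⟩ := ((hx2.and 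
      (ev_lt (show (0:ℝ) < 2 by linarith) (x 0 + x 1 + x 2) 0)).and
      self_mem_nhdsWithin).exists
  have k6 : (0:ℝ) < h := k5
  rw [mem_frontier] at k1
  simp at k1
  obtain ⟨⟨c1, c2, c3, c4⟩, c5⟩ := k1
  simp at c1 c2 c3 c4
  have d1 : x 0 ≤ x 1 + x 2 := by
    by_contra hcon; push Not at hcon; nlinarith
  have d2 : x 1 ≤ x 0 + x 2 := by
    by_contra hcon; push Not at hcon; nlinarith
  have d3 : x 2 ≤ x 0 + x 1 := by
    by_contra hcon; push Not at hcon; nlinarith
  have e : x 0 = x 1 + x 2 ∨ x 1 = x 0 + x 2 ∨ x 2 = x 0 + x 1 := by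
    rcases c5 with c | c | c | c
    · left
      have : h * (x 0 - (x 1 + x 2)) = 0 := by linarith
      rcases mul_eq_zero.1 this with h' | h' <;> linarith
    · right; left
      have : h * (x 1 - (x 0 + x 2)) = 0 := by linarith
      rcases mul_eq_zero.1 this with h' | h' <;> linarith
    · right; right
      have : h * (x 2 - (x 0 + x 1)) = 0 := by linarith
      rcases mul_eq_zero.1 this with h' | h' <;> linarith
    · exfalso; linarith
  have hw : ∃ w, g w = x := by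
    have hx0 : 0 ≤ x 0 := by linarith
    have hx1 : 0 ≤ x 1 := by linarith
    rcases e with e | e | e
    · refine ⟨(-x 0, x 1), ?_⟩
      ext i
      fin_cases i
      · simp [hg, abs_of_nonneg hx0]
      · simp [hg, abs_of_nonneg hx1]
      · simp [hg]; rw [abs_of_nonpos (by linarith)]; linarith
    · refine ⟨(-x 0, x 1), ?_⟩
      ext i
      fin_cases i
      · simp [hg, abs_of_nonneg hx0]
      · simp [hg, abs_of_nonneg hx1]
      · simp [hg]; rw [abs_of_nonneg (by linarith)]; linarith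
    · refine ⟨(x 0, x 1), ?_⟩
      ext i
      fin_cases i
      · simp [hg, abs_of_nonneg hx0]
      · simp [hg, abs_of_nonneg hx1]
      · simp [hg]; rw [abs_of_nonneg (by linarith)]; linarith
  obtain ⟨w, hw⟩ := hw
  have hNw : N w = 1 := by
    have : ‖g w‖ ^ 2 = N w := by
      rw [norm_sq_E3, N]; simp [hg]
    rw [← this, hw, hx1]; norm_num
  obtain ⟨α, hα⟩ := hdec w
  set β := Real.sqrt 3 * ((1 / Real.sqrt 2, (0:ℝ)).1 * w.2 - (1 / Real.sqrt 2, (0:ℝ)).2 * w.1) with hβ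
  have h6 : α ^ 2 + β ^ 2 = 1 := by
    rw [← hw1, ← hα, hNw]
  rcases le_total 0 β with hb | hb
  · obtain ⟨θ, hθ, hc, hsn⟩ := exists_angle h6 hb
    refine ⟨θ, hθ, ?_⟩
    simp only [hc, hsn, ← hα, hw]
  · obtain ⟨θ, hθ, hc, hsn⟩ := exists_angle (α := -α) (β := -β) (by linarith [neg_sq α, neg_sq β]) (by linarith)
    refine ⟨θ, hθ, ?_⟩
    simp only [hc, hsn]
    rw [show (-α) • ((1 / Real.sqrt 2, (0:ℝ)) : ℝ × ℝ) + (-β) • w1 = -(α • (1 / Real.sqrt 2, (0:ℝ)) + β • w1) by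
      rw [neg_smul, neg_smul]; abel, ← hα, hgneg, hw]

end Pool.Agent.R763.Tet
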