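import Pool.Agent.R763.Tet3

set_option autoImplicit false
open MeasureTheory Set Filter Topology

namespace Pool.Agent.R763.Tet

/-- local structure with the angle condition -/
def QA (Γ : Set E3) (p : E3) : Prop :=
  ∃ u ∈ Link K p, ∃ v ∈ Link K p, u ≠ v ∧
    (∀ᶠ q in 𝓝 p, q ∈ Γ ↔ ∃ t : ℝ, 0 ≤ t ∧ (q = p + t • u ∨ q = p + t • v)) ∧ AL K p u v

theorem QA_transfer {Γ : Set E3} {L : E3 ≃ₗᵢ[ℝ] E3} {b : E3}
    (hK : ∀ q, L q + b ∈ frontier K ↔ q ∈ frontier K)
    (hΓ : ∀ q, L q + b ∈ Γ ↔ q ∈ Γ) {p : E3} (h : QA Γ (L p + b)) : QA Γ p := by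
  obtain ⟨u, hu, v, hv, huv, hloc, hAL⟩ := h
  have hlink : ∀ x, x ∈ Link K (L p + b) → L.symm x ∈ Link K p := by
    rintro x ⟨hx1, hx2⟩
    refine ⟨by rw [L.symm.norm_map, hx1], ?_⟩
    filter_upwards [hx2] with t ht
    rw [← hK]
    convert ht using 1
    rw [map_add, map_smul, L.apply_symm_apply]; abel
  refine ⟨L.symm u, hlink u hu, L.symm v, hlink v hv, fun h => huv (L.symm.injective h), ?_, ?_⟩
  · have hcont : Tendsto (fun q => L q + b) (𝓝 p) (𝓝 (L p + b)) :=
      (L.continuous.add continuous_const).tendsto p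
    filter_upwards [hcont.eventually hloc] with q hq
    rw [← hΓ, hq]
    have key : ∀ (t : ℝ) (x : E3), L q + b = L p + b + t • x ↔ q = p + t • L.symm x := by
      intro t x
      constructor
      · intro h
        apply L.injective
        rw [map_add, map_smul, L.apply_symm_apply]
        have h1 : L q + b = (L p + t • x) + b := by rw [h]; abel
        exact add_right_cancel h1
      · intro h
        rw [h, map_add, map_smul, L.apply_symm_apply]; abel
    simp only [key]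
  · apply AL_transfer hK
    rwa [L.apply_symm_apply, L.apply_symm_apply]

/-- the curves -/
def Gam (m : ℕ) : Set E3 := {q | ∃ X Y : ℝ, 0 ≤ X ∧ X ≤ 1 ∧ 0 ≤ Y ∧ Y ≤ 1 ∧
  (X = 0 ∨ X = 1 ∨ Y = 0 ∨ Y = 1) ∧ q = F (2 * m * Y + X, Y)}

theorem F_period (s t : ℝ) (i j : ℤ) : F (s + 2 * i, t + 2 * j) = F (s, t) := by
  rw [F, F]; simp only
  rw [T_add_int, T_add_int, show s + 2 * (i:ℝ) + (t + 2 * j) = s + t + 2 * ((i + j : ℤ) : ℝ) by push_cast; ring,
    T_add_int]

theorem R1_Gam {m : ℕ} {q : E3} (h : q ∈ Gam m) : L1 q + !₂[1, 0, 1] ∈ Gam m := by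
  obtain ⟨X, Y, hX0, hX1, hY0, hY1, hXY, rfl⟩ := h
  rcases hXY with h | h | h | h
  · rw [← F_e1]
    refine ⟨1, Y, by norm_num, le_rfl, hY0, hY1, by norm_num, ?_⟩
    rw [h]; congr 1; ext <;> simp
  · rw [← F_sub_e1]
    refine ⟨0, Y, le_rfl, by norm_num, hY0, hY1, by norm_num, ?_⟩
    rw [h]; congr 1; ext <;> simp
  · rw [← F_sub_e1]
    refine ⟨1 - X, 0, by linarith, by linarith, le_rfl, by norm_num, by norm_num, ?_⟩
    rw [h, ← F_neg]; congr 1; ext <;> simp
  · rw [← F_e1, ← F_neg]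
    refine ⟨1 - X, 1, by linarith, by linarith, by norm_num, le_rfl, by norm_num, ?_⟩
    rw [h, ← F_period _ _ (2 * m + 1) 1]; congr 1; ext <;> simp <;> ring

theorem R2_Gam {m : ℕ} {q : E3} (h : q ∈ Gam m) : L2 q + !₂[0, 1, 1] ∈ Gam m := by
  obtain ⟨X, Y, hX0, hX1, hY0, hY1, hXY, rfl⟩ := h
  rcases hXY with h | h | h | h
  · rw [← F_sub_e2, ← F_neg]
    refine ⟨0, 1 - Y, le_rfl, by norm_num, by linarith, by linarith, by norm_num, ?_⟩
    rw [h, ← F_period _ _ m 0]; congr 1; ext <;> simp <;> ring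
  · rw [← F_sub_e2, ← F_neg]
    refine ⟨1, 1 - Y, by norm_num, le_rfl, by linarith, by linarith, by norm_num, ?_⟩
    rw [h, ← F_period _ _ (m + 1) 0]; congr 1; ext <;> simp <;> ring
  · rw [← F_e2]
    refine ⟨X, 1, hX0, hX1, by norm_num, le_rfl, by norm_num, ?_⟩
    rw [h, ← F_period _ _ m 0]; congr 1; ext <;> simp; ring
  · rw [← F_sub_e2]
    refine ⟨X, 0, hX0, hX1, le_rfl, by norm_num, by norm_num, ?_⟩
    rw [h, ← F_period (2 * m * 0 + X) _ m 0]; congr 1; ext <;> simp; ring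

theorem R1_R1 (q : E3) : L1 (L1 q + !₂[1, 0, 1]) + !₂[1, 0, 1] = q := by
  rw [R1_apply, R1_apply]; ext i; fin_cases i <;> simp

theorem R2_R2 (q : E3) : L2 (L2 q + !₂[0, 1, 1]) + !₂[0, 1, 1] = q := by
  rw [R2_apply, R2_apply]; ext i; fin_cases i <;> simp

theorem R1_Gam_iff {m : ℕ} (q : E3) : L1 q + !₂[1, 0, 1] ∈ Gam m ↔ q ∈ Gam m := by
  refine ⟨fun h => ?_, R1_Gam⟩
  have := R1_Gam h
  rwa [R1_R1] at this

theorem R2_Gam_iff {m : ℕ} (q : E3) : L2 q + !₂[0, 1, 1] ∈ Gam m ↔ q ∈ Gam m := by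
  refine ⟨fun h => ?_, R2_Gam⟩
  have := R2_Gam h
  rwa [R2_R2] at this

theorem QA_R1 {m : ℕ} {p : E3} (h : QA (Gam m) p) : QA (Gam m) (L1 p + !₂[1, 0, 1]) := by
  apply QA_transfer R1_frontier R1_Gam_iff
  rwa [R1_R1]

theorem QA_R2 {m : ℕ} {p : E3} (h : QA (Gam m) p) : QA (Gam m) (L2 p + !₂[0, 1, 1]) := by
  apply QA_transfer R2_frontier R2_Gam_iff
  rwa [R2_R2]

theorem T_half {x : ℝ} (h : T x = 1 / 2) : ∃ n : ℤ, x = n + 1 / 2 := by
  obtain ⟨m, hm⟩ := exists_near x
  rw [T_eq hm] at h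
  rcases abs_choice (x - 2 * m) with h1 | h1
  · refine ⟨2 * m, ?_⟩
    push_cast; linarith
  · refine ⟨2 * m - 1, ?_⟩
    push_cast; linarith

/-- the two strands are disjoint in the interior -/
theorem strands {m : ℕ} {t : ℝ} (h0 : 0 < t) (h1 : t < 1) :
    F (2 * m * t, t) ≠ F (2 * m * t + 1, t) := by
  intro h
  have e0 : T (2 * m * t) = T (2 * m * t + 1) := congrArg (fun q : E3 => q 0) h
  have e2 : T (2 * m * t + t) = T (2 * m * t + 1 + t) := congrArg (fun q : E3 => q 2) h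
  rw [T_add_one] at e0
  rw [show 2 * m * t + 1 + t = (2 * m * t + t) + 1 by ring, T_add_one] at e2
  obtain ⟨n1, hn1⟩ := T_half (x := 2 * m * t) (by linarith)
  obtain ⟨n2, hn2⟩ := T_half (x := 2 * m * t + t) (by linarith)
  have e : t = ((n2 - n1 : ℤ) : ℝ) := by push_cast; linarith
  rw [e] at h0 h1
  have h0' : 0 < n2 - n1 := by exact_mod_cast h0
  have h1' : n2 - n1 < 1 := by exact_mod_cast h1
  omega

theorem dir_ball {z w : ℝ × ℝ} {u : E3} (h : Dir z w u) :
    ∃ δ > 0, ∀ t : ℝ, 0 ≤ t → t < δ → F (z + t • w) = F z + t • u := by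
  obtain ⟨δ, hδ, hsub⟩ := mem_nhdsGT_iff_exists_Ioo_subset.1 h
  refine ⟨δ, hδ, ?_⟩
  intro t ht0 htδ
  rcases eq_or_lt_of_le ht0 with h0 | h0
  · rw [← h0]; simp
  · exact hsub ⟨h0, htδ⟩

theorem isClosed_strand (a c : ℝ) : IsClosed {q : E3 | q = F (a * q 1 + c, q 1)} := by
  apply isClosed_eq continuous_id
  exact F_continuous.comp (by fun_prop)

/-- points in the interior of a strand -/
theorem QA_strand (m : ℕ) {t0 : ℝ} (h0 : 0 < t0) (h1 : t0 < 1) : QA (Gam m) (F (2 * m * t0, t0)) := by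
  set M : ℝ := Real.sqrt (N (2 * m, 1)) with hM
  have hN : 1 ≤ N (2 * (m:ℝ), 1) := by rw [N]; simp only; nlinarith [sq_nonneg (2 * (m:ℝ)), sq_nonneg (2 * (m:ℝ) + 1)]
  have hM2 : M ^ 2 = N (2 * (m:ℝ), 1) := Real.sq_sqrt (by linarith)
  have hM1 : 1 ≤ M := by
    rw [hM]; exact Real.one_le_sqrt.2 hN
  have hM0 : 0 < M := by linarith
  set z : ℝ × ℝ := (2 * m * t0, t0) with hz
  set w : ℝ × ℝ := (2 * m / M, 1 / M) with hw
  have hNw : N w = 1 := by
    rw [N] at hM2 ⊢
    simp only [hw] at hM2 ⊢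
    field_simp
    linarith
  have hNw' : N (-w) = 1 := by
    rw [← hNw, N, N]; simp only [Prod.fst_neg, Prod.snd_neg]; ring
  obtain ⟨u, hDu, hu⟩ := exists_dir z w
  obtain ⟨v, hDv, hv⟩ := exists_dir z (-w)
  have hu1 : ‖u‖ = 1 := by
    rw [hNw] at hu; exact (pow_eq_one_iff_of_nonneg (norm_nonneg _) two_ne_zero).1 hu
  have hv1 : ‖v‖ = 1 := by
    rw [hNw'] at hv; exact (pow_eq_one_iff_of_nonneg (norm_nonneg _) two_ne_zero).1 hv
  have hgood : Good z := by
    apply Good_all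
    rintro ⟨i, j, hij⟩
    have e : t0 = (j : ℝ) := congrArg Prod.snd hij
    rw [e] at h0 h1
    have h0' : 0 < j := by exact_mod_cast h0
    have h1' : j < 1 := by exact_mod_cast h1
    omega
  obtain ⟨δ1, hδ1, hball1⟩ := dir_ball hDu
  obtain ⟨δ2, hδ2, hball2⟩ := dir_ball hDv
  have hw1 : w.1 = 2 * m * (1 / M) := by simp [hw]; ring
  have hw2 : w.2 = 1 / M := rfl
  have hF1 : F z 1 = t0 := by rw [F1]; exact T_of_mem h0.le h1.le
  -- the middle coordinate
  have hcoord : ∀ t : ℝ, 0 ≤ t0 + t * (1 / M) → t0 + t * (1 / M) ≤ 1 →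
      F (z + t • w) = F (2 * m * (t0 + t * (1 / M)), t0 + t * (1 / M)) := by
    intro t _ _
    congr 1
    ext
    · simp only [hz, Prod.fst_add, Prod.smul_fst, smul_eq_mul, hw1]; ring
    · simp only [hz, Prod.snd_add, Prod.smul_snd, smul_eq_mul, hw2]
  set ε := min (min δ1 δ2) (min t0 (1 - t0)) with hε
  have hεpos : 0 < ε := lt_min (lt_min hδ1 hδ2) (lt_min h0 (by linarith))
  have hε1 : ε ≤ δ1 := (min_le_left _ _).trans (min_le_left _ _)
  have hε2 : ε ≤ δ2 := (min_le_left _ _).trans (min_le_right _ _)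
  have hε3 : ε ≤ t0 := (min_le_right _ _).trans (min_le_left _ _)
  have hε4 : ε ≤ 1 - t0 := (min_le_right _ _).trans (min_le_right _ _)
  have hiM : 0 < 1 / M := by positivity
  have hiM1 : 1 / M ≤ 1 := by rw [div_le_one hM0]; exact hM1
  refine ⟨u, hDu.mem_link hu1, v, hDv.mem_link hv1, ?_, ?_, hgood w u v hu1 hv1 hDu hDv⟩
  · intro huv
    have e1 := hball1 (ε / 2) (by linarith) (by linarith)
    have e2 := hball2 (ε / 2) (by linarith) (by linarith)
    rw [← huv, ← e1] at e2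
    have e3 : T (t0 + ε / 2 * (-(1 / M))) = T (t0 + ε / 2 * (1 / M)) := by
      have := congrArg (fun q : E3 => q 1) e2
      simp only [F1, Prod.snd_add, Prod.smul_snd, smul_eq_mul, Prod.snd_neg, hw2] at this
      exact this
    have k1 : ε / 2 * (1 / M) ≤ ε / 2 := by nlinarith
    have k2 : 0 < ε / 2 * (1 / M) := by positivity
    rw [T_of_mem (by linarith) (by linarith), T_of_mem (by linarith) (by linarith)] at e3
    linarith
  · -- local structure
    have hB : ∀ᶠ q in 𝓝 (F z), ¬ (q = F (2 * m * q 1 + 1, q 1)) := by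
      have hopen : IsOpen {q : E3 | q = F (2 * m * q 1 + 1, q 1)}ᶜ :=
        (isClosed_strand (2 * m) 1).isOpen_compl
      apply hopen.mem_nhds
      show ¬ (F z = F (2 * m * (F z 1) + 1, F z 1))
      rw [hF1]
      exact strands h0 h1
    have hc1 : Tendsto (fun q : E3 => q 1) (𝓝 (F z)) (𝓝 t0) := by
      have : Continuous (fun q : E3 => q 1) := by fun_prop
      have h := this.tendsto (F z)
      rwa [hF1] at h
    have hq1 : ∀ᶠ q in 𝓝 (F z), |q 1 - t0| < ε / M := by
      have := hc1.eventually (Metric.ball_mem_nhds t0 (show 0 < ε / M by positivity))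
      filter_upwards [this] with q hq
      simpa [Real.dist_eq] using hq
    have hball : ∀ᶠ q in 𝓝 (F z), ‖q - F z‖ < ε := by
      filter_upwards [Metric.ball_mem_nhds (F z) hεpos] with q hq
      rwa [Metric.mem_ball, dist_eq_norm] at hq
    filter_upwards [hB, hq1, hball] with q hqB hq1 hqball
    have hεM : ε / M ≤ ε := div_le_self hεpos.le hM1
    constructor
    · rintro ⟨X, Y, hX0, hX1, hY0, hY1, hXY, rfl⟩
      have hY : F (2 * m * Y + X, Y) 1 = Y := T_of_mem hY0 hY1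
      rw [hY] at hq1
      rw [hY] at hqB
      rw [abs_lt] at hq1
      have hXY' : X = 0 := by
        rcases hXY with h | h | h | h
        · exact h
        · exfalso; apply hqB; rw [h]
        · exfalso; linarith
        · exfalso; linarith
      rw [hXY', add_zero]
      rcases le_total t0 Y with hle | hle
      · refine ⟨M * (Y - t0), mul_nonneg hM0.le (by linarith), Or.inl ?_⟩
        have e : t0 + M * (Y - t0) * (1 / M) = Y := by field_simp; ring
        rw [← hball1 (M * (Y - t0)) (mul_nonneg hM0.le (by linarith))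
          (by have := mul_lt_mul_of_pos_left hq1.2 hM0; rw [mul_div_cancel₀ _ hM0.ne'] at this; linarith),
          hcoord _ (by rw [e]; exact hY0) (by rw [e]; exact hY1), e]
      · refine ⟨M * (t0 - Y), mul_nonneg hM0.le (by linarith), Or.inr ?_⟩
        have e : t0 + (-(M * (t0 - Y))) * (1 / M) = Y := by field_simp; ring
        rw [← hball2 (M * (t0 - Y)) (mul_nonneg hM0.le (by linarith))
          (by have := mul_lt_mul_of_pos_left (show t0 - Y < ε / M by linarith [hq1.1]) hM0; rw [mul_div_cancel₀ _ hM0.ne'] at this; linarith),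
          smul_neg, ← neg_smul, hcoord _ (by rw [e]; exact hY0) (by rw [e]; exact hY1), e]
    · rintro ⟨t, ht, hor⟩
      have key : ∀ x : E3, ‖x‖ = 1 → q = F z + t • x → t < ε := by
        intro x hx hq
        rw [hq, add_sub_cancel_left, norm_smul, hx, mul_one, Real.norm_eq_abs, abs_of_nonneg ht] at hqball
        exact hqball
      rcases hor with hq | hq
      · have htε := key u hu1 hq
        have k1 : t * (1 / M) ≤ t := by nlinarith
        have k2 : 0 ≤ t * (1 / M) := by positivity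
        rw [← hball1 t ht (by linarith), hcoord t (by linarith) (by linarith)] at hq
        exact ⟨0, t0 + t * (1 / M), le_rfl, by norm_num, by linarith, by linarith, Or.inl rfl, by rw [hq, add_zero]⟩
      · have htε := key v hv1 hq
        have k1 : t * (1 / M) ≤ t := by nlinarith
        have k2 : 0 ≤ t * (1 / M) := by positivity
        rw [← hball2 t ht (by linarith), smul_neg, ← neg_smul, hcoord (-t) (by linarith) (by linarith)] at hq
        exact ⟨0, t0 + (-t) * (1 / M), le_rfl, by norm_num, by linarith, by linarith, Or.inl rfl, by rw [hq, add_zero]⟩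

end Pool.Agent.R763.Tet
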