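import Pool.Agent.R763.Tet4

set_option autoImplicit false
open MeasureTheory Set Filter Topology

namespace Pool.Agent.R763.Tet

theorem F_edge {x : ℝ} (h0 : 0 ≤ x) (h1 : x ≤ 1) : F (x, 0) = !₂[x, 0, x] := by
  rw [F]; simp only [add_zero]
  rw [T_of_mem h0 h1, T_zero']

theorem norm_e (r : ℝ) (hr : 0 < r) (a b c : ℝ) (h : a ^ 2 + b ^ 2 + c ^ 2 = r ^ 2) :
    ‖(!₂[a / r, b / r, c / r] : E3)‖ = 1 := by
  have : ‖(!₂[a / r, b / r, c / r] : E3)‖ ^ 2 = 1 := by
    rw [norm_sq_E3]
    simp only [Matrix.cons_val_zero, Matrix.cons_val_one, Matrix.cons_val]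
    rw [div_pow, div_pow, div_pow, ← add_div, ← add_div, h, div_self (by positivity)]
  exact (pow_eq_one_iff_of_nonneg (norm_nonneg _) two_ne_zero).1 this

/-- interior points of the bottom edge -/
theorem QA_edge (m : ℕ) {x : ℝ} (h0 : 0 < x) (h1 : x < 1) : QA (Gam m) (F (x, 0)) := by
  have hr : 0 < Real.sqrt 2 := by positivity
  have hr2 : Real.sqrt 2 ^ 2 = 2 := Real.sq_sqrt (by norm_num)
  set r := Real.sqrt 2 with hrdef
  set u : E3 := !₂[1 / r, 0 / r, 1 / r] with hu
  set v : E3 := !₂[(-1) / r, 0 / r, (-1) / r] with hv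
  have hu1 : ‖u‖ = 1 := norm_e r hr _ _ _ (by rw [hr2]; norm_num)
  have hv1 : ‖v‖ = 1 := norm_e r hr _ _ _ (by rw [hr2]; norm_num)
  have hDu : Dir (x, 0) (1 / r, 0) u := by
    filter_upwards [T_in h0 h1 (1 / r)] with h k1
    rw [one_div] at k1
    ext i
    fin_cases i
    · simp [F, hu, T_of_mem h0.le h1.le]
      exact k1
    · simp [F, hu, T_zero']
    · simp [F, hu, T_of_mem h0.le h1.le]
      exact k1
  have hDv : Dir (x, 0) (-(1 / r, 0)) v := by
    filter_upwards [T_in h0 h1 (-(1 / r))] with h k1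
    have e : (-1) / r = -(1 / r) := by ring
    ext i
    fin_cases i
    · simp [F, hv, T_of_mem h0.le h1.le]
      rw [e, ← k1]; simp
    · simp [F, hv, T_zero']
    · simp [F, hv, T_of_mem h0.le h1.le]
      rw [e, ← k1]; simp
  have hgood : Good (x, 0) := by
    apply Good_all
    rintro ⟨i, j, hij⟩
    have e : x = (i : ℝ) := congrArg Prod.fst hij
    rw [e] at h0 h1
    have h0' : 0 < i := by exact_mod_cast h0
    have h1' : i < 1 := by exact_mod_cast h1
    omega
  refine ⟨u, hDu.mem_link hu1, v, hDv.mem_link hv1, ?_, ?_, hgood _ u v hu1 hv1 hDu hDv⟩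
  · intro huv
    have := congrArg (fun q : E3 => q 0) huv
    simp [hu, hv] at this
    have h3 : 0 < r⁻¹ := by positivity
    rw [neg_div, one_div] at this
    linarith
  · have hFx : F (x, 0) = !₂[x, 0, x] := F_edge h0.le h1.le
    have hF1 : F (x, 0) 1 = 0 := by rw [hFx]; rfl
    have hF0 : F (x, 0) 0 = x := by rw [hFx]; rfl
    have hA : ∀ᶠ q in 𝓝 (F (x, 0)), ¬ (q = F (2 * m * q 1 + 0, q 1)) := by
      have hopen : IsOpen {q : E3 | q = F (2 * m * q 1 + 0, q 1)}ᶜ :=
        (isClosed_strand (2 * m) 0).isOpen_compl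
      apply hopen.mem_nhds
      show ¬ (F (x, 0) = F (2 * m * (F (x, 0) 1) + 0, F (x, 0) 1))
      rw [hF1, mul_zero, zero_add]
      intro h
      have : x = T 0 := by
        have := congrArg (fun q : E3 => q 0) h
        simp only [hF0] at this
        exact this
      rw [T_zero'] at this
      linarith
    have hB : ∀ᶠ q in 𝓝 (F (x, 0)), ¬ (q = F (2 * m * q 1 + 1, q 1)) := by
      have hopen : IsOpen {q : E3 | q = F (2 * m * q 1 + 1, q 1)}ᶜ :=
        (isClosed_strand (2 * m) 1).isOpen_compl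
      apply hopen.mem_nhds
      show ¬ (F (x, 0) = F (2 * m * (F (x, 0) 1) + 1, F (x, 0) 1))
      rw [hF1, mul_zero, zero_add]
      intro h
      have : x = T 1 := by
        have := congrArg (fun q : E3 => q 0) h
        simp only [hF0] at this
        exact this
      rw [T_one'] at this
      linarith
    have c0 : Continuous (fun q : E3 => q 0) := by fun_prop
    have c1 : Continuous (fun q : E3 => q 1) := by fun_prop
    have hq1 : ∀ᶠ q in 𝓝 (F (x, 0)), q 1 < 1 := by
      apply (c1.tendsto (F (x, 0))).eventually (gt_mem_nhds _)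
      rw [hF1]; norm_num
    have hq0 : ∀ᶠ q in 𝓝 (F (x, 0)), 0 < q 0 := by
      apply (c0.tendsto (F (x, 0))).eventually (lt_mem_nhds _)
      rw [hF0]; exact h0
    have hq0' : ∀ᶠ q in 𝓝 (F (x, 0)), q 0 < 1 := by
      apply (c0.tendsto (F (x, 0))).eventually (gt_mem_nhds _)
      rw [hF0]; exact h1
    filter_upwards [hA, hB, hq1, hq0, hq0'] with q hA hB hq1 hq0 hq0'
    constructor
    · rintro ⟨X, Y, hX0, hX1, hY0, hY1, hXY, rfl⟩
      have hY : F (2 * m * Y + X, Y) 1 = Y := T_of_mem hY0 hY1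
      rw [hY] at hA hB hq1
      rcases hXY with h | h | h | h
      · exfalso; apply hA; rw [h]
      · exfalso; apply hB; rw [h]
      · rw [h, mul_zero, zero_add, F_edge hX0 hX1, hFx]
        rcases le_total x X with hle | hle
        · refine ⟨(X - x) * r, mul_nonneg (by linarith) hr.le, Or.inl ?_⟩
          ext i
          fin_cases i
          · simp [hu]; field_simp; ring
          · simp [hu]
          · simp [hu]; field_simp; ring
        · refine ⟨(x - X) * r, mul_nonneg (by linarith) hr.le, Or.inr ?_⟩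
          ext i
          fin_cases i
          · simp [hv]; field_simp; ring
          · simp [hv]
          · simp [hv]; field_simp; ring
      · exfalso; linarith
    · rintro ⟨t, ht, hor⟩
      have hqform : q = !₂[q 0, 0, q 0] := by
        rcases hor with hq | hq
        · rw [hq, hFx]
          ext i
          fin_cases i <;> simp [hu]
        · rw [hq, hFx]
          ext i
          fin_cases i <;> simp [hv]
      refine ⟨q 0, 0, hq0.le, hq0'.le, le_rfl, by norm_num, by norm_num, ?_⟩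
      rw [mul_zero, zero_add, F_edge hq0.le hq0'.le]
      exact hqform

theorem F_zero : F (0, 0) = 0 := by
  rw [F_edge le_rfl zero_le_one]
  ext i
  fin_cases i <;> simp

theorem F_start {m : ℕ} {Y : ℝ} (h0 : 0 ≤ Y) (h1 : (2 * m + 1) * Y ≤ 1) :
    F (2 * m * Y, Y) = !₂[2 * m * Y, Y, (2 * m + 1) * Y] := by
  have hm : (0:ℝ) ≤ m := Nat.cast_nonneg m
  have h2 : 0 ≤ 2 * m * Y := by positivity
  rw [F]; simp only
  rw [T_of_mem h2 (by nlinarith), T_of_mem h0 (by nlinarith), T_of_mem (by nlinarith) (by nlinarith)]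
  congr 1; congr 1; ring_nf

/-- the direction of the strand at the vertex `0` -/
noncomputable def MM (m : ℕ) : ℝ := Real.sqrt ((2 * m) ^ 2 + 1 ^ 2 + (2 * m + 1) ^ 2)
theorem MM_sq (m : ℕ) : ((2 * m : ℝ)) ^ 2 + 1 ^ 2 + (2 * m + 1) ^ 2 = MM m ^ 2 := by
  rw [MM, Real.sq_sqrt (by positivity)]
theorem MM_pos (m : ℕ) : 0 < MM m := by rw [MM]; positivity
theorem MM_ge (m : ℕ) : 1 ≤ MM m := by
  rw [MM]; apply Real.one_le_sqrt.2
  nlinarith [sq_nonneg (2 * (m:ℝ)), sq_nonneg (2 * (m:ℝ) + 1)]

noncomputable def UU (m : ℕ) : E3 := !₂[2 * m / MM m, 1 / MM m, (2 * m + 1) / MM m]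
noncomputable def VV : E3 := !₂[1 / Real.sqrt 2, 0 / Real.sqrt 2, 1 / Real.sqrt 2]

theorem UU_norm (m : ℕ) : ‖UU m‖ = 1 := norm_e _ (MM_pos m) _ _ _ (MM_sq m)
theorem VV_norm : ‖VV‖ = 1 := norm_e _ (by positivity) _ _ _ (by rw [Real.sq_sqrt (by norm_num)]; norm_num)

/-- near the vertex `0` -/
theorem local_zero (m : ℕ) : ∀ᶠ q in 𝓝 (0 : E3),
    q ∈ Gam m ↔ ∃ t : ℝ, 0 ≤ t ∧ (q = 0 + t • UU m ∨ q = 0 + t • VV) := by
  have hm : (0:ℝ) ≤ m := Nat.cast_nonneg m
  have hM := MM_pos m
  have hM1 := MM_ge m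
  have hB : ∀ᶠ q in 𝓝 (0 : E3), ¬ (q = F (2 * m * q 1 + 1, q 1)) := by
    have hopen : IsOpen {q : E3 | q = F (2 * m * q 1 + 1, q 1)}ᶜ :=
      (isClosed_strand (2 * m) 1).isOpen_compl
    apply hopen.mem_nhds
    show ¬ ((0 : E3) = F (2 * m * ((0 : E3) 1) + 1, (0 : E3) 1))
    intro h
    have := congrArg (fun q : E3 => q 0) h
    simp [F, T_one'] at this
  have c1 : Continuous (fun q : E3 => q 1) := by fun_prop
  have hq1 : ∀ᶠ q in 𝓝 (0 : E3), q 1 < 1 / (2 * (m:ℝ) + 1) := by
    apply (c1.tendsto (0 : E3)).eventually (gt_mem_nhds _)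
    simp; positivity
  have hball : ∀ᶠ q in 𝓝 (0 : E3), ‖q‖ < 1 / (2 * (m:ℝ) + 1) := by
    filter_upwards [Metric.ball_mem_nhds (0 : E3) (show (0:ℝ) < 1 / (2 * m + 1) by positivity)] with q hq
    rwa [mem_ball_zero_iff] at hq
  have hle1 : 1 / (2 * (m:ℝ) + 1) ≤ 1 := by
    rw [div_le_one (by positivity)]; linarith
  have hr : 0 < Real.sqrt 2 := by positivity
  have hr1 : 1 ≤ Real.sqrt 2 := Real.one_le_sqrt.2 (by norm_num)
  filter_upwards [hB, hq1, hball] with q hB hq1 hball
  constructor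
  · rintro ⟨X, Y, hX0, hX1, hY0, hY1, hXY, rfl⟩
    have hY : F (2 * m * Y + X, Y) 1 = Y := T_of_mem hY0 hY1
    rw [hY] at hB hq1
    rcases hXY with h | h | h | h
    · refine ⟨Y * MM m, mul_nonneg hY0 hM.le, Or.inl ?_⟩
      rw [lt_div_iff₀ (by positivity)] at hq1
      rw [h, add_zero, F_start hY0 (by linarith)]
      ext i
      fin_cases i
      · simp [UU]; field_simp
      · simp [UU]; field_simp
      · simp [UU]; field_simp
    · exfalso; apply hB; rw [h]
    · refine ⟨X * Real.sqrt 2, mul_nonneg hX0 hr.le, Or.inr ?_⟩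
      rw [h, mul_zero, zero_add, F_edge hX0 hX1]
      ext i
      fin_cases i
      · simp [VV]
      · simp [VV]
      · simp [VV]
    · exfalso; linarith
  · rintro ⟨t, ht, hor⟩
    have key : ∀ x : E3, ‖x‖ = 1 → q = 0 + t • x → t < 1 / (2 * m + 1) := by
      intro x hx hq
      rw [hq, zero_add, norm_smul, hx, mul_one, Real.norm_eq_abs, abs_of_nonneg ht] at hball
      exact hball
    rcases hor with hq | hq
    · have ht1 := key _ (UU_norm m) hq
      have h2 : t / MM m ≤ t := div_le_self ht hM1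
      have h3 : t / MM m < 1 / (2 * m + 1) := by linarith
      rw [lt_div_iff₀ (by positivity)] at h3
      have h4 : 0 ≤ t / MM m := by positivity
      refine ⟨0, t / MM m, le_rfl, by norm_num, h4, by linarith, Or.inl rfl, ?_⟩
      rw [add_zero, F_start h4 (by linarith), hq]
      ext i
      fin_cases i
      · simp [UU]; ring
      · simp [UU]; ring
      · simp [UU]; ring
    · have ht1 := key _ VV_norm hq
      have h2 : t / Real.sqrt 2 ≤ t := div_le_self ht hr1
      have h4 : 0 ≤ t / Real.sqrt 2 := by positivity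
      refine ⟨t / Real.sqrt 2, 0, h4, by linarith, le_rfl, by norm_num, by norm_num, ?_⟩
      rw [mul_zero, zero_add, F_edge h4 (by linarith), hq]
      ext i
      fin_cases i
      · simp [VV]; ring
      · simp [VV]
      · simp [VV]; ring

theorem UU_link (m : ℕ) : UU m ∈ Link K 0 := by
  refine ⟨UU_norm m, ?_⟩
  have hM := MM_pos m
  have hm : (0:ℝ) ≤ m := Nat.cast_nonneg m
  filter_upwards [ev_lt (show (0:ℝ) < 1 by norm_num) ((2 * m + 1) / MM m) 0, self_mem_nhdsWithin] with t h1 h2
  have h3 : (0:ℝ) < t := h2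
  have e : (0 : E3) + t • UU m = F (2 * m * (t / MM m), t / MM m) := by
    rw [F_start (by positivity) (by
      have : (2 * m + 1) * (t / MM m) = t * ((2 * m + 1) / MM m) := by ring
      rw [this]; linarith)]
    ext i
    fin_cases i
    · simp [UU]; ring
    · simp [UU]; ring
    · simp [UU]; ring
  rw [e]; exact F_mem _

theorem VV_link : VV ∈ Link K 0 := by
  refine ⟨VV_norm, ?_⟩
  have hr : 0 < Real.sqrt 2 := by positivity
  filter_upwards [ev_lt (show (0:ℝ) < 1 by norm_num) (1 / Real.sqrt 2) 0, self_mem_nhdsWithin] with t h1 h2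
  have h3 : (0:ℝ) < t := h2
  have e : (0 : E3) + t • VV = F (t / Real.sqrt 2, 0) := by
    rw [F_edge (by positivity) (by
      have : t / Real.sqrt 2 = t * (1 / Real.sqrt 2) := by ring
      rw [this]; linarith)]
    ext i
    fin_cases i
    · simp [VV]; ring
    · simp [VV]
    · simp [VV]; ring
  rw [e]; exact F_mem _

theorem QA_zero (m : ℕ) : QA (Gam m) 0 := by
  refine ⟨UU m, UU_link m, VV, VV_link, ?_, local_zero m, AL_zero _ _⟩
  intro h
  have := congrArg (fun q : E3 => q 1) h
  simp [UU, VV] at this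
  exact (MM_pos m).ne' this

/-- every point of the curve is fine -/
theorem QA_all (m : ℕ) {p : E3} (hp : p ∈ Gam m) : QA (Gam m) p := by
  obtain ⟨X, Y, hX0, hX1, hY0, hY1, hXY, rfl⟩ := hp
  have h00 : QA (Gam m) (F (0, 0)) := by rw [F_zero]; exact QA_zero m
  have h10 : QA (Gam m) (F (1, 0)) := by
    have := QA_R1 h00
    rw [← F_e1] at this
    convert this using 2
    ext <;> simp
  have hedge : ∀ X : ℝ, 0 ≤ X → X ≤ 1 → QA (Gam m) (F (X, 0)) := by
    intro X hX0 hX1
    rcases eq_or_lt_of_le hX0 with h | h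
    · rw [← h]; exact h00
    · rcases eq_or_lt_of_le hX1 with h' | h'
      · rw [h']; exact h10
      · exact QA_edge m h h'
  have hstrand : ∀ Y : ℝ, 0 ≤ Y → Y ≤ 1 → QA (Gam m) (F (2 * m * Y, Y)) := by
    intro Y hY0 hY1
    rcases eq_or_lt_of_le hY0 with h | h
    · rw [← h, mul_zero]; exact h00
    · rcases eq_or_lt_of_le hY1 with h' | h'
      · have := QA_R2 h00
        rw [← F_e2] at this
        rw [h', mul_one]
        have e : F (2 * m, 1) = F ((0, 0) + (0, 1)) := by
          have := F_period 0 1 m 0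
          simp at this
          rw [this]; congr 1; ext <;> simp
        rw [e]; exact this
      · exact QA_strand m h h'
  rcases hXY with h | h | h | h
  · rw [h, add_zero]; exact hstrand Y hY0 hY1
  · rw [h]
    have := QA_R1 (hstrand Y hY0 hY1)
    rw [← F_e1] at this
    convert this using 2
    ext <;> simp
  · rw [h, mul_zero, zero_add]; exact hedge X hX0 hX1
  · rw [h, mul_one]
    have := QA_R2 (hedge X hX0 hX1)
    rw [← F_e2] at this
    have e : F (2 * m + X, 1) = F ((X, 0) + (0, 1)) := by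
      have := F_period X 1 m 0
      simp at this
      rw [add_comm, this]; congr 1; ext <;> simp
    rw [e]; exact this

end Pool.Agent.R763.Tet
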